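import Pool.Agent.Work.MP_a8fbd7_nt.PAR.LC.Stmts

set_option autoImplicit false

open Finset

noncomputable section

namespace Pool.Agent.Work.MP_a8fbd7_nt.PAR.LC.I_Asm

theorem sum_key (A T : Finset ℕ) (u : ℕ → ℝ) (E : ℕ → ℕ → ℝ) (G : ℕ → ℕ → ℕ → ℝ) (δ B B2 SA ST m : ℝ)
    (hSA : SA = ∑ q ∈ A, u q) (hST : ST = ∑ t ∈ T, u t) (hm : m = ∑ q ∈ A, ∑ t ∈ T, E q t)
    (hu : ∀ q, 0 ≤ u q)
    (hG : ∀ q ∈ A, ∀ t ∈ T, ∑ t' ∈ T, G q t t' ≤ δ) :
    ∑ q ∈ A, ∑ t ∈ T, ∑ q' ∈ A, ∑ t' ∈ T,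
      (E q t * E q' t' + δ * (u q * u t * (u q' * u t')) +
        (if t' = t then B * (u q * u t * u q') else 0) +
        (if q' = q then B * (u q * u t * u t') else 0) +
        (if q' = q then u q * u t * G q t t' else 0) +
        (if q' = q then (if t' = t then B2 * (u q * u t) else 0) else 0)) ≤
    m ^ 2 + δ * SA ^ 2 * ST ^ 2 + B * SA ^ 2 * ST + B * SA * ST ^ 2 + δ * SA * ST + B2 * SA * ST := by
  classical
  simp only [Finset.sum_add_distrib]
  have h1 : ∑ q ∈ A, ∑ t ∈ T, ∑ q' ∈ A, ∑ t' ∈ T, E q t * E q' t' = m ^ 2 := by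
    rw [sq, hm, Finset.sum_mul]
    refine Finset.sum_congr rfl fun q _ => ?_
    rw [Finset.sum_mul]
    refine Finset.sum_congr rfl fun t _ => ?_
    rw [Finset.mul_sum]
    refine Finset.sum_congr rfl fun q' _ => ?_
    rw [Finset.mul_sum]
  have h2 : ∑ q ∈ A, ∑ t ∈ T, ∑ q' ∈ A, ∑ t' ∈ T, δ * (u q * u t * (u q' * u t')) = δ * SA ^ 2 * ST ^ 2 := by
    have e1 : ∀ q t, ∑ q' ∈ A, ∑ t' ∈ T, δ * (u q * u t * (u q' * u t')) = δ * SA * ST * (u q * u t) := by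
      intro q t
      have : ∀ q', ∑ t' ∈ T, δ * (u q * u t * (u q' * u t')) = δ * (u q * u t) * ST * u q' := by
        intro q'
        rw [hST, Finset.mul_sum, Finset.sum_mul]
        refine Finset.sum_congr rfl fun t' _ => by ring
      simp only [this]
      rw [← Finset.mul_sum, ← hSA]
      ring
    simp only [e1]
    have e2 : ∀ q, ∑ t ∈ T, δ * SA * ST * (u q * u t) = δ * SA * ST ^ 2 * u q := by
      intro q
      rw [← Finset.mul_sum, ← Finset.mul_sum, ← hST]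
      ring
    simp only [e2]
    rw [← Finset.mul_sum, ← hSA]
    ring
  have h3 : ∑ q ∈ A, ∑ t ∈ T, ∑ q' ∈ A, ∑ t' ∈ T, (if t' = t then B * (u q * u t * u q') else 0) = B * SA ^ 2 * ST := by
    have e1 : ∀ q, ∀ t ∈ T, ∑ q' ∈ A, ∑ t' ∈ T, (if t' = t then B * (u q * u t * u q') else 0) = B * SA * (u q * u t) := by
      intro q t ht
      have : ∀ q', ∑ t' ∈ T, (if t' = t then B * (u q * u t * u q') else 0) = B * (u q * u t) * u q' := by
        intro q'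
        rw [Finset.sum_ite_eq' T t, if_pos ht]
        ring
      simp only [this]
      rw [← Finset.mul_sum, ← hSA]
      ring
    have e2 : ∀ q, ∑ t ∈ T, ∑ q' ∈ A, ∑ t' ∈ T, (if t' = t then B * (u q * u t * u q') else 0) = B * SA * ST * u q := by
      intro q
      rw [Finset.sum_congr rfl (fun t ht => e1 q t ht), ← Finset.mul_sum, ← Finset.mul_sum, ← hST]
      ring
    simp only [e2]
    rw [← Finset.mul_sum, ← hSA]
    ring
  have h4 : ∑ q ∈ A, ∑ t ∈ T, ∑ q' ∈ A, ∑ t' ∈ T, (if q' = q then B * (u q * u t * u t') else 0) = B * SA * ST ^ 2 := by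
    have e1 : ∀ q ∈ A, ∀ t, ∑ q' ∈ A, ∑ t' ∈ T, (if q' = q then B * (u q * u t * u t') else 0) = B * ST * (u q * u t) := by
      intro q hq t
      have : ∀ q', ∑ t' ∈ T, (if q' = q then B * (u q * u t * u t') else 0) = if q' = q then B * ST * (u q * u t) else 0 := by
        intro q'
        split_ifs with h
        · rw [hST, Finset.mul_sum, Finset.sum_mul]
          refine Finset.sum_congr rfl fun t' _ => by ring
        · simp
      simp only [this]
      rw [Finset.sum_ite_eq' A q, if_pos hq]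
    have e2 : ∀ q ∈ A, ∑ t ∈ T, ∑ q' ∈ A, ∑ t' ∈ T, (if q' = q then B * (u q * u t * u t') else 0) = B * ST ^ 2 * u q := by
      intro q hq
      rw [Finset.sum_congr rfl (fun t _ => e1 q hq t), ← Finset.mul_sum, ← Finset.mul_sum, ← hST]
      ring
    rw [Finset.sum_congr rfl e2, ← Finset.mul_sum, ← hSA]
    ring
  have h5 : ∑ q ∈ A, ∑ t ∈ T, ∑ q' ∈ A, ∑ t' ∈ T, (if q' = q then u q * u t * G q t t' else 0) ≤ δ * SA * ST := by
    have e1 : ∀ q ∈ A, ∀ t ∈ T, ∑ q' ∈ A, ∑ t' ∈ T, (if q' = q then u q * u t * G q t t' else 0) ≤ δ * (u q * u t) := by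
      intro q hq t ht
      have : ∀ q', ∑ t' ∈ T, (if q' = q then u q * u t * G q t t' else 0) =
          if q' = q then u q * u t * ∑ t' ∈ T, G q t t' else 0 := by
        intro q'
        split_ifs with h
        · rw [Finset.mul_sum]
        · simp
      simp only [this]
      rw [Finset.sum_ite_eq' A q, if_pos hq, mul_comm δ]
      exact mul_le_mul_of_nonneg_left (hG q hq t ht) (mul_nonneg (hu q) (hu t))
    calc _ ≤ ∑ q ∈ A, ∑ t ∈ T, δ * (u q * u t) :=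
          Finset.sum_le_sum fun q hq => Finset.sum_le_sum fun t ht => e1 q hq t ht
      _ = δ * SA * ST := by
          have e2 : ∀ q, ∑ t ∈ T, δ * (u q * u t) = δ * ST * u q := by
            intro q
            rw [← Finset.mul_sum, ← Finset.mul_sum, ← hST]
            ring
          simp only [e2]
          rw [← Finset.mul_sum, ← hSA]
          ring
  have h6 : ∑ q ∈ A, ∑ t ∈ T, ∑ q' ∈ A, ∑ t' ∈ T, (if q' = q then (if t' = t then B2 * (u q * u t) else 0) else 0) =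
      B2 * SA * ST := by
    have e1 : ∀ q ∈ A, ∀ t ∈ T, ∑ q' ∈ A, ∑ t' ∈ T, (if q' = q then (if t' = t then B2 * (u q * u t) else 0) else 0) =
        B2 * (u q * u t) := by
      intro q hq t ht
      have : ∀ q', ∑ t' ∈ T, (if q' = q then (if t' = t then B2 * (u q * u t) else 0) else 0) =
          if q' = q then B2 * (u q * u t) else 0 := by
        intro q'
        split_ifs with h
        · rw [Finset.sum_ite_eq' T t, if_pos ht]
        · simp
      simp only [this]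
      rw [Finset.sum_ite_eq' A q, if_pos hq]
    calc _ = ∑ q ∈ A, ∑ t ∈ T, B2 * (u q * u t) :=
          Finset.sum_congr rfl fun q hq => Finset.sum_congr rfl fun t ht => e1 q hq t ht
      _ = B2 * SA * ST := by
          have e2 : ∀ q, ∑ t ∈ T, B2 * (u q * u t) = B2 * ST * u q := by
            intro q
            rw [← Finset.mul_sum, ← Finset.mul_sum, ← hST]
            ring
          simp only [e2]
          rw [← Finset.mul_sum, ← hSA]
          ring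
  rw [h1, h2, h3, h4, h6]
  linarith

theorem fin_ineq (e e' δ κ K SA ST m B B2 : ℝ) (he : 0 < e) (he' : 0 < e') (hδ0 : 0 ≤ δ)
    (hδ : δ ≤ κ * e ^ 2 / 8) (hδ1 : δ ≤ 1) (hκ : 0 < κ) (hK : 1 ≤ K)
    (hK2 : 16 * (e' + 1) ^ 2 / (κ * e ^ 2) ≤ K) (hSA : K ≤ SA) (hST : K ≤ ST) (hm : e * SA * ST ≤ m)
    (hB : B = e' ^ 2 + 1) (hB2 : B2 = e' ^ 2 + e' + 2) :
    m ^ 2 + δ * SA ^ 2 * ST ^ 2 + B * SA ^ 2 * ST + B * SA * ST ^ 2 + δ * SA * ST + B2 * SA * ST ≤
      (1 + κ) * m ^ 2 := by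
  have hSA1 : 1 ≤ SA := hK.trans hSA
  have hST1 : 1 ≤ ST := hK.trans hST
  obtain ⟨D, hD⟩ : ∃ D, D = (e' + 1) ^ 2 := ⟨_, rfl⟩
  have hD1 : 1 ≤ D := by
    rw [hD]
    nlinarith
  have hκe : 0 < κ * e ^ 2 := by positivity
  have hDK : 16 * D ≤ K * (κ * e ^ 2) := by
    rw [div_le_iff₀ hκe] at hK2
    rw [hD]
    exact hK2
  have hBD : B ≤ D := by
    rw [hB, hD]
    nlinarith
  have hB2D : B2 ≤ 2 * D := by
    rw [hB2, hD]
    nlinarith
  have hB0 : 0 ≤ B := by rw [hB]; positivity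
  have hSA0 : 0 < SA := by linarith
  have hST0 : 0 < ST := by linarith
  obtain ⟨Q, hQd⟩ : ∃ Q, Q = (e * SA * ST) ^ 2 := ⟨_, rfl⟩
  have hQ : Q ≤ m ^ 2 := by
    have : 0 ≤ e * SA * ST := by positivity
    rw [hQd]
    exact pow_le_pow_left₀ this hm 2
  have hQe : Q = e ^ 2 * (SA ^ 2 * ST ^ 2) := by
    rw [hQd]
    ring
  have hSS : 0 < SA ^ 2 * ST ^ 2 := by positivity
  have t1 : δ * SA ^ 2 * ST ^ 2 ≤ κ / 8 * Q := by
    have : δ * (SA ^ 2 * ST ^ 2) ≤ (κ * e ^ 2 / 8) * (SA ^ 2 * ST ^ 2) :=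
      mul_le_mul_of_nonneg_right hδ hSS.le
    rw [hQe]
    calc δ * SA ^ 2 * ST ^ 2 = δ * (SA ^ 2 * ST ^ 2) := by ring
      _ ≤ _ := this
      _ = _ := by ring
  have hDST : ∀ S : ℝ, K ≤ S → D ≤ κ * e ^ 2 / 16 * S := by
    intro S hS
    have : K * (κ * e ^ 2) ≤ S * (κ * e ^ 2) := mul_le_mul_of_nonneg_right hS hκe.le
    linarith
  have t2 : B * SA ^ 2 * ST ≤ κ / 16 * Q := by
    have h := hDST ST hST
    calc B * SA ^ 2 * ST ≤ (κ * e ^ 2 / 16 * ST) * SA ^ 2 * ST := by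
          have : B ≤ κ * e ^ 2 / 16 * ST := hBD.trans h
          gcongr
      _ = κ / 16 * Q := by rw [hQe]; ring
  have t3 : B * SA * ST ^ 2 ≤ κ / 16 * Q := by
    have h := hDST SA hSA
    calc B * SA * ST ^ 2 ≤ (κ * e ^ 2 / 16 * SA) * SA * ST ^ 2 := by
          have : B ≤ κ * e ^ 2 / 16 * SA := hBD.trans h
          gcongr
      _ = κ / 16 * Q := by rw [hQe]; ring
  have t4' : D * SA * ST ≤ κ / 16 * Q := by
    have h := hDST SA hSA
    calc D * SA * ST ≤ (κ * e ^ 2 / 16 * SA) * SA * ST := by gcongr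
      _ ≤ (κ * e ^ 2 / 16 * SA) * SA * ST * ST := by
          have : 0 ≤ (κ * e ^ 2 / 16 * SA) * SA * ST := by positivity
          exact le_mul_of_one_le_right this hST1
      _ = κ / 16 * Q := by rw [hQe]; ring
  have t4 : δ * SA * ST ≤ κ / 16 * Q := by
    have : δ * SA * ST ≤ D * SA * ST := by
      have : δ ≤ D := hδ1.trans hD1
      gcongr
    linarith
  have t5 : B2 * SA * ST ≤ κ / 8 * Q := by
    have : B2 * SA * ST ≤ 2 * D * SA * ST := by gcongr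
    have h2 : 2 * D * SA * ST = 2 * (D * SA * ST) := by ring
    linarith
  have hκQ : κ * Q ≤ κ * m ^ 2 := mul_le_mul_of_nonneg_left hQ hκ.le
  have hQ0 : 0 ≤ κ * Q := by rw [hQd]; positivity
  have e1 : (1 + κ) * m ^ 2 = m ^ 2 + κ * m ^ 2 := by ring
  rw [e1]
  linarith

/-- The pointwise bound. -/
theorem term_le (A T : Finset ℕ) (E : ℕ → ℕ → ℝ) (F : ℕ → ℕ → ℕ → ℕ → ℝ) (G : ℕ → ℕ → ℕ → ℝ)
    (e e' δ B B2 : ℝ) (hB : B = e' ^ 2 + 1) (hB2 : B2 = e' ^ 2 + e' + 2)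
    (hA : ∀ q ∈ A, q.Prime) (hT : ∀ t ∈ T, t.Prime) (he : 0 < e) (he'0 : 0 < e') (hδ0 : 0 ≤ δ) (hδ1 : δ ≤ 1)
    (hE : ∀ q ∈ A, ∀ t ∈ T, e ≤ E q t ∧ E q t ≤ e')
    (hF : ∀ q ∈ A, ∀ q' ∈ A, q ≠ q' → ∀ t ∈ T, ∀ t' ∈ T, F q t q' t' ≤ E q t * E q' t' + δ)
    (hFq : ∀ q ∈ A, ∀ t ∈ T, ∀ t' ∈ T, F q t q t' ≤ E q t * E q t' + δ + G q t t' ∧ 0 ≤ G q t t')
    (hGd : ∀ q ∈ A, ∀ t ∈ T, G q t t ≤ e' + δ)
    (q : ℕ) (hq : q ∈ A) (t : ℕ) (ht : t ∈ T) (q' : ℕ) (hq' : q' ∈ A) (t' : ℕ) (ht' : t' ∈ T) :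
    F q t q' t' / ((Nat.lcm q q' : ℝ) * (Nat.lcm t t' : ℝ)) ≤
      ((E q t / ((q : ℝ) * t)) * (E q' t' / ((q' : ℝ) * t')) +
        δ * (1 / (q : ℝ) * (1 / (t : ℝ)) * (1 / (q' : ℝ) * (1 / (t' : ℝ)))) +
        (if t' = t then B * (1 / (q : ℝ) * (1 / (t : ℝ)) * (1 / (q' : ℝ))) else 0) +
        (if q' = q then B * (1 / (q : ℝ) * (1 / (t : ℝ)) * (1 / (t' : ℝ))) else 0) +
        (if q' = q then 1 / (q : ℝ) * (1 / (t : ℝ)) * (G q t t' / t') else 0) +
        (if q' = q then (if t' = t then B2 * (1 / (q : ℝ) * (1 / (t : ℝ))) else 0) else 0)) := by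
  have h1 : (0 : ℝ) < q := by exact_mod_cast (hA q hq).pos
  have h2 : (0 : ℝ) < t := by exact_mod_cast (hT t ht).pos
  have h3 : (0 : ℝ) < q' := by exact_mod_cast (hA q' hq').pos
  have h4 : (0 : ℝ) < t' := by exact_mod_cast (hT t' ht').pos
  have hE1 := hE q hq t ht
  have hE2 := hE q' hq' t' ht'
  have p1 : 0 ≤ (E q t / ((q : ℝ) * t)) * (E q' t' / ((q' : ℝ) * t')) := by
    have : 0 ≤ E q t := he.le.trans hE1.1
    have : 0 ≤ E q' t' := he.le.trans hE2.1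
    positivity
  have p2 : 0 ≤ δ * (1 / (q : ℝ) * (1 / (t : ℝ)) * (1 / (q' : ℝ) * (1 / (t' : ℝ)))) := by positivity
  have hB0 : 0 ≤ B := by rw [hB]; positivity
  have hB20 : 0 ≤ B2 := by rw [hB2]; positivity
  have hEE : E q t * E q' t' ≤ e' ^ 2 := by
    rw [sq]
    exact mul_le_mul hE1.2 hE2.2 (he.le.trans hE2.1) he'0.le
  by_cases hqq : q' = q
  · subst hqq
    have hG0 := (hFq q' hq t ht t' ht').2
    have hF1 := (hFq q' hq t ht t' ht').1
    have p5 : 0 ≤ 1 / (q' : ℝ) * (1 / (t : ℝ)) * (G q' t t' / t') := by positivity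
    by_cases htt : t' = t
    · subst htt
      have hGd1 := hGd q' hq t' ht
      simp only [Nat.lcm_self, if_true]
      have : F q' t' q' t' / ((q' : ℝ) * t') ≤ B2 * (1 / (q' : ℝ) * (1 / (t' : ℝ))) := by
        rw [div_le_iff₀ (by positivity)]
        have : B2 * (1 / (q' : ℝ) * (1 / (t' : ℝ))) * ((q' : ℝ) * t') = B2 := by field_simp
        rw [this, hB2]
        linarith
      have p3 : 0 ≤ B * (1 / (q' : ℝ) * (1 / (t' : ℝ)) * (1 / (q' : ℝ))) := by positivity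
      have p4 : 0 ≤ B * (1 / (q' : ℝ) * (1 / (t' : ℝ)) * (1 / (t' : ℝ))) := by positivity
      linarith
    · have hl : Nat.lcm t t' = t * t' :=
        (Nat.coprime_primes (hT t ht) (hT t' ht')).2 (Ne.symm htt) |>.lcm_eq_mul
      simp only [Nat.lcm_self, if_true, if_neg htt, hl]
      have : F q' t q' t' / ((q' : ℝ) * ((t * t' : ℕ) : ℝ)) ≤ B * (1 / (q' : ℝ) * (1 / (t : ℝ)) * (1 / (t' : ℝ))) +
          1 / (q' : ℝ) * (1 / (t : ℝ)) * (G q' t t' / t') := by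
        push_cast
        rw [div_le_iff₀ (by positivity)]
        have : (B * (1 / (q' : ℝ) * (1 / (t : ℝ)) * (1 / (t' : ℝ))) +
          1 / (q' : ℝ) * (1 / (t : ℝ)) * (G q' t t' / t')) * ((q' : ℝ) * ((t : ℝ) * t')) = B + G q' t t' := by
          field_simp
        rw [this, hB]
        linarith
      linarith
  · have hF1 := hF q hq q' hq' (Ne.symm hqq) t ht t' ht'
    have hl1 : Nat.lcm q q' = q * q' :=
        (Nat.coprime_primes (hA q hq) (hA q' hq')).2 (Ne.symm hqq) |>.lcm_eq_mul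
    by_cases htt : t' = t
    · subst htt
      simp only [Nat.lcm_self, if_true, if_neg hqq, hl1]
      have : F q t' q' t' / (((q * q' : ℕ) : ℝ) * t') ≤ B * (1 / (q : ℝ) * (1 / (t' : ℝ)) * (1 / (q' : ℝ))) := by
        push_cast
        rw [div_le_iff₀ (by positivity)]
        have : B * (1 / (q : ℝ) * (1 / (t' : ℝ)) * (1 / (q' : ℝ))) * ((q : ℝ) * q' * t') = B := by field_simp
        rw [this, hB]
        linarith
      linarith
    · have hl : Nat.lcm t t' = t * t' :=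
        (Nat.coprime_primes (hT t ht) (hT t' ht')).2 (Ne.symm htt) |>.lcm_eq_mul
      simp only [if_neg htt, if_neg hqq, hl, hl1]
      have : F q t q' t' / (((q * q' : ℕ) : ℝ) * ((t * t' : ℕ) : ℝ)) ≤
          (E q t / ((q : ℝ) * t)) * (E q' t' / ((q' : ℝ) * t')) +
          δ * (1 / (q : ℝ) * (1 / (t : ℝ)) * (1 / (q' : ℝ) * (1 / (t' : ℝ)))) := by
        push_cast
        rw [div_le_iff₀ (by positivity)]
        have : ((E q t / ((q : ℝ) * t)) * (E q' t' / ((q' : ℝ) * t')) +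
          δ * (1 / (q : ℝ) * (1 / (t : ℝ)) * (1 / (q' : ℝ) * (1 / (t' : ℝ))))) * ((q : ℝ) * q' * ((t : ℝ) * t')) =
          E q t * E q' t' + δ := by field_simp
        rw [this]
        exact hF1
      linarith

theorem prf : StAsm := by
  classical
  intro A T E F G e e' δ κ K hA hT he hδ0 hδ hδ1 hκ hκ1 hK hK2 hSA hST hE hF hFq hG hGd
  have hA0 : ∀ q ∈ A, (0 : ℝ) < q := fun q hq => by exact_mod_cast (hA q hq).pos
  have hT0 : ∀ q ∈ T, (0 : ℝ) < q := fun q hq => by exact_mod_cast (hT q hq).pos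
  have hm : e * (∑ q ∈ A, 1 / (q : ℝ)) * (∑ t ∈ T, 1 / (t : ℝ)) ≤ ∑ q ∈ A, ∑ t ∈ T, E q t / ((q : ℝ) * t) := by
    have : e * (∑ q ∈ A, 1 / (q : ℝ)) * (∑ t ∈ T, 1 / (t : ℝ)) = ∑ q ∈ A, ∑ t ∈ T, e / ((q : ℝ) * t) := by
      rw [mul_assoc, Finset.sum_mul_sum, Finset.mul_sum]
      refine Finset.sum_congr rfl fun q hq => ?_
      rw [Finset.mul_sum]
      refine Finset.sum_congr rfl fun t ht => ?_
      have := hA0 q hq
      have := hT0 t ht
      field_simp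
    rw [this]
    refine Finset.sum_le_sum fun q hq => Finset.sum_le_sum fun t ht => ?_
    have h1 := hA0 q hq
    have h2 := hT0 t ht
    exact div_le_div_of_nonneg_right (hE q hq t ht).1 (by positivity)
  have hAne : A.Nonempty := by
    rw [Finset.nonempty_iff_ne_empty]
    rintro rfl
    simp at hSA
    linarith
  have hTne : T.Nonempty := by
    rw [Finset.nonempty_iff_ne_empty]
    rintro rfl
    simp at hST
    linarith
  obtain ⟨q0, hq0⟩ := hAne
  obtain ⟨t0, ht0⟩ := hTne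
  have hee : e ≤ e' := (hE q0 hq0 t0 ht0).1.trans (hE q0 hq0 t0 ht0).2
  have he'0 : 0 < e' := he.trans_le hee
  have hmain := Finset.sum_le_sum fun q (hq : q ∈ A) => Finset.sum_le_sum fun t (ht : t ∈ T) =>
    Finset.sum_le_sum fun q' (hq' : q' ∈ A) => Finset.sum_le_sum fun t' (ht' : t' ∈ T) =>
      term_le A T E F G e e' δ _ _ rfl rfl hA hT he he'0 hδ0 hδ1 hE hF hFq hGd q hq t ht q' hq' t' ht'
  have hsum := sum_key A T (fun q => 1 / (q : ℝ)) (fun q t => E q t / ((q : ℝ) * t)) (fun q t t' => G q t t' / t')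
    δ (e' ^ 2 + 1) (e' ^ 2 + e' + 2) _ _ _ rfl rfl rfl (fun q => by positivity) hG
  refine hmain.trans (hsum.trans ?_)
  exact fin_ineq e e' δ κ K _ _ _ _ _ he he'0 hδ0 hδ hδ1 hκ hK hK2 hSA hST hm rfl rfl

end Pool.Agent.Work.MP_a8fbd7_nt.PAR.LC.I_Asm
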