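import Pool.Agent.Work.MP_a8fbd7_nt.PAR.LC.Stmts3

set_option autoImplicit false

open Finset

noncomputable section

namespace Pool.Agent.Work.MP_a8fbd7_nt.PAR.LC.I_Atc

theorem card_Icc_le (L U : ℝ) (hL : 0 ≤ L) (hLU : L ≤ U) : ((Icc ⌈L⌉₊ ⌊U⌋₊).card : ℝ) ≤ U - L + 1 := by
  rw [Nat.card_Icc]
  have h1 : (⌊U⌋₊ : ℝ) ≤ U := Nat.floor_le (le_trans hL hLU)
  have h2 : L ≤ (⌈L⌉₊ : ℝ) := Nat.le_ceil L
  by_cases h : ⌈L⌉₊ ≤ ⌊U⌋₊ + 1
  · rw [Nat.cast_sub h]
    push_cast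
    linarith
  · rw [Nat.sub_eq_zero_of_le (by omega)]
    push_cast
    linarith

open Classical in
theorem prf : StAtc := by
  intro q t z j m N hq ht hz hm
  have hq' : (0 : ℝ) < q := by exact_mod_cast hq
  have ht' : (0 : ℝ) < t := by exact_mod_cast ht
  have hz' : (0 : ℝ) < z := by exact_mod_cast hz
  set D := m.divisors with hD
  have hsub : (range N).filter (fun g => Att q t z j g m) ⊆
      (D.image (fun a => q * a) ∪ D.image (fun a => t * a - j)) ∪
        D.biUnion (fun W => Icc ⌈((W : ℝ) - 1) * (q * t) / z⌉₊ ⌊((W : ℝ) + 1) * (q * t) / z⌋₊) := by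
    intro g hg
    rw [mem_filter] at hg
    obtain ⟨_, h⟩ := hg
    rw [mem_union, mem_union]
    rcases h with ⟨a, h1, h2⟩ | ⟨a, h1, h2⟩ | ⟨W, h1, h2⟩
    · left; left
      rw [mem_image]
      exact ⟨a, by rw [hD, Nat.mem_divisors]; exact ⟨h2, by omega⟩, h1.symm⟩
    · left; right
      rw [mem_image]
      exact ⟨a, by rw [hD, Nat.mem_divisors]; exact ⟨h2, by omega⟩, by omega⟩
    · right
      rw [mem_biUnion]
      refine ⟨W, by rw [hD, Nat.mem_divisors]; exact ⟨h1, by omega⟩, ?_⟩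
      rw [abs_le] at h2
      have hp : (0 : ℝ) < q * t := by positivity
      rw [mem_Icc]
      constructor
      · rw [Nat.ceil_le]
        rw [div_le_iff₀ hz']
        have h3 : ((W : ℝ) - 1) ≤ (g : ℝ) * z / (q * t) := by linarith [h2.1]
        rw [le_div_iff₀ hp] at h3
        exact h3
      · apply Nat.le_floor
        rw [le_div_iff₀ hz']
        have h3 : (g : ℝ) * z / (q * t) ≤ ((W : ℝ) + 1) := by linarith [h2.2]
        rw [div_le_iff₀ hp] at h3
        exact h3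
  have h1 : (((range N).filter (fun g => Att q t z j g m)).card : ℝ) ≤
      (((D.image (fun a => q * a) ∪ D.image (fun a => t * a - j)) ∪
        D.biUnion (fun W => Icc ⌈((W : ℝ) - 1) * (q * t) / z⌉₊ ⌊((W : ℝ) + 1) * (q * t) / z⌋₊)).card : ℝ) := by
    exact_mod_cast card_le_card hsub
  have h2 : (((D.image (fun a => q * a) ∪ D.image (fun a => t * a - j)) ∪
        D.biUnion (fun W => Icc ⌈((W : ℝ) - 1) * (q * t) / z⌉₊ ⌊((W : ℝ) + 1) * (q * t) / z⌋₊)).card : ℝ) ≤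
      ((D.image (fun a => q * a)).card : ℝ) + ((D.image (fun a => t * a - j)).card : ℝ) +
        ((D.biUnion (fun W => Icc ⌈((W : ℝ) - 1) * (q * t) / z⌉₊ ⌊((W : ℝ) + 1) * (q * t) / z⌋₊)).card : ℝ) := by
    have a1 := card_union_le (D.image (fun a => q * a) ∪ D.image (fun a => t * a - j))
      (D.biUnion (fun W => Icc ⌈((W : ℝ) - 1) * (q * t) / z⌉₊ ⌊((W : ℝ) + 1) * (q * t) / z⌋₊))
    have a2 := card_union_le (D.image (fun a => q * a)) (D.image (fun a => t * a - j))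
    exact_mod_cast le_trans a1 (Nat.add_le_add_right a2 _)
  have h3 : ((D.image (fun a => q * a)).card : ℝ) ≤ (D.card : ℝ) := by exact_mod_cast card_image_le
  have h4 : ((D.image (fun a => t * a - j)).card : ℝ) ≤ (D.card : ℝ) := by exact_mod_cast card_image_le
  have h5 : ((D.biUnion (fun W => Icc ⌈((W : ℝ) - 1) * (q * t) / z⌉₊ ⌊((W : ℝ) + 1) * (q * t) / z⌋₊)).card : ℝ) ≤
      (D.card : ℝ) * (2 * (q * t) / z + 1) := by
    have b1 : ((D.biUnion (fun W => Icc ⌈((W : ℝ) - 1) * (q * t) / z⌉₊ ⌊((W : ℝ) + 1) * (q * t) / z⌋₊)).card : ℝ) ≤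
        ∑ W ∈ D, ((Icc ⌈((W : ℝ) - 1) * (q * t) / z⌉₊ ⌊((W : ℝ) + 1) * (q * t) / z⌋₊).card : ℝ) := by
      exact_mod_cast card_biUnion_le
    refine le_trans b1 ?_
    have b2 : (D.card : ℝ) * (2 * (q * t) / z + 1) = D.card • ((2 * (q * t) / z + 1 : ℝ)) :=
      (nsmul_eq_mul _ _).symm
    rw [b2]
    apply sum_le_card_nsmul
    intro W hW
    have hW1 : 1 ≤ W := Nat.pos_of_mem_divisors hW
    have hW1' : (1 : ℝ) ≤ W := by exact_mod_cast hW1
    have hp : (0 : ℝ) < q * t := by positivity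
    have hL : 0 ≤ ((W : ℝ) - 1) * (q * t) / z := by
      apply div_nonneg _ hz'.le
      apply mul_nonneg (by linarith) hp.le
    have hLU : ((W : ℝ) - 1) * (q * t) / z ≤ ((W : ℝ) + 1) * (q * t) / z := by
      apply div_le_div_of_nonneg_right _ hz'.le
      apply mul_le_mul_of_nonneg_right (by linarith) hp.le
    have c1 := card_Icc_le _ _ hL hLU
    have c2 : ((W : ℝ) + 1) * (q * t) / z - ((W : ℝ) - 1) * (q * t) / z = 2 * (q * t) / z := by
      ring
    linarith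
  have h6 : (D.card : ℝ) * (3 + 2 * (q * t) / z) =
      (D.card : ℝ) + (D.card : ℝ) + (D.card : ℝ) * (2 * (q * t) / z + 1) := by ring
  rw [h6]
  linarith

end Pool.Agent.Work.MP_a8fbd7_nt.PAR.LC.I_Atc
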