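import Pool.Agent.Work.MP_a8fbd7_nt.PAR.LC.Stmts

set_option autoImplicit false

/-!
MP_a8fbd7_nt, block LC, item Cap: counting in progressions.
-/

open Finset

noncomputable section

namespace Pool.Agent.Work.MP_a8fbd7_nt.PAR.LC.I_Cap

/-- the exact number -/
theorem card_eq (m a : ℕ) (x y : ℝ) (N : ℕ) (hm : 1 ≤ m) (hx : 0 ≤ x) (hy : y ≤ N) :
    ((range (N + 1)).filter (fun n : ℕ => x ≤ (n : ℝ) ∧ (n : ℝ) ≤ y ∧ n ≡ a [MOD m])).card =
      (⌊(y - (a % m : ℕ)) / m⌋ + 1 - ⌈(x - (a % m : ℕ)) / m⌉).toNat := by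
  have hm0 : (0 : ℝ) < m := by exact_mod_cast hm
  have hr : ((a % m : ℕ) : ℝ) < m := by exact_mod_cast Nat.mod_lt a hm
  have hX : 0 ≤ ⌈(x - (a % m : ℕ)) / (m : ℝ)⌉ := by
    have h0 : (-1 : ℤ) < ⌈(x - (a % m : ℕ)) / (m : ℝ)⌉ := by
      rw [Int.lt_ceil]
      push_cast
      rw [lt_div_iff₀ hm0]
      linarith
    omega
  rw [← Int.card_Icc]
  refine Finset.card_nbij' (fun n => ((n / m : ℕ) : ℤ)) (fun i => a % m + m * i.toNat) ?_ ?_ ?_ ?_
  · intro n hn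
    simp only [Finset.coe_filter, Finset.mem_range, Set.mem_ofPred_eq] at hn
    obtain ⟨-, h1, h2, h3⟩ := hn
    have h4 : n % m = a % m := h3
    have h5 : ((a % m : ℕ) : ℝ) + m * ((n / m : ℕ) : ℝ) = n := by
      rw [← h4]
      exact_mod_cast Nat.mod_add_div n m
    simp only [Finset.coe_Icc, Set.mem_Icc, Int.ceil_le, Int.le_floor, Int.cast_natCast]
    rw [div_le_iff₀ hm0, le_div_iff₀ hm0]
    constructor <;> linarith
  · intro i hi
    simp only [Finset.coe_Icc, Set.mem_Icc, Int.ceil_le, Int.le_floor] at hi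
    obtain ⟨h1, h2⟩ := hi
    have hi0 : 0 ≤ i := le_trans hX (Int.ceil_le.2 h1)
    have h3 : ((i.toNat : ℕ) : ℝ) = (i : ℝ) := by
      have : ((i.toNat : ℕ) : ℤ) = i := Int.toNat_of_nonneg hi0
      exact_mod_cast this
    rw [div_le_iff₀ hm0] at h1
    rw [le_div_iff₀ hm0] at h2
    have h4 : ((a % m + m * i.toNat : ℕ) : ℝ) ≤ y := by
      push_cast
      rw [h3]
      linarith
    have h5 : a % m + m * i.toNat ≤ N := by exact_mod_cast h4.trans hy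
    simp only [Finset.coe_filter, Finset.mem_range, Set.mem_ofPred_eq]
    refine ⟨by omega, ?_, h4, ?_⟩
    · push_cast
      rw [h3]
      linarith
    · show (a % m + m * i.toNat) % m = a % m
      rw [Nat.add_mul_mod_self_left, Nat.mod_mod]
  · intro n hn
    simp only [Finset.coe_filter, Finset.mem_range, Set.mem_ofPred_eq] at hn
    obtain ⟨-, -, -, h3⟩ := hn
    have h4 : n % m = a % m := h3
    show a % m + m * (((n / m : ℕ) : ℤ)).toNat = n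
    rw [Int.toNat_natCast, ← h4]
    exact Nat.mod_add_div n m
  · intro i hi
    simp only [Finset.coe_Icc, Set.mem_Icc] at hi
    have hi0 : 0 ≤ i := le_trans hX hi.1
    show (((a % m + m * i.toNat) / m : ℕ) : ℤ) = i
    rw [Nat.add_mul_div_left _ _ hm, Nat.div_eq_of_lt (Nat.mod_lt a hm), zero_add]
    exact Int.toNat_of_nonneg hi0

/-- **item Cap** -/
theorem prf : StCap := by
  intro m a x y N hm hx hxy hy
  have hm0 : (0 : ℝ) < m := by exact_mod_cast hm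
  rw [card_eq m a x y N hm hx hy]
  set X : ℝ := (x - (a % m : ℕ)) / m with hXd
  set Y : ℝ := (y - (a % m : ℕ)) / m with hYd
  have hYX : Y - X = (y - x) / m := by
    rw [hXd, hYd]
    ring
  have h1 : Y < (⌊Y⌋ : ℝ) + 1 := Int.lt_floor_add_one Y
  have h2 : (⌈X⌉ : ℝ) < X + 1 := Int.ceil_lt_add_one X
  have h3 : (⌊Y⌋ : ℝ) ≤ Y := Int.floor_le Y
  have h4 : X ≤ (⌈X⌉ : ℝ) := Int.le_ceil X
  have h5 : 0 ≤ (y - x) / m := div_nonneg (by linarith) hm0.le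
  have h6 : (-1 : ℝ) < ((⌊Y⌋ + 1 - ⌈X⌉ : ℤ) : ℝ) := by
    push_cast
    linarith
  have h7 : 0 ≤ ⌊Y⌋ + 1 - ⌈X⌉ := by
    have : (-1 : ℤ) < ⌊Y⌋ + 1 - ⌈X⌉ := by exact_mod_cast h6
    omega
  have h8 : (((⌊Y⌋ + 1 - ⌈X⌉).toNat : ℕ) : ℝ) = (⌊Y⌋ : ℝ) + 1 - ⌈X⌉ := by
    have : (((⌊Y⌋ + 1 - ⌈X⌉).toNat : ℕ) : ℤ) = ⌊Y⌋ + 1 - ⌈X⌉ := Int.toNat_of_nonneg h7
    exact_mod_cast this
  rw [h8]
  constructor <;> linarith

end Pool.Agent.Work.MP_a8fbd7_nt.PAR.LC.I_Cap
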