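import Pool.Agent.Work.MP_a8fbd7_nt.PAR.LC.Stmts

/-!
# Block LC, item Chb: Chebyshev
-/

set_option autoImplicit false

namespace Pool.Agent.Work.MP_a8fbd7_nt.PAR.LC.I_Chb

theorem prf : StChb := by
  intro Ω N m κ hm hκ h1 h2
  have e1 : ∑ p ∈ Ω, (N p - m) ^ 2 = ∑ p ∈ Ω, N p ^ 2 - Ω.card * m ^ 2 := by
    have e2 : ∀ p ∈ Ω, (N p - m) ^ 2 = N p ^ 2 - 2 * m * N p + m ^ 2 := fun p _ => by ring
    rw [Finset.sum_congr rfl e2, Finset.sum_add_distrib, Finset.sum_sub_distrib, ← Finset.mul_sum,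
      h1, Finset.sum_const, nsmul_eq_mul]
    ring
  have e3 : ((Ω.filter (fun p => N p = 0)).card : ℝ) * m ^ 2 ≤ ∑ p ∈ Ω, (N p - m) ^ 2 := by
    calc ((Ω.filter (fun p => N p = 0)).card : ℝ) * m ^ 2
        = ∑ p ∈ Ω.filter (fun p => N p = 0), (N p - m) ^ 2 := by
          rw [Finset.sum_congr rfl (g := fun _ => m ^ 2) fun p hp => by
            rw [(Finset.mem_filter.1 hp).2]; ring, Finset.sum_const, nsmul_eq_mul]
      _ ≤ _ := Finset.sum_le_sum_of_subset_of_nonneg (Finset.filter_subset _ _)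
          fun _ _ _ => sq_nonneg _
  rw [e1] at e3
  have h3 : 0 < m ^ 2 := by positivity
  refine le_of_mul_le_mul_right (e3.trans ?_) h3
  nlinarith [h2]

end Pool.Agent.Work.MP_a8fbd7_nt.PAR.LC.I_Chb
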