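import Pool.Agent.Work.MP_a8fbd7_nt.PAR.LC.Stmts2

set_option autoImplicit false

/-!
MP_a8fbd7_nt, block LC, item Chn: the chain.
-/

open Finset

noncomputable section

namespace Pool.Agent.Work.MP_a8fbd7_nt.PAR.LC.I_Chn

/-- `⌊B Y/g⌋` -/
def DD (Y : ℝ) (B g : ℕ) : ℕ := ⌊(B : ℝ) * (Y / g)⌋₊

/-- the cell number is the residue modulo `B` of `⌊B Y/g⌋` -/
theorem cno_eq (Y : ℝ) (B g : ℕ) (hB : 1 ≤ B) : cno Y B g = DD Y B g % B := by
  unfold cno DD
  have hB0 : (B : ℝ) ≠ 0 := by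
    have : (0 : ℝ) < B := by exact_mod_cast hB
    exact this.ne'
  have h1 : ⌊Y / g⌋₊ = ⌊(B : ℝ) * (Y / g)⌋₊ / B := by
    rw [← Nat.floor_div_natCast, mul_div_cancel_left₀ _ hB0]
  have h2 : (B : ℝ) * (Y / g - ⌊Y / g⌋₊) = (B : ℝ) * (Y / g) - ((B * ⌊Y / g⌋₊ : ℕ) : ℝ) := by
    push_cast; ring
  rw [h2, Nat.floor_sub_natCast, h1]
  have := Nat.div_add_mod (⌊(B : ℝ) * (Y / g)⌋₊) B
  omega

theorem DD_anti {Y : ℝ} (hY : 0 ≤ Y) (B : ℕ) {g g' : ℕ} (hg : 1 ≤ g) (h : g ≤ g') :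
    DD Y B g' ≤ DD Y B g := by
  unfold DD
  apply Nat.floor_mono
  apply mul_le_mul_of_nonneg_left _ (Nat.cast_nonneg B)
  have h0 : (0 : ℝ) < g := by exact_mod_cast hg
  have h1 : (g : ℝ) ≤ g' := by exact_mod_cast h
  exact div_le_div_of_nonneg_left hY h0 h1

theorem chain (f : ℕ → ℤ) (x j L : ℕ) (h : ∀ g, x ≤ g → g < x + L → f g = f (g + j)) (hj : 1 ≤ j) :
    ∀ i, i * j ≤ L → f x = f (x + i * j) := by
  intro i
  induction i with
  | zero => intro _; simp
  | succ i ih =>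
    intro hi
    have h1 : i * j + j ≤ L := by rw [Nat.succ_mul] at hi; exact hi
    rw [ih (by omega), h (x + i * j) (by omega) (by omega), Nat.succ_mul, add_assoc]

theorem prf : StChn := by
  intro f r n B J jj hf hr hn hrn hB hJ hjj
  set L : ℕ := J.factorial with hL
  have hL1 : 1 ≤ L := Nat.factorial_pos J
  have hLr : (0 : ℝ) < L := by exact_mod_cast hL1
  set S : Finset ℕ := (range (⌊21 / 20 * r * n⌋₊ + 1)).filter (fun m : ℕ => r * n ≤ (L : ℝ) * m ∧
      (L : ℝ) * (m + 1) ≤ 21 / 20 * r * n ∧ f m ≠ f (m + 1)) with hS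
  set R : Finset ℕ := (Icc ⌈r * n⌉₊ ⌊21 / 20 * r * n⌋₊).filter
    (fun g => f g ≠ f (g + jj (cno (n ^ 2) B g))) with hR
  have hY : 0 ≤ n ^ 2 := by positivity
  have hS' : ∀ m ∈ S, 1 ≤ m ∧ r * n ≤ (L : ℝ) * m ∧ (L : ℝ) * (m + 1) ≤ 21 / 20 * r * n ∧
      f m ≠ f (m + 1) := by
    intro m hm
    rw [hS, mem_filter] at hm
    obtain ⟨-, h1, h2, h3⟩ := hm
    refine ⟨?_, h1, h2, h3⟩
    by_contra h0
    have : m = 0 := by omega
    rw [this] at h1
    simp at h1
    linarith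
  -- the split
  set S1 : Finset ℕ := S.filter (fun m => DD (n ^ 2) B (L * m) ≠ DD (n ^ 2) B (L * (m + 1) - 1)) with hS1
  set S2 : Finset ℕ := S.filter (fun m => ¬ DD (n ^ 2) B (L * m) ≠ DD (n ^ 2) B (L * (m + 1) - 1)) with hS2
  have hcard : S1.card + S2.card = S.card := card_filter_add_card_filter_not _
  -- the drops
  have hdrop : ∀ m ∈ S1, DD (n ^ 2) B (L * (m + 1)) < DD (n ^ 2) B (L * m) := by
    intro m hm
    rw [hS1, mem_filter] at hm
    obtain ⟨hm1, hm2⟩ := hm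
    obtain ⟨k1, -⟩ := hS' m hm1
    have e1 : 1 ≤ L * m := Nat.mul_pos hL1 k1
    have e2 : L * (m + 1) = L * m + L := by ring
    have a1 : DD (n ^ 2) B (L * (m + 1)) ≤ DD (n ^ 2) B (L * (m + 1) - 1) :=
      DD_anti hY B (by omega) (by omega)
    have a2 : DD (n ^ 2) B (L * (m + 1) - 1) ≤ DD (n ^ 2) B (L * m) :=
      DD_anti hY B e1 (by omega)
    omega
  have hc1 : (S1.card : ℝ) ≤ B * n / r := by
    have hmap : ∀ m ∈ S1, DD (n ^ 2) B (L * m) ∈ Icc 1 ⌊(B : ℝ) * n / r⌋₊ := by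
      intro m hm
      have hd := hdrop m hm
      rw [hS1, mem_filter] at hm
      obtain ⟨k1, k2, -⟩ := hS' m hm.1
      rw [mem_Icc]
      refine ⟨by omega, ?_⟩
      unfold DD
      apply Nat.floor_mono
      have hm0 : (0 : ℝ) < m := by exact_mod_cast k1
      have h3 : n ^ 2 / ((L * m : ℕ) : ℝ) ≤ n ^ 2 / (r * n) := by
        push_cast
        exact div_le_div_of_nonneg_left hY (by positivity) k2
      have h4 : n ^ 2 / (r * n) = n / r := by field_simp
      calc (B : ℝ) * (n ^ 2 / ((L * m : ℕ) : ℝ)) ≤ B * (n / r) := by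
            rw [← h4]; exact mul_le_mul_of_nonneg_left h3 (Nat.cast_nonneg B)
        _ = B * n / r := by ring
    have hinj : ∀ m ∈ S1, ∀ m' ∈ S1, DD (n ^ 2) B (L * m) = DD (n ^ 2) B (L * m') → m = m' := by
      have key : ∀ m ∈ S1, ∀ m' ∈ S1, m < m' → DD (n ^ 2) B (L * m') < DD (n ^ 2) B (L * m) := by
        intro m hm m' _ hlt
        have hd := hdrop m hm
        have : DD (n ^ 2) B (L * m') ≤ DD (n ^ 2) B (L * (m + 1)) :=
          DD_anti hY B (Nat.mul_pos hL1 (by omega)) (Nat.mul_le_mul_left L hlt)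
        omega
      intro m hm m' hm' h
      rcases lt_trichotomy m m' with h1 | h1 | h1
      · have := key m hm m' hm' h1; omega
      · exact h1
      · have := key m' hm' m hm h1; omega
    have h5 : S1.card ≤ (Icc 1 ⌊(B : ℝ) * n / r⌋₊).card :=
      card_le_card_of_injOn (fun m => DD (n ^ 2) B (L * m)) (fun m hm => mem_coe.2 (hmap m (mem_coe.1 hm)))
        (fun m hm m' hm' h => hinj m (mem_coe.1 hm) m' (mem_coe.1 hm') h)
    rw [Nat.card_Icc] at h5
    have h6 : S1.card ≤ ⌊(B : ℝ) * n / r⌋₊ := by omega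
    calc (S1.card : ℝ) ≤ (⌊(B : ℝ) * n / r⌋₊ : ℝ) := by exact_mod_cast h6
      _ ≤ B * n / r := Nat.floor_le (by positivity)
  -- the bad g
  have hc2 : S2.card ≤ R.card := by
    have hsub : S2 ⊆ R.image (fun g => g / L) := by
      intro m hm
      rw [hS2, mem_filter] at hm
      obtain ⟨hm1, hm2⟩ := hm
      obtain ⟨k1, k2, k3, k4⟩ := hS' m hm1
      rw [not_not] at hm2
      by_contra hno
      have e1 : 1 ≤ L * m := Nat.mul_pos hL1 k1
      have e2 : L * (m + 1) = L * m + L := by ring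
      have hgood : ∀ g, L * m ≤ g → g < L * m + L → f g = f (g + jj (DD (n ^ 2) B (L * m) % B)) := by
        intro g hg1 hg2
        by_contra hne
        apply hno
        rw [mem_image]
        refine ⟨g, ?_, ?_⟩
        · rw [hR, mem_filter, mem_Icc]
          have hg1r : ((L * m : ℕ) : ℝ) ≤ g := by exact_mod_cast hg1
          have hg2r : (g : ℝ) ≤ ((L * m + L : ℕ) : ℝ) := by exact_mod_cast hg2.le
          push_cast at hg1r hg2r
          refine ⟨⟨?_, ?_⟩, ?_⟩
          · exact Nat.ceil_le.2 (k2.trans hg1r)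
          · apply Nat.le_floor
            linarith
          · have b1 : DD (n ^ 2) B g ≤ DD (n ^ 2) B (L * m) := DD_anti hY B e1 hg1
            have b2 : DD (n ^ 2) B (L * (m + 1) - 1) ≤ DD (n ^ 2) B g :=
              DD_anti hY B (by omega) (by omega)
            have b3 : DD (n ^ 2) B g = DD (n ^ 2) B (L * m) := by omega
            rw [cno_eq _ _ _ hB, b3]
            exact hne
        · show g / L = m
          refine Nat.div_eq_of_lt_le (by rw [mul_comm]; exact hg1) ?_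
          rw [mul_comm, e2]; exact hg2
      set j : ℕ := jj (DD (n ^ 2) B (L * m) % B) with hj
      obtain ⟨j1, j2⟩ := hjj (DD (n ^ 2) B (L * m) % B)
      have hdv : j ∣ L := Nat.dvd_factorial j1 j2
      have hch := chain f (L * m) j L hgood j1 (L / j) (by rw [Nat.div_mul_cancel hdv])
      rw [Nat.div_mul_cancel hdv, ← e2, hf.mul L m hL1 k1, hf.mul L (m + 1) hL1 (by omega)] at hch
      exact k4 (mul_left_cancel₀ (hf.ne hL1) hch)
    exact (card_le_card hsub).trans card_image_le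
  have : (S.card : ℝ) = S1.card + S2.card := by exact_mod_cast hcard.symm
  rw [this]
  have hc2' : (S2.card : ℝ) ≤ R.card := by exact_mod_cast hc2
  linarith

end Pool.Agent.Work.MP_a8fbd7_nt.PAR.LC.I_Chn
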