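import Pool.Agent.Work.MP_a8fbd7_nt.PAR.LC.Stmts3

set_option autoImplicit false

/-!
MP_a8fbd7_nt, block LC, item CnL: from weights to numbers.
-/

open Finset

noncomputable section

namespace Pool.Agent.Work.MP_a8fbd7_nt.PAR.LC.I_CnL

/-- The number of multiples of `d` in the interval. -/
lemma count (hCap : StCap) (x y : ℝ) (hx : 0 ≤ x) (hxy : x ≤ y) (d : ℕ) (hd : 1 ≤ d) :
    (((Icc ⌈x⌉₊ ⌊y⌋₊).filter (fun m => d ∣ m)).card : ℝ) ≤ (y - x) / d + 1 := by
  have h := (hCap d 0 x y (⌊y⌋₊ + 1) hd hx hxy (by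
    push_cast
    exact (Nat.lt_floor_add_one y).le)).1
  refine le_trans ?_ h
  have hy : 0 ≤ y := hx.trans hxy
  have h2 : (Icc ⌈x⌉₊ ⌊y⌋₊).filter (fun m => d ∣ m) ⊆ (range (⌊y⌋₊ + 1 + 1)).filter
      (fun n : ℕ => x ≤ (n : ℝ) ∧ (n : ℝ) ≤ y ∧ n ≡ 0 [MOD d]) := by
    intro m hm
    rw [mem_filter, mem_Icc] at hm
    rw [mem_filter, mem_range]
    refine ⟨by omega, Nat.ceil_le.1 hm.1.1, (Nat.le_floor_iff hy).1 hm.1.2, ?_⟩
    exact (Nat.modEq_zero_iff_dvd).2 hm.2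
  exact_mod_cast card_le_card h2

/-- Second moment of the divisor function on the interval. -/
lemma second (hLan : StLan) (hSt4 : StSt4) (hCap : StCap) (x c : ℝ) (hx : 16 ≤ x) (hc : 0 < c)
    (hc1 : c ≤ 1) : ∑ m ∈ Icc ⌈x⌉₊ ⌊x + c * Real.sqrt x⌋₊, (m.divisors.card : ℝ) ^ 2 ≤
      12 * Real.sqrt x * Real.log x ^ 16 := by
  set y : ℝ := x + c * Real.sqrt x with hy
  set N : ℕ := ⌊Real.sqrt (2 * x)⌋₊ with hN
  have hs0 : 0 ≤ Real.sqrt x := Real.sqrt_nonneg x
  have hs1 : Real.sqrt x * Real.sqrt x = x := Real.mul_self_sqrt (by linarith)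
  have hs4 : 4 ≤ Real.sqrt x := by
    rw [show (4 : ℝ) = Real.sqrt 16 by
      rw [show (16 : ℝ) = 4 ^ 2 by norm_num, Real.sqrt_sq (by norm_num)]]
    exact Real.sqrt_le_sqrt hx
  have hy1 : y ≤ 2 * x := by
    have : c * Real.sqrt x ≤ x := by nlinarith
    linarith
  have hxy : x ≤ y := by
    have : 0 ≤ c * Real.sqrt x := by positivity
    linarith
  have hN1 : (N : ℝ) ≤ Real.sqrt (2 * x) := Nat.floor_le (Real.sqrt_nonneg _)
  have hN2 : Real.sqrt (2 * x) ≤ 3 / 2 * Real.sqrt x := by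
    rw [Real.sqrt_le_left (by positivity)]
    nlinarith
  have hN3 : 1 ≤ N := by
    rw [hN]
    apply Nat.le_floor
    rw [Nat.cast_one]
    apply Real.le_sqrt_of_sq_le
    linarith
  have hlog : 1 + Real.log N ≤ Real.log x := by
    have h1 : Real.log N ≤ Real.log (Real.sqrt (2 * x)) :=
      Real.log_le_log (by exact_mod_cast hN3) hN1
    rw [Real.log_sqrt (by positivity), Real.log_mul (by norm_num) (by positivity)] at h1
    have h2 : Real.log 16 ≤ Real.log x := Real.log_le_log (by norm_num) hx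
    have h3 : Real.log 16 = 4 * Real.log 2 := by
      rw [show (16 : ℝ) = 2 ^ (4 : ℕ) by norm_num, Real.log_pow]
      push_cast
      ring
    have h4 := Real.log_two_gt_d9
    linarith
  have hlogN : 0 ≤ Real.log N := Real.log_nonneg (by exact_mod_cast hN3)
  -- step 1
  have h1 : ∀ m ∈ Icc ⌈x⌉₊ ⌊y⌋₊, (m.divisors.card : ℝ) ^ 2 ≤
      4 * ∑ d ∈ Icc 1 N, if d ∣ m then (d.divisors.card : ℝ) ^ 4 else 0 := by
    intro m hm
    rw [mem_Icc] at hm
    have hm1 : x ≤ m := Nat.ceil_le.1 hm.1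
    have hm2 : (m : ℝ) ≤ y := (Nat.le_floor_iff (by linarith)).1 hm.2
    have hm3 : 1 ≤ m := by
      have : (1 : ℝ) ≤ m := by linarith
      exact_mod_cast this
    obtain ⟨d, hd1, hd2, hd3⟩ := hLan m hm3
    have hd0 : 1 ≤ d := Nat.pos_of_dvd_of_pos hd1 hm3
    have hdN : d ≤ N := by
      rw [hN]
      apply Nat.le_floor
      apply Real.le_sqrt_of_sq_le
      have : (d : ℝ) ^ 2 ≤ m := by exact_mod_cast hd2
      linarith
    have h2 : (if d ∣ m then (d.divisors.card : ℝ) ^ 4 else 0) ≤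
        ∑ d ∈ Icc 1 N, if d ∣ m then (d.divisors.card : ℝ) ^ 4 else 0 :=
      single_le_sum (f := fun d : ℕ => if d ∣ m then (d.divisors.card : ℝ) ^ 4 else 0)
        (fun i _ => by
          split_ifs
          · positivity
          · exact le_rfl) (mem_Icc.2 ⟨hd0, hdN⟩)
    rw [if_pos hd1] at h2
    have h3 : (m.divisors.card : ℝ) ≤ 2 * (d.divisors.card : ℝ) ^ 2 := by exact_mod_cast hd3
    have h4 : (m.divisors.card : ℝ) ^ 2 ≤ (2 * (d.divisors.card : ℝ) ^ 2) ^ 2 :=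
      pow_le_pow_left₀ (Nat.cast_nonneg _) h3 2
    calc (m.divisors.card : ℝ) ^ 2 ≤ (2 * (d.divisors.card : ℝ) ^ 2) ^ 2 := h4
      _ = 4 * (d.divisors.card : ℝ) ^ 4 := by ring
      _ ≤ _ := by linarith
  -- step 2
  have h2 : ∑ m ∈ Icc ⌈x⌉₊ ⌊y⌋₊, (m.divisors.card : ℝ) ^ 2 ≤
      4 * ∑ d ∈ Icc 1 N, (d.divisors.card : ℝ) ^ 4 * ((y - x) / d + 1) := by
    refine (sum_le_sum h1).trans ?_
    rw [← mul_sum, sum_comm]
    refine mul_le_mul_of_nonneg_left (sum_le_sum fun d hd => ?_) (by norm_num)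
    rw [← sum_filter, sum_const, nsmul_eq_mul, mul_comm]
    exact mul_le_mul_of_nonneg_left (count hCap x y (by linarith) hxy d (mem_Icc.1 hd).1)
      (by positivity)
  -- step 3
  have h3 : ∑ d ∈ Icc 1 N, (d.divisors.card : ℝ) ^ 4 * ((y - x) / d + 1) ≤
      (Real.sqrt x + N) * (1 + Real.log N) ^ 16 := by
    calc ∑ d ∈ Icc 1 N, (d.divisors.card : ℝ) ^ 4 * ((y - x) / d + 1)
        ≤ ∑ d ∈ Icc 1 N, (Real.sqrt x + N) * ((d.divisors.card : ℝ) ^ 4 / d) := by
          refine sum_le_sum fun d hd => ?_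
          rw [mem_Icc] at hd
          have hd0 : (0 : ℝ) < d := by exact_mod_cast hd.1
          have hdN : (d : ℝ) ≤ N := by exact_mod_cast hd.2
          have e1 : (Real.sqrt x + N) * ((d.divisors.card : ℝ) ^ 4 / d) =
              (d.divisors.card : ℝ) ^ 4 * ((Real.sqrt x + N) / d) := by ring
          rw [e1]
          refine mul_le_mul_of_nonneg_left ?_ (by positivity)
          rw [div_add_one hd0.ne', div_le_div_iff_of_pos_right hd0]
          have : y - x ≤ Real.sqrt x := by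
            rw [hy]
            nlinarith
          linarith
      _ = (Real.sqrt x + N) * ∑ d ∈ Icc 1 N, (d.divisors.card : ℝ) ^ 4 / d := by
          rw [mul_sum]
      _ ≤ _ := mul_le_mul_of_nonneg_left (hSt4 N hN3) (by positivity)
  have h4 : (1 + Real.log N) ^ 16 ≤ Real.log x ^ 16 := pow_le_pow_left₀ (by linarith) hlog 16
  have h5 : 0 ≤ Real.log x ^ 16 := by positivity
  calc ∑ m ∈ Icc ⌈x⌉₊ ⌊y⌋₊, (m.divisors.card : ℝ) ^ 2
      ≤ 4 * ((Real.sqrt x + N) * (1 + Real.log N) ^ 16) := by linarith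
    _ ≤ 4 * ((Real.sqrt x + N) * Real.log x ^ 16) := by
        have : (Real.sqrt x + N) * (1 + Real.log N) ^ 16 ≤ (Real.sqrt x + N) * Real.log x ^ 16 :=
          mul_le_mul_of_nonneg_left h4 (by positivity)
        linarith
    _ ≤ 12 * Real.sqrt x * Real.log x ^ 16 := by
        have : (Real.sqrt x + N) * Real.log x ^ 16 ≤ (3 * Real.sqrt x) * Real.log x ^ 16 :=
          mul_le_mul_of_nonneg_right (by linarith) h5
        linarith

theorem prf (hLan : StLan) (hSt4 : StSt4) (hCap : StCap) : StCnL := by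
  intro hW c hc
  have hc' : 0 < min c 1 := lt_min hc one_pos
  obtain ⟨δ, x0, hδ, hx0⟩ := hW (min c 1) hc'
  refine ⟨max x0 (max 16 (Real.exp (12 / δ ^ 2))), fun x hx s hs => ?_⟩
  have hx1 : x0 ≤ x := (le_max_left _ _).trans hx
  have hx2 : 16 ≤ x := (le_max_left _ _).trans ((le_max_right _ _).trans hx)
  have hx3 : Real.exp (12 / δ ^ 2) ≤ x := (le_max_right _ _).trans ((le_max_right _ _).trans hx)
  have hx4 : 12 / δ ^ 2 ≤ Real.log x := (Real.le_log_iff_exp_le (by linarith)).2 hx3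
  have hlog : 0 < Real.log x := Real.log_pos (by linarith)
  have hsx : 0 < Real.sqrt x := Real.sqrt_pos.2 (by linarith)
  have hs1 : Real.sqrt x * Real.sqrt x = x := Real.mul_self_sqrt (by linarith)
  have hw := hx0 x hx1 s hs
  set A := (Icc ⌈x⌉₊ ⌊x + min c 1 * Real.sqrt x⌋₊).filter
    (fun m => ArithmeticFunction.liouville m = s) with hA
  have h1 : (∑ m ∈ A, (m.divisors.card : ℝ)) ^ 2 ≤ A.card * ∑ m ∈ A, (m.divisors.card : ℝ) ^ 2 :=
    sq_sum_le_card_mul_sum_sq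
  have h2 : ∑ m ∈ A, (m.divisors.card : ℝ) ^ 2 ≤ 12 * Real.sqrt x * Real.log x ^ 16 :=
    (sum_le_sum_of_subset_of_nonneg (filter_subset _ _) (fun _ _ _ => by positivity)).trans
      (second hLan hSt4 hCap x (min c 1) hx2 hc' (min_le_right _ _))
  have h3 : (δ * Real.sqrt x) ^ 2 ≤ (∑ m ∈ A, (m.divisors.card : ℝ)) ^ 2 :=
    pow_le_pow_left₀ (by positivity) hw 2
  have h4 : (δ * Real.sqrt x) ^ 2 ≤ A.card * (12 * Real.sqrt x * Real.log x ^ 16) :=
    h3.trans (h1.trans (mul_le_mul_of_nonneg_left h2 (Nat.cast_nonneg _)))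
  have h5 : δ ^ 2 * Real.sqrt x ≤ 12 * (A.card * Real.log x ^ 16) := by
    have e1 : (δ * Real.sqrt x) ^ 2 = (δ ^ 2 * Real.sqrt x) * Real.sqrt x := by ring
    have e2 : (A.card : ℝ) * (12 * Real.sqrt x * Real.log x ^ 16) =
        (12 * (A.card * Real.log x ^ 16)) * Real.sqrt x := by ring
    rw [e1, e2] at h4
    exact le_of_mul_le_mul_right h4 hsx
  have h6 : Real.sqrt x / Real.log x ^ 17 ≤ (A.card : ℝ) := by
    rw [div_le_iff₀ (by positivity)]
    rw [div_le_iff₀ (by positivity)] at hx4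
    have h7 : 12 * Real.sqrt x ≤ Real.log x * δ ^ 2 * Real.sqrt x :=
      mul_le_mul_of_nonneg_right hx4 hsx.le
    have h8 : Real.log x * (δ ^ 2 * Real.sqrt x) ≤
        Real.log x * (12 * (A.card * Real.log x ^ 16)) :=
      mul_le_mul_of_nonneg_left h5 hlog.le
    have h9 : Real.log x * (12 * (A.card * Real.log x ^ 16)) =
        12 * (A.card * Real.log x ^ 17) := by ring
    rw [h9] at h8
    nlinarith
  refine h6.trans ?_
  have h7 : A ⊆ (Icc ⌈x⌉₊ ⌊x + c * Real.sqrt x⌋₊).filter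
      (fun m => ArithmeticFunction.liouville m = s) := by
    rw [hA]
    apply filter_subset_filter
    apply Icc_subset_Icc_right
    apply Nat.floor_le_floor
    have := min_le_left c 1
    nlinarith
  exact_mod_cast card_le_card h7

end Pool.Agent.Work.MP_a8fbd7_nt.PAR.LC.I_CnL
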