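import Pool.Agent.Work.MP_a8fbd7_nt.PAR.LC.Stmts2

set_option autoImplicit false

/-!
MP_a8fbd7_nt, block LC, item EQ: equidistribution of `(g mod L, ⌊n²/g⌋ mod L, cell)`.
-/

open Finset

noncomputable section

namespace Pool.Agent.Work.MP_a8fbd7_nt.PAR.LC.I_EQ

/-- The fractional part of `Y/(L g) - α` for `g` in the cell. -/
theorem fract_lt (Y g : ℝ) (L B M0 k : ℕ) (hL : 1 ≤ L) (hB : 1 ≤ B)
    (h1 : ⌊Y / g⌋₊ ≡ M0 [MOD L]) (h2 : (k : ℝ) / B ≤ Y / g - ⌊Y / g⌋₊)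
    (h3 : Y / g - ⌊Y / g⌋₊ < ((k : ℝ) + 1) / B) :
    Int.fract (Y / (L * g) - (M0 + (k : ℝ) / B) / L) < 1 / ((L : ℝ) * B) := by
  have hLr : (1 : ℝ) ≤ L := by exact_mod_cast hL
  have hBr : (1 : ℝ) ≤ B := by exact_mod_cast hB
  have hL0 : (0 : ℝ) < L := by linarith
  have hB0 : (0 : ℝ) < B := by linarith
  have hz : ∃ z : ℤ, ((⌊Y / g⌋₊ : ℝ) - M0) = L * z := by
    have h4 : ((L : ℕ) : ℤ) ∣ ((⌊Y / g⌋₊ : ℕ) : ℤ) - M0 := by
      exact (Nat.modEq_iff_dvd.1 h1.symm)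
    obtain ⟨z, hz⟩ := h4
    exact ⟨z, by exact_mod_cast congrArg (fun t : ℤ => (t : ℝ)) hz⟩
  obtain ⟨z, hz⟩ := hz
  set t : ℝ := ((Y / g - ⌊Y / g⌋₊) - (k : ℝ) / B) / L with ht
  have e : Y / (L * g) - (M0 + (k : ℝ) / B) / L = (z : ℝ) + t := by
    have e1 : Y / (L * g) = (Y / g) / L := by rw [div_div, mul_comm]
    have e2 : (z : ℝ) = ((⌊Y / g⌋₊ : ℝ) - M0) / L := by rw [hz]; field_simp
    rw [e1, e2, ht]
    ring
  have ht0 : 0 ≤ t := div_nonneg (by linarith) hL0.le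
  have ht1 : t < 1 / ((L : ℝ) * B) := by
    rw [ht, div_lt_div_iff₀ hL0 (by positivity)]
    have h5 : (Y / g - ⌊Y / g⌋₊) - (k : ℝ) / B < 1 / B := by
      have : ((k : ℝ) + 1) / B = k / B + 1 / B := by ring
      linarith
    have h6 : ((Y / g - ⌊Y / g⌋₊) - (k : ℝ) / B) * B < 1 := by
      rw [lt_div_iff₀ hB0] at h5; exact h5
    nlinarith
  have ht2 : t < 1 := by
    refine lt_of_lt_of_le ht1 ?_
    rw [div_le_one (by positivity)]
    nlinarith
  rw [e, Int.fract_intCast_add, Int.fract_eq_self.2 ⟨ht0, ht2⟩]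
  exact ht1

theorem prf (hWey : StWey) (hSec : StSec) (_hCap : StCap) : StEQ := by
  intro L B r κ hL hB hr hκ
  have hLr : (1 : ℝ) ≤ L := by exact_mod_cast hL
  have hBr : (1 : ℝ) ≤ B := by exact_mod_cast hB
  have hL0 : (0 : ℝ) < L := by linarith
  have hB0 : (0 : ℝ) < B := by linarith
  have hLB : (0 : ℝ) < L * B := by positivity
  have hLB1 : (1 : ℝ) ≤ L * B := by nlinarith
  obtain ⟨K, δ, hδ, hW⟩ := hWey (1 / ((L : ℝ) * B)) (κ / (4 * (L * B))) (by positivity)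
    (by rw [div_le_one hLB]; exact hLB1) (by positivity)
  choose! C hC0 hC using (fun (m : ℕ) (hm : 1 ≤ m) => hSec L m r hL hm hr)
  set Ct : ℝ := ∑ m ∈ Icc 1 K, C m with hCt
  have hCt0 : 0 ≤ Ct := sum_nonneg fun m hm => (hC0 m (mem_Icc.1 hm).1).le
  have hCm : ∀ m, 1 ≤ m → m ≤ K → C m ≤ Ct := fun m h1 h2 =>
    single_le_sum (f := C) (fun i hi => (hC0 i (mem_Icc.1 hi).1).le) (mem_Icc.2 ⟨h1, h2⟩)
  refine ⟨1 + 40 * L / r + (40 * L * Ct / (δ * r)) ^ 2 + L / r + 20 * L / r * ((4 + κ) / (3 * κ)), ?_⟩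
  intro n hn x0 M0 k hx0 hM0 hk
  have p1 : 0 ≤ 40 * L / r := by positivity
  have p2 : 0 ≤ (40 * L * Ct / (δ * r)) ^ 2 := by positivity
  have p3 : 0 ≤ L / r := by positivity
  have p4 : 0 ≤ 20 * L / r * ((4 + κ) / (3 * κ)) := by positivity
  have n1 : 1 ≤ n := by linarith
  have n2 : 40 * L / r ≤ n := by linarith
  have n3 : (40 * L * Ct / (δ * r)) ^ 2 ≤ n := by linarith
  have n4 : L / r ≤ n := by linarith
  have n5 : 20 * L / r * ((4 + κ) / (3 * κ)) ≤ n := by linarith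
  have hn0 : 0 < n := by linarith
  have hrn : 0 < r * n := mul_pos hr hn0
  have hLrn : L ≤ r * n := by rw [div_le_iff₀ hr] at n4; linarith
  have hx0L : (x0 : ℝ) ≤ L := by exact_mod_cast hx0.le
  -- the index range
  set a : ℕ := ⌈(r * n - x0) / L⌉₊ with ha
  set b : ℕ := ⌊(21 / 20 * r * n - x0) / L⌋₊ with hb
  have ha1 : (r * n - x0) / L ≤ a := Nat.le_ceil _
  have hpos : 0 ≤ (r * n - x0) / L := div_nonneg (by linarith) hL0.le
  have ha2 : (a : ℝ) < (r * n - x0) / L + 1 := Nat.ceil_lt_add_one hpos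
  have hpos2 : 0 ≤ (21 / 20 * r * n - x0) / L := div_nonneg (by linarith) hL0.le
  have hb1 : (b : ℝ) ≤ (21 / 20 * r * n - x0) / L := Nat.floor_le hpos2
  have hb2 : (21 / 20 * r * n - x0) / L < b + 1 := Nat.lt_floor_add_one _
  have hdiff : (21 / 20 * r * n - x0) / L - (r * n - x0) / L = r * n / (20 * L) := by
    field_simp; ring
  set R : ℝ := r * n / (20 * L) with hR
  have hR2 : 2 ≤ R := by
    rw [hR, le_div_iff₀ (by positivity)]
    rw [div_le_iff₀ hr] at n2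
    linarith
  have hab : a ≤ b + 1 := by
    have : (a : ℝ) < b + 2 := by linarith
    have : a < b + 2 := by exact_mod_cast this
    omega
  set N : ℕ := b + 1 - a with hN
  have hNr : (N : ℝ) = b + 1 - a := by rw [hN, Nat.cast_sub hab]; push_cast; ring
  have hNup : (N : ℝ) ≤ R + 1 := by rw [hNr]; linarith
  have hNlo : R / 2 ≤ N := by rw [hNr]; linarith
  -- the Weyl sums
  have hlo : r * n ≤ ((x0 + L * a : ℕ) : ℝ) := by
    push_cast
    rw [div_le_iff₀ hL0] at ha1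
    linarith
  have hhi : ∀ i < N, ((x0 + L * (a + i) : ℕ) : ℝ) ≤ 21 / 20 * r * n := by
    intro i hi
    push_cast
    have h1 : a + i ≤ b := by omega
    have h2 : ((a : ℝ) + i) ≤ b := by exact_mod_cast h1
    rw [le_div_iff₀ hL0] at hb1
    have h3 := mul_le_mul_of_nonneg_left h2 hL0.le
    linarith
  have hsum : ∀ m : ℕ, 1 ≤ m → m ≤ K →
      ‖∑ i ∈ range N, ee (m * (fun i : ℕ => n ^ 2 / (L * ((x0 + L * (a + i) : ℕ) : ℝ))) i)‖ ≤ δ * N := by
    intro m hm1 hm2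
    refine le_trans (hC m hm1 n x0 a N n1 hlo hhi) ?_
    have hs0 : 0 < Real.sqrt n := Real.sqrt_pos.2 hn0
    have h1 : C m * Real.sqrt n ≤ Ct * Real.sqrt n := mul_le_mul_of_nonneg_right (hCm m hm1 hm2) hs0.le
    have h2 : 40 * L * Ct / (δ * r) ≤ Real.sqrt n := Real.le_sqrt_of_sq_le n3
    have h3 : 40 * L * Ct ≤ Real.sqrt n * (δ * r) := (div_le_iff₀ (by positivity)).1 h2
    have h4 : Ct * Real.sqrt n ≤ δ * (R / 2) := by
      have h5 : δ * (R / 2) = δ * r * (Real.sqrt n * Real.sqrt n) / (40 * L) := by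
        rw [Real.mul_self_sqrt hn0.le, hR]; field_simp; ring
      rw [h5, le_div_iff₀ (by positivity)]
      have h6 := mul_le_mul_of_nonneg_right h3 hs0.le
      linarith
    have h6 : δ * (R / 2) ≤ δ * N := mul_le_mul_of_nonneg_left hNlo hδ.le
    linarith
  have hmain := hW N (fun i : ℕ => n ^ 2 / (L * ((x0 + L * (a + i) : ℕ) : ℝ)))
    ((M0 + (k : ℝ) / B) / L) hsum
  -- the cell is contained in the image
  have hsub : cel (n ^ 2) (r * n) (21 / 20 * r * n) L x0 M0 B k ⊆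
      ((range N).filter (fun i : ℕ => Int.fract
        ((fun i : ℕ => n ^ 2 / (L * ((x0 + L * (a + i) : ℕ) : ℝ))) i - (M0 + (k : ℝ) / B) / L) <
          1 / ((L : ℝ) * B))).image (fun i => x0 + L * (a + i)) := by
    intro g hg
    rw [cel, mem_filter, mem_Icc] at hg
    obtain ⟨⟨g1, g2⟩, g3, g4, g5, g6⟩ := hg
    have g1' : r * n ≤ g := Nat.ceil_le.1 g1
    have g2' : (g : ℝ) ≤ 21 / 20 * r * n := by
      have h := Nat.floor_le (show (0 : ℝ) ≤ 21 / 20 * r * n by positivity)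
      have h' : (g : ℝ) ≤ (⌊21 / 20 * r * n⌋₊ : ℝ) := by exact_mod_cast g2
      linarith
    have hmod : g % L = x0 := by
      have : g % L = x0 % L := g3
      rwa [Nat.mod_eq_of_lt hx0] at this
    have hgd : g = x0 + L * (g / L) := by
      have := Nat.mod_add_div g L
      omega
    set t : ℕ := g / L with ht
    have hgr : (g : ℝ) = x0 + L * t := by exact_mod_cast hgd
    have hta : a ≤ t := by
      rw [ha]
      apply Nat.ceil_le.2
      rw [div_le_iff₀ hL0]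
      linarith
    have htb : t ≤ b := by
      rw [hb]
      apply Nat.le_floor
      rw [le_div_iff₀ hL0]
      linarith
    rw [mem_image]
    refine ⟨t - a, ?_, ?_⟩
    · rw [mem_filter, mem_range]
      refine ⟨by omega, ?_⟩
      have e1 : x0 + L * (a + (t - a)) = g := by
        rw [Nat.add_sub_cancel' hta]; exact hgd.symm
      show Int.fract (n ^ 2 / (L * ((x0 + L * (a + (t - a)) : ℕ) : ℝ)) - (M0 + (k : ℝ) / B) / L) < _
      rw [e1]
      exact fract_lt (n ^ 2) g L B M0 k hL hB g4 g5 g6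
    · show x0 + L * (a + (t - a)) = g
      rw [Nat.add_sub_cancel' hta]; exact hgd.symm
  have hcard := (card_le_card hsub).trans card_image_le
  have hcard' : ((cel (n ^ 2) (r * n) (21 / 20 * r * n) L x0 M0 B k).card : ℝ) ≤
      (1 / ((L : ℝ) * B) + κ / (4 * (L * B))) * N := le_trans (by exact_mod_cast hcard) hmain
  refine hcard'.trans ?_
  have h7 : (1 / ((L : ℝ) * B) + κ / (4 * (L * B))) * N ≤
      (1 / ((L : ℝ) * B) + κ / (4 * (L * B))) * (R + 1) :=
    mul_le_mul_of_nonneg_left hNup (by positivity)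
  refine h7.trans ?_
  have h8 : (1 + κ) * (r * n / 20) / ((L : ℝ) ^ 2 * B) = (1 + κ) * R / (L * B) := by
    rw [hR]; field_simp
  have h9 : (1 / ((L : ℝ) * B) + κ / (4 * (L * B))) * (R + 1) = (1 + κ / 4) * (R + 1) / (L * B) := by
    field_simp
  rw [h8, h9]
  apply div_le_div_of_nonneg_right _ hLB.le
  have hR3 : (4 + κ) / (3 * κ) ≤ R := by
    rw [hR, le_div_iff₀ (by positivity)]
    have h10 : 20 * L / r * ((4 + κ) / (3 * κ)) = (20 * L * ((4 + κ) / (3 * κ))) / r := by ring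
    rw [h10, div_le_iff₀ hr] at n5
    linarith
  rw [div_le_iff₀ (by positivity)] at hR3
  nlinarith

end Pool.Agent.Work.MP_a8fbd7_nt.PAR.LC.I_EQ
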