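import Pool.Agent.Work.MP_a8fbd7_nt.PAR.LC.Stmts

set_option autoImplicit false

/-! MP_a8fbd7_nt, block LC: item Elo (lower bound for the single sum), helper54. -/

open Finset

noncomputable section

namespace Pool.Agent.Work.MP_a8fbd7_nt.PAR.LC.I_Elo

/-- many `ρ` -/
theorem cardR (hCap : StCap) {w0 ω : ℝ} {q : ℕ} (hw0 : 0 ≤ w0) (hw2 : w0 ≤ 2) (ho0 : 0 < ω)
    (ho1 : ω ≤ 1 / 2) (hq : 0 < q) (h6 : 6 / ω ≤ q) :
    ω * q / 2 ≤ (((range (3 * q + 1)).filter (fun ρ : ℕ => w0 * q ≤ (ρ : ℝ) ∧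
      (ρ : ℝ) ≤ (w0 + ω) * q ∧ ¬ q ∣ ρ)).card : ℝ) := by
  have hq0 : (0 : ℝ) < q := by exact_mod_cast hq
  have hx : 0 ≤ w0 * q := by positivity
  have hxy : w0 * q ≤ (w0 + ω) * q := by nlinarith
  have hyN : (w0 + ω) * q ≤ ((3 * q : ℕ) : ℝ) := by
    push_cast
    nlinarith
  have h1 := (hCap 1 0 (w0 * q) ((w0 + ω) * q) (3 * q) le_rfl hx hxy hyN).2
  have h2 := (hCap q 0 (w0 * q) ((w0 + ω) * q) (3 * q) hq hx hxy hyN).1
  have e1 : ((w0 + ω) * q - w0 * q) / ((1 : ℕ) : ℝ) = ω * q := by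
    push_cast
    ring
  have e2 : ((w0 + ω) * q - w0 * q) / (q : ℝ) = ω := by
    field_simp
    ring
  rw [e1] at h1
  rw [e2] at h2
  have h3 : (((range (3 * q + 1)).filter (fun n : ℕ => w0 * q ≤ (n : ℝ) ∧
      (n : ℝ) ≤ (w0 + ω) * q ∧ n ≡ 0 [MOD 1])).card : ℝ) ≤
      (((range (3 * q + 1)).filter (fun ρ : ℕ => w0 * q ≤ (ρ : ℝ) ∧
        (ρ : ℝ) ≤ (w0 + ω) * q ∧ ¬ q ∣ ρ)).card : ℝ) +
      (((range (3 * q + 1)).filter (fun n : ℕ => w0 * q ≤ (n : ℝ) ∧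
        (n : ℝ) ≤ (w0 + ω) * q ∧ n ≡ 0 [MOD q])).card : ℝ) := by
    rw [← Nat.cast_add]
    rw [Nat.cast_le]
    refine le_trans (card_le_card ?_) (card_union_le _ _)
    intro n hn
    simp only [mem_filter, mem_union] at hn ⊢
    by_cases hd : q ∣ n
    · exact Or.inr ⟨hn.1, hn.2.1, hn.2.2.1, (Nat.modEq_zero_iff_dvd).2 hd⟩
    · exact Or.inl ⟨hn.1, hn.2.1, hn.2.2.1, hd⟩
  have h4 : 6 ≤ ω * q := by
    rw [div_le_iff₀ ho0] at h6
    linarith
  linarith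

/-- many `z` for a given class modulo `q` -/
theorem cardZ (hCap : StCap) {W q t c : ℕ} {e0 e1 : ℝ} (he0 : 0 < e0) (he01 : e0 < e1)
    (he1 : e1 ≤ 1) (hq : 0 < q) (hcop : q.Coprime (primorial W))
    (h6 : 6 * (primorial W : ℝ) / (e1 - e0) ≤ t) :
    (Nat.totient (primorial W) : ℝ) * ((e1 - e0) * t / (2 * (primorial W : ℝ))) ≤
      (((range (q * t + 1)).filter (fun z : ℕ => e0 * q * t ≤ (z : ℝ) ∧ (z : ℝ) ≤ e1 * q * t ∧
        z ≡ c [MOD q] ∧ z.Coprime (primorial W))).card : ℝ) := by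
  set P := primorial W with hP
  have hPpos : 0 < P := primorial_pos W
  have hP0 : (0 : ℝ) < P := by exact_mod_cast hPpos
  have hq0 : (0 : ℝ) < q := by exact_mod_cast hq
  have ht0 : (0 : ℝ) ≤ t := Nat.cast_nonneg t
  have hη : 0 < e1 - e0 := by linarith
  set U : Finset ℕ := (range P).filter (fun u => P.Coprime u) with hU
  have hUc : U.card = Nat.totient P := by
    rw [Nat.totient_eq_card_coprime]
  set Zu : ℕ → Finset ℕ := fun u => (range (q * t + 1)).filter (fun z : ℕ => e0 * q * t ≤ (z : ℝ) ∧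
    (z : ℝ) ≤ e1 * q * t ∧ z ≡ (Nat.chineseRemainder hcop c u : ℕ) [MOD (q * P)]) with hZu
  have h1 : ∀ u, (e1 - e0) * t / (2 * P) ≤ ((Zu u).card : ℝ) := by
    intro u
    have hx : 0 ≤ e0 * q * t := by positivity
    have hxy : e0 * q * t ≤ e1 * q * t := by
      have : 0 ≤ (q : ℝ) * t := by positivity
      nlinarith
    have hyN : e1 * q * t ≤ ((q * t : ℕ) : ℝ) := by
      push_cast
      have : 0 ≤ (q : ℝ) * t := by positivity
      nlinarith
    have h2 := (hCap (q * P) (Nat.chineseRemainder hcop c u : ℕ) (e0 * q * t) (e1 * q * t) (q * t)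
      (Nat.mul_pos hq hPpos) hx hxy hyN).2
    have e1' : (e1 * q * t - e0 * q * t) / ((q * P : ℕ) : ℝ) = (e1 - e0) * t / P := by
      push_cast
      field_simp
    rw [e1'] at h2
    have h3 : 6 ≤ (e1 - e0) * t / P := by
      rw [div_le_iff₀ hη] at h6
      rw [le_div_iff₀ hP0]
      linarith
    have h4 : (e1 - e0) * t / (2 * P) = (e1 - e0) * t / P / 2 := by
      field_simp
    rw [h4]
    refine le_trans ?_ h2
    linarith
  have h2 : (U.sigma Zu).card ≤ ((range (q * t + 1)).filter (fun z : ℕ => e0 * q * t ≤ (z : ℝ) ∧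
      (z : ℝ) ≤ e1 * q * t ∧ z ≡ c [MOD q] ∧ z.Coprime P)).card := by
    apply Finset.card_le_card_of_injOn (fun x => x.2)
    · intro x hx
      have hx' := mem_sigma.1 (mem_coe.1 hx)
      obtain ⟨hu, hz⟩ := hx'
      rw [hZu] at hz
      simp only [mem_filter] at hz
      rw [hU, mem_filter] at hu
      have hcr := (Nat.chineseRemainder hcop c x.1).2
      have m1 : x.2 ≡ c [MOD q] := (Nat.ModEq.of_mul_right P hz.2.2.2).trans hcr.1
      have m2 : x.2 ≡ x.1 [MOD P] := (Nat.ModEq.of_mul_left q hz.2.2.2).trans hcr.2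
      apply mem_coe.2
      simp only [mem_filter]
      refine ⟨hz.1, hz.2.1, hz.2.2.1, m1, ?_⟩
      have h3 := m2.gcd_eq
      have h4 : Nat.gcd x.1 P = 1 := (Nat.coprime_comm.1 hu.2)
      exact h3.trans h4
    · intro x hx y hy hxy
      have hx' := mem_sigma.1 (mem_coe.1 hx)
      have hy' := mem_sigma.1 (mem_coe.1 hy)
      obtain ⟨hu, hz⟩ := hx'
      obtain ⟨hu', hz'⟩ := hy'
      rw [hZu] at hz hz'
      simp only [mem_filter] at hz hz'
      rw [hU, mem_filter, mem_range] at hu hu'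
      have m2 : x.2 ≡ x.1 [MOD P] :=
        (Nat.ModEq.of_mul_left q hz.2.2.2).trans (Nat.chineseRemainder hcop c x.1).2.2
      have m2' : y.2 ≡ y.1 [MOD P] :=
        (Nat.ModEq.of_mul_left q hz'.2.2.2).trans (Nat.chineseRemainder hcop c y.1).2.2
      have hxy' : x.2 = y.2 := hxy
      have h3 : x.1 ≡ y.1 [MOD P] := m2.symm.trans (hxy' ▸ m2')
      have h4 : x.1 = y.1 := Nat.ModEq.eq_of_lt_of_lt h3 hu.1 hu'.1
      obtain ⟨x1, x2⟩ := x
      obtain ⟨y1, y2⟩ := y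
      simp only at h4 hxy'
      subst h4
      subst hxy'
      rfl
  rw [card_sigma] at h2
  have h3 : (U.card : ℝ) * ((e1 - e0) * t / (2 * P)) ≤ ((∑ u ∈ U, (Zu u).card : ℕ) : ℝ) := by
    push_cast
    rw [← nsmul_eq_mul]
    exact card_nsmul_le_sum _ _ _ fun u _ => h1 u
  rw [← hUc]
  exact h3.trans (by exact_mod_cast h2)

theorem prf (hCap : StCap) : StElo := by
  intro W w0 ω e0 e1 q t hW hq ht hWq hqt h6 h6'
  obtain ⟨hw0, hw2, ho0, ho1, he0, he01, he1⟩ := hW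
  set P := primorial W with hP
  have hPpos : 0 < P := primorial_pos W
  have hP0 : (0 : ℝ) < P := by exact_mod_cast hPpos
  have hq0 : (0 : ℝ) < q := by exact_mod_cast hq.pos
  have ht0 : (0 : ℝ) < t := by exact_mod_cast ht.pos
  have hη : 0 < e1 - e0 := by linarith
  have he1p : 0 < e1 := by linarith
  have hcop : q.Coprime P := by
    rw [hq.coprime_iff_not_dvd]
    intro hd
    rw [hP, primorial] at hd
    obtain ⟨p, hp, hdp⟩ := (Prime.dvd_finsetProd_iff (Nat.prime_iff.1 hq) _).1 hd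
    rw [mem_filter, mem_range] at hp
    have := (Nat.prime_dvd_prime_iff_eq hq hp.2).1 hdp
    omega
  have hR := cardR hCap hw0 hw2 ho0 ho1 hq.pos h6
  set R : Finset ℕ := (range (3 * q + 1)).filter (fun ρ : ℕ => w0 * q ≤ (ρ : ℝ) ∧
      (ρ : ℝ) ≤ (w0 + ω) * q ∧ ¬ q ∣ ρ) with hRdef
  set Z : ℕ → Finset ℕ := fun ρ => (range (q * t + 1)).filter (fun z : ℕ => e0 * q * t ≤ (z : ℝ) ∧
    (z : ℝ) ≤ e1 * q * t ∧ z ≡ t * ρ [MOD q] ∧ z.Coprime P) with hZ
  have hZc : ∀ ρ, (Nat.totient P : ℝ) * ((e1 - e0) * t / (2 * (P : ℝ))) ≤ ((Z ρ).card : ℝ) :=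
    fun ρ => cardZ hCap he0 he01 he1 hq.pos hcop h6'
  have h1 : (R.sigma Z).card ≤ (Zs W w0 ω e0 e1 q t).card := by
    apply Finset.card_le_card_of_injOn (fun x => (x.2, x.1))
    · intro x hx
      obtain ⟨hr, hz⟩ := mem_sigma.1 (mem_coe.1 hx)
      rw [hRdef, mem_filter] at hr
      rw [hZ] at hz
      simp only [mem_filter] at hz
      apply mem_coe.2
      unfold Zs
      simp only [mem_filter, mem_product]
      refine ⟨⟨hz.1, hr.1⟩, hz.2.1, hz.2.2.1, hz.2.2.2.2, ?_, hr.2.1, hr.2.2.1, hz.2.2.2.1.symm⟩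
      have h2 : ¬ q ∣ x.2 := by
        intro hd
        have h3 : q ∣ t * x.1 := (Nat.ModEq.dvd_iff hz.2.2.2.1 (dvd_refl q)).1 hd
        rcases (Nat.Prime.dvd_mul hq).1 h3 with h4 | h4
        · have := (Nat.prime_dvd_prime_iff_eq hq ht).1 h4
          omega
        · exact hr.2.2.2 h4
      exact Nat.coprime_comm.1 ((hq.coprime_iff_not_dvd).2 h2)
    · intro x _ y _ hxy
      obtain ⟨x1, x2⟩ := x
      obtain ⟨y1, y2⟩ := y
      simp only [Prod.mk.injEq] at hxy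
      obtain ⟨h2, h3⟩ := hxy
      subst h2
      subst h3
      rfl
  rw [card_sigma] at h1
  have h2 : (ω * q / 2) * ((Nat.totient P : ℝ) * ((e1 - e0) * t / (2 * (P : ℝ)))) ≤
      ((Zs W w0 ω e0 e1 q t).card : ℝ) := by
    have h3 : (R.card : ℝ) * ((Nat.totient P : ℝ) * ((e1 - e0) * t / (2 * (P : ℝ)))) ≤
        ((∑ ρ ∈ R, (Z ρ).card : ℕ) : ℝ) := by
      push_cast
      rw [← nsmul_eq_mul]
      exact card_nsmul_le_sum _ _ _ fun ρ _ => hZc ρ
    have h4 : 0 ≤ (Nat.totient P : ℝ) * ((e1 - e0) * t / (2 * (P : ℝ))) := by positivity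
    calc (ω * q / 2) * ((Nat.totient P : ℝ) * ((e1 - e0) * t / (2 * (P : ℝ))))
        ≤ (R.card : ℝ) * ((Nat.totient P : ℝ) * ((e1 - e0) * t / (2 * (P : ℝ)))) :=
          mul_le_mul_of_nonneg_right hR h4
      _ ≤ _ := h3.trans (by exact_mod_cast h1)
  have h3 : ((Zs W w0 ω e0 e1 q t).card : ℝ) * (1 / (e1 * q * t)) ≤ Es W w0 ω e0 e1 q t := by
    unfold Es
    rw [← nsmul_eq_mul]
    refine card_nsmul_le_sum _ _ _ fun s hs => ?_
    unfold Zs at hs
    rw [mem_filter] at hs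
    have h4 : 0 < (s.1 : ℝ) := lt_of_lt_of_le (by positivity) hs.2.1
    exact one_div_le_one_div_of_le h4 hs.2.2.1
  have h4 : 0 ≤ 1 / (e1 * q * t) := by positivity
  calc ω * (e1 - e0) * (Nat.totient P : ℝ) / (4 * e1 * (P : ℝ))
      = (ω * q / 2) * ((Nat.totient P : ℝ) * ((e1 - e0) * t / (2 * (P : ℝ)))) *
          (1 / (e1 * q * t)) := by
        field_simp
        ring
    _ ≤ ((Zs W w0 ω e0 e1 q t).card : ℝ) * (1 / (e1 * q * t)) :=
        mul_le_mul_of_nonneg_right h2 h4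
    _ ≤ _ := h3

end Pool.Agent.Work.MP_a8fbd7_nt.PAR.LC.I_Elo
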