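import Pool.Agent.Work.MP_a8fbd7_nt.PAR.LC.Stmts

set_option autoImplicit false

/-! MP_a8fbd7_nt, block LC, item Eup: upper bound for the single sum. -/

open Finset

noncomputable section

namespace Pool.Agent.Work.MP_a8fbd7_nt.PAR.LC.I_Eup

/-- the values of `ρ` -/
def Rr (w0 ω : ℝ) (q : ℕ) : Finset ℕ :=
  (range (3 * q + 1)).filter (fun n : ℕ =>
    w0 * q ≤ (n : ℝ) ∧ (n : ℝ) ≤ (w0 + ω) * q ∧ n ≡ 0 [MOD 1])

/-- the values of `z` for fixed `ρ` -/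
def Zr (e0 e1 : ℝ) (q t ρ : ℕ) : Finset ℕ :=
  (range (q * t + 1)).filter (fun n : ℕ =>
    e0 * q * t ≤ (n : ℝ) ∧ (n : ℝ) ≤ e1 * q * t ∧ n ≡ t * ρ [MOD q])

theorem card_Rr (hCap : StCap) (w0 ω e0 e1 : ℝ) (q : ℕ) (hW : Wn w0 ω e0 e1) :
    ((Rr w0 ω q).card : ℝ) ≤ ω * q + 1 := by
  have hq0 : (0 : ℝ) ≤ q := Nat.cast_nonneg q
  have h0 := hW.hw0
  have h1 := hW.ho0
  have h2 := hW.ho1
  have h3 := hW.hw2
  have h := (hCap 1 0 (w0 * q) ((w0 + ω) * q) (3 * q) le_rfl (by positivity)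
    (by nlinarith) (by push_cast; nlinarith)).1
  refine h.trans (le_of_eq ?_)
  rw [Nat.cast_one, div_one]
  ring

theorem card_Zr (hCap : StCap) (w0 ω e0 e1 : ℝ) (q t ρ : ℕ) (hW : Wn w0 ω e0 e1)
    (hq : 1 ≤ q) : ((Zr e0 e1 q t ρ).card : ℝ) ≤ (e1 - e0) * t + 1 := by
  have hq0 : (0 : ℝ) < q := by exact_mod_cast (by omega : 0 < q)
  have ht0 : (0 : ℝ) ≤ t := Nat.cast_nonneg t
  have hqt : (0 : ℝ) ≤ q * t := by positivity
  have h0 := hW.he0
  have h1 := hW.he01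
  have h2 := hW.he1
  have h := (hCap q (t * ρ) (e0 * q * t) (e1 * q * t) (q * t) hq (by positivity)
    (by nlinarith) (by push_cast; nlinarith)).1
  refine h.trans (le_of_eq ?_)
  field_simp

theorem card_Zs (W : ℕ) (w0 ω e0 e1 : ℝ) (q t : ℕ) (X : ℝ)
    (hX : ∀ ρ, ((Zr e0 e1 q t ρ).card : ℝ) ≤ X) :
    ((Zs W w0 ω e0 e1 q t).card : ℝ) ≤ ((Rr w0 ω q).card : ℝ) * X := by
  classical
  have hmap : ∀ s ∈ Zs W w0 ω e0 e1 q t, s.2 ∈ Rr w0 ω q := by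
    intro s hs
    obtain ⟨h1, h2, h3, h4, h5, h6, h7, h8⟩ := Finset.mem_filter.1 hs
    exact Finset.mem_filter.2 ⟨(Finset.mem_product.1 h1).2, h6, h7, Nat.modEq_one⟩
  rw [Finset.card_eq_sum_card_fiberwise hmap, Nat.cast_sum, ← nsmul_eq_mul]
  refine Finset.sum_le_card_nsmul _ _ _ fun ρ _ => le_trans ?_ (hX ρ)
  have h : ((Zs W w0 ω e0 e1 q t).filter (fun s => s.2 = ρ)).card ≤ (Zr e0 e1 q t ρ).card := by
    refine Finset.card_le_card_of_injOn Prod.fst ?_ ?_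
    · intro s hs
      obtain ⟨hs', hρ⟩ := Finset.mem_filter.1 (Finset.mem_coe.1 hs)
      obtain ⟨h1, h2, h3, h4, h5, h6, h7, h8⟩ := Finset.mem_filter.1 hs'
      refine Finset.mem_coe.2 (Finset.mem_filter.2 ⟨(Finset.mem_product.1 h1).1, h2, h3, ?_⟩)
      rw [← hρ]
      exact h8.symm
    · intro s hs s' hs' hss
      have h1 := (Finset.mem_filter.1 (Finset.mem_coe.1 hs)).2
      have h2 := (Finset.mem_filter.1 (Finset.mem_coe.1 hs')).2
      exact Prod.ext hss (h1.trans h2.symm)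
  exact_mod_cast h

theorem prf (hCap : StCap) : StEup := by
  intro W w0 ω e0 e1 q t hW hq ht hω he
  have hq0 : (0 : ℝ) < q := by exact_mod_cast (by omega : 0 < q)
  have ht0 : (0 : ℝ) < t := by exact_mod_cast (by omega : 0 < t)
  have h0 := hW.ho0
  have h1 := hW.he0
  have h2 : 0 < e1 - e0 := by linarith [hW.he01]
  have hω' : 1 ≤ ω * q := by
    rw [div_le_iff₀ h0] at hω
    linarith
  have he' : 1 ≤ (e1 - e0) * t := by
    rw [div_le_iff₀ h2] at he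
    linarith
  have hR := card_Rr hCap w0 ω e0 e1 q hW
  have hZ : ∀ ρ, ((Zr e0 e1 q t ρ).card : ℝ) ≤ 2 * ((e1 - e0) * t) := fun ρ => by
    have := card_Zr hCap w0 ω e0 e1 q t ρ hW hq
    linarith
  have hC := card_Zs W w0 ω e0 e1 q t _ hZ
  have hpos : 0 < e0 * q * t := by positivity
  have hsum : Es W w0 ω e0 e1 q t ≤ ((Zs W w0 ω e0 e1 q t).card : ℝ) * (1 / (e0 * q * t)) := by
    unfold Es
    rw [← nsmul_eq_mul]
    refine Finset.sum_le_card_nsmul _ _ _ fun s hs => ?_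
    exact one_div_le_one_div_of_le hpos (Finset.mem_filter.1 hs).2.1
  have hC' : ((Zs W w0 ω e0 e1 q t).card : ℝ) ≤ 2 * (ω * q) * (2 * ((e1 - e0) * t)) := by
    refine hC.trans (mul_le_mul_of_nonneg_right ?_ (by positivity))
    linarith
  refine hsum.trans ((mul_le_mul_of_nonneg_right hC' (by positivity)).trans (le_of_eq ?_))
  field_simp
  ring

end Pool.Agent.Work.MP_a8fbd7_nt.PAR.LC.I_Eup
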