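import Pool.Agent.Work.MP_a8fbd7_nt.PAR.LC.Stmts

set_option autoImplicit false

/-!
MP_a8fbd7_nt, block LC, item Gpa: the sum over `a, a', g`.
-/

open Finset

noncomputable section

namespace Pool.Agent.Work.MP_a8fbd7_nt.PAR.LC.I_Gpa

/-- What membership in `Zs` gives. -/
theorem of_Zs {W : ℕ} {w0 ω e0 e1 : ℝ} {q t : ℕ} {s : ℕ × ℕ} (h : s ∈ Zs W w0 ω e0 e1 q t) :
    s.1 ≤ q * t ∧ e0 * q * t ≤ s.1 ∧ (s.1 : ℝ) ≤ e1 * q * t ∧ s.1.Coprime q ∧
    w0 * q ≤ s.2 ∧ (s.2 : ℝ) ≤ (w0 + ω) * q ∧ t * s.2 ≡ s.1 [MOD q] := by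
  simp only [Zs, mem_filter, mem_product, mem_range] at h
  obtain ⟨⟨h1, -⟩, h2, h3, -, h4, h5, h6, h7⟩ := h
  exact ⟨by omega, h2, h3, h4, h5, h6, h7⟩

/-- `ρ` is determined by `z`. -/
theorem rho_eq {w0 ω : ℝ} {q t r r' z : ℕ} (ho : ω ≤ 1 / 2) (hq : q.Prime) (ht : t.Prime) (hqt : q ≠ t)
    (h1 : w0 * q ≤ r) (h2 : (r : ℝ) ≤ (w0 + ω) * q) (h3 : t * r ≡ z [MOD q])
    (h1' : w0 * q ≤ r') (h2' : (r' : ℝ) ≤ (w0 + ω) * q) (h3' : t * r' ≡ z [MOD q]) : r = r' := by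
  have hq0 : (0 : ℝ) < q := by exact_mod_cast hq.pos
  have hc : Nat.gcd q t = 1 := (Nat.coprime_primes hq ht).2 hqt
  have hm : r ≡ r' [MOD q] := Nat.ModEq.cancel_left_of_coprime hc (h3.trans h3'.symm)
  have hω : ω * q ≤ 1 / 2 * q := mul_le_mul_of_nonneg_right ho hq0.le
  have ha : (r : ℝ) < r' + q := by nlinarith
  have hb : (r' : ℝ) < r + q := by nlinarith
  have ha' : r < r' + q := by exact_mod_cast ha
  have hb' : r' < r + q := by exact_mod_cast hb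
  rcases le_total r r' with h | h
  · have hd : q ∣ r' - r := (Nat.modEq_iff_dvd' h).1 hm
    have : r' - r = 0 := Nat.eq_zero_of_dvd_of_lt hd (by omega)
    omega
  · have hd : q ∣ r - r' := (Nat.modEq_iff_dvd' h).1 hm.symm
    have : r - r' = 0 := Nat.eq_zero_of_dvd_of_lt hd (by omega)
    omega

/-- The map `(s, s') ↦ (a, a', g)`. -/
def phi (p : (ℕ × ℕ) × (ℕ × ℕ)) : Σ _ : ℕ, Σ _ : ℕ, ℕ :=
  ⟨p.1.1 / Nat.gcd p.1.1 p.2.1, p.2.1 / Nat.gcd p.1.1 p.2.1, Nat.gcd p.1.1 p.2.1⟩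

theorem prf (hHar : StHar) : StGpa := by
  intro W w0 ω e0 e1 q t t' N hW hq ht ht' hqt hqt' hN hN'
  obtain ⟨-, hH, -⟩ := hHar
  have hq0 : (0 : ℝ) < q := by exact_mod_cast hq.pos
  have ht0 : (0 : ℝ) < t := by exact_mod_cast ht.pos
  have ht0' : (0 : ℝ) < t' := by exact_mod_cast ht'.pos
  have he0 := hW.he0
  have he1 : 0 < e1 := he0.trans hW.he01
  have hl : 1 ≤ e1 / e0 := by rw [le_div_iff₀ he0]; linarith [hW.he01]
  -- the sets
  set A : Finset ℕ := (Icc 1 N).filter (fun a => a.Coprime q) with hA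
  set B : ℕ → Finset ℕ := fun a => (Icc 1 N).filter
    (fun a' => a * t' ≡ a' * t [MOD q] ∧ a' * t * e0 ≤ a * t' * e1 ∧ a * t' * e0 ≤ a' * t * e1) with hB
  set G : ℕ → Finset ℕ := fun a => (Icc 1 N).filter
    (fun n : ℕ => e0 * q * t / a ≤ (n : ℝ) ∧ (n : ℝ) ≤ e1 / e0 * (e0 * q * t / a)) with hG
  set S : Finset ((ℕ × ℕ) × (ℕ × ℕ)) := (Zs W w0 ω e0 e1 q t ×ˢ Zs W w0 ω e0 e1 q t').filter
    (fun p => p.2.2 = p.1.2) with hS
  set T : Finset (Σ _ : ℕ, Σ _ : ℕ, ℕ) := A.sigma (fun a => (B a).sigma (fun _ => G a)) with hT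
  let F : (Σ _ : ℕ, Σ _ : ℕ, ℕ) → ℝ := fun y => 1 / ((y.1 : ℝ) * y.2.1) * (1 / (y.2.2 : ℝ))
  -- the left side
  have hGs : Gs W w0 ω e0 e1 q t t' =
      ∑ p ∈ S, (Nat.gcd p.1.1 p.2.1 : ℝ) / ((p.1.1 : ℝ) * p.2.1) := by
    rw [hS, sum_filter, sum_product, Gs]
    refine sum_congr rfl fun s _ => ?_
    rw [sum_filter]
  -- facts on the elements of S
  have hfact : ∀ p ∈ S, ∃ g a a' : ℕ, Nat.gcd p.1.1 p.2.1 = g ∧ p.1.1 / g = a ∧ p.2.1 / g = a' ∧
      1 ≤ g ∧ 1 ≤ a ∧ 1 ≤ a' ∧ p.1.1 = g * a ∧ p.2.1 = g * a' := by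
    intro p hp
    rw [hS, mem_filter, mem_product] at hp
    obtain ⟨⟨h1, h2⟩, h3⟩ := hp
    obtain ⟨-, hz, -⟩ := of_Zs h1
    obtain ⟨-, hz', -⟩ := of_Zs h2
    have hz1 : 0 < p.1.1 := by
      have : (0 : ℝ) < p.1.1 := lt_of_lt_of_le (by positivity) hz
      exact_mod_cast this
    have hz1' : 0 < p.2.1 := by
      have : (0 : ℝ) < p.2.1 := lt_of_lt_of_le (by positivity) hz'
      exact_mod_cast this
    have hg : 0 < Nat.gcd p.1.1 p.2.1 := Nat.gcd_pos_of_pos_left _ hz1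
    refine ⟨_, _, _, rfl, rfl, rfl, hg, ?_, ?_, ?_, ?_⟩
    · exact Nat.div_pos (Nat.gcd_le_left _ hz1) hg
    · exact Nat.div_pos (Nat.gcd_le_right _ hz1') hg
    · exact (Nat.mul_div_cancel' (Nat.gcd_dvd_left _ _)).symm
    · exact (Nat.mul_div_cancel' (Nat.gcd_dvd_right _ _)).symm
  -- the map is injective
  have hinj : Set.InjOn phi (S : Set ((ℕ × ℕ) × (ℕ × ℕ))) := by
    intro p hp p' hp' h
    have hp1 := hfact p (mem_coe.1 hp)
    have hp1' := hfact p' (mem_coe.1 hp')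
    obtain ⟨g, a, b, hg, ha, hb, -, -, -, e1', e2'⟩ := hp1
    obtain ⟨g', a', b', hg', ha', hb', -, -, -, e3', e4'⟩ := hp1'
    have h' := h
    simp only [phi, hg, hg', ha, ha', hb, hb', Sigma.mk.injEq, heq_eq_eq] at h'
    obtain ⟨r1, r2, r3⟩ := h'
    have hz : p.1.1 = p'.1.1 := by rw [e1', e3', r1, r3]
    have hz' : p.2.1 = p'.2.1 := by rw [e2', e4', r2, r3]
    have hp2 := mem_coe.1 hp
    have hp2' := mem_coe.1 hp'
    rw [hS, mem_filter, mem_product] at hp2 hp2'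
    obtain ⟨⟨m1, m2⟩, m3⟩ := hp2
    obtain ⟨⟨m1', m2'⟩, m3'⟩ := hp2'
    obtain ⟨-, -, -, -, k1, k2, k3⟩ := of_Zs m1
    obtain ⟨-, -, -, -, k1', k2', k3'⟩ := of_Zs m1'
    rw [← hz] at k3'
    have hr : p.1.2 = p'.1.2 := rho_eq hW.ho1 hq ht hqt k1 k2 k3 k1' k2' k3'
    have hr' : p.2.2 = p'.2.2 := by rw [m3, m3', hr]
    exact Prod.ext (Prod.ext hz hr) (Prod.ext hz' hr')
  -- the value
  have hval : ∀ p ∈ S, (Nat.gcd p.1.1 p.2.1 : ℝ) / ((p.1.1 : ℝ) * p.2.1) = F (phi p) := by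
    intro p hp
    obtain ⟨g, a, b, hg, ha, hb, h1, h2, h3, e1', e2'⟩ := hfact p hp
    have hg0 : (0 : ℝ) < g := by exact_mod_cast h1
    have ha0 : (0 : ℝ) < a := by exact_mod_cast h2
    have hb0 : (0 : ℝ) < b := by exact_mod_cast h3
    simp only [F, phi, hg, ha, hb]
    rw [e1', e2']
    push_cast
    field_simp
  -- the image
  have himg : S.image phi ⊆ T := by
    intro y hy
    rw [mem_image] at hy
    obtain ⟨p, hp, rfl⟩ := hy
    obtain ⟨g, a, b, hg, ha, hb, h1, h2, h3, e1', e2'⟩ := hfact p hp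
    have hp2 := hp
    rw [hS, mem_filter, mem_product] at hp2
    obtain ⟨⟨m1, m2⟩, m3⟩ := hp2
    obtain ⟨k0, z1, z2, zc, -, -, k3⟩ := of_Zs m1
    obtain ⟨k0', z1', z2', zc', -, -, k3'⟩ := of_Zs m2
    have hg0 : (0 : ℝ) < g := by exact_mod_cast h1
    have ha0 : (0 : ℝ) < a := by exact_mod_cast h2
    have hb0 : (0 : ℝ) < b := by exact_mod_cast h3
    rw [e1'] at k0 z1 z2 zc k3
    rw [e2'] at k0' z1' z2' zc' k3'
    rw [m3] at k3'
    have hga : g ≤ g * a := Nat.le_mul_of_pos_right g h2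
    have haa : a ≤ g * a := Nat.le_mul_of_pos_left a h1
    have hbb : b ≤ g * b := Nat.le_mul_of_pos_left b h1
    push_cast at z1 z2 z1' z2'
    simp only [hT, phi, hg, ha, hb, mem_sigma]
    refine ⟨?_, ?_, ?_⟩
    · rw [hA, mem_filter, mem_Icc]
      exact ⟨⟨h2, by omega⟩, Nat.Coprime.coprime_dvd_left (Dvd.intro_left g rfl) zc⟩
    · simp only [hB, mem_filter, mem_Icc]
      refine ⟨⟨h3, by omega⟩, ?_, ?_, ?_⟩
      · have hgq : Nat.gcd q g = 1 := by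
          rw [Nat.gcd_comm]
          exact Nat.Coprime.coprime_dvd_left (Dvd.intro a rfl) zc
        refine Nat.ModEq.cancel_left_of_coprime hgq ?_
        have u1 : g * (a * t') ≡ t * p.1.2 * t' [MOD q] := by
          have := (k3.symm).mul_right t'
          rwa [mul_assoc g a t'] at this
        have u2 : g * (b * t) ≡ t' * p.1.2 * t [MOD q] := by
          have := (k3'.symm).mul_right t
          rwa [mul_assoc g b t] at this
        have u3 : t * p.1.2 * t' = t' * p.1.2 * t := by ring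
        rw [u3] at u1
        exact u1.trans u2.symm
      · have v1 : (g : ℝ) * b * (t * e0) ≤ e1 * q * t' * (t * e0) :=
          mul_le_mul_of_nonneg_right z2' (by positivity)
        have v2 : e0 * q * t * (t' * e1) ≤ (g : ℝ) * a * (t' * e1) :=
          mul_le_mul_of_nonneg_right z1 (by positivity)
        have v3 : (g : ℝ) * (b * t * e0) ≤ g * (a * t' * e1) := by nlinarith
        exact le_of_mul_le_mul_left v3 hg0
      · have v1 : (g : ℝ) * a * (t' * e0) ≤ e1 * q * t * (t' * e0) :=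
          mul_le_mul_of_nonneg_right z2 (by positivity)
        have v2 : e0 * q * t' * (t * e1) ≤ (g : ℝ) * b * (t * e1) :=
          mul_le_mul_of_nonneg_right z1' (by positivity)
        have v3 : (g : ℝ) * (a * t' * e0) ≤ g * (b * t * e1) := by nlinarith
        exact le_of_mul_le_mul_left v3 hg0
    · simp only [hG, mem_filter, mem_Icc]
      refine ⟨⟨h1, by omega⟩, ?_, ?_⟩
      · rw [div_le_iff₀ ha0]; exact z1
      · have : e1 / e0 * (e0 * q * t / a) = e1 * q * t / a := by field_simp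
        rw [this, le_div_iff₀ ha0]; exact z2
  -- assembly
  have hF0 : ∀ y : (Σ _ : ℕ, Σ _ : ℕ, ℕ), 0 ≤ F y := fun y => by positivity
  calc Gs W w0 ω e0 e1 q t t' = ∑ p ∈ S, F (phi p) := by
        rw [hGs]; exact sum_congr rfl hval
    _ = ∑ y ∈ S.image phi, F y := by
        rw [sum_image (fun a ha b hb h => hinj (mem_coe.2 ha) (mem_coe.2 hb) h)]
    _ ≤ ∑ y ∈ T, F y := sum_le_sum_of_subset_of_nonneg himg (fun y _ _ => hF0 y)
    _ = ∑ a ∈ A, ∑ a' ∈ B a, ∑ g ∈ G a, 1 / ((a : ℝ) * a') * (1 / (g : ℝ)) := by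
        rw [hT, sum_sigma]
        refine sum_congr rfl fun a _ => ?_
        rw [sum_sigma]
    _ ≤ ∑ a ∈ A, ∑ a' ∈ B a, 1 / ((a : ℝ) * a') * (e1 / e0) := by
        refine sum_le_sum fun a ha => sum_le_sum fun a' _ => ?_
        rw [← mul_sum]
        rw [hA, mem_filter, mem_Icc] at ha
        have ha0 : (0 : ℝ) < a := by exact_mod_cast ha.1.1
        exact mul_le_mul_of_nonneg_left (hH N (e0 * q * t / a) (e1 / e0) (by positivity) hl)
          (by positivity)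
    _ = e1 / e0 * ∑ a ∈ A, ∑ a' ∈ B a, 1 / ((a : ℝ) * a') := by
        rw [mul_sum]
        refine sum_congr rfl fun a _ => ?_
        rw [mul_sum]
        exact sum_congr rfl fun a' _ => mul_comm _ _

end Pool.Agent.Work.MP_a8fbd7_nt.PAR.LC.I_Gpa
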