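import Pool.Agent.Work.MP_a8fbd7_nt.PAR.LC.Stmts

set_option autoImplicit false

open Finset

namespace Pool.Agent.Work.MP_a8fbd7_nt.PAR.LC.I_GsT

/-- the condition -/
def Cd (e0 e1 : ℝ) (q t a a' t' : ℕ) : Prop :=
  a * t' ≡ a' * t [MOD q] ∧ (a' : ℝ) * t * e0 ≤ a * t' * e1 ∧ (a : ℝ) * t' * e0 ≤ a' * t * e1

open Classical in
theorem inner (hHar : StHar) (e0 e1 : ℝ) (h0 : 0 < e0) (h01 : e0 < e1) (q t T1 T2 : ℕ)
    (T : Finset ℕ) (hq : q.Prime) (hT : ∀ p ∈ T, p.Prime ∧ T1 ≤ p ∧ p ≤ T2) (hqT : q < T1)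
    (ht : t ∈ T) (a a' : ℕ) (ha : 1 ≤ a) (ha' : 1 ≤ a') (hac : a.Coprime q) :
    ∑ t' ∈ T.filter (fun t' => Cd e0 e1 q t a a' t'), 1 / (t' : ℝ) ≤ 3 * (e1 / e0) ^ 2 / q := by
  have hl : 1 ≤ e1 / e0 := by
    rw [le_div_iff₀ h0]
    linarith
  have he1 : 0 < e1 := by linarith
  have hq0 : (0 : ℝ) < q := by exact_mod_cast hq.pos
  have ht0 : (0 : ℝ) < t := by exact_mod_cast (hT t ht).1.pos
  have haR : (0 : ℝ) < a := by exact_mod_cast ha
  have haR' : (0 : ℝ) < a' := by exact_mod_cast ha'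
  rcases (T.filter (fun t' => Cd e0 e1 q t a a' t')).eq_empty_or_nonempty with hE | hE
  · rw [hE, sum_empty]
    positivity
  · obtain ⟨c, hc⟩ := hE
    obtain ⟨hcT, hcC⟩ := mem_filter.1 hc
    have hx : 0 < (a' : ℝ) * t * e0 / (a * e1) := by positivity
    have key := hHar.2.2 T2 q c T1 ((a' : ℝ) * t * e0 / (a * e1)) (e1 / e0) hq.one_le hqT.le hx hl
    refine le_trans (sum_le_sum_of_subset_of_nonneg ?_ ?_) key
    · intro t' ht'
      obtain ⟨htT, hC⟩ := mem_filter.1 ht'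
      obtain ⟨hp, hb1, hb2⟩ := hT t' htT
      obtain ⟨c1, c2, c3⟩ := hC
      rw [mem_filter, mem_Icc]
      refine ⟨⟨hp.one_le, hb2⟩, hb1, ?_, ?_, ?_⟩
      · rw [div_le_iff₀ (by positivity)]
        calc (a' : ℝ) * t * e0 ≤ a * t' * e1 := c2
          _ = t' * (a * e1) := by ring
      · have e : (e1 / e0) ^ 2 * ((a' : ℝ) * t * e0 / (a * e1)) = (a' : ℝ) * t * e1 / (a * e0) := by
          field_simp
        rw [e, le_div_iff₀ (by positivity)]
        calc (t' : ℝ) * (a * e0) = a * t' * e0 := by ring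
          _ ≤ _ := c3
      · have h1 : a * t' ≡ a * c [MOD q] := c1.trans hcC.1.symm
        exact Nat.ModEq.cancel_left_of_coprime (by rwa [Nat.gcd_comm]) h1
    · intro i _ _
      positivity

open Classical in
theorem prf (hGpa : StGpa) (hHar : StHar) : StGsT := by
  intro W w0 ω e0 e1 q t T1 T2 T hW hq hT hqT ht
  have h0 := hW.he0
  have h01 := hW.he01
  have he1 : 0 < e1 := by linarith
  have hq0 : (0 : ℝ) < q := by exact_mod_cast hq.pos
  have hqt : ∀ t' ∈ T, q ≠ t' := by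
    intro t' ht'
    have := (hT t' ht').2.1
    omega
  have hqN : ∀ t' ∈ T, q * t' ≤ q * T2 := fun t' ht' => Nat.mul_le_mul_left q (hT t' ht').2.2
  have hl0 : 0 ≤ e1 / e0 := by positivity
  set A := (Icc 1 (q * T2)).filter (fun a => a.Coprime q) with hA
  have step1 : ∀ t' ∈ T, Gs W w0 ω e0 e1 q t t' / t' ≤
      (e1 / e0) * ∑ a ∈ A, ∑ a' ∈ Icc 1 (q * T2),
        (if Cd e0 e1 q t a a' t' then 1 / ((a : ℝ) * a') * (1 / (t' : ℝ)) else 0) := by
    intro t' ht'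
    have hp : (0 : ℝ) < t' := by exact_mod_cast (hT t' ht').1.pos
    have h1 := hGpa W w0 ω e0 e1 q t t' (q * T2) hW hq (hT t ht).1 (hT t' ht').1 (hqt t ht)
      (hqt t' ht') (hqN t ht) (hqN t' ht')
    rw [div_le_iff₀ hp]
    refine le_trans h1 (le_of_eq ?_)
    rw [mul_assoc, sum_mul]
    congr 1
    refine sum_congr rfl fun a _ => ?_
    rw [sum_mul, sum_filter]
    refine sum_congr rfl fun a' _ => ?_
    by_cases hC : Cd e0 e1 q t a a' t'
    · rw [if_pos hC]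
      unfold Cd at hC
      rw [if_pos hC]
      field_simp
    · rw [if_neg hC, zero_mul]
      unfold Cd at hC
      rw [if_neg hC]
  have step2 : ∑ t' ∈ T, Gs W w0 ω e0 e1 q t t' / t' ≤
      (e1 / e0) * ∑ a ∈ A, ∑ a' ∈ Icc 1 (q * T2), 1 / ((a : ℝ) * a') *
        (3 * (e1 / e0) ^ 2 / q) := by
    refine le_trans (sum_le_sum step1) ?_
    rw [← mul_sum]
    refine mul_le_mul_of_nonneg_left ?_ hl0
    rw [sum_comm]
    refine sum_le_sum fun a haA => ?_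
    rw [sum_comm]
    refine sum_le_sum fun a' ha' => ?_
    rw [← sum_filter, ← mul_sum]
    have h1 := (mem_filter.1 haA)
    exact mul_le_mul_of_nonneg_left (inner hHar e0 e1 h0 h01 q t T1 T2 T hq hT hqT ht a a'
      (mem_Icc.1 h1.1).1 (mem_Icc.1 ha').1 h1.2) (by positivity)
  refine le_trans step2 ?_
  have hH := hHar.1 (q * T2)
  have hHn : 0 ≤ ∑ n ∈ Icc 1 (q * T2), 1 / (n : ℝ) := sum_nonneg fun i _ => by positivity
  have step3 : ∑ a ∈ A, ∑ a' ∈ Icc 1 (q * T2), 1 / ((a : ℝ) * a') * (3 * (e1 / e0) ^ 2 / q) ≤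
      (1 + Real.log ((q * T2 : ℕ) : ℝ)) ^ 2 * (3 * (e1 / e0) ^ 2 / q) := by
    have e : ∑ a ∈ A, ∑ a' ∈ Icc 1 (q * T2), 1 / ((a : ℝ) * a') * (3 * (e1 / e0) ^ 2 / q) =
        (∑ a ∈ A, 1 / (a : ℝ)) * (∑ a' ∈ Icc 1 (q * T2), 1 / (a' : ℝ)) *
          (3 * (e1 / e0) ^ 2 / q) := by
      rw [sum_mul_sum, sum_mul]
      refine sum_congr rfl fun a _ => ?_
      rw [sum_mul]
      refine sum_congr rfl fun a' _ => ?_
      rw [one_div_mul_one_div]
    rw [e]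
    have hA1 : ∑ a ∈ A, 1 / (a : ℝ) ≤ ∑ a ∈ Icc 1 (q * T2), 1 / (a : ℝ) :=
      sum_le_sum_of_subset_of_nonneg (filter_subset _ _) fun i _ _ => by positivity
    refine mul_le_mul_of_nonneg_right ?_ (by positivity)
    rw [pow_two]
    exact mul_le_mul (hA1.trans hH) hH hHn (hHn.trans hH)
  refine le_trans (mul_le_mul_of_nonneg_left step3 hl0) (le_of_eq ?_)
  push_cast
  ring

end Pool.Agent.Work.MP_a8fbd7_nt.PAR.LC.I_GsT
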