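import Pool.Agent.Work.MP_a8fbd7_nt.PAR.LC.Stmts

set_option autoImplicit false

/-!
Item Har of block LC: harmonic sums.
-/

open Finset

namespace Pool.Agent.Work.MP_a8fbd7_nt.PAR.LC.I_Har

open Pool.Agent.Work.MP_a8fbd7_nt.PAR.LC

/-- the counting bound for a subset of `Icc 1 N` -/
theorem card_le (h : StCap) (m a N : ℕ) (x y : ℝ) (hm : 1 ≤ m) (hx : 0 ≤ x) (hxy : x ≤ y)
    (s : Finset ℕ) (hs : ∀ n ∈ s, n ≤ N ∧ x ≤ (n : ℝ) ∧ (n : ℝ) ≤ y ∧ n ≡ a [MOD m]) :
    (s.card : ℝ) ≤ (y - x) / m + 1 := by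
  have h1 := (h m a x y (max N ⌈y⌉₊) hm hx hxy (by
    push_cast
    exact (Nat.le_ceil y).trans (le_max_right _ _))).1
  refine le_trans ?_ h1
  have h2 : s ⊆ (range (max N ⌈y⌉₊ + 1)).filter
      (fun n : ℕ => x ≤ (n : ℝ) ∧ (n : ℝ) ≤ y ∧ n ≡ a [MOD m]) := by
    intro n hn
    obtain ⟨h3, h4⟩ := hs n hn
    rw [Finset.mem_filter, Finset.mem_range]
    exact ⟨by have := le_max_left N ⌈y⌉₊; omega, h4⟩
  exact_mod_cast Finset.card_le_card h2

/-- a sum of terms `1/n` with `n ≥ x` -/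
theorem sum_le (s : Finset ℕ) (x : ℝ) (hx : 0 < x) (hs : ∀ n ∈ s, x ≤ (n : ℝ)) :
    ∑ n ∈ s, 1 / (n : ℝ) ≤ s.card * (1 / x) := by
  rw [← nsmul_eq_mul]
  apply Finset.sum_le_card_nsmul
  intro n hn
  exact one_div_le_one_div_of_le hx (hs n hn)

/-- Item Har. -/
theorem prf (h : StCap) : StHar := by
  refine ⟨?_, ?_, ?_⟩
  · intro N
    have h1 := harmonic_le_one_add_log N
    rw [harmonic_eq_sum_Icc] at h1
    push_cast at h1
    simpa [one_div] using h1
  · intro N x l hx hl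
    rcases lt_or_ge x 1 with h1 | h1
    · have h2 := sum_le ((Icc 1 N).filter (fun n : ℕ => x ≤ (n : ℝ) ∧ (n : ℝ) ≤ l * x)) 1 one_pos
        (by
          intro n hn
          rw [Finset.mem_filter, Finset.mem_Icc] at hn
          exact_mod_cast hn.1.1)
      refine h2.trans ?_
      rw [div_one, mul_one]
      have h3 : ((Icc 1 N).filter (fun n : ℕ => x ≤ (n : ℝ) ∧ (n : ℝ) ≤ l * x)) ⊆
          Icc 1 ⌊l * x⌋₊ := by
        intro n hn
        rw [Finset.mem_filter, Finset.mem_Icc] at hn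
        rw [Finset.mem_Icc]
        exact ⟨hn.1.1, Nat.le_floor hn.2.2⟩
      have h4 := Finset.card_le_card h3
      rw [Nat.card_Icc, Nat.add_sub_cancel] at h4
      have h5 : (((Icc 1 N).filter (fun n : ℕ => x ≤ (n : ℝ) ∧ (n : ℝ) ≤ l * x)).card : ℝ) ≤
          (⌊l * x⌋₊ : ℝ) := by exact_mod_cast h4
      have h6 : (⌊l * x⌋₊ : ℝ) ≤ l * x := Nat.floor_le (by positivity)
      nlinarith
    · have h2 := sum_le ((Icc 1 N).filter (fun n : ℕ => x ≤ (n : ℝ) ∧ (n : ℝ) ≤ l * x)) x hx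
        (by
          intro n hn
          rw [Finset.mem_filter] at hn
          exact hn.2.1)
      have h3 := card_le h 1 0 N x (l * x) le_rfl hx.le (by nlinarith)
        ((Icc 1 N).filter (fun n : ℕ => x ≤ (n : ℝ) ∧ (n : ℝ) ≤ l * x)) (by
          intro n hn
          rw [Finset.mem_filter, Finset.mem_Icc] at hn
          exact ⟨hn.1.2, hn.2.1, hn.2.2, Nat.modEq_one⟩)
      rw [Nat.cast_one, div_one] at h3
      refine h2.trans ?_
      have hx1 : 1 / x ≤ 1 := by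
        rw [div_le_one hx]
        exact h1
      calc _ ≤ (l * x - x + 1) * (1 / x) := mul_le_mul_of_nonneg_right h3 (by positivity)
        _ = l - 1 + 1 / x := by field_simp
        _ ≤ l := by linarith
  · intro N m a T x l hm hmT hx hl
    have hmr : (1 : ℝ) ≤ m := by exact_mod_cast hm
    have hTr : (m : ℝ) ≤ T := by exact_mod_cast hmT
    obtain ⟨x', hx'⟩ : ∃ x' : ℝ, x' = max x (T : ℝ) := ⟨_, rfl⟩
    have hxx' : x ≤ x' := by
      rw [hx']
      exact le_max_left _ _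
    have hTx' : (T : ℝ) ≤ x' := by
      rw [hx']
      exact le_max_right _ _
    have hx'0 : 0 < x' := lt_of_lt_of_le hx hxx'
    obtain ⟨s, hs⟩ : ∃ s : Finset ℕ, s = (Icc 1 N).filter
      (fun n : ℕ => T ≤ n ∧ x ≤ (n : ℝ) ∧ (n : ℝ) ≤ l ^ 2 * x ∧ n ≡ a [MOD m]) := ⟨_, rfl⟩
    rw [← hs]
    have hmem : ∀ n ∈ s, n ≤ N ∧ x' ≤ (n : ℝ) ∧ (n : ℝ) ≤ l ^ 2 * x ∧ n ≡ a [MOD m] := by
      intro n hn
      rw [hs, Finset.mem_filter, Finset.mem_Icc] at hn
      refine ⟨hn.1.2, ?_, hn.2.2.2.1, hn.2.2.2.2⟩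
      rw [hx']
      exact max_le hn.2.2.1 (by exact_mod_cast hn.2.1)
    rcases lt_or_ge (l ^ 2 * x) x' with h1 | h1
    · have h2 : s = ∅ := by
        rw [Finset.eq_empty_iff_forall_notMem]
        intro n hn
        obtain ⟨-, h3, h4, -⟩ := hmem n hn
        linarith
      rw [h2, Finset.sum_empty]
      positivity
    · have h2 := sum_le s x' hx'0 (fun n hn => (hmem n hn).2.1)
      have h3 := card_le h m a N x' (l ^ 2 * x) hm hx'0.le h1 s hmem
      refine h2.trans ?_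
      have hl2 : 1 ≤ l ^ 2 := one_le_pow₀ hl
      have h4 : ((l ^ 2 * x - x') / m + 1) * (1 / x') ≤ l ^ 2 / m + 1 / m := by
        have h5 : (l ^ 2 * x - x') / m * (1 / x') ≤ l ^ 2 / m := by
          have h6 : (l ^ 2 * x - x') / m * (1 / x') = ((l ^ 2 * x - x') / x') / m := by
            field_simp
          rw [h6]
          apply div_le_div_of_nonneg_right _ (by linarith)
          rw [div_le_iff₀ hx'0]
          nlinarith
        have h6 : 1 / x' ≤ 1 / (m : ℝ) := one_div_le_one_div_of_le (by linarith) (by linarith)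
        calc ((l ^ 2 * x - x') / m + 1) * (1 / x') =
            (l ^ 2 * x - x') / m * (1 / x') + 1 / x' := by ring
          _ ≤ l ^ 2 / m + 1 / m := add_le_add h5 h6
      calc _ ≤ ((l ^ 2 * x - x') / m + 1) * (1 / x') :=
            mul_le_mul_of_nonneg_right h3 (by positivity)
        _ ≤ l ^ 2 / m + 1 / m := h4
        _ = (l ^ 2 + 1) / m := by ring
        _ ≤ 3 * l ^ 2 / m := by
            apply div_le_div_of_nonneg_right _ (by linarith)
            linarith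

end Pool.Agent.Work.MP_a8fbd7_nt.PAR.LC.I_Har
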