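import Pool.Agent.Work.MP_a8fbd7_nt.PAR.LC.Stmts2

/-! Item Int (integrality). -/

set_option autoImplicit false

namespace Pool.Agent.Work.MP_a8fbd7_nt.PAR.LC.I_Int

theorem prf : StInt := by
  intro g j q t z ρ M k' hq ht hz hqt hzq htρ hqg htg hzA hA
  obtain ⟨a1, ha1⟩ := hqg
  obtain ⟨a2, ha2⟩ := htg
  obtain ⟨U, hU⟩ := hzA
  -- `z (t U - 1)` is divisible by `q`
  have hU0 : 1 ≤ U := by
    rcases Nat.eq_zero_or_pos U with h | h
    · rw [h, mul_zero] at hU; omega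
    · exact h
  have htU : 1 ≤ t * U := Nat.mul_pos ht hU0
  have h1 : (z * (t * U) : ℤ) ≡ z * 1 [ZMOD q] := by
    have h2 : (z * (t * U) : ℤ) = q * (t * M) + t * ρ := by
      have : ((q * M + ρ : ℕ) : ℤ) = ((z * U : ℕ) : ℤ) := by rw [hU]
      push_cast at this
      linear_combination -(t : ℤ) * this
    rw [h2, mul_one]
    have h3 : ((t * ρ : ℕ) : ℤ) ≡ (z : ℕ) [ZMOD (q : ℕ)] := Int.natCast_modEq_iff.2 htρ
    push_cast at h3
    have h4 : (q * (t * M) : ℤ) ≡ 0 [ZMOD q] := (Int.modEq_zero_iff_dvd).2 (dvd_mul_right _ _)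
    have h5 := h4.add h3
    rwa [zero_add] at h5
  have h2 : (q : ℤ) ∣ (t * U : ℤ) - 1 := by
    have h3 : (q : ℤ) ∣ z * ((t * U : ℤ) - 1) := by
      have := h1.symm.dvd
      rw [mul_sub]
      exact this
    exact (IsCoprime.symm (Nat.isCoprime_iff_coprime.2 hzq)).dvd_of_dvd_mul_left h3
  have h3 : q ∣ t * U - 1 := by
    have : ((t * U - 1 : ℕ) : ℤ) = (t * U : ℤ) - 1 := by
      rw [Nat.cast_sub htU]; push_cast; ring
    rw [← this] at h2
    exact Int.natCast_dvd_natCast.1 h2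
  obtain ⟨V, hV⟩ := h3
  have hV' : t * U = q * V + 1 := by omega
  have hVi : (t * U : ℤ) = q * V + 1 := by exact_mod_cast hV'
  have h4 : (t : ℤ) ∣ q * ((a1 : ℤ) - j * V) := by
    refine ⟨a2 - j * U, ?_⟩
    have e1 : (g : ℤ) = q * a1 := by exact_mod_cast ha1
    have e2 : (g : ℤ) + j = t * a2 := by exact_mod_cast ha2
    linear_combination -e1 + e2 + (j : ℤ) * hVi
  have h5 : (t : ℤ) ∣ (a1 : ℤ) - j * V :=
    (IsCoprime.symm (Nat.isCoprime_iff_coprime.2 hqt)).dvd_of_dvd_mul_left h4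
  obtain ⟨b, hb⟩ := h5
  refine ⟨U, V, a1, a2, z * b + k', ha1, ha2, hU, hV', ?_⟩
  rw [hb]
  ring

end Pool.Agent.Work.MP_a8fbd7_nt.PAR.LC.I_Int
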