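import Pool.Agent.Work.MP_a8fbd7_nt.PAR.LC.Stmts3

set_option autoImplicit false

/-!
Item Lan of block LC: a small divisor with many divisors.
-/

open Finset

namespace Pool.Agent.Work.MP_a8fbd7_nt.PAR.LC.I_Lan

open Pool.Agent.Work.MP_a8fbd7_nt.PAR.LC

theorem tau_mul (a b : ℕ) : (a * b).divisors.card ≤ a.divisors.card * b.divisors.card := by
  rw [Nat.divisors_mul]
  exact Finset.card_mul_le

/-- Item Lan. -/
theorem prf : StLan := by
  intro m hm
  obtain ⟨S, hS⟩ : ∃ S : Finset ℕ, S = m.divisors.filter (fun d => d ^ 2 ≤ m) := ⟨_, rfl⟩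
  have hmem : ∀ d, d ∈ S ↔ d ∣ m ∧ d ^ 2 ≤ m := by
    intro d
    rw [hS, Finset.mem_filter, Nat.mem_divisors]
    constructor
    · rintro ⟨⟨h1, -⟩, h2⟩
      exact ⟨h1, h2⟩
    · rintro ⟨h1, h2⟩
      exact ⟨⟨h1, by omega⟩, h2⟩
  have hne : S.Nonempty := ⟨1, (hmem 1).2 ⟨one_dvd m, by omega⟩⟩
  obtain ⟨d1, hd1, hmax⟩ := Finset.exists_max_image S id hne
  obtain ⟨hdvd, hsq⟩ := (hmem d1).1 hd1
  by_cases hm1 : m = 1
  · refine ⟨1, one_dvd m, by omega, ?_⟩
    rw [hm1]
    simp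
  have hd1pos : 0 < d1 := Nat.pos_of_dvd_of_pos hdvd (by omega)
  obtain ⟨q, hq⟩ := hdvd
  have hq1 : q ≠ 1 := by
    rintro rfl
    rw [mul_one] at hq
    rw [← hq] at hsq
    have : m ≤ 1 := by
      by_contra h
      push Not at h
      nlinarith
    omega
  obtain ⟨p, hp, hpq⟩ := Nat.exists_prime_and_dvd hq1
  obtain ⟨d2, hd2⟩ := hpq
  have hmf : m = d1 * p * d2 := by rw [hq, hd2, mul_assoc]
  have hd2pos : 0 < d2 := by
    rcases Nat.eq_zero_or_pos d2 with h | h
    · rw [h, mul_zero] at hmf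
      omega
    · exact h
  have h1 : m < (d1 * p) ^ 2 := by
    by_contra h
    push Not at h
    have h2 := hmax (d1 * p) ((hmem _).2 ⟨⟨d2, hmf⟩, h⟩)
    simp only [id] at h2
    have h3 := hp.two_le
    nlinarith
  have h2 : d2 < d1 * p := by
    by_contra h
    push Not at h
    have : (d1 * p) ^ 2 ≤ m := by
      rw [hmf, pow_two]
      exact Nat.mul_le_mul_left _ h
    omega
  have h3 : d2 ^ 2 ≤ m := by
    rw [hmf, pow_two]
    exact Nat.mul_le_mul_right _ h2.le
  have h4 : m.divisors.card ≤ 2 * (d1.divisors.card * d2.divisors.card) := by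
    have e : m.divisors.card = (d1 * p * d2).divisors.card := congrArg (fun t => t.divisors.card) hmf
    rw [e]
    have h5 := tau_mul (d1 * p) d2
    have h6 := tau_mul d1 p
    have h7 : p.divisors.card = 2 := by
      rw [hp.divisors, Finset.card_pair hp.one_lt.ne]
    rw [h7] at h6
    calc (d1 * p * d2).divisors.card ≤ (d1 * p).divisors.card * d2.divisors.card := h5
      _ ≤ (d1.divisors.card * 2) * d2.divisors.card := Nat.mul_le_mul_right _ h6
      _ = 2 * (d1.divisors.card * d2.divisors.card) := by ring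
  rcases le_total d1.divisors.card d2.divisors.card with h5 | h5
  · refine ⟨d2, ⟨d1 * p, by rw [hmf]; ring⟩, h3, h4.trans ?_⟩
    rw [pow_two]
    exact Nat.mul_le_mul_left _ (Nat.mul_le_mul_right _ h5)
  · refine ⟨d1, ⟨p * d2, by rw [hmf]; ring⟩, hsq, h4.trans ?_⟩
    rw [pow_two]
    exact Nat.mul_le_mul_left _ (Nat.mul_le_mul_left _ h5)

end Pool.Agent.Work.MP_a8fbd7_nt.PAR.LC.I_Lan
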