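import Pool.Agent.Work.MP_a8fbd7_nt.PAR.LC.Stmts3

set_option autoImplicit false

/-!
MP_a8fbd7_nt, block LC, item LkD (the link with exceptions).
-/

open Finset

noncomputable section

namespace Pool.Agent.Work.MP_a8fbd7_nt.PAR.LC.I_LkD

open Pool.Agent.Work.MP_a8fbd7_nt.PAR Pool.Agent.Work.MP_a8fbd7_nt.PAR.LC

theorem prf (hA : StAlg) (hI : StInt) (hT : StTau) (hP : StPos) : StLkD := by
  intro f F c r n a0 J B j k g q t z ρ k0 hf hc0 hc1 hJ hr hB hn hj1 hjJ hg1 hg2 hk0 hcase hth1 hth2 hL hqg htg hzM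
  obtain ⟨hq1, ht1, hz1, hqt, hzq, he1, he2, hρ1, hρ2, hcong⟩ := hL
  -- basic positivity
  have hc2 : c ^ 2 ≤ 1 := pow_le_one₀ hc0.le hc1
  have hJ8 : (8 : ℝ) ≤ J := by
    have : (8 : ℝ) ≤ 8 / c ^ 2 := by
      rw [le_div_iff₀ (by positivity)]
      linarith
    linarith
  have hr1 : (1600 : ℝ) ≤ r := by
    have : (1600 : ℝ) ≤ 200 * J / c := by
      rw [le_div_iff₀ hc0]
      linarith
    linarith
  have hr0 : 0 < r := by linarith
  have hB0 : (0 : ℝ) < B := by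
    have : 0 < 200 * r / c := by positivity
    linarith
  have hn1 : (1000 : ℝ) ≤ n := by
    have : (1000 : ℝ) ≤ 1000 * J * r / c ^ 2 := by
      rw [le_div_iff₀ (by positivity)]
      have h2 : (1 : ℝ) ≤ J * r := one_le_mul_of_one_le_of_one_le (by linarith) (by linarith)
      linarith
    linarith
  have hn0 : 0 < n := by linarith
  have hg0 : (0 : ℝ) < g := lt_of_lt_of_le (by positivity) hg1
  have hgN : 1 ≤ g := by
    have : (0 : ℝ) < (g : ℝ) := hg0
    exact_mod_cast this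
  set y : ℝ := n ^ 2 / (g : ℝ) with hy
  set M : ℕ := ⌊y⌋₊ with hM
  have hy0 : 0 ≤ y := by positivity
  set θ : ℝ := y - M with hθ
  have hqR : (0 : ℝ) < q := by exact_mod_cast hq1
  have htR : (0 : ℝ) < t := by exact_mod_cast ht1
  have hzR : (0 : ℝ) < z := by exact_mod_cast hz1
  set u : ℝ := (ρ : ℝ) / q - θ with hu
  set e : ℝ := (z : ℝ) / (q * t) with he
  have he0 : 0 < e := by positivity
  -- bounds on e
  have heL : 2 * c / (5 * r) ≤ e := by
    rw [he, le_div_iff₀ (by positivity)]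
    calc 2 * c / (5 * r) * (q * t) = 2 * c / (5 * r) * q * t := by ring
      _ ≤ z := he1
  have heU : e ≤ 21 * c / (50 * r) := by
    rw [he, div_le_iff₀ (by positivity)]
    calc (z : ℝ) ≤ 21 * c / (50 * r) * q * t := he2
      _ = 21 * c / (50 * r) * (q * t) := by ring
  -- bounds on u
  have hρq1 : ((k : ℝ) + 1) / B + a0 * c / r ≤ (ρ : ℝ) / q := by
    rw [le_div_iff₀ hqR]; exact hρ1
  have hρq2 : (ρ : ℝ) / q ≤ ((k : ℝ) + 1) / B + a0 * c / r + c / (25 * r) := by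
    rw [div_le_iff₀ hqR]; exact hρ2
  have h1B : 1 / (B : ℝ) ≤ c / (200 * r) := by
    rw [div_le_div_iff₀ hB0 (by positivity)]
    rw [div_le_iff₀ hc0] at hB
    linarith
  have hkB : ((k : ℝ) + 1) / B = k / B + 1 / B := by ring
  have huL : a0 * c / r ≤ u := by
    have : θ ≤ ((k : ℝ) + 1) / B := hth2.le
    rw [hu]; linarith
  have huU : u ≤ (a0 + 9 / 200) * c / r := by
    have h1 : (k : ℝ) / B ≤ θ := hth1
    have h2 : (a0 + 9 / 200) * c / r = a0 * c / r + c / (25 * r) + c / (200 * r) := by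
      field_simp
      ring
    rw [hu, h2]
    linarith
  have ha0 : a0 = 1 / 2 ∨ a0 = 17 / 20 := by
    rcases hcase with h | h
    · exact Or.inl h.1
    · exact Or.inr h.1
  have ha0p : 0 ≤ a0 ∧ a0 + 9 / 200 ≤ 1 := by
    rcases ha0 with h | h <;> rw [h] <;> norm_num
  have hu0 : 0 ≤ u := le_trans (by have := ha0p.1; positivity) huL
  have hcr : 0 < c / r := by positivity
  have hu1 : u ≤ c / r := by
    refine le_trans huU ?_
    rw [mul_div_assoc]
    exact mul_le_of_le_one_left hcr.le ha0p.2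
  have hec : e ≤ c / r := by
    refine le_trans heU ?_
    rw [div_le_div_iff₀ (by positivity) hr0]
    have := mul_pos hc0 hr0
    linarith
  -- tau
  obtain ⟨hτ1, hτ2⟩ := hT c r θ u e J B j k k0 hc0 hc1 hJ hr hB hj1 hjJ hk0 hth1 hth2.le hu0 hu1 he0.le hec
  set τ : ℝ := (k0 : ℝ) - j * θ - j * u + j * e with hτ
  have hτcase : ((a0 = 1 / 2 ∧ -(c ^ 2 / 100) ≤ τ ∧ τ ≤ 27 * c ^ 2 / 200) ∨
      (a0 = 17 / 20 ∧ -(27 * c ^ 2 / 200) ≤ τ ∧ τ ≤ c ^ 2 / 100)) := by
    have h1 := abs_le.1 hτ1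
    have h2 := abs_le.1 hτ2
    rcases hcase with ⟨ha, hs⟩ | ⟨ha, hs⟩
    · exact Or.inl ⟨ha, by linarith [h1.1], h2.2⟩
    · exact Or.inr ⟨ha, h2.1, by linarith [h1.2]⟩
  obtain ⟨hW0, hv0, ⟨p1, p2⟩, ⟨p3, p4⟩, ⟨p5, p6⟩, ⟨p7, p8⟩⟩ :=
    hP c r n g u e τ a0 J j hc0 hc1 hJ hr hn hj1 hjJ hg1 hg2 heL heU huL huU hτcase
  rw [← hy] at hv0 p1 p2 p3 p4 p5 p6 p7 p8
  -- integers
  have hM10 : 1 ≤ M := by
    rw [hM, Nat.one_le_floor_iff]
    rw [hy, le_div_iff₀ hg0]
    have h3 : 21 / 20 * r * n ≤ n ^ 2 := by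
      have h4 : 21 / 20 * r ≤ n := by
        have h5 : 21 / 20 * r ≤ 1000 * J * r / c ^ 2 := by
          rw [le_div_iff₀ (by positivity)]
          have h7 : r * c ^ 2 ≤ r * 1 := mul_le_mul_of_nonneg_left hc2 hr0.le
          have h8 : 8 * r ≤ J * r := mul_le_mul_of_nonneg_right hJ8 hr0.le
          linarith
        linarith
      rw [sq]
      exact mul_le_mul_of_nonneg_right h4 hn0.le
    linarith
  have hA1 : 1 ≤ q * M + ρ := le_trans (Nat.mul_pos hq1 hM10) (Nat.le_add_right _ _)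
  obtain ⟨U, V, a1, a2, W, hga, hgj, hAU, htU, htW⟩ :=
    hI g j q t z ρ M ((j : ℤ) * M + k0) hq1 ht1 hz1 hqt hzq hcong hqg htg hzM hA1
  -- real forms
  have hgaR : (g : ℝ) = q * a1 := by exact_mod_cast hga
  have hgjR : (g : ℝ) + j = t * a2 := by exact_mod_cast hgj
  have hAUR : (q : ℝ) * M + ρ = z * U := by exact_mod_cast hAU
  have htUR : (t : ℝ) * U = q * V + 1 := by exact_mod_cast htU
  have htWR : (t : ℝ) * W = z * ((a1 : ℝ) - j * V) + t * ((j : ℝ) * M + k0) := by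
    have := congrArg (fun x : ℤ => (x : ℝ)) htW
    push_cast at this
    exact this
  have hyu : y + u = (z : ℝ) * U / q := by
    rw [← hAUR, hu, hθ]
    field_simp
    ring
  have hv : y + u - e = (z : ℝ) * V / t := by
    rw [hyu, he]
    have : (U : ℝ) = (q * V + 1) / t := by
      rw [← htUR]; field_simp
    rw [this]
    field_simp
    ring
  have hWR : (W : ℝ) = g * e + τ := by
    have h1 : (W : ℝ) = (z * ((a1 : ℝ) - j * V) + t * ((j : ℝ) * M + k0)) / t := by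
      rw [← htWR]; field_simp
    have h2 : τ = k0 + j * M - j * (y + u - e) := by
      rw [hτ, hθ]; ring
    rw [h1, h2, hv, he, hgaR]
    field_simp
    ring
  have hW1 : 1 ≤ W := by
    have : (0 : ℝ) < W := by rw [hWR]; exact hW0
    exact_mod_cast this
  obtain ⟨W', hW'⟩ : ∃ W' : ℕ, W = W' := ⟨W.toNat, by omega⟩
  have hW'1 : 1 ≤ W' := by omega
  have hW'R : (W' : ℝ) = g * e + τ := by
    rw [← hWR, hW']; simp
  have hU1 : 1 ≤ U := by
    rcases Nat.eq_zero_or_pos U with h | h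
    · rw [h, Nat.mul_zero] at hAU; omega
    · exact h
  have hV1 : 1 ≤ V := by
    rcases Nat.eq_zero_or_pos V with h | h
    · exfalso
      rw [h] at hv
      simp at hv
      linarith
    · exact h
  have ha1 : 1 ≤ a1 := by
    rcases Nat.eq_zero_or_pos a1 with h | h
    · rw [h, Nat.mul_zero] at hga; omega
    · exact h
  have ha2 : 1 ≤ a2 := by
    rcases Nat.eq_zero_or_pos a2 with h | h
    · rw [h, Nat.mul_zero] at hgj; omega
    · exact h
  -- the four products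
  have e1 : ((a1 * z * U : ℕ) : ℝ) = g * (y + u) := by
    rw [hyu, hgaR]; push_cast; field_simp
  have e2 : ((t * U * W' : ℕ) : ℝ) = (y + u) * (g * e + τ) / e := by
    rw [hyu, ← hW'R, he]; push_cast; field_simp
  have e3 : ((q * V * W' : ℕ) : ℝ) = (y + u - e) * (g * e + τ) / e := by
    rw [hv, ← hW'R, he]; push_cast; field_simp
  have e4 : ((a2 * z * V : ℕ) : ℝ) = (g + j) * (y + u - e) := by
    rw [hv, hgjR]; push_cast; field_simp
  have hmem : ∀ m : ℕ, n ^ 2 ≤ (m : ℝ) → (m : ℝ) ≤ n ^ 2 + c * n → f m = F ∨ m ∈ Ex f F n c := by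
    intro m h1 h2
    by_cases h : f m = F
    · exact Or.inl h
    · right
      unfold Ex
      rw [Finset.mem_filter, Finset.mem_Icc]
      refine ⟨⟨Nat.ceil_le.2 h1, Nat.le_floor h2⟩, h⟩
  have hτabs : |(g : ℝ) * z / (q * t) - W'| ≤ 1 := by
    have h1 : (g : ℝ) * z / (q * t) = g * e := by rw [he]; ring
    rw [h1, hW'R]
    have h2 : (g : ℝ) * e - (g * e + τ) = -τ := by ring
    rw [h2, abs_neg]
    refine le_trans hτ2 ?_
    linarith
  rcases hmem _ (e1 ▸ p1) (e1 ▸ p2) with f1 | f1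
  · rcases hmem _ (e2 ▸ p5) (e2 ▸ p6) with f2 | f2
    · rcases hmem _ (e3 ▸ p7) (e3 ▸ p8) with f3 | f3
      · rcases hmem _ (e4 ▸ p3) (e4 ▸ p4) with f4 | f4
        · left
          exact hA f F hf g j q t z U V W' a1 a2 hq1 ht1 hz1 hU1 hV1 hW'1 ha1 ha2 hga hgj f1 f2 f3 f4
        · right
          exact ⟨_, f4, Or.inr (Or.inl ⟨a2, hgj, ⟨z * V, by ring⟩⟩)⟩
      · right
        exact ⟨_, f3, Or.inr (Or.inr ⟨W', ⟨q * V, by ring⟩, hτabs⟩)⟩
    · right
      exact ⟨_, f2, Or.inr (Or.inr ⟨W', ⟨t * U, by ring⟩, hτabs⟩)⟩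
  · right
    exact ⟨_, f1, Or.inl ⟨a1, hga, ⟨z * U, by ring⟩⟩⟩

end Pool.Agent.Work.MP_a8fbd7_nt.PAR.LC.I_LkD
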