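import Pool.Agent.Work.MP_a8fbd7_nt.PAR.LC.Stmts

set_option autoImplicit false

/-!
Block LC, item PmC: probability of the conditions on `M`.
-/

open Finset

namespace Pool.Agent.Work.MP_a8fbd7_nt.PAR.LC.I_PmC

lemma cls (L z r : ℕ) (hz : 1 ≤ z) (hL : z ∣ L) :
    (((range L).filter (fun M => M ≡ r [MOD z])).card : ℝ) = L / (z : ℝ) := by
  have h1 : ((range L).filter (fun M => M ≡ r [MOD z])).card = L / z := by
    rw [← Nat.count_eq_card_filter_range, Nat.count_modEq_card L (by omega) r]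
    have h2 : L % z = 0 := Nat.mod_eq_zero_of_dvd hL
    rw [h2, if_neg (by omega), add_zero]
  rw [h1, Nat.cast_div hL (by exact_mod_cast (by omega : z ≠ 0))]

lemma sol (q z ρ : ℕ) (hz : 1 ≤ z) (hq : z.Coprime q) :
    ∃ r : ℕ, ∀ M : ℕ, z ∣ q * M + ρ ↔ M ≡ r [MOD z] := by
  have : NeZero z := ⟨by omega⟩
  have hu : ((q : ZMod z)) * (q : ZMod z)⁻¹ = 1 := ZMod.coe_mul_inv_eq_one q hq.symm
  refine ⟨((-(ρ : ZMod z)) * (q : ZMod z)⁻¹).val, fun M => ?_⟩
  rw [← ZMod.natCast_eq_natCast_iff, ZMod.natCast_zmod_val, ← ZMod.natCast_eq_zero_iff]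
  push_cast
  constructor
  · intro h
    have h2 : (q : ZMod z) * M = -ρ := by linear_combination h
    rw [← h2]
    linear_combination (-(M : ZMod z)) * hu
  · intro h
    rw [h]
    linear_combination (-(ρ : ZMod z)) * hu

theorem prf : StPmC := by
  intro L q q' s s' hL hs hs' hq hq' hsL hsL'
  obtain ⟨r, hr⟩ := sol q s.1 s.2 hs hq
  obtain ⟨r', hr'⟩ := sol q' s'.1 s'.2 hs' hq'
  refine ⟨?_, ?_⟩
  · rw [← cls L s.1 r hs hsL]
    congr 2
    ext M
    simp only [mem_filter, hr]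
  · rcases ((range L).filter (fun M => s.1 ∣ q * M + s.2 ∧ s'.1 ∣ q' * M + s'.2)).eq_empty_or_nonempty
      with h0 | ⟨M0, hM0⟩
    · rw [h0]
      simp only [card_empty, Nat.cast_zero]
      unfold cor
      split_ifs
      · positivity
      · simp
    · obtain ⟨-, h1, h2⟩ := mem_filter.1 hM0
      have hg : ((Nat.gcd s.1 s'.1 : ℕ) : ℤ) ∣ (q' : ℤ) * s.2 - q * s'.2 := by
        have g1 : ((Nat.gcd s.1 s'.1 : ℕ) : ℤ) ∣ (q : ℤ) * M0 + s.2 := by
          have := (Nat.gcd_dvd_left s.1 s'.1).trans h1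
          exact_mod_cast this
        have g2 : ((Nat.gcd s.1 s'.1 : ℕ) : ℤ) ∣ (q' : ℤ) * M0 + s'.2 := by
          have := (Nat.gcd_dvd_right s.1 s'.1).trans h2
          exact_mod_cast this
        have e : (q' : ℤ) * s.2 - q * s'.2 =
            q' * ((q : ℤ) * M0 + s.2) - q * ((q' : ℤ) * M0 + s'.2) := by ring
        rw [e]
        exact dvd_sub (g1.mul_left _) (g2.mul_left _)
      have hlc : 1 ≤ Nat.lcm s.1 s'.1 := Nat.lcm_pos hs hs'
      have hlL : Nat.lcm s.1 s'.1 ∣ L := Nat.lcm_dvd hsL hsL'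
      have hsub : (range L).filter (fun M => s.1 ∣ q * M + s.2 ∧ s'.1 ∣ q' * M + s'.2) ⊆
          (range L).filter (fun M => M ≡ M0 [MOD Nat.lcm s.1 s'.1]) := by
        intro M hM
        obtain ⟨hM1, hM2, hM3⟩ := mem_filter.1 hM
        refine mem_filter.2 ⟨hM1, ?_⟩
        have a1 : M ≡ M0 [MOD s.1] := ((hr M).1 hM2).trans ((hr M0).1 h1).symm
        have a2 : M ≡ M0 [MOD s'.1] := ((hr' M).1 hM3).trans ((hr' M0).1 h2).symm
        rw [Nat.modEq_iff_dvd] at a1 a2 ⊢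
        rw [Int.natCast_dvd] at a1 a2 ⊢
        exact Nat.lcm_dvd a1 a2
      have hc : (((range L).filter (fun M => s.1 ∣ q * M + s.2 ∧ s'.1 ∣ q' * M + s'.2)).card : ℝ) ≤
          L / (Nat.lcm s.1 s'.1 : ℝ) := by
        rw [← cls L _ M0 hlc hlL]
        exact_mod_cast card_le_card hsub
      refine hc.trans (le_of_eq ?_)
      unfold cor
      rw [if_pos hg]
      have e1 : (Nat.gcd s.1 s'.1 : ℝ) * (Nat.lcm s.1 s'.1 : ℝ) = (s.1 : ℝ) * s'.1 := by
        exact_mod_cast Nat.gcd_mul_lcm s.1 s'.1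
      have e2 : (Nat.lcm s.1 s'.1 : ℝ) ≠ 0 := by exact_mod_cast (by omega : Nat.lcm s.1 s'.1 ≠ 0)
      have e3 : (s.1 : ℝ) ≠ 0 := by exact_mod_cast (by omega : s.1 ≠ 0)
      have e4 : (s'.1 : ℝ) ≠ 0 := by exact_mod_cast (by omega : s'.1 ≠ 0)
      rw [← e1]
      have e5 : (Nat.gcd s.1 s'.1 : ℝ) ≠ 0 := by
        intro h
        rw [h, zero_mul] at e1
        exact mul_ne_zero e3 e4 e1.symm
      field_simp

end Pool.Agent.Work.MP_a8fbd7_nt.PAR.LC.I_PmC
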