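import Pool.Agent.Work.MP_a8fbd7_nt.PAR.LC.Stmts2

set_option autoImplicit false

/-!
MP_a8fbd7_nt, block LC, item Pos: positions of the four products.
-/

open Finset

noncomputable section

namespace Pool.Agent.Work.MP_a8fbd7_nt.PAR.LC.I_Pos

/-- The four positions from the normalised bounds. -/
theorem core (n g u e τ a0 N jr v : ℝ) (hg : 0 < g) (he : 0 < e) (hN : 0 < N)
    (hv : v = n ^ 2 / g + u - e)
    (hX1 : a0 * N ≤ g * u) (hX2 : g * u ≤ 21 / 20 * (a0 + 9 / 200) * N)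
    (hE1 : 2 / 5 * N ≤ g * e) (hE2 : g * e ≤ 441 / 1000 * N)
    (hj0 : 0 ≤ jr * v) (hj1 : jr * v ≤ N / 100)
    (hQ1 : -(N / 100) ≤ τ * u / e) (hQ2 : τ * u / e ≤ N / 100)
    (ht1 : -(N / 100) ≤ τ) (ht2 : τ ≤ N / 100)
    (hcase : (a0 = 1 / 2 ∧ -(N / 40) ≤ τ * (n ^ 2 / (g * e)) ∧ τ * (n ^ 2 / (g * e)) ≤ 27 / 80 * N) ∨
      (a0 = 17 / 20 ∧ -(27 / 80 * N) ≤ τ * (n ^ 2 / (g * e)) ∧ τ * (n ^ 2 / (g * e)) ≤ N / 40)) :
    0 < g * e + τ ∧
    (n ^ 2 ≤ g * (n ^ 2 / g + u) ∧ g * (n ^ 2 / g + u) ≤ n ^ 2 + N) ∧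
    (n ^ 2 ≤ (g + jr) * (n ^ 2 / g + u - e) ∧ (g + jr) * (n ^ 2 / g + u - e) ≤ n ^ 2 + N) ∧
    (n ^ 2 ≤ (n ^ 2 / g + u) * (g * e + τ) / e ∧ (n ^ 2 / g + u) * (g * e + τ) / e ≤ n ^ 2 + N) ∧
    (n ^ 2 ≤ (n ^ 2 / g + u - e) * (g * e + τ) / e ∧
      (n ^ 2 / g + u - e) * (g * e + τ) / e ≤ n ^ 2 + N) := by
  have e1 : g * (n ^ 2 / g + u) = n ^ 2 + g * u := by field_simp
  have e2 : (g + jr) * (n ^ 2 / g + u - e) = n ^ 2 + g * u - g * e + jr * v := by
    rw [hv]; field_simp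
    try ring
  have e3 : (n ^ 2 / g + u) * (g * e + τ) / e = n ^ 2 + g * u + τ * (n ^ 2 / (g * e)) + τ * u / e := by
    field_simp; ring
  have e4 : (n ^ 2 / g + u - e) * (g * e + τ) / e =
      n ^ 2 + g * u + τ * (n ^ 2 / (g * e)) + τ * u / e - (g * e + τ) := by
    field_simp; ring
  rw [e1, e2, e3, e4]
  rcases hcase with ⟨rfl, k1, k2⟩ | ⟨rfl, k1, k2⟩
  · refine ⟨?_, ⟨?_, ?_⟩, ⟨?_, ?_⟩, ⟨?_, ?_⟩, ⟨?_, ?_⟩⟩ <;> linarith
  · refine ⟨?_, ⟨?_, ?_⟩, ⟨?_, ?_⟩, ⟨?_, ?_⟩, ⟨?_, ?_⟩⟩ <;> linarith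

theorem prf : StPos := by
  intro c r n g u e τ a0 J j hc hc1 hJ hr hn hj1 hjJ hg1 hg2 he1 he2 hu1 hu2 hcase
  have hc2 : 0 < c ^ 2 := by positivity
  have hJ8 : (8 : ℝ) ≤ J := by
    have : (8 : ℝ) ≤ 8 / c ^ 2 := by rw [le_div_iff₀ hc2]; nlinarith
    linarith
  have hJ0 : (0 : ℝ) < J := by linarith
  have hr' : 200 * J ≤ r * c := (div_le_iff₀ hc).1 hr
  have hr0 : 0 < r := by
    by_contra h
    push Not at h
    nlinarith
  have hr200 : 200 * J ≤ r := by nlinarith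
  have hn' : 1000 * J * r ≤ n * c ^ 2 := (div_le_iff₀ hc2).1 hn
  have hJr : 0 < J * r := mul_pos hJ0 hr0
  have hn0 : 0 < n := by
    by_contra h
    push Not at h
    nlinarith
  have hN0 : 0 < c * n := mul_pos hc hn0
  have hc2n : n * c ^ 2 ≤ c * n := by nlinarith
  have hNJ : 1000 * J ≤ c * n := by nlinarith
  have hg0 : 0 < g := lt_of_lt_of_le (mul_pos hr0 hn0) hg1
  have he0 : 0 < e := lt_of_lt_of_le (by positivity) he1
  have ha0 : 0 < a0 := by rcases hcase with h | h <;> rw [h.1] <;> norm_num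
  have ha1 : a0 ≤ 17 / 20 := by rcases hcase with h | h <;> rw [h.1] <;> norm_num
  have hu0 : 0 < u := lt_of_lt_of_le (by positivity) hu1
  have hcr : c / r ≤ 1 / 1600 := by
    rw [div_le_div_iff₀ hr0 (by norm_num)]; nlinarith
  have hcr0 : 0 < c / r := div_pos hc hr0
  have hX1 : a0 * (c * n) ≤ g * u := by
    have := mul_le_mul hg1 hu1 (by positivity) hg0.le
    have h2 : r * n * (a0 * c / r) = a0 * (c * n) := by field_simp
    linarith
  have hX2 : g * u ≤ 21 / 20 * (a0 + 9 / 200) * (c * n) := by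
    have := mul_le_mul hg2 hu2 hu0.le (by positivity)
    have h2 : 21 / 20 * r * n * ((a0 + 9 / 200) * c / r) = 21 / 20 * (a0 + 9 / 200) * (c * n) := by
      field_simp
    linarith
  have hE1 : 2 / 5 * (c * n) ≤ g * e := by
    have := mul_le_mul hg1 he1 (by positivity) hg0.le
    have h2 : r * n * (2 * c / (5 * r)) = 2 / 5 * (c * n) := by field_simp
    linarith
  have hE2 : g * e ≤ 441 / 1000 * (c * n) := by
    have := mul_le_mul hg2 he2 he0.le (by positivity)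
    have h2 : 21 / 20 * r * n * (21 * c / (50 * r)) = 441 / 1000 * (c * n) := by
      field_simp; ring
    linarith
  have hu2' : u ≤ 1 := by
    have h2 : (a0 + 9 / 200) * c / r = (a0 + 9 / 200) * (c / r) := by ring
    rw [h2] at hu2
    have h3 : (a0 + 9 / 200) * (c / r) ≤ 1 * (c / r) :=
      mul_le_mul_of_nonneg_right (by linarith) hcr0.le
    linarith
  have he2' : e ≤ 1 := by
    have h2 : 21 * c / (50 * r) = 21 / 50 * (c / r) := by field_simp
    rw [h2] at he2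
    linarith
  have hng : n ^ 2 / g ≤ n / r := by
    rw [div_le_div_iff₀ hg0 hr0]
    have h1 := mul_le_mul_of_nonneg_left hg1 hn0.le
    linarith
  have hng2 : 2 ≤ n ^ 2 / g := by
    rw [le_div_iff₀ hg0]
    have h3 : 1000 * J * r ≤ n := by nlinarith
    have h4 : 8000 * r ≤ n := by nlinarith
    have h5 : 8000 * r * n ≤ n * n := mul_le_mul_of_nonneg_right h4 hn0.le
    have h6 : 0 < r * n := mul_pos hr0 hn0
    have h7 : n ^ 2 = n * n := sq n
    linarith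
  have hvpos : 0 < n ^ 2 / g + u - e := by linarith
  have hvle : n ^ 2 / g + u - e ≤ n / r + 1 := by linarith
  have hj0 : (1 : ℝ) ≤ j := by exact_mod_cast hj1
  have hjJ' : (j : ℝ) ≤ J := by exact_mod_cast hjJ
  have hjv : (j : ℝ) * (n ^ 2 / g + u - e) ≤ c * n / 100 := by
    have h1 : (j : ℝ) * (n ^ 2 / g + u - e) ≤ J * (n / r + 1) :=
      mul_le_mul hjJ' hvle hvpos.le hJ0.le
    have h2 : J * (n / r) ≤ c * n / 200 := by
      have : J * (n / r) = J * n / r := by ring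
      rw [this, div_le_div_iff₀ hr0 (by norm_num)]
      have h3 := mul_le_mul_of_nonneg_right hr' hn0.le
      linarith
    have h4 : J * (n / r + 1) = J * (n / r) + J := by ring
    linarith
  -- sizes of τ
  have hτabs : |τ| ≤ 27 * c ^ 2 / 200 := by
    rw [abs_le]
    rcases hcase with ⟨-, h1, h2⟩ | ⟨-, h1, h2⟩ <;> constructor <;> linarith
  have hcn : c ^ 2 ≤ c * n / 1000 := by
    have : c ^ 2 ≤ 1 := pow_le_one₀ hc.le hc1
    linarith
  have htau : |τ| ≤ c * n / 100 := by linarith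
  have hue : u / e ≤ 9 / 4 := by
    rw [div_le_iff₀ he0]
    have h1 : u ≤ (179 / 200) * (c / r) := by
      have h2 : (a0 + 9 / 200) * c / r = (a0 + 9 / 200) * (c / r) := by ring
      rw [h2] at hu2
      have h3 : (a0 + 9 / 200) * (c / r) ≤ (179 / 200) * (c / r) :=
        mul_le_mul_of_nonneg_right (by linarith) hcr0.le
      linarith
    have h2 : 2 / 5 * (c / r) ≤ e := by
      have h3 : 2 * c / (5 * r) = 2 / 5 * (c / r) := by field_simp
      linarith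
    linarith
  have hue0 : 0 ≤ u / e := by positivity
  have hQ : |τ * u / e| ≤ c * n / 100 := by
    have h1 : τ * u / e = τ * (u / e) := by ring
    rw [h1, abs_mul, abs_of_nonneg hue0]
    have h2 : |τ| * (u / e) ≤ (27 * c ^ 2 / 200) * (9 / 4) :=
      mul_le_mul hτabs hue hue0 (by positivity)
    linarith
  have hR0 : 0 ≤ n ^ 2 / (g * e) := by positivity
  have hR : n ^ 2 / (g * e) ≤ 5 * n / (2 * c) := by
    rw [div_le_div_iff₀ (by positivity) (by positivity)]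
    have h1 := mul_le_mul_of_nonneg_left hE1 hn0.le
    linarith
  have hTu : ∀ b : ℝ, 0 ≤ b → τ ≤ b * c ^ 2 → τ * (n ^ 2 / (g * e)) ≤ b * 5 / 2 * (c * n) := by
    intro b hb h
    have h1 : τ * (n ^ 2 / (g * e)) ≤ b * c ^ 2 * (n ^ 2 / (g * e)) :=
      mul_le_mul_of_nonneg_right h hR0
    have h2 : b * c ^ 2 * (n ^ 2 / (g * e)) ≤ b * c ^ 2 * (5 * n / (2 * c)) :=
      mul_le_mul_of_nonneg_left hR (by positivity)
    have h3 : b * c ^ 2 * (5 * n / (2 * c)) = b * 5 / 2 * (c * n) := by field_simp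
    linarith
  have hTl : ∀ b : ℝ, 0 ≤ b → -(b * c ^ 2) ≤ τ → -(b * 5 / 2 * (c * n)) ≤ τ * (n ^ 2 / (g * e)) := by
    intro b hb h
    have h1 : -(b * c ^ 2) * (n ^ 2 / (g * e)) ≤ τ * (n ^ 2 / (g * e)) :=
      mul_le_mul_of_nonneg_right h hR0
    have h2 : b * c ^ 2 * (n ^ 2 / (g * e)) ≤ b * c ^ 2 * (5 * n / (2 * c)) :=
      mul_le_mul_of_nonneg_left hR (by positivity)
    have h3 : b * c ^ 2 * (5 * n / (2 * c)) = b * 5 / 2 * (c * n) := by field_simp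
    linarith
  have hfin : (a0 = 1 / 2 ∧ -(c * n / 40) ≤ τ * (n ^ 2 / (g * e)) ∧
        τ * (n ^ 2 / (g * e)) ≤ 27 / 80 * (c * n)) ∨
      (a0 = 17 / 20 ∧ -(27 / 80 * (c * n)) ≤ τ * (n ^ 2 / (g * e)) ∧
        τ * (n ^ 2 / (g * e)) ≤ c * n / 40) := by
    rcases hcase with ⟨h0, h1, h2⟩ | ⟨h0, h1, h2⟩
    · left
      have k1 := hTl (1 / 100) (by norm_num) (by linarith)
      have k2 := hTu (27 / 200) (by norm_num) (by linarith)
      exact ⟨h0, by linarith, by linarith⟩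
    · right
      have k1 := hTl (27 / 200) (by norm_num) (by linarith)
      have k2 := hTu (1 / 100) (by norm_num) (by linarith)
      exact ⟨h0, by linarith, by linarith⟩
  obtain ⟨r1, r2, r3, r4, r5⟩ := core n g u e τ a0 (c * n) j _ hg0 he0 hN0 rfl hX1 hX2 hE1 hE2
    (by positivity) hjv (abs_le.1 hQ).1 (abs_le.1 hQ).2 (abs_le.1 htau).1 (abs_le.1 htau).2 hfin
  exact ⟨r1, hvpos, r2, r3, r4, r5⟩

end Pool.Agent.Work.MP_a8fbd7_nt.PAR.LC.I_Pos
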