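import Pool.Agent.Work.MP_a8fbd7_nt.PAR.LC.Stmts

set_option autoImplicit false

/-!
MP_a8fbd7_nt, block LC, item PxC: probability of the conditions on `x`.
-/

open Finset

namespace Pool.Agent.Work.MP_a8fbd7_nt.PAR.LC.I_PxC

/-- the number of `x < L` in one residue class modulo a divisor `m` of `L` -/
theorem card_class (L m c : ℕ) (hm : 0 < m) (h : m ∣ L) :
    (((range L).filter (fun x => x ≡ c [MOD m])).card : ℕ) = L / m := by
  rw [← Nat.count_eq_card_filter_range, Nat.count_modEq_card L hm c, Nat.mod_eq_zero_of_dvd h,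
    if_neg (by omega), Nat.add_zero]

theorem lcm_coprime {q q' t t' : ℕ} (hq : q.Prime) (hq' : q'.Prime) (ht : t.Prime)
    (ht' : t'.Prime) (h1 : q ≠ t) (h2 : q ≠ t') (h3 : q' ≠ t) (h4 : q' ≠ t') :
    Nat.Coprime (Nat.lcm q q') (Nat.lcm t t') := by
  have e1 := (Nat.coprime_primes hq ht).2 h1
  have e2 := (Nat.coprime_primes hq ht').2 h2
  have e3 := (Nat.coprime_primes hq' ht).2 h3
  have e4 := (Nat.coprime_primes hq' ht').2 h4
  have f : Nat.Coprime (q * q') (t * t') :=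
    Nat.Coprime.mul_left (Nat.Coprime.mul_right e1 e2) (Nat.Coprime.mul_right e3 e4)
  exact Nat.Coprime.coprime_dvd_left (Nat.lcm_dvd_mul q q')
    (Nat.Coprime.coprime_dvd_right (Nat.lcm_dvd_mul t t') f)

theorem prf : StPxC := by
  intro L j q q' t t' hL hq hq' ht ht' h1 h2 h3 h4 hd
  have hcop := lcm_coprime hq hq' ht ht' h1 h2 h3 h4
  set A := Nat.lcm q q' with hA
  set B := Nat.lcm t t' with hB
  have hA0 : 0 < A := Nat.lcm_pos hq.pos hq'.pos
  have hB0 : 0 < B := Nat.lcm_pos ht.pos ht'.pos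
  obtain ⟨c, hc1, hc2⟩ := Nat.chineseRemainder hcop 0 (B * j - j)
  have hBj : j ≤ B * j := Nat.le_mul_of_pos_left j hB0
  have hc3 : B ∣ c + j := by
    have h5 : c + j ≡ B * j - j + j [MOD B] := Nat.ModEq.add_right j hc2
    rw [Nat.sub_add_cancel hBj] at h5
    have h6 : c + j ≡ 0 [MOD B] := h5.trans (Nat.modEq_zero_iff_dvd.2 (dvd_mul_right B j))
    exact Nat.modEq_zero_iff_dvd.1 h6
  have hc4 : A ∣ c := Nat.modEq_zero_iff_dvd.1 hc1
  have hfil : (range L).filter (fun x => q ∣ x ∧ q' ∣ x ∧ t ∣ x + j ∧ t' ∣ x + j) =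
      (range L).filter (fun x => x ≡ c [MOD A * B]) := by
    apply Finset.filter_congr
    intro x _
    rw [← Nat.modEq_and_modEq_iff_modEq_mul hcop]
    constructor
    · rintro ⟨g1, g2, g3, g4⟩
      refine ⟨?_, ?_⟩
      · exact (Nat.modEq_zero_iff_dvd.2 (Nat.lcm_dvd g1 g2)).trans (Nat.modEq_zero_iff_dvd.2 hc4).symm
      · have h7 : x + j ≡ c + j [MOD B] :=
          (Nat.modEq_zero_iff_dvd.2 (Nat.lcm_dvd g3 g4)).trans (Nat.modEq_zero_iff_dvd.2 hc3).symm
        exact Nat.ModEq.add_right_cancel' j h7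
    · rintro ⟨g1, g2⟩
      have h8 : A ∣ x := Nat.modEq_zero_iff_dvd.1 (g1.trans (Nat.modEq_zero_iff_dvd.2 hc4))
      have h9 : B ∣ x + j :=
        Nat.modEq_zero_iff_dvd.1 ((Nat.ModEq.add_right j g2).trans (Nat.modEq_zero_iff_dvd.2 hc3))
      exact ⟨(Nat.dvd_lcm_left q q').trans h8, (Nat.dvd_lcm_right q q').trans h8,
        (Nat.dvd_lcm_left t t').trans h9, (Nat.dvd_lcm_right t t').trans h9⟩
  rw [hfil, card_class L (A * B) c (Nat.mul_pos hA0 hB0) hd, Nat.cast_div hd (by positivity)]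
  push_cast
  rfl

end Pool.Agent.Work.MP_a8fbd7_nt.PAR.LC.I_PxC
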