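import Pool.Agent.Work.MP_a8fbd7_nt.PAR.LC.Stmts

set_option autoImplicit false

namespace Pool.Agent.Work.MP_a8fbd7_nt.PAR.LC.I_Rgh

open Pool.Agent.Work.MP_a8fbd7_nt.PAR.LC

theorem prf : StRgh := by
  intro W z d hz hd h1
  by_contra hcon
  rw [not_lt] at hcon
  have hp := Nat.minFac_prime (by omega : d ≠ 1)
  have h2 : d.minFac ∣ z := (Nat.minFac_dvd d).trans hd
  have h3 : d.minFac ≤ W := (Nat.minFac_le (by omega)).trans hcon
  have h4 : d.minFac ∣ primorial W := hp.dvd_primorial_iff.2 h3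
  have h5 : d.minFac ∣ 1 := by
    rw [← hz]
    exact Nat.dvd_gcd h2 h4
  exact hp.one_lt.ne' (Nat.dvd_one.1 h5)

end Pool.Agent.Work.MP_a8fbd7_nt.PAR.LC.I_Rgh
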