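import Pool.Agent.Work.MP_a8fbd7_nt.PAR.LC.Stmts

set_option autoImplicit false

/-!
MP_a8fbd7_nt, block LC, item SM (result of part S).
-/

open Finset

noncomputable section

namespace Pool.Agent.Work.MP_a8fbd7_nt.PAR.LC.I_SM

open Pool.Agent.Work.MP_a8fbd7_nt.PAR.LC

/-- the set of all link data -/
def SS (W : ℕ) (w0 ω e0 e1 : ℝ) (A T : Finset ℕ) : Finset (ℕ × ℕ × ℕ × ℕ) :=
  (A ×ˢ T).biUnion fun p => (Zs W w0 ω e0 e1 p.1 p.2).image fun s => (p.1, p.2, s.1, s.2)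

theorem mem_SS {W : ℕ} {w0 ω e0 e1 : ℝ} {A T : Finset ℕ} {q t z r : ℕ} :
    (q, t, z, r) ∈ SS W w0 ω e0 e1 A T ↔ q ∈ A ∧ t ∈ T ∧ (z, r) ∈ Zs W w0 ω e0 e1 q t := by
  unfold SS
  simp only [mem_biUnion, mem_product, mem_image, Prod.mk.injEq, Prod.exists]
  constructor
  · rintro ⟨q', t', ⟨hq, ht⟩, z', r', hs, rfl, rfl, rfl, rfl⟩
    exact ⟨hq, ht, hs⟩
  · rintro ⟨hq, ht, hs⟩
    exact ⟨q, t, ⟨hq, ht⟩, z, r, hs, rfl, rfl, rfl, rfl⟩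

open Classical in
theorem mem_badL {L j : ℕ} {S : Finset (ℕ × ℕ × ℕ × ℕ)} {p : ℕ × ℕ} :
    p ∈ badL L j S ↔ p ∈ range L ×ˢ range L ∧ ¬ HasL S j p.1 p.2 := mem_filter

/-- the link count vanishes at the points without link -/
theorem Nk_zero {W : ℕ} {w0 ω e0 e1 : ℝ} {A T : Finset ℕ} {j x M : ℕ}
    (h : ¬ HasL (SS W w0 ω e0 e1 A T) j x M) : Nk W w0 ω e0 e1 j A T x M = 0 := by
  unfold Nk
  refine sum_eq_zero fun q hq => sum_eq_zero fun t ht => sum_eq_zero fun s hs => ?_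
  rw [if_neg]
  rintro ⟨h1, h2, h3⟩
  exact h ⟨(q, t, s.1, s.2), mem_SS.2 ⟨hq, ht, hs⟩, h1, h2, h3⟩

theorem prf : StSMa → StTwo → StChb → StSM := by
  intro hSMa hTwo hChb j w0 ω e0 e1 κ hW hκ hκ1
  obtain ⟨W, A, T, hA, hT, hAT, hmu, hm2⟩ := hSMa w0 ω e0 e1 κ hW hκ hκ1
  have hz1 : ∀ q ∈ A, ∀ t ∈ T, ∀ s ∈ Zs W w0 ω e0 e1 q t, 1 ≤ s.1 := by
    intro q hq t ht s hs
    unfold Zs at hs
    simp only [mem_filter, mem_product, mem_range] at hs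
    have h1 : (0 : ℝ) < e0 * q * t := by
      have := (hA q hq).pos
      have := (hT t ht).pos
      have := hW.he0
      positivity
    have h2 : (0 : ℝ) < (s.1 : ℝ) := h1.trans_le hs.2.1
    exact_mod_cast h2
  set PA := ∏ q ∈ A, q with hPA
  set PT := ∏ t ∈ T, t with hPT
  set Z := ∏ q ∈ A, ∏ t ∈ T, ∏ s ∈ Zs W w0 ω e0 e1 q t, s.1 with hZ
  set L := PA * PA * (PT * PT) * Z with hL
  have hPA0 : 0 < PA := prod_pos fun q hq => (hA q hq).pos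
  have hPT0 : 0 < PT := prod_pos fun t ht => (hT t ht).pos
  have hZ0 : 0 < Z := prod_pos fun q hq => prod_pos fun t ht => prod_pos fun s hs =>
    hz1 q hq t ht s hs
  have hL1 : 1 ≤ L := by
    rw [hL]
    exact Nat.mul_pos (Nat.mul_pos (Nat.mul_pos hPA0 hPA0) (Nat.mul_pos hPT0 hPT0)) hZ0
  have hqL : ∀ q ∈ A, q ∣ L := fun q hq =>
    (((dvd_prod_of_mem (fun q => q) hq).mul_right _).mul_right _).mul_right _
  have htL : ∀ t ∈ T, t ∣ L := fun t ht =>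
    (((dvd_prod_of_mem (fun t => t) ht).mul_right PT).mul_left _).mul_right _
  have hzL : ∀ q ∈ A, ∀ t ∈ T, ∀ s ∈ Zs W w0 ω e0 e1 q t, s.1 ∣ L := by
    intro q hq t ht s hs
    refine Dvd.dvd.mul_left ?_ _
    have h1 : s.1 ∣ ∏ s ∈ Zs W w0 ω e0 e1 q t, s.1 := dvd_prod_of_mem (fun s : ℕ × ℕ => s.1) hs
    have h2 : (∏ s ∈ Zs W w0 ω e0 e1 q t, s.1) ∣ ∏ t ∈ T, ∏ s ∈ Zs W w0 ω e0 e1 q t, s.1 :=
      dvd_prod_of_mem (fun t => ∏ s ∈ Zs W w0 ω e0 e1 q t, s.1) ht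
    have h3 : (∏ t ∈ T, ∏ s ∈ Zs W w0 ω e0 e1 q t, s.1) ∣ Z :=
      dvd_prod_of_mem (fun q => ∏ t ∈ T, ∏ s ∈ Zs W w0 ω e0 e1 q t, s.1) hq
    exact h1.trans (h2.trans h3)
  have hlL : ∀ q ∈ A, ∀ q' ∈ A, ∀ t ∈ T, ∀ t' ∈ T, Nat.lcm q q' * Nat.lcm t t' ∣ L := by
    intro q hq q' hq' t ht t' ht'
    refine Dvd.dvd.mul_right ?_ _
    refine mul_dvd_mul ?_ ?_
    · exact (Nat.lcm_dvd_mul q q').trans (mul_dvd_mul (dvd_prod_of_mem (fun q => q) hq)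
        (dvd_prod_of_mem (fun q => q) hq'))
    · exact (Nat.lcm_dvd_mul t t').trans (mul_dvd_mul (dvd_prod_of_mem (fun q => q) ht)
        (dvd_prod_of_mem (fun q => q) ht'))
  obtain ⟨h1, h2⟩ := hTwo W w0 ω e0 e1 j L A T hW hL1 hA hT hAT hlL hzL
  have hcard : (((range L) ×ˢ (range L)).card : ℝ) = (L : ℝ) ^ 2 := by
    rw [card_product, card_range]
    push_cast
    ring
  refine ⟨L, SS W w0 ω e0 e1 A T, hL1, ?_, ?_⟩
  · rintro ⟨q, t, z, r⟩ hs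
    obtain ⟨hq, ht, hs⟩ := mem_SS.1 hs
    refine ⟨?_, hqL q hq, htL t ht, hzL q hq t ht (z, r) hs⟩
    have hz := hz1 q hq t ht (z, r) hs
    unfold Zs at hs
    simp only [mem_filter, mem_product, mem_range] at hs
    obtain ⟨-, a1, a2, -, a4, a5, a6, a7⟩ := hs
    refine ⟨(hA q hq).one_le, (hT t ht).one_le, hz, ?_, a4, a1, a2, a5, a6, a7⟩
    refine (Nat.coprime_primes (hA q hq) (hT t ht)).2 ?_
    rintro rfl
    exact (disjoint_left.1 hAT hq) ht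
  · have h3 := hChb ((range L) ×ˢ (range L)) (fun p => Nk W w0 ω e0 e1 j A T p.1 p.2)
      (mu W w0 ω e0 e1 A T) κ hmu hκ.le (by rw [sum_product, h1, hcard]) (by
        rw [sum_product, hcard]
        refine h2.trans ?_
        exact mul_le_mul_of_nonneg_left hm2 (by positivity))
    rw [hcard] at h3
    refine le_trans ?_ h3
    have h4 : badL L j (SS W w0 ω e0 e1 A T) ⊆
        ((range L) ×ˢ (range L)).filter (fun p => Nk W w0 ω e0 e1 j A T p.1 p.2 = 0) := by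
      intro p hp
      obtain ⟨hp1, hp2⟩ := mem_badL.1 hp
      exact mem_filter.2 ⟨hp1, Nk_zero hp2⟩
    exact_mod_cast card_le_card h4

end Pool.Agent.Work.MP_a8fbd7_nt.PAR.LC.I_SM
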