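import Pool.Agent.Work.MP_a8fbd7_nt.PAR.LC.Stmts

set_option autoImplicit false

open Finset Filter

noncomputable section

namespace Pool.Agent.Work.MP_a8fbd7_nt.PAR.LC.I_SMa

lemma SMa_Gs_nonneg (W : ℕ) (w0 ω e0 e1 : ℝ) (q t t' : ℕ) : 0 ≤ Gs W w0 ω e0 e1 q t t' := by
  unfold Gs
  refine sum_nonneg fun s _ => sum_nonneg fun s' _ => ?_
  positivity

lemma SMa_choice (Q0 W : ℕ) (ω U : ℝ) : ∃ Q : ℕ, Q0 ≤ Q ∧ W ≤ Q ∧ 6 / ω ≤ Q ∧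
    U ≤ (Q : ℝ) ^ (1 / 8 : ℝ) := by
  have hu : Tendsto (fun Q : ℕ => (Q : ℝ) ^ (1 / 8 : ℝ)) atTop atTop :=
    (tendsto_rpow_atTop (by norm_num)).comp tendsto_natCast_atTop_atTop
  have h1 := eventually_ge_atTop (α := ℕ) Q0
  have h2 := eventually_ge_atTop (α := ℕ) W
  have h3 := (tendsto_natCast_atTop_atTop (R := ℝ)).eventually_ge_atTop (6 / ω)
  have h4 := hu.eventually_ge_atTop U
  obtain ⟨Q, hQ⟩ := (h1.and (h2.and (h3.and h4))).exists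
  exact ⟨Q, hQ.1, hQ.2.1, hQ.2.2.1, hQ.2.2.2⟩

lemma SMa_e (ω η e1 P ph : ℝ) (ho0 : 0 < ω) (ho1 : ω ≤ 1 / 2) (hη : 0 < η) (hηe : η ≤ e1)
    (hph : 0 < ph) (hP : ph ≤ P) : 0 < ω * η * ph / (4 * e1 * P) ∧ ω * η * ph / (4 * e1 * P) ≤ 1 := by
  have he1 : 0 < e1 := hη.trans_le hηe
  have hPp : 0 < P := hph.trans_le hP
  refine ⟨by positivity, ?_⟩
  rw [div_le_one (by positivity)]
  have h1 : ω * η ≤ 1 * e1 := mul_le_mul (by linarith) hηe hη.le (by norm_num)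
  have h2 : ω * η * ph ≤ 1 * e1 * P := mul_le_mul h1 hP hph.le (by positivity)
  have h3 : 0 < e1 * P := mul_pos he1 hPp
  linarith

lemma SMa_W (ω η e0 e1 P ph κ W : ℝ) (ho0 : 0 < ω) (hη : 0 < η) (he0 : 0 < e0) (he1 : 0 < e1)
    (hph : 0 < ph) (hP : 0 < P) (_hκ : 0 < κ) (hW : 0 < W)
    (h : (P / ph) ^ 2 ≤ κ * e0 ^ 2 / (2048 * e1 ^ 2) * W) :
    16 * ω ^ 2 * η ^ 2 / e0 ^ 2 / W ≤ κ * (ω * η * ph / (4 * e1 * P)) ^ 2 / 8 := by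
  have h1 : P ^ 2 / ph ^ 2 ≤ κ * e0 ^ 2 / (2048 * e1 ^ 2) * W := by
    rw [← div_pow]; exact h
  have h2 : P ^ 2 * (2048 * e1 ^ 2) ≤ κ * e0 ^ 2 * W * ph ^ 2 := by
    rw [div_le_iff₀ (by positivity)] at h1
    have h3 : κ * e0 ^ 2 / (2048 * e1 ^ 2) * W * ph ^ 2 * (2048 * e1 ^ 2) =
        κ * e0 ^ 2 * W * ph ^ 2 := by
      field_simp
    calc P ^ 2 * (2048 * e1 ^ 2) ≤ κ * e0 ^ 2 / (2048 * e1 ^ 2) * W * ph ^ 2 * (2048 * e1 ^ 2) :=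
          mul_le_mul_of_nonneg_right h1 (by positivity)
      _ = _ := h3
  have h4 : κ * (ω * η * ph / (4 * e1 * P)) ^ 2 / 8 =
      κ * (ω ^ 2 * η ^ 2 * ph ^ 2) / (128 * e1 ^ 2 * P ^ 2) := by
    rw [div_pow]
    field_simp
    ring
  rw [h4, div_div, div_le_div_iff₀ (by positivity) (by positivity)]
  have h5 : 16 * ω ^ 2 * η ^ 2 * (128 * e1 ^ 2 * P ^ 2) =
      (ω ^ 2 * η ^ 2) * (P ^ 2 * (2048 * e1 ^ 2)) := by ring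
  have h6 : κ * (ω ^ 2 * η ^ 2 * ph ^ 2) * (e0 ^ 2 * W) =
      (ω ^ 2 * η ^ 2) * (κ * e0 ^ 2 * W * ph ^ 2) := by ring
  rw [h5, h6]
  exact mul_le_mul_of_nonneg_left h2 (by positivity)

lemma SMa_num (C δ u Q : ℝ) (hC : 0 ≤ C) (hu1 : 1 ≤ u) (hQ : Q = u ^ 8) (hCδ : 18 * C ≤ δ * u) :
    C * ((1 + u + u ^ 2) ^ 2 / Q) ≤ δ / 2 ∧ C * ((1 + Real.log 3 + 2 * u) / Q) ≤ δ / 2 := by
  have hu0 : 0 < u := by linarith
  have hsm1 : (1 + u + u ^ 2) ^ 2 / Q ≤ 9 / u := by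
    rw [hQ, div_le_div_iff₀ (by positivity) hu0]
    have h1 : 1 + u + u ^ 2 ≤ 3 * u ^ 2 := by nlinarith
    have h2 : (1 + u + u ^ 2) ^ 2 ≤ (3 * u ^ 2) ^ 2 := by
      apply pow_le_pow_left₀ (by positivity) h1
    have h3 : u ^ 5 ≤ u ^ 8 := pow_le_pow_right₀ hu1 (by norm_num)
    calc (1 + u + u ^ 2) ^ 2 * u ≤ (3 * u ^ 2) ^ 2 * u := mul_le_mul_of_nonneg_right h2 hu0.le
      _ = 9 * u ^ 5 := by ring
      _ ≤ 9 * u ^ 8 := by linarith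
  have hlog3 : Real.log 3 ≤ 2 := by
    have := Real.log_le_sub_one_of_pos (show (0 : ℝ) < 3 by norm_num)
    linarith
  have hsm2 : (1 + Real.log 3 + 2 * u) / Q ≤ 9 / u := by
    rw [hQ, div_le_div_iff₀ (by positivity) hu0]
    have h1 : 1 + Real.log 3 + 2 * u ≤ 5 * u := by linarith
    have h3 : u ^ 2 ≤ u ^ 8 := pow_le_pow_right₀ hu1 (by norm_num)
    have h4 : 0 < u ^ 8 := by positivity
    calc (1 + Real.log 3 + 2 * u) * u ≤ 5 * u * u := mul_le_mul_of_nonneg_right h1 hu0.le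
      _ = 5 * u ^ 2 := by ring
      _ ≤ 9 * u ^ 8 := by linarith
  have hC9 : C * (9 / u) ≤ δ / 2 := by
    rw [mul_div_assoc', div_le_iff₀ hu0]; linarith
  exact ⟨(mul_le_mul_of_nonneg_left hsm1 hC).trans hC9, (mul_le_mul_of_nonneg_left hsm2 hC).trans hC9⟩

/-- The context of the estimates. -/
structure Ctx (W : ℕ) (w0 ω e0 e1 u δ : ℝ) (Q : ℕ) (A T : Finset ℕ) : Prop where
  hW : Wn w0 ω e0 e1
  hW1 : 1 ≤ W
  hu1 : 1 ≤ u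
  hQ : (Q : ℝ) = u ^ 8
  hWQ : W ≤ Q
  hωQ : 6 / ω ≤ Q
  huP : 6 * (primorial W : ℝ) / (e1 - e0) ≤ u
  hδ : 0 < δ
  hC : 18 * (8 * ω * (e1 - e0) ^ 2 / e0 ^ 2 + 3 * (e1 / e0) ^ 3) ≤ δ * u
  hWδ : 16 * ω ^ 2 * (e1 - e0) ^ 2 / e0 ^ 2 / W ≤ δ
  hA : ∀ q ∈ A, q.Prime ∧ Q < q ∧ (q : ℝ) ≤ Real.exp u
  hT : ∀ t ∈ T, t.Prime ∧ Real.exp (4 * u) < t ∧ (t : ℝ) ≤ Real.exp (u ^ 2)

variable {W : ℕ} {w0 ω e0 e1 u δ : ℝ} {Q : ℕ} {A T : Finset ℕ}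

lemma Ctx.Q0 (h : Ctx W w0 ω e0 e1 u δ Q A T) : (0 : ℝ) < Q := by
  rw [h.hQ]; have := h.hu1; positivity

lemma Ctx.AQ (h : Ctx W w0 ω e0 e1 u δ Q A T) (q : ℕ) (hq : q ∈ A) : (Q : ℝ) ≤ q := by
  exact_mod_cast (h.hA q hq).2.1.le

lemma Ctx.AW (h : Ctx W w0 ω e0 e1 u δ Q A T) (q : ℕ) (hq : q ∈ A) : W < q :=
  lt_of_le_of_lt h.hWQ (h.hA q hq).2.1

lemma Ctx.Aω (h : Ctx W w0 ω e0 e1 u δ Q A T) (q : ℕ) (hq : q ∈ A) : 6 / ω ≤ (q : ℝ) :=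
  h.hωQ.trans (h.AQ q hq)

lemma Ctx.Aω1 (h : Ctx W w0 ω e0 e1 u δ Q A T) (q : ℕ) (hq : q ∈ A) : 1 / ω ≤ (q : ℝ) := by
  refine le_trans ?_ (h.Aω q hq)
  exact div_le_div_of_nonneg_right (by norm_num) h.hW.ho0.le

lemma Ctx.expu (h : Ctx W w0 ω e0 e1 u δ Q A T) : Real.exp u ≤ Real.exp (4 * u) := by
  have := h.hu1
  exact Real.exp_le_exp.2 (by linarith)

lemma Ctx.AT (h : Ctx W w0 ω e0 e1 u δ Q A T) (q : ℕ) (hq : q ∈ A) (t : ℕ) (ht : t ∈ T) :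
    q < t := by
  have h1 : (q : ℝ) < t := lt_of_le_of_lt ((h.hA q hq).2.2.trans h.expu) (h.hT t ht).2.1
  exact_mod_cast h1

lemma Ctx.ηp (h : Ctx W w0 ω e0 e1 u δ Q A T) : 0 < e1 - e0 := by
  have := h.hW.he01; linarith

lemma primorial1 (W : ℕ) : (1 : ℝ) ≤ (primorial W : ℝ) := by
  exact_mod_cast primorial_pos W

lemma Ctx.TP (h : Ctx W w0 ω e0 e1 u δ Q A T) (t : ℕ) (ht : t ∈ T) :
    6 * (primorial W : ℝ) / (e1 - e0) ≤ (t : ℝ) := by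
  have h1 := Real.add_one_le_exp (4 * u)
  have h2 := (h.hT t ht).2.1
  have h3 := h.huP
  have h4 := h.hu1
  linarith

lemma Ctx.Tη (h : Ctx W w0 ω e0 e1 u δ Q A T) (t : ℕ) (ht : t ∈ T) :
    1 / (e1 - e0) ≤ (t : ℝ) := by
  refine le_trans ?_ (h.TP t ht)
  have := primorial1 W
  exact div_le_div_of_nonneg_right (by linarith) h.ηp.le

lemma Ctx.qq (h : Ctx W w0 ω e0 e1 u δ Q A T) (q : ℕ) (hq : q ∈ A) (q' : ℕ) (hq' : q' ∈ A)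
    (t : ℕ) (ht : t ∈ T) : (3 * q * q' : ℝ) ≤ (e1 - e0) * t := by
  have hη := h.ηp
  have hexp2 : 3 / (e1 - e0) ≤ Real.exp (2 * u) := by
    have h1 := Real.add_one_le_exp (2 * u)
    have h2 : 3 / (e1 - e0) ≤ 6 * (primorial W : ℝ) / (e1 - e0) := by
      apply div_le_div_of_nonneg_right _ hη.le
      have := primorial1 W
      linarith
    have h3 := h.huP
    have h4 := h.hu1
    linarith
  have hexp3 : 3 * (Real.exp u * Real.exp u) ≤ (e1 - e0) * Real.exp (4 * u) := by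
    have h1 : Real.exp (4 * u) = Real.exp (2 * u) * (Real.exp u * Real.exp u) := by
      rw [← Real.exp_add, ← Real.exp_add]; congr 1; ring
    rw [h1, ← mul_assoc (e1 - e0)]
    apply mul_le_mul_of_nonneg_right _ (by positivity)
    rw [div_le_iff₀ hη] at hexp2
    linarith
  have h1 : (q : ℝ) * q' ≤ Real.exp u * Real.exp u :=
    mul_le_mul (h.hA q hq).2.2 (h.hA q' hq').2.2 (Nat.cast_nonneg _) (Real.exp_pos _).le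
  have h2 : (e1 - e0) * Real.exp (4 * u) ≤ (e1 - e0) * t :=
    mul_le_mul_of_nonneg_left (h.hT t ht).2.1.le hη.le
  calc (3 * q * q' : ℝ) = 3 * ((q : ℝ) * q') := by ring
    _ ≤ 3 * (Real.exp u * Real.exp u) := by linarith
    _ ≤ (e1 - e0) * Real.exp (4 * u) := hexp3
    _ ≤ (e1 - e0) * t := h2

lemma Ctx.q1 (h : Ctx W w0 ω e0 e1 u δ Q A T) (q : ℕ) (hq : q ∈ A) : (1 : ℝ) ≤ q := by
  exact_mod_cast (h.hA q hq).1.one_lt.le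

lemma Ctx.t1 (h : Ctx W w0 ω e0 e1 u δ Q A T) (t : ℕ) (ht : t ∈ T) : (1 : ℝ) ≤ t := by
  exact_mod_cast (h.hT t ht).1.one_lt.le

lemma Ctx.qt (h : Ctx W w0 ω e0 e1 u δ Q A T) (q : ℕ) (hq : q ∈ A)
    (t : ℕ) (ht : t ∈ T) : (q : ℝ) ≤ (e1 - e0) * t := by
  refine le_trans ?_ (h.qq q hq q hq t ht)
  have h1 := h.q1 q hq
  nlinarith

lemma Ctx.Alog (h : Ctx W w0 ω e0 e1 u δ Q A T) (q : ℕ) (hq : q ∈ A) : Real.log q ≤ u := by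
  have h0 : (0 : ℝ) < q := by exact_mod_cast (h.hA q hq).1.pos
  rw [Real.log_le_iff_le_exp h0]
  exact (h.hA q hq).2.2

lemma Ctx.Tlog (h : Ctx W w0 ω e0 e1 u δ Q A T) (t : ℕ) (ht : t ∈ T) : Real.log t ≤ u ^ 2 := by
  have h0 : (0 : ℝ) < t := by exact_mod_cast (h.hT t ht).1.pos
  rw [Real.log_le_iff_le_exp h0]
  exact (h.hT t ht).2.2

lemma Ctx.l1 (h : Ctx W w0 ω e0 e1 u δ Q A T) : 1 ≤ e1 / e0 := by
  have h1 := h.hW.he0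
  have h2 := h.hW.he01
  rw [le_div_iff₀ h1]; linarith

lemma Ctx.Cpos (h : Ctx W w0 ω e0 e1 u δ Q A T) :
    0 ≤ 8 * ω * (e1 - e0) ^ 2 / e0 ^ 2 ∧ 0 ≤ 3 * (e1 / e0) ^ 3 := by
  have h1 := h.hW.ho0
  have h2 := h.l1
  exact ⟨by positivity, by positivity⟩

lemma Ctx.num1 (h : Ctx W w0 ω e0 e1 u δ Q A T) :
    3 * (e1 / e0) ^ 3 * ((1 + u + u ^ 2) ^ 2 / Q) ≤ δ / 2 := by
  obtain ⟨h1, h2⟩ := h.Cpos
  refine (SMa_num (3 * (e1 / e0) ^ 3) δ u Q h2 h.hu1 h.hQ ?_).1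
  have := h.hC
  linarith

lemma Ctx.num2 (h : Ctx W w0 ω e0 e1 u δ Q A T) :
    8 * ω * (e1 - e0) ^ 2 / e0 ^ 2 * ((1 + Real.log 3 + 2 * u) / Q) ≤ δ / 2 := by
  obtain ⟨h1, h2⟩ := h.Cpos
  refine (SMa_num _ δ u Q h1 h.hu1 h.hQ ?_).2
  have := h.hC
  linarith

lemma Ctx.num3 (h : Ctx W w0 ω e0 e1 u δ Q A T) :
    2 * (e1 / e0) * ((1 + u + u ^ 2) ^ 2 / Q) ≤ δ / 2 := by
  refine le_trans ?_ h.num1
  have hQ := h.Q0
  apply mul_le_mul_of_nonneg_right _ (by positivity)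
  have hl := h.l1
  have : e1 / e0 ≤ (e1 / e0) ^ 3 := by
    calc e1 / e0 = (e1 / e0) ^ 1 := (pow_one _).symm
      _ ≤ (e1 / e0) ^ 3 := pow_le_pow_right₀ hl (by norm_num)
  linarith

lemma Ctx.Eu (hEup : StEup) (h : Ctx W w0 ω e0 e1 u δ Q A T) (q : ℕ) (hq : q ∈ A) (t : ℕ)
    (ht : t ∈ T) : Es W w0 ω e0 e1 q t ≤ 2 * (e1 / e0) := by
  have h1 := hEup W w0 ω e0 e1 q t h.hW (h.hA q hq).1.one_lt.le (h.hT t ht).1.one_lt.le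
    (h.Aω1 q hq) (h.Tη t ht)
  refine h1.trans ?_
  have he0 := h.hW.he0
  have hη := h.ηp
  rw [mul_div_assoc', div_le_div_iff_of_pos_right he0]
  have h2 : ω * (e1 - e0) ≤ (1 / 2) * e1 := mul_le_mul h.hW.ho1 (by linarith) hη.le (by norm_num)
  have h3 : 4 * ω * (e1 - e0) = 4 * (ω * (e1 - e0)) := by ring
  rw [h3]; linarith

lemma Ctx.GT (hGsT : StGsT) (h : Ctx W w0 ω e0 e1 u δ Q A T)
    (hT : ∀ p ∈ T, ⌊Real.exp (4 * u)⌋₊ + 1 ≤ p ∧ p ≤ ⌊Real.exp (u ^ 2)⌋₊)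
    (q : ℕ) (hq : q ∈ A) (t : ℕ) (ht : t ∈ T) :
    ∑ t' ∈ T, Gs W w0 ω e0 e1 q t t' / t' ≤ δ := by
  have h1 := hGsT W w0 ω e0 e1 q t (⌊Real.exp (4 * u)⌋₊ + 1) ⌊Real.exp (u ^ 2)⌋₊ T h.hW
    (h.hA q hq).1 (fun p hp => ⟨(h.hT p hp).1, (hT p hp).1, (hT p hp).2⟩) (by
      have h2 : (q : ℝ) ≤ Real.exp (4 * u) := (h.hA q hq).2.2.trans h.expu
      have h3 := (Nat.le_floor_iff (Real.exp_pos (4 * u)).le).2 h2
      omega) ht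
  refine h1.trans ?_
  have hT2 : (1 : ℝ) ≤ (⌊Real.exp (u ^ 2)⌋₊ : ℝ) := by
    have h4 : 1 ≤ t := (h.hT t ht).1.one_lt.le
    exact_mod_cast h4.trans (hT t ht).2
  have hfl : (⌊Real.exp (u ^ 2)⌋₊ : ℝ) ≤ Real.exp (u ^ 2) := Nat.floor_le (Real.exp_pos _).le
  generalize (⌊Real.exp (u ^ 2)⌋₊ : ℝ) = T2 at hT2 hfl
  have hq1 := h.q1 q hq
  have hlog : Real.log (q * T2) ≤ u + u ^ 2 := by
    rw [Real.log_mul (by linarith) (by linarith)]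
    have h6 : Real.log T2 ≤ u ^ 2 := by
      rw [Real.log_le_iff_le_exp (by linarith)]; exact hfl
    linarith [h.Alog q hq]
  have hlog0 : 0 ≤ Real.log (q * T2) := Real.log_nonneg (by nlinarith)
  have hl := h.l1
  have hQ := h.Q0
  have hδ := h.hδ
  have hu := h.hu1
  calc 3 * (e1 / e0) ^ 3 * (1 + Real.log (q * T2)) ^ 2 / q
      ≤ 3 * (e1 / e0) ^ 3 * (1 + u + u ^ 2) ^ 2 / Q := by
        apply div_le_div₀ (by positivity) _ hQ (h.AQ q hq)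
        apply mul_le_mul_of_nonneg_left _ (by positivity)
        apply pow_le_pow_left₀ (by linarith)
        linarith
    _ = 3 * (e1 / e0) ^ 3 * ((1 + u + u ^ 2) ^ 2 / Q) := by ring
    _ ≤ δ / 2 := h.num1
    _ ≤ δ := by linarith

lemma Ctx.Gd (hGsd : StGsd) (h : Ctx W w0 ω e0 e1 u δ Q A T) (q : ℕ) (hq : q ∈ A) (t : ℕ)
    (ht : t ∈ T) : Gs W w0 ω e0 e1 q t t ≤ 2 * (e1 / e0) + δ := by
  have h1 := hGsd W w0 ω e0 e1 q t h.hW (h.hA q hq).1 (h.hT t ht).1 (h.AT q hq t ht).ne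
  refine h1.trans ?_
  have hq1 := h.q1 q hq
  have ht1 := h.t1 t ht
  have hlog : Real.log (q * t : ℝ) ≤ u + u ^ 2 := by
    rw [Real.log_mul (by linarith) (by linarith)]
    linarith [h.Alog q hq, h.Tlog t ht]
  have hlog0 : 0 ≤ Real.log (q * t : ℝ) := Real.log_nonneg (by nlinarith)
  have hl := h.l1
  have hQ := h.Q0
  have hδ := h.hδ
  have hu := h.hu1
  have h2 : 2 * (e1 / e0) * (1 + Real.log (q * t)) ^ 2 / q ≤ δ := by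
    calc 2 * (e1 / e0) * (1 + Real.log (q * t)) ^ 2 / q
        ≤ 2 * (e1 / e0) * (1 + u + u ^ 2) ^ 2 / Q := by
          apply div_le_div₀ (by positivity) _ hQ (h.AQ q hq)
          apply mul_le_mul_of_nonneg_left _ (by positivity)
          apply pow_le_pow_left₀ (by linarith)
          linarith
      _ = 2 * (e1 / e0) * ((1 + u + u ^ 2) ^ 2 / Q) := by ring
      _ ≤ δ / 2 := h.num3
      _ ≤ δ := by linarith
  linarith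

lemma Ctx.Fne (hFne : StFne) (h : Ctx W w0 ω e0 e1 u δ Q A T) (q : ℕ) (hq : q ∈ A) (q' : ℕ)
    (hq' : q' ∈ A) (hne : q ≠ q') (t : ℕ) (ht : t ∈ T) (t' : ℕ) (ht' : t' ∈ T) :
    Fs W w0 ω e0 e1 q t q' t' ≤ Es W w0 ω e0 e1 q t * Es W w0 ω e0 e1 q' t' + δ := by
  have h1 := hFne W w0 ω e0 e1 q t q' t' h.hW (h.hA q hq).1 (h.hA q' hq').1 hne (h.hT t ht).1
    (h.hT t' ht').1 h.hW1 (h.Aω1 q hq) (h.Aω1 q' hq') (h.qq q hq q' hq' t ht)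
    (h.qq q hq q' hq' t' ht')
  refine h1.trans ?_
  have hq1 := h.q1 q hq
  have hq1' := h.q1 q' hq'
  have hlog : Real.log (3 * q * q' : ℝ) ≤ Real.log 3 + 2 * u := by
    rw [Real.log_mul (by linarith) (by linarith), Real.log_mul (by norm_num) (by linarith)]
    linarith [h.Alog q hq, h.Alog q' hq']
  have hlog0 : 0 ≤ Real.log (3 * q * q' : ℝ) := Real.log_nonneg (by nlinarith)
  have hlog3 := Real.log_nonneg (show (1 : ℝ) ≤ 3 by norm_num)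
  have hu := h.hu1
  have hQ := h.Q0
  obtain ⟨hc1, hc2⟩ := h.Cpos
  have h2 : (8 * ω * (e1 - e0) ^ 2 / e0 ^ 2) * (ω / W) =
      (16 * ω ^ 2 * (e1 - e0) ^ 2 / e0 ^ 2 / W) / 2 := by ring
  have h2' := h.hWδ
  have h5 : (1 + Real.log (3 * q * q' : ℝ)) / q' ≤ (1 + Real.log 3 + 2 * u) / Q := by
    apply div_le_div₀ _ (by linarith) hQ (h.AQ q' hq')
    positivity
  have h4 := (mul_le_mul_of_nonneg_left h5 hc1).trans h.num2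
  rw [mul_add, h2]; linarith

lemma Ctx.Feq (hFeq : StFeq) (h : Ctx W w0 ω e0 e1 u δ Q A T) (q : ℕ) (hq : q ∈ A)
    (t : ℕ) (ht : t ∈ T) (t' : ℕ) (ht' : t' ∈ T) :
    Fs W w0 ω e0 e1 q t q t' ≤ Es W w0 ω e0 e1 q t * Es W w0 ω e0 e1 q t' + δ +
        Gs W w0 ω e0 e1 q t t' ∧ 0 ≤ Gs W w0 ω e0 e1 q t t' := by
  refine ⟨?_, SMa_Gs_nonneg _ _ _ _ _ _ _ _⟩
  have h1 := hFeq W w0 ω e0 e1 q t t' h.hW (h.hA q hq).1 (h.hT t ht).1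
    (h.hT t' ht').1 h.hW1 (h.Aω1 q hq) (h.qt q hq t ht) (h.qt q hq t' ht')
  have h2 := h.hWδ
  linarith

theorem prf (hTtp : StTtp) (hPrs : StPrs) (hElo : StElo) (hEup : StEup) (hFne : StFne)
    (hFeq : StFeq) (hGsT : StGsT) (hGsd : StGsd) (hAsm : StAsm) : StSMa := by
  intro w0 ω e0 e1 κ hW hκ hκ1
  obtain ⟨hw0, hw2, ho0, ho1, he0, he01, he1⟩ := id hW
  have he1p : 0 < e1 := he0.trans he01
  have hηp : 0 < e1 - e0 := by linarith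
  have hηe1 : e1 - e0 ≤ e1 := by linarith
  -- choice of W
  obtain ⟨W, hW1, hWtp⟩ := hTtp (κ * e0 ^ 2 / (2048 * e1 ^ 2)) 1 (by positivity)
  have hWp : (0 : ℝ) < W := by exact_mod_cast (by omega : 0 < W)
  have hPp : (0 : ℝ) < (primorial W : ℝ) := by exact_mod_cast primorial_pos W
  have hphp : (0 : ℝ) < (Nat.totient (primorial W) : ℝ) := by
    exact_mod_cast Nat.totient_pos.2 (primorial_pos W)
  have hphP : (Nat.totient (primorial W) : ℝ) ≤ (primorial W : ℝ) := by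
    exact_mod_cast Nat.totient_le _
  obtain ⟨hep, hele⟩ := SMa_e ω (e1 - e0) e1 _ _ ho0 ho1 hηp hηe1 hphp hphP
  have hWδ := SMa_W ω (e1 - e0) e0 e1 _ _ κ W ho0 hηp he0 he1p hphp hPp hκ hWp hWtp
  have hElo' := fun (q t : ℕ) => hElo W w0 ω e0 e1 q t hW
  generalize ω * (e1 - e0) * (Nat.totient (primorial W) : ℝ) / (4 * e1 * (primorial W : ℝ)) = e
    at hep hele hWδ hElo'
  obtain ⟨δ, hδ⟩ : ∃ δ : ℝ, δ = κ * e ^ 2 / 8 := ⟨_, rfl⟩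
  rw [← hδ] at hWδ
  have hδp : 0 < δ := by rw [hδ]; positivity
  have hδ1 : δ ≤ 1 := by
    rw [hδ]
    have : κ * e ^ 2 ≤ 1 * 1 := mul_le_mul hκ1 (by nlinarith) (by positivity) (by norm_num)
    linarith
  obtain ⟨K, hK1, hK2⟩ : ∃ K : ℝ, 1 ≤ K ∧ 16 * (2 * (e1 / e0) + 1) ^ 2 / (κ * e ^ 2) ≤ K :=
    ⟨_, le_max_left _ _, le_max_right _ _⟩
  obtain ⟨Q0, hQ0⟩ := hPrs K
  obtain ⟨Q, hQ0Q, hWQ, hωQ, hU⟩ := SMa_choice Q0 W ω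
    (max 1 (max (6 * (primorial W : ℝ) / (e1 - e0))
      (18 * (8 * ω * (e1 - e0) ^ 2 / e0 ^ 2 + 3 * (e1 / e0) ^ 3) / δ)))
  obtain ⟨hSA, hST⟩ := hQ0 Q hQ0Q
  obtain ⟨u, hu⟩ : ∃ u : ℝ, u = (Q : ℝ) ^ (1 / 8 : ℝ) := ⟨_, rfl⟩
  have hv : (Q : ℝ) ^ (1 / 4 : ℝ) = u ^ 2 := by
    rw [hu, ← Real.rpow_natCast, ← Real.rpow_mul (Nat.cast_nonneg _)]
    norm_num
  have hQ8 : (Q : ℝ) = u ^ 8 := by
    rw [hu, ← Real.rpow_natCast, ← Real.rpow_mul (Nat.cast_nonneg _)]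
    norm_num
  rw [hv, ← hu] at hST
  rw [← hu] at hSA hU
  have hu1 : 1 ≤ u := (le_max_left _ _).trans hU
  have hu2 : 6 * (primorial W : ℝ) / (e1 - e0) ≤ u :=
    (le_max_left _ _).trans ((le_max_right _ _).trans hU)
  have hu3 : 18 * (8 * ω * (e1 - e0) ^ 2 / e0 ^ 2 + 3 * (e1 / e0) ^ 3) / δ ≤ u :=
    (le_max_right _ _).trans ((le_max_right _ _).trans hU)
  rw [div_le_iff₀ hδp, mul_comm u δ] at hu3
  -- the primes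
  obtain ⟨A, hA⟩ : ∃ A : Finset ℕ, A = (Ioc Q ⌊Real.exp u⌋₊).filter Nat.Prime := ⟨_, rfl⟩
  obtain ⟨T, hT⟩ : ∃ T : Finset ℕ,
    T = (Ioc ⌊Real.exp (4 * u)⌋₊ ⌊Real.exp (u ^ 2)⌋₊).filter Nat.Prime := ⟨_, rfl⟩
  rw [← hA] at hSA
  rw [← hT] at hST
  have hAq : ∀ q ∈ A, q.Prime ∧ Q < q ∧ (q : ℝ) ≤ Real.exp u := by
    intro q hq
    rw [hA, mem_filter, mem_Ioc] at hq
    exact ⟨hq.2, hq.1.1, (Nat.le_floor_iff (Real.exp_pos _).le).1 hq.1.2⟩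
  have hTt : ∀ t ∈ T, t.Prime ∧ Real.exp (4 * u) < t ∧ (t : ℝ) ≤ Real.exp (u ^ 2) := by
    intro t ht
    rw [hT, mem_filter, mem_Ioc] at ht
    exact ⟨ht.2, Nat.lt_of_floor_lt ht.1.1, (Nat.le_floor_iff (Real.exp_pos _).le).1 ht.1.2⟩
  have hTf : ∀ p ∈ T, ⌊Real.exp (4 * u)⌋₊ + 1 ≤ p ∧ p ≤ ⌊Real.exp (u ^ 2)⌋₊ := by
    intro p hp
    rw [hT, mem_filter, mem_Ioc] at hp
    exact ⟨hp.1.1, hp.1.2⟩
  clear hA hT
  have hX : Ctx W w0 ω e0 e1 u δ Q A T := ⟨hW, hW1, hu1, hQ8, hWQ, hωQ, hu2, hδp, hu3, hWδ, hAq, hTt⟩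
  have hEl : ∀ q ∈ A, ∀ t ∈ T, e ≤ Es W w0 ω e0 e1 q t := by
    intro q hq t ht
    exact hElo' q t (hAq q hq).1 (hTt t ht).1 (hX.AW q hq) (hX.AT q hq t ht)
      (hX.Aω q hq) (hX.TP t ht)
  have hSAp : 0 < ∑ q ∈ A, 1 / (q : ℝ) := by linarith
  have hSTp : 0 < ∑ t ∈ T, 1 / (t : ℝ) := by linarith
  have hAne : A.Nonempty := by
    rw [nonempty_iff_ne_empty]; rintro h; rw [h, sum_empty] at hSAp; exact lt_irrefl _ hSAp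
  have hTne : T.Nonempty := by
    rw [nonempty_iff_ne_empty]; rintro h; rw [h, sum_empty] at hSTp; exact lt_irrefl _ hSTp
  refine ⟨W, A, T, fun q hq => (hAq q hq).1, fun t ht => (hTt t ht).1, ?_, ?_, ?_⟩
  · rw [Finset.disjoint_left]
    intro q hq ht
    exact lt_irrefl _ (hX.AT q hq q ht)
  · unfold mu
    refine sum_pos (fun q hq => sum_pos (fun t ht => ?_) hTne) hAne
    have h1 := hX.q1 q hq
    have h2 := hX.t1 t ht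
    exact div_pos (hep.trans_le (hEl q hq t ht)) (mul_pos (by linarith) (by linarith))
  · exact hAsm A T (Es W w0 ω e0 e1) (Fs W w0 ω e0 e1) (Gs W w0 ω e0 e1) e (2 * (e1 / e0)) δ κ K
      (fun q hq => (hAq q hq).1) (fun t ht => (hTt t ht).1) hep hδp.le hδ.le hδ1 hκ hκ1 hK1
      hK2 hSA hST (fun q hq t ht => ⟨hEl q hq t ht, hX.Eu hEup q hq t ht⟩)
      (fun q hq q' hq' hne t ht t' ht' => hX.Fne hFne q hq q' hq' hne t ht t' ht')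
      (fun q hq t ht t' ht' => hX.Feq hFeq q hq t ht t' ht')
      (fun q hq t ht => hX.GT hGsT hTf q hq t ht) (fun q hq t ht => hX.Gd hGsd q hq t ht)

end Pool.Agent.Work.MP_a8fbd7_nt.PAR.LC.I_SMa
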