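import Pool.Agent.Work.MP_a8fbd7_nt.PAR.LC.Stmts2
import Pool.Agent.Work.MP_56b8f5_nt.UT.I_VB
import Pool.Agent.Work.MP_56b8f5_nt.UT.I_KL

set_option autoImplicit false

/-!
MP_a8fbd7_nt, block LC, item Sec: exponential sums over progressions.
-/

open Finset

noncomputable section

namespace Pool.Agent.Work.MP_a8fbd7_nt.PAR.LC.I_Sec

/-- the second difference -/
theorem sd (M w l : ℝ) (hw : 0 < w) (hl : 0 < l) :
    (M / (l * (w + 2 * l)) - M / (l * (w + l))) - (M / (l * (w + l)) - M / (l * w)) =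
      2 * M * l / (w * (w + l) * (w + 2 * l)) := by
  have h1 : w + l ≠ 0 := by positivity
  have h2 : w + 2 * l ≠ 0 := by positivity
  field_simp
  ring

theorem prf : StSec := by
  intro L m r hL hm hr
  obtain ⟨C0, hC0, hVB⟩ := Pool.Agent.Work.MP_56b8f5_nt.UT.iVB Pool.Agent.Work.MP_56b8f5_nt.UT.iKL
    ((21 / 20 : ℝ) ^ 3) (by norm_num)
  have hLr : (0 : ℝ) < L := by exact_mod_cast hL
  have hmr : (0 : ℝ) < m := by exact_mod_cast hm
  set K : ℝ := 2 * m * L / ((21 / 20 : ℝ) ^ 3 * r ^ 3) with hK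
  have hK0 : 0 < K := by positivity
  have hsK : 0 < Real.sqrt K := Real.sqrt_pos.2 hK0
  refine ⟨C0 * ((r / (20 * L) + 1) * Real.sqrt K + 1 / Real.sqrt K), by positivity, ?_⟩
  intro n x0 a N hn hlo hhi
  have hn0 : 0 < n := by linarith
  have hrn : 0 < r * n := mul_pos hr hn0
  have hsn : 0 < Real.sqrt n := Real.sqrt_pos.2 hn0
  have hN : (N : ℝ) ≤ r * n / (20 * L) + 1 := by
    rcases Nat.eq_zero_or_pos N with h | h
    · rw [h]; push_cast; positivity
    · have h1 := hhi (N - 1) (by omega)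
      push_cast at h1 hlo
      have h2 : ((N - 1 : ℕ) : ℝ) = N - 1 := by rw [Nat.cast_sub h]; norm_num
      rw [h2] at h1
      have h3 : (N - 1 : ℝ) ≤ r * n / (20 * L) := by
        rw [le_div_iff₀ (by positivity)]
        nlinarith
      linarith
  have hdd : ∀ i, 0 ≤ i → i + 2 < N →
      K / n ≤ Pool.Agent.Work.MP_56b8f5_nt.UT.dd 2
        (fun i : ℕ => (m : ℝ) * (n ^ 2 / (L * ((x0 + L * (a + i) : ℕ) : ℝ)))) i ∧
      Pool.Agent.Work.MP_56b8f5_nt.UT.dd 2
        (fun i : ℕ => (m : ℝ) * (n ^ 2 / (L * ((x0 + L * (a + i) : ℕ) : ℝ)))) i ≤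
        (21 / 20 : ℝ) ^ 3 * (K / n) := by
    intro i _ hi
    set w : ℝ := (x0 : ℝ) + L * (a + i) with hw
    have hwlo : r * n ≤ w := by
      push_cast at hlo
      have : (0 : ℝ) ≤ L * i := by positivity
      rw [hw]; linarith
    have hw0 : 0 < w := lt_of_lt_of_le hrn hwlo
    have hwhi : w + 2 * L ≤ 21 / 20 * r * n := by
      have := hhi (i + 2) hi
      push_cast at this
      rw [hw]; linarith
    have hval : Pool.Agent.Work.MP_56b8f5_nt.UT.dd 2
        (fun i : ℕ => (m : ℝ) * (n ^ 2 / (L * ((x0 + L * (a + i) : ℕ) : ℝ)))) i =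
        2 * (m * n ^ 2) * L / (w * (w + L) * (w + 2 * L)) := by
      rw [← sd (m * n ^ 2) w L hw0 hLr]
      show ((m : ℝ) * (n ^ 2 / (L * ((x0 + L * (a + (i + 1 + 1)) : ℕ) : ℝ))) -
        (m : ℝ) * (n ^ 2 / (L * ((x0 + L * (a + (i + 1)) : ℕ) : ℝ)))) -
        ((m : ℝ) * (n ^ 2 / (L * ((x0 + L * (a + (i + 1)) : ℕ) : ℝ))) -
        (m : ℝ) * (n ^ 2 / (L * ((x0 + L * (a + i) : ℕ) : ℝ)))) = _
      have e0 : ((x0 + L * (a + i) : ℕ) : ℝ) = w := by push_cast; rw [hw]
      have e1 : ((x0 + L * (a + (i + 1)) : ℕ) : ℝ) = w + L := by push_cast; rw [hw]; ring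
      have e2 : ((x0 + L * (a + (i + 1 + 1)) : ℕ) : ℝ) = w + 2 * L := by push_cast; rw [hw]; ring
      rw [e0, e1, e2]
      ring
    rw [hval]
    have hprod1 : (r * n) ^ 3 ≤ w * (w + L) * (w + 2 * L) := by
      have a1 : r * n * (r * n) ≤ w * (w + L) :=
        mul_le_mul hwlo (by linarith) hrn.le hw0.le
      have a2 : r * n * (r * n) * (r * n) ≤ w * (w + L) * (w + 2 * L) :=
        mul_le_mul a1 (by linarith) hrn.le (by positivity)
      calc (r * n) ^ 3 = r * n * (r * n) * (r * n) := by ring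
        _ ≤ _ := a2
    have hprod2 : w * (w + L) * (w + 2 * L) ≤ (21 / 20 * r * n) ^ 3 := by
      have hb : 0 ≤ 21 / 20 * r * n := by positivity
      have a1 : w * (w + L) ≤ (21 / 20 * r * n) * (21 / 20 * r * n) :=
        mul_le_mul (by linarith) (by linarith) (by positivity) hb
      have a2 : w * (w + L) * (w + 2 * L) ≤ (21 / 20 * r * n) * (21 / 20 * r * n) * (21 / 20 * r * n) :=
        mul_le_mul a1 hwhi (by positivity) (by positivity)
      calc w * (w + L) * (w + 2 * L) ≤ _ := a2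
        _ = (21 / 20 * r * n) ^ 3 := by ring
    have hnum : 0 ≤ 2 * ((m : ℝ) * n ^ 2) * L := by positivity
    constructor
    · have : K / n = 2 * (m * n ^ 2) * L / (21 / 20 * r * n) ^ 3 := by
        rw [hK]; field_simp
      rw [this]
      exact div_le_div_of_nonneg_left hnum (by positivity) hprod2
    · have : (21 / 20 : ℝ) ^ 3 * (K / n) = 2 * (m * n ^ 2) * L / (r * n) ^ 3 := by
        rw [hK]; field_simp
      rw [this]
      exact div_le_div_of_nonneg_left hnum (by positivity) hprod1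
  have hmain := hVB (fun i : ℕ => (m : ℝ) * (n ^ 2 / (L * ((x0 + L * (a + i) : ℕ) : ℝ)))) 0 N
    (r * n / (20 * L) + 1) (K / n) (Nat.zero_le _) (by push_cast; linarith)
    (by have : 0 ≤ r * n / (20 * L) := by positivity
        linarith) (by positivity) hdd
  rw [Finset.range_eq_Ico]
  refine le_trans hmain ?_
  have hs : Real.sqrt (K / n) = Real.sqrt K / Real.sqrt n := Real.sqrt_div hK0.le n
  rw [hs, mul_assoc]
  apply mul_le_mul_of_nonneg_left _ (by linarith)
  have hb : r * n / (20 * L) + 1 ≤ (r / (20 * L) + 1) * n := by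
    have : r * n / (20 * L) = r / (20 * L) * n := by ring
    rw [this]; linarith
  have hnn : n = Real.sqrt n * Real.sqrt n := (Real.mul_self_sqrt hn0.le).symm
  have h1 : (r * n / (20 * L) + 1) * (Real.sqrt K / Real.sqrt n) ≤
      (r / (20 * L) + 1) * Real.sqrt K * Real.sqrt n := by
    calc (r * n / (20 * L) + 1) * (Real.sqrt K / Real.sqrt n)
        ≤ (r / (20 * L) + 1) * n * (Real.sqrt K / Real.sqrt n) :=
          mul_le_mul_of_nonneg_right hb (by positivity)
      _ = (r / (20 * L) + 1) * Real.sqrt K * (n / Real.sqrt n) := by ring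
      _ = (r / (20 * L) + 1) * Real.sqrt K * Real.sqrt n := by rw [Real.div_sqrt]
  have h2 : 1 / (Real.sqrt K / Real.sqrt n) = 1 / Real.sqrt K * Real.sqrt n := by
    field_simp
  rw [h2, add_mul]
  linarith

end Pool.Agent.Work.MP_a8fbd7_nt.PAR.LC.I_Sec
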