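import Pool.Agent.Work.MP_a8fbd7_nt.PAR.LC.Stmts3

set_option autoImplicit false

/-!
MP_a8fbd7_nt, block LC, item St4: the fourth moment of the divisor function.
-/

open Finset

noncomputable section

namespace Pool.Agent.Work.MP_a8fbd7_nt.PAR.LC.I_St4

open scoped Pointwise in
theorem card_mul (a b : ℕ) : (a * b).divisors.card ≤ a.divisors.card * b.divisors.card := by
  rw [Nat.divisors_mul]
  exact Finset.card_mul_le

theorem card_anti (d : ℕ) : d.divisorsAntidiagonal.card = d.divisors.card := by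
  rw [← Nat.map_div_right_divisors, Finset.card_map]

theorem step (k N : ℕ) : ∑ d ∈ Icc 1 N, (d.divisors.card : ℝ) ^ (k + 1) / d ≤
    (∑ d ∈ Icc 1 N, (d.divisors.card : ℝ) ^ k / d) ^ 2 := by
  classical
  have h1 : ∀ d ∈ Icc 1 N, (d.divisors.card : ℝ) ^ (k + 1) / d =
      ∑ x ∈ d.divisorsAntidiagonal, ((x.1 * x.2).divisors.card : ℝ) ^ k / ((x.1 * x.2 : ℕ) : ℝ) := by
    intro d hd
    have h2 : ∀ x ∈ d.divisorsAntidiagonal,
        ((x.1 * x.2).divisors.card : ℝ) ^ k / ((x.1 * x.2 : ℕ) : ℝ) =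
          (d.divisors.card : ℝ) ^ k / d := by
      intro x hx
      rw [(Nat.mem_divisorsAntidiagonal.1 hx).1]
    rw [Finset.sum_congr rfl h2, Finset.sum_const, card_anti, nsmul_eq_mul, pow_succ]
    ring
  rw [Finset.sum_congr rfl h1, ← Finset.sum_biUnion]
  · have h3 : (Icc 1 N).biUnion (fun d => d.divisorsAntidiagonal) ⊆ Icc 1 N ×ˢ Icc 1 N := by
      intro x hx
      rw [Finset.mem_biUnion] at hx
      obtain ⟨d, hd, hx⟩ := hx
      rw [Finset.mem_Icc] at hd
      obtain ⟨h4, h5⟩ := Nat.mem_divisorsAntidiagonal.1 hx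
      have h6 : 0 < x.1 * x.2 := by omega
      have h7 : 0 < x.1 := Nat.pos_of_mul_pos_right h6
      have h8 : 0 < x.2 := Nat.pos_of_mul_pos_left h6
      rw [Finset.mem_product, Finset.mem_Icc, Finset.mem_Icc]
      have h9 : x.1 ≤ x.1 * x.2 := Nat.le_mul_of_pos_right _ h8
      have h10 : x.2 ≤ x.1 * x.2 := Nat.le_mul_of_pos_left _ h7
      omega
    refine (Finset.sum_le_sum_of_subset_of_nonneg h3 fun x _ _ => by positivity).trans ?_
    rw [pow_two, Finset.sum_mul_sum, ← Finset.sum_product']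
    refine Finset.sum_le_sum fun x hx => ?_
    rw [div_mul_div_comm, ← mul_pow, ← Nat.cast_mul, ← Nat.cast_mul]
    apply div_le_div_of_nonneg_right _ (Nat.cast_nonneg _)
    apply pow_le_pow_left₀ (Nat.cast_nonneg _)
    exact_mod_cast card_mul x.1 x.2
  · intro d _ e _ hde
    rw [Function.onFun, Finset.disjoint_left]
    intro x hx hx'
    exact hde ((Nat.mem_divisorsAntidiagonal.1 hx).1.symm.trans
      (Nat.mem_divisorsAntidiagonal.1 hx').1)

theorem main (N : ℕ) (k : ℕ) :
    ∑ d ∈ Icc 1 N, (d.divisors.card : ℝ) ^ k / d ≤ (1 + Real.log N) ^ (2 ^ k) := by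
  induction k with
  | zero =>
    have h := harmonic_le_one_add_log N
    simp_rw [harmonic_eq_sum_Icc, Rat.cast_sum, Rat.cast_inv, Rat.cast_natCast] at h
    simpa using h
  | succ k ih =>
    refine (step k N).trans ?_
    rw [pow_succ 2 k, pow_mul]
    exact pow_le_pow_left₀ (Finset.sum_nonneg fun _ _ => by positivity) ih 2

theorem prf : StSt4 := fun N _ => main N 4

end Pool.Agent.Work.MP_a8fbd7_nt.PAR.LC.I_St4
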