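import Pool.Agent.Work.MP_a8fbd7_nt.PAR.LC.Stmts2

set_option autoImplicit false

/-!
# Item Tau of block LC (problem MP_a8fbd7_nt)

The size of `τ`, and its distance from its model value.
-/

namespace Pool.Agent.Work.MP_a8fbd7_nt.PAR.LC.I_Tau

open Pool.Agent.Work.MP_a8fbd7_nt.PAR.LC

theorem prf : StTau := by
  intro c r θ u e J B j k k0 hc hc1 hJ hr hB hj1 hjJ hk0 hθ1 hθ2 hu0 hu1 he0 he1
  have hc2 : (0 : ℝ) < c ^ 2 := by positivity
  have hJpos : (0 : ℝ) < J := lt_of_lt_of_le (by positivity) hJ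
  have hrpos : (0 : ℝ) < r := lt_of_lt_of_le (by positivity) hr
  have hBpos : (0 : ℝ) < B := lt_of_lt_of_le (by positivity) hB
  have hj0 : (0 : ℝ) ≤ j := Nat.cast_nonneg j
  have hjJ' : (j : ℝ) ≤ J := by exact_mod_cast hjJ
  -- the basic inequalities
  have h1 : 1 / (J : ℝ) ≤ c ^ 2 / 8 := by
    rw [div_le_iff₀ hJpos]
    have h := (div_le_iff₀ hc2).mp hJ
    linarith
  have h2 : (J : ℝ) * (c / r) ≤ c ^ 2 / 200 := by
    have h := (div_le_iff₀ hc).mp hr
    have h' : (J : ℝ) * (c / r) = J * c / r := by ring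
    rw [h', div_le_iff₀ hrpos]
    nlinarith [mul_le_mul_of_nonneg_left h hc.le]
  have h3 : (J : ℝ) / B ≤ c ^ 2 / 40000 := by
    rw [div_le_iff₀ hBpos]
    have ha := (div_le_iff₀ hc).mp hr
    have hb := (div_le_iff₀ hc).mp hB
    have hcc : (200 * r) * c ≤ (B * c) * c := mul_le_mul_of_nonneg_right hb hc.le
    nlinarith [hcc, ha]
  -- first term
  have hA0 : 0 ≤ (j : ℝ) * (θ - k / B) := mul_nonneg hj0 (by linarith)
  have hA1 : (j : ℝ) * (θ - k / B) ≤ J / B := by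
    have hw : θ - (k : ℝ) / B ≤ 1 / B := by
      have : ((k : ℝ) + 1) / B = k / B + 1 / B := by ring
      linarith
    calc (j : ℝ) * (θ - k / B) ≤ J * (1 / B) :=
          mul_le_mul hjJ' hw (by linarith) hJpos.le
      _ = J / B := by ring
  -- second term
  have hcr : 0 ≤ c / r := by positivity
  have hju : (j : ℝ) * u ≤ J * (c / r) := mul_le_mul hjJ' hu1 hu0 hJpos.le
  have hje : (j : ℝ) * e ≤ J * (c / r) := mul_le_mul hjJ' he1 he0 hJpos.le
  have hju0 : 0 ≤ (j : ℝ) * u := mul_nonneg hj0 hu0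
  have hje0 : 0 ≤ (j : ℝ) * e := mul_nonneg hj0 he0
  have hid : ((k0 : ℝ) - j * θ - j * u + j * e) - (k0 - j * (k / B))
      = -(j * (θ - k / B)) + (j * e - j * u) := by ring
  have hD : |((k0 : ℝ) - j * θ - j * u + j * e) - (k0 - j * (k / B))| ≤ c ^ 2 / 100 := by
    rw [hid, abs_le]
    constructor
    · linarith
    · linarith
  refine ⟨hD, ?_⟩
  have hk0' := abs_le.mp (le_trans hk0 h1)
  have hD' := abs_le.mp hD
  rw [abs_le]
  constructor
  · linarith [hk0'.1, hD'.1]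
  · linarith [hk0'.2, hD'.2]

end Pool.Agent.Work.MP_a8fbd7_nt.PAR.LC.I_Tau
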