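import Pool.Agent.Work.MP_a8fbd7_nt.PAR.LC.Stmts

set_option autoImplicit false

open Finset

noncomputable section

namespace Pool.Agent.Work.MP_a8fbd7_nt.PAR.LC.I_Ttp

/-- the quotient -/
def Q (n : ℕ) : ℝ := (primorial n : ℝ) / (Nat.totient (primorial n) : ℝ)

theorem prim_succ_prime (n : ℕ) (h : (n + 1).Prime) : primorial (n + 1) = (n + 1) * primorial n := by
  unfold primorial
  rw [Finset.range_add_one, Finset.filter_insert, if_pos h, Finset.prod_insert]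
  simp

theorem prim_succ_not (n : ℕ) (h : ¬ (n + 1).Prime) : primorial (n + 1) = primorial n := by
  unfold primorial
  rw [Finset.range_add_one (n := n + 1), Finset.filter_insert, if_neg h]

theorem cop (n : ℕ) (h : (n + 1).Prime) : (n + 1).Coprime (primorial n) := by
  unfold primorial
  apply Nat.Coprime.prod_right
  intro p hp
  rw [Finset.mem_filter, Finset.mem_range] at hp
  rw [Nat.coprime_primes h hp.2]
  omega

theorem Q_pos (n : ℕ) : 0 < Q n := by
  unfold Q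
  have h1 := primorial_pos n
  have h2 := Nat.totient_pos.2 h1
  positivity

theorem Q_not (n : ℕ) (h : ¬ (n + 1).Prime) : Q (n + 1) = Q n := by
  unfold Q
  rw [prim_succ_not n h]

theorem Q_prime (n : ℕ) (h : (n + 1).Prime) : Q (n + 1) = Q n * (((n : ℝ) + 1) / n) := by
  unfold Q
  have h1 := primorial_pos n
  have h2 := Nat.totient_pos.2 h1
  have h0 : 0 < n := by
    have := h.two_le
    omega
  rw [prim_succ_prime n h, Nat.totient_mul (cop n h), Nat.totient_prime h]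
  have e : n + 1 - 1 = n := by omega
  rw [e]
  push_cast
  have h0' : (0 : ℝ) < n := by exact_mod_cast h0
  have h2' : (0 : ℝ) < (Nat.totient (primorial n) : ℝ) := by exact_mod_cast h2
  field_simp

theorem Q_le (n : ℕ) (h0 : 0 < n) : Q (n + 1) ≤ Q n * (((n : ℝ) + 1) / n) := by
  by_cases h : (n + 1).Prime
  · exact (Q_prime n h).le
  · rw [Q_not n h]
    have h0' : (0 : ℝ) < n := by exact_mod_cast h0
    have h3 : (1 : ℝ) ≤ ((n : ℝ) + 1) / n := by
      rw [le_div_iff₀ h0']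
      linarith
    nlinarith [Q_pos n]

theorem np (a b : ℕ) (ha : 2 ≤ a) (hb : 2 ≤ b) : ¬ (a * b).Prime :=
  Nat.not_prime_mul (by omega) (by omega)

theorem step (K : ℕ) (hK : 1 ≤ K) : Q (6 * K + 7) ≤
    Q (6 * K + 1) * (((6 * (K : ℝ) + 5) / (6 * K + 4)) * ((6 * (K : ℝ) + 7) / (6 * K + 6))) := by
  have h2 : Q (6 * K + 1 + 1) = Q (6 * K + 1) := Q_not _ (by
    have e : 6 * K + 1 + 1 = 2 * (3 * K + 1) := by ring
    rw [e]; exact np _ _ (by omega) (by omega))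
  have h3 : Q (6 * K + 2 + 1) = Q (6 * K + 2) := Q_not _ (by
    have e : 6 * K + 2 + 1 = 3 * (2 * K + 1) := by ring
    rw [e]; exact np _ _ (by omega) (by omega))
  have h4 : Q (6 * K + 3 + 1) = Q (6 * K + 3) := Q_not _ (by
    have e : 6 * K + 3 + 1 = 2 * (3 * K + 2) := by ring
    rw [e]; exact np _ _ (by omega) (by omega))
  have h5 := Q_le (6 * K + 4) (by omega)
  have h6 : Q (6 * K + 5 + 1) = Q (6 * K + 5) := Q_not _ (by
    have e : 6 * K + 5 + 1 = 2 * (3 * K + 3) := by ring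
    rw [e]; exact np _ _ (by omega) (by omega))
  have h7 := Q_le (6 * K + 6) (by omega)
  have e2 : Q (6 * K + 4) = Q (6 * K + 1) := by
    rw [← h2]
    exact h4.trans h3
  have hK0 : (0 : ℝ) ≤ K := Nat.cast_nonneg K
  calc Q (6 * K + 7) ≤ Q (6 * K + 6) * ((((6 * K + 6 : ℕ) : ℝ) + 1) / ((6 * K + 6 : ℕ) : ℝ)) := h7
    _ = Q (6 * K + 5) * ((((6 * K + 6 : ℕ) : ℝ) + 1) / ((6 * K + 6 : ℕ) : ℝ)) := by
        rw [show Q (6 * K + 6) = Q (6 * K + 5) from h6]
    _ ≤ (Q (6 * K + 4) * ((((6 * K + 4 : ℕ) : ℝ) + 1) / ((6 * K + 4 : ℕ) : ℝ))) *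
          ((((6 * K + 6 : ℕ) : ℝ) + 1) / ((6 * K + 6 : ℕ) : ℝ)) := by
        apply mul_le_mul_of_nonneg_right h5
        positivity
    _ = _ := by
        rw [e2]
        push_cast
        have a1 : (6 * (K : ℝ) + 4 + 1) = 6 * K + 5 := by ring
        have a2 : (6 * (K : ℝ) + 6 + 1) = 6 * K + 7 := by ring
        rw [a1, a2]
        ring

theorem Q7 : Q 7 = 35 / 8 := by
  have h1 : Q 1 = 1 := by
    unfold Q
    simp
  have h2 := Q_prime 1 (by norm_num)
  have h3 := Q_prime 2 (by norm_num)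
  have h4 := Q_not 3 (by norm_num)
  have h5 := Q_prime 4 (by norm_num)
  have h6 := Q_not 5 (by norm_num)
  have h7 := Q_prime 6 (by norm_num)
  norm_num at h2 h3 h4 h5 h6 h7
  rw [h7, h6, h5, h4, h3, h2, h1]
  norm_num

theorem ineq (K : ℝ) (hK : 1 ≤ K) :
    (3 * K + 1) * (((6 * K + 5) / (6 * K + 4)) * ((6 * K + 7) / (6 * K + 6))) ^ 3 ≤ 3 * K + 4 := by
  have h4 : 0 < 6 * K + 4 := by linarith
  have h6 : 0 < 6 * K + 6 := by linarith
  rw [div_mul_div_comm, div_pow, mul_div_assoc', div_le_iff₀ (by positivity)]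
  obtain ⟨t, rfl⟩ : ∃ t, K = 1 + t := ⟨K - 1, by ring⟩
  have ht : 0 ≤ t := by linarith
  have : 0 ≤ (3 * (1 + t) + 4) * ((6 * (1 + t) + 4) * (6 * (1 + t) + 6)) ^ 3 -
      (3 * (1 + t) + 1) * ((6 * (1 + t) + 5) * (6 * (1 + t) + 7)) ^ 3 := by
    ring_nf
    positivity
  linarith

theorem main (K : ℕ) (hK : 1 ≤ K) : Q (6 * K + 1) ^ 3 ≤ 27 * (3 * (K : ℝ) + 1) := by
  induction K, hK using Nat.le_induction with
  | base =>
    have e : Q (6 * 1 + 1) = 35 / 8 := Q7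
    rw [e]
    norm_num
  | succ K hK ih =>
    have hK' : (1 : ℝ) ≤ K := by exact_mod_cast hK
    have h1 := step K hK
    have h2 := ineq K hK'
    have e : 6 * (K + 1) + 1 = 6 * K + 7 := by ring
    rw [e]
    have h0 := Q_pos (6 * K + 7)
    have h0' := Q_pos (6 * K + 1)
    set r : ℝ := (((6 * (K : ℝ) + 5) / (6 * K + 4)) * ((6 * (K : ℝ) + 7) / (6 * K + 6))) with hr
    have hr0 : 0 ≤ r := by
      rw [hr]
      positivity
    calc Q (6 * K + 7) ^ 3 ≤ (Q (6 * K + 1) * r) ^ 3 := pow_le_pow_left₀ h0.le h1 3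
      _ = Q (6 * K + 1) ^ 3 * r ^ 3 := by ring
      _ ≤ (27 * (3 * (K : ℝ) + 1)) * r ^ 3 := mul_le_mul_of_nonneg_right ih (by positivity)
      _ = 27 * ((3 * (K : ℝ) + 1) * r ^ 3) := by ring
      _ ≤ 27 * (3 * (K : ℝ) + 4) := by linarith
      _ = 27 * (3 * ((K + 1 : ℕ) : ℝ) + 1) := by
        push_cast
        ring

theorem prf : StTtp := by
  intro κ W0 hκ
  obtain ⟨N, hN⟩ := exists_nat_ge (729 / κ ^ 3)
  set K := max (max N W0) 1 with hKd
  have hK1 : 1 ≤ K := le_max_right _ _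
  have hKN : N ≤ K := le_trans (le_max_left _ _) (le_max_left _ _)
  have hKW : W0 ≤ K := le_trans (le_max_right _ _) (le_max_left _ _)
  refine ⟨6 * K + 1, by omega, ?_⟩
  have hm := main K hK1
  have hQ := Q_pos (6 * K + 1)
  change Q (6 * K + 1) ^ 2 ≤ κ * ((6 * K + 1 : ℕ) : ℝ)
  have hKr : (729 / κ ^ 3 : ℝ) ≤ K := le_trans hN (by exact_mod_cast hKN)
  have hK1' : (1 : ℝ) ≤ K := by exact_mod_cast hK1
  set W : ℝ := ((6 * K + 1 : ℕ) : ℝ) with hW
  have hWe : W = 6 * (K : ℝ) + 1 := by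
    rw [hW]
    push_cast
    ring
  have hW0 : 0 < W := by
    rw [hWe]
    linarith
  have h1 : Q (6 * K + 1) ^ 3 ≤ 27 * W := by
    rw [hWe]
    linarith
  have h2 : 729 ≤ κ ^ 3 * W := by
    have : 729 / κ ^ 3 ≤ W := by
      rw [hWe]
      linarith
    rw [div_le_iff₀ (by positivity)] at this
    linarith
  have h3 : (Q (6 * K + 1) ^ 2) ^ 3 ≤ (κ * W) ^ 3 := by
    calc (Q (6 * K + 1) ^ 2) ^ 3 = (Q (6 * K + 1) ^ 3) ^ 2 := by ring
      _ ≤ (27 * W) ^ 2 := pow_le_pow_left₀ (by positivity) h1 2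
      _ = 729 * W ^ 2 := by ring
      _ ≤ (κ ^ 3 * W) * W ^ 2 := mul_le_mul_of_nonneg_right h2 (by positivity)
      _ = (κ * W) ^ 3 := by ring
  exact le_of_pow_le_pow_left₀ (by norm_num) (by positivity) h3

end Pool.Agent.Work.MP_a8fbd7_nt.PAR.LC.I_Ttp
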