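import Pool.Agent.Work.MP_a8fbd7_nt.PAR.LC.Stmts2

set_option autoImplicit false

open Finset MeasureTheory

noncomputable section

namespace Pool.Agent.Work.MP_a8fbd7_nt.PAR.LC.I_Wey

local instance : Fact ((0 : ℝ) < 1) := ⟨one_pos⟩

/-- the real trapezoid -/
def tr (l η : ℝ) (y : AddCircle (1 : ℝ)) : ℝ :=
  min 1 (max 0 (1 - (‖y - ((l / 2 : ℝ) : AddCircle (1 : ℝ))‖ - l / 2) / η))

theorem tr_cont (l η : ℝ) : Continuous (tr l η) := by
  unfold tr
  fun_prop

theorem tr_nonneg (l η : ℝ) (y : AddCircle (1 : ℝ)) : 0 ≤ tr l η y :=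
  le_min zero_le_one (le_max_left _ _)

theorem tr_le_one (l η : ℝ) (y : AddCircle (1 : ℝ)) : tr l η y ≤ 1 := min_le_left _ _

theorem tr_one (l η : ℝ) (hη : 0 < η) (v : ℝ) (hv : Int.fract v < l) :
    tr l η (v : AddCircle (1 : ℝ)) = 1 := by
  have h1 : ‖(v : AddCircle (1 : ℝ)) - ((l / 2 : ℝ) : AddCircle (1 : ℝ))‖ ≤ l / 2 := by
    rw [← AddCircle.coe_sub]
    have e := UnitAddCircle.norm_eq (x := v - l / 2)
    rw [show (‖((v - l / 2 : ℝ) : AddCircle (1 : ℝ))‖) = |v - l / 2 - round (v - l / 2)| from e]
    refine le_trans (round_le (v - l / 2) ⌊v⌋) ?_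
    have h2 : v - l / 2 - (⌊v⌋ : ℝ) = Int.fract v - l / 2 := by
      rw [← Int.self_sub_floor v]
      ring
    rw [h2, abs_le]
    have h3 := Int.fract_nonneg v
    constructor <;> linarith
  unfold tr
  rw [min_eq_left]
  apply le_max_of_le_right
  have : (‖(v : AddCircle (1 : ℝ)) - ((l / 2 : ℝ) : AddCircle (1 : ℝ))‖ - l / 2) / η ≤ 0 :=
    div_nonpos_of_nonpos_of_nonneg (by linarith) hη.le
  linarith

theorem tr_int (l η : ℝ) (hη : 0 < η) (hl : 0 < l) :
    ∫ y : AddCircle (1 : ℝ), tr l η y ≤ l + 2 * η := by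
  set B := Metric.closedBall ((l / 2 : ℝ) : AddCircle (1 : ℝ)) (l / 2 + η) with hB
  have hle : ∀ y, tr l η y ≤ B.indicator (fun _ => (1 : ℝ)) y := by
    intro y
    by_cases hy : y ∈ B
    · rw [Set.indicator_of_mem hy]
      exact tr_le_one l η y
    · rw [Set.indicator_of_notMem hy]
      rw [hB, Metric.mem_closedBall, dist_eq_norm, not_le] at hy
      unfold tr
      apply min_le_of_right_le
      apply max_le le_rfl
      have : 1 ≤ (‖y - ((l / 2 : ℝ) : AddCircle (1 : ℝ))‖ - l / 2) / η := by
        rw [le_div_iff₀ hη]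
        linarith
      linarith
  have hBm : MeasurableSet B := Metric.isClosed_closedBall.measurableSet
  have hi1 : Integrable (tr l η) := (tr_cont l η).integrable_of_hasCompactSupport
    (HasCompactSupport.of_compactSpace _)
  have hi2 : Integrable (B.indicator (fun _ : AddCircle (1 : ℝ) => (1 : ℝ))) :=
    (integrable_const (1 : ℝ)).indicator hBm
  refine le_trans (integral_mono hi1 hi2 hle) ?_
  rw [integral_indicator hBm, setIntegral_const, smul_eq_mul, mul_one, Measure.real, hB,
    AddCircle.volume_closedBall, ENNReal.toReal_ofReal (by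
      apply le_min zero_le_one
      positivity)]
  refine le_trans (min_le_right _ _) ?_
  linarith

theorem fourier_int (m : ℤ) : ∫ y : AddCircle (1 : ℝ), fourier m y = if m = 0 then (1 : ℂ) else 0 := by
  split_ifs with h
  · subst h
    have : (fun y : AddCircle (1 : ℝ) => fourier (T := 1) 0 y) = fun _ => (1 : ℂ) := by
      ext y
      exact fourier_zero
    rw [this, integral_const, Measure.real, AddCircle.measure_univ]
    simp
  · exact integral_eq_zero_of_add_right_eq_neg (fourier_add_half_inv_index h one_pos)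

theorem four_ee (m : ℕ) (x : ℝ) : fourier (m : ℤ) (x : AddCircle (1 : ℝ)) = ee (m * x) := by
  rw [fourier_coe_apply]
  unfold ee
  congr 1
  push_cast
  ring

theorem sum_norm (N : ℕ) (x : ℕ → ℝ) (m : ℤ) :
    ‖∑ i ∈ range N, fourier m ((x i : ℝ) : AddCircle (1 : ℝ))‖ =
      ‖∑ i ∈ range N, ee ((m.natAbs : ℝ) * x i)‖ := by
  rcases Int.natAbs_eq m with h | h
  · have : ∑ i ∈ range N, fourier m ((x i : ℝ) : AddCircle (1 : ℝ)) =
        ∑ i ∈ range N, ee ((m.natAbs : ℝ) * x i) := by
      refine sum_congr rfl fun i _ => ?_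
      conv_lhs => rw [h]
      exact four_ee _ _
    rw [this]
  · have : ∑ i ∈ range N, fourier m ((x i : ℝ) : AddCircle (1 : ℝ)) =
        (starRingEnd ℂ) (∑ i ∈ range N, ee ((m.natAbs : ℝ) * x i)) := by
      rw [map_sum]
      refine sum_congr rfl fun i _ => ?_
      conv_lhs => rw [h]
      rw [fourier_neg, four_ee]
    rw [this, RCLike.norm_conj]

theorem prf : StWey := by
  intro l κ hl hl1 hκ
  -- the trapezoid
  set η := κ / 6 with hη
  have hη0 : 0 < η := by positivity
  let φ : C(AddCircle (1 : ℝ), ℂ) :=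
    ⟨fun y => ((tr l η y : ℝ) : ℂ), Complex.continuous_ofReal.comp (tr_cont l η)⟩
  have hφc : φ ∈ (Submodule.span ℂ (Set.range <| @fourier (1 : ℝ))).topologicalClosure := by
    rw [span_fourier_closure_eq_top]
    exact Submodule.mem_top
  obtain ⟨P, hP, hPd⟩ := Metric.mem_closure_iff.1 hφc (κ / 6) hη0
  obtain ⟨c, hc⟩ := (Finsupp.mem_span_range_iff_exists_finsupp).1 hP
  have hPy : ∀ y, P y = ∑ m ∈ c.support, c m * fourier m y := by
    intro y
    rw [← hc, Finsupp.sum, ContinuousMap.coe_sum, Finset.sum_apply]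
    refine sum_congr rfl fun m _ => ?_
    rw [ContinuousMap.coe_smul, Pi.smul_apply, smul_eq_mul]
  have hdist : ∀ y, ‖φ y - P y‖ ≤ κ / 6 := by
    intro y
    have := ContinuousMap.dist_apply_le_dist (f := φ) (g := P) y
    rw [dist_eq_norm] at this
    exact this.trans hPd.le
  -- the constant coefficient
  have hc0 : (c 0).re ≤ l + κ / 2 := by
    have hIP : ∫ y : AddCircle (1 : ℝ), P y = c 0 := by
      have : (fun y : AddCircle (1 : ℝ) => P y) = fun y => ∑ m ∈ c.support, c m * fourier m y :=
        funext hPy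
      rw [this, integral_finsetSum]
      · have e : ∀ m ∈ c.support, ∫ y : AddCircle (1 : ℝ), c m * fourier m y =
            if m = 0 then c 0 else 0 := by
          intro m _
          rw [integral_const_mul, fourier_int]
          split_ifs with h
          · rw [h, mul_one]
          · rw [mul_zero]
        rw [sum_congr rfl e, sum_ite_eq']
        split_ifs with h
        · rfl
        · exact (Finsupp.notMem_support_iff.1 h).symm
      · intro m _
        apply Integrable.const_mul
        exact (ContinuousMap.continuous _).integrable_of_hasCompactSupport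
          (HasCompactSupport.of_compactSpace _)
    have hPi : Integrable (fun y : AddCircle (1 : ℝ) => P y) :=
      (ContinuousMap.continuous _).integrable_of_hasCompactSupport
        (HasCompactSupport.of_compactSpace _)
    have hre : (c 0).re = ∫ y : AddCircle (1 : ℝ), (P y).re := by
      rw [← hIP]
      exact (integral_re hPi).symm
    rw [hre]
    have hti : Integrable (tr l η) := (tr_cont l η).integrable_of_hasCompactSupport
      (HasCompactSupport.of_compactSpace _)
    have h2 : ∫ y : AddCircle (1 : ℝ), (P y).re ≤ ∫ y : AddCircle (1 : ℝ), (tr l η y + κ / 6) := by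
      apply integral_mono hPi.re (hti.add (integrable_const _))
      intro y
      have h3 := hdist y
      have h4 := (Complex.abs_re_le_norm (φ y - P y)).trans h3
      have h5 : (φ y).re = tr l η y := rfl
      rw [Complex.sub_re, h5] at h4
      have := (abs_le.1 h4).1
      show (P y).re ≤ tr l η y + κ / 6
      linarith
    rw [integral_add hti (integrable_const _), integral_const, Measure.real,
      AddCircle.measure_univ] at h2
    have h6 := tr_int l η hη0 hl
    rw [hη] at h6 h2
    simp only [ENNReal.ofReal_one, ENNReal.toReal_one, smul_eq_mul, one_mul] at h2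
    linarith
  set SC := ∑ m ∈ c.support, ‖c m‖ with hSC
  have hSC0 : 0 ≤ SC := sum_nonneg fun i _ => norm_nonneg _
  refine ⟨c.support.sup Int.natAbs, κ / (6 * (1 + SC)), by positivity, ?_⟩
  intro N x α hx
  set δ := κ / (6 * (1 + SC)) with hδ
  have hδ0 : 0 < δ := by positivity
  -- counting
  have h1 : (((range N).filter (fun i => Int.fract (x i - α) < l)).card : ℝ) ≤
      ∑ i ∈ range N, ((P ((x i - α : ℝ) : AddCircle (1 : ℝ))).re + κ / 6) := by
    rw [card_filter, Nat.cast_sum]
    refine sum_le_sum fun i _ => ?_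
    have h3 := hdist ((x i - α : ℝ) : AddCircle (1 : ℝ))
    have h4 := (Complex.abs_re_le_norm _).trans h3
    have h5 : (φ ((x i - α : ℝ) : AddCircle (1 : ℝ))).re = tr l η ((x i - α : ℝ) : AddCircle (1 : ℝ)) := rfl
    rw [Complex.sub_re, h5] at h4
    have h6 := (abs_le.1 h4).2
    split_ifs with hf
    · rw [tr_one l η hη0 _ hf] at h6
      push_cast
      linarith
    · have := tr_nonneg l η ((x i - α : ℝ) : AddCircle (1 : ℝ))
      push_cast
      linarith
  have h2 : ∑ i ∈ range N, (P ((x i - α : ℝ) : AddCircle (1 : ℝ))).re ≤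
      N * (l + κ / 2) + SC * (δ * N) := by
    have e1 : ∑ i ∈ range N, (P ((x i - α : ℝ) : AddCircle (1 : ℝ))).re =
        ∑ m ∈ c.support, (∑ i ∈ range N, c m * fourier m ((x i - α : ℝ) : AddCircle (1 : ℝ))).re := by
      rw [← Complex.re_sum, ← Complex.re_sum, sum_comm]
      congr 1
      exact sum_congr rfl fun i _ => hPy _
    have e2 : ∀ m ∈ c.support,
        (∑ i ∈ range N, c m * fourier m ((x i - α : ℝ) : AddCircle (1 : ℝ))).re ≤
          (if m = 0 then N * (l + κ / 2) else 0) + ‖c m‖ * (δ * N) := by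
      intro m hm
      have hN0 : (0 : ℝ) ≤ N := Nat.cast_nonneg N
      split_ifs with h
      · subst h
        have : ∑ i ∈ range N, c 0 * fourier 0 ((x i - α : ℝ) : AddCircle (1 : ℝ)) = N * c 0 := by
          have e : ∀ i ∈ range N, c 0 * fourier 0 ((x i - α : ℝ) : AddCircle (1 : ℝ)) = c 0 := by
            intro i _
            rw [fourier_zero, mul_one]
          rw [sum_congr rfl e, sum_const, card_range, nsmul_eq_mul]
        rw [this]
        have e3 : ((N : ℂ) * c 0).re = N * (c 0).re := by
          rw [Complex.mul_re]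
          simp
        rw [e3]
        have h7 : (N : ℝ) * (c 0).re ≤ N * (l + κ / 2) := mul_le_mul_of_nonneg_left hc0 hN0
        have h8 : 0 ≤ ‖c 0‖ * (δ * N) := by positivity
        linarith
      · rw [zero_add]
        refine le_trans (Complex.re_le_norm _) ?_
        have e4 : ∑ i ∈ range N, c m * fourier m ((x i - α : ℝ) : AddCircle (1 : ℝ)) =
            c m * (fourier m ((-α : ℝ) : AddCircle (1 : ℝ)) *
              ∑ i ∈ range N, fourier m ((x i : ℝ) : AddCircle (1 : ℝ))) := by
          rw [mul_sum, mul_sum]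
          refine sum_congr rfl fun i _ => ?_
          congr 1
          rw [fourier_coe_apply, fourier_coe_apply, fourier_coe_apply, ← Complex.exp_add]
          congr 1
          push_cast
          ring
        rw [e4, norm_mul, norm_mul, sum_norm]
        have e5 : ‖fourier m ((-α : ℝ) : AddCircle (1 : ℝ))‖ = 1 := by
          rw [fourier_apply]
          exact Circle.norm_coe _
        rw [e5, one_mul]
        refine mul_le_mul_of_nonneg_left ?_ (norm_nonneg _)
        exact hx m.natAbs (Int.natAbs_pos.2 h) (Finset.le_sup (f := Int.natAbs) hm)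
    rw [e1]
    refine le_trans (sum_le_sum e2) ?_
    rw [sum_add_distrib, sum_ite_eq', ← sum_mul]
    have hN0 : (0 : ℝ) ≤ N * (l + κ / 2) := by positivity
    split_ifs <;> linarith
  rw [sum_add_distrib, sum_const, card_range, nsmul_eq_mul] at h1
  have h3 : SC * (δ * N) ≤ κ / 6 * N := by
    have hN0 : (0 : ℝ) ≤ N := Nat.cast_nonneg N
    have : SC * δ ≤ κ / 6 := by
      rw [hδ, ← mul_div_assoc, div_le_iff₀ (by positivity)]
      nlinarith
    calc SC * (δ * N) = (SC * δ) * N := by ring
      _ ≤ _ := mul_le_mul_of_nonneg_right this hN0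
  have hN0 : (0 : ℝ) ≤ N := Nat.cast_nonneg N
  have h4 : 0 ≤ κ * N := by positivity
  nlinarith

end Pool.Agent.Work.MP_a8fbd7_nt.PAR.LC.I_Wey
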