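import Pool.Agent.Work.MP_a8fbd7_nt.PAR.LC.I_Alg
import Pool.Agent.Work.MP_a8fbd7_nt.PAR.LC.I_Asm
import Pool.Agent.Work.MP_a8fbd7_nt.PAR.LC.I_Atc
import Pool.Agent.Work.MP_a8fbd7_nt.PAR.LC.I_BlkD
import Pool.Agent.Work.MP_a8fbd7_nt.PAR.LC.I_Cap
import Pool.Agent.Work.MP_a8fbd7_nt.PAR.LC.I_Chb
import Pool.Agent.Work.MP_a8fbd7_nt.PAR.LC.I_Chn
import Pool.Agent.Work.MP_a8fbd7_nt.PAR.LC.I_CnL
import Pool.Agent.Work.MP_a8fbd7_nt.PAR.LC.I_Ct1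
import Pool.Agent.Work.MP_a8fbd7_nt.PAR.LC.I_Elo
import Pool.Agent.Work.MP_a8fbd7_nt.PAR.LC.I_EndD
import Pool.Agent.Work.MP_a8fbd7_nt.PAR.LC.I_EQ
import Pool.Agent.Work.MP_a8fbd7_nt.PAR.LC.I_Eup
import Pool.Agent.Work.MP_a8fbd7_nt.PAR.LC.I_Feq
import Pool.Agent.Work.MP_a8fbd7_nt.PAR.LC.I_Fne
import Pool.Agent.Work.MP_a8fbd7_nt.PAR.LC.I_Gpa
import Pool.Agent.Work.MP_a8fbd7_nt.PAR.LC.I_GsT
import Pool.Agent.Work.MP_a8fbd7_nt.PAR.LC.I_Gsd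
import Pool.Agent.Work.MP_a8fbd7_nt.PAR.LC.I_Har
import Pool.Agent.Work.MP_a8fbd7_nt.PAR.LC.I_Int
import Pool.Agent.Work.MP_a8fbd7_nt.PAR.LC.I_LCD
import Pool.Agent.Work.MP_a8fbd7_nt.PAR.LC.I_LCuD
import Pool.Agent.Work.MP_a8fbd7_nt.PAR.LC.I_Lan
import Pool.Agent.Work.MP_a8fbd7_nt.PAR.LC.I_LkD
import Pool.Agent.Work.MP_a8fbd7_nt.PAR.LC.I_PmC
import Pool.Agent.Work.MP_a8fbd7_nt.PAR.LC.I_Pos
import Pool.Agent.Work.MP_a8fbd7_nt.PAR.LC.I_Prs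
import Pool.Agent.Work.MP_a8fbd7_nt.PAR.LC.I_PxC
import Pool.Agent.Work.MP_a8fbd7_nt.PAR.LC.I_Rgh
import Pool.Agent.Work.MP_a8fbd7_nt.PAR.LC.I_SM
import Pool.Agent.Work.MP_a8fbd7_nt.PAR.LC.I_SMa
import Pool.Agent.Work.MP_a8fbd7_nt.PAR.LC.I_Sec
import Pool.Agent.Work.MP_a8fbd7_nt.PAR.LC.I_St4
import Pool.Agent.Work.MP_a8fbd7_nt.PAR.LC.I_Tau
import Pool.Agent.Work.MP_a8fbd7_nt.PAR.LC.I_Ttp
import Pool.Agent.Work.MP_a8fbd7_nt.PAR.LC.I_Two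
import Pool.Agent.Work.MP_a8fbd7_nt.PAR.LC.I_Wey

set_option autoImplicit false

/-!
MP_a8fbd7_nt, block LC: assembly.  `LC_all : MRweak → ThmL`.
-/

namespace Pool.Agent.Work.MP_a8fbd7_nt.PAR.LC

theorem a_Har : StHar := I_Har.prf I_Cap.prf
theorem a_Ct1 : StCt1 := I_Ct1.prf I_Cap.prf
theorem a_Gpa : StGpa := I_Gpa.prf a_Har
theorem a_SMa : StSMa := I_SMa.prf I_Ttp.prf I_Prs.prf (I_Elo.prf I_Cap.prf) (I_Eup.prf I_Cap.prf)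
  (I_Fne.prf I_Rgh.prf a_Ct1 a_Har) (I_Feq.prf I_Rgh.prf a_Ct1) (I_GsT.prf a_Gpa a_Har)
  (I_Gsd.prf a_Gpa a_Har) I_Asm.prf
theorem a_SM : StSM := I_SM.prf a_SMa (I_Two.prf I_PxC.prf I_PmC.prf) I_Chb.prf
theorem a_EQ : StEQ := I_EQ.prf I_Wey.prf I_Sec.prf I_Cap.prf
theorem a_LkD : StLkD := I_LkD.prf I_Alg.prf I_Int.prf I_Tau.prf I_Pos.prf
theorem a_BlkD : StBlkD := I_BlkD.prf a_SM a_EQ a_LkD I_Atc.prf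
theorem a_LCD : StLCD := I_LCD.prf a_BlkD I_Chn.prf
theorem a_LCuD : StLCuD := I_LCuD.prf a_LCD
theorem a_EndD : StEndD := I_EndD.prf a_LCuD
theorem a_CnL : StCnL := I_CnL.prf I_Lan.prf I_St4.prf I_Cap.prf

/-- block LC -/
theorem LC_all : MRweak → ThmL := fun h => a_CnL (a_EndD h)

end Pool.Agent.Work.MP_a8fbd7_nt.PAR.LC
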