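import Pool.Agent.Work.MP_a8fbd7_nt.PAR.Stage1

set_option autoImplicit false

/-!
MP_a8fbd7_nt, block LC (local constancy), captain helper30: definitions.

THEOREM P: for every `c > 0` the Liouville function takes both values on every interval
`[x, x + c √x]`, `x ≥ x0(c)`.  Block LC proves: if `f` (completely multiplicative, values `±1`) is
constant on `[n², n² + c n]` then `f m = f (m+1)` for almost all `m` near `K n`.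
-/

open Finset

noncomputable section

namespace Pool.Agent.Work.MP_a8fbd7_nt.PAR.LC

/-! ### Second moment: link pairs -/

/-- The pairs `s = (z, ρ)` of the link attached to the primes `q, t`: `z ∈ [e0 q t, e1 q t]` prime to
`primorial W` and to `q`, `ρ ∈ [w0 q, (w0+ω) q]`, `t ρ ≡ z mod q`. -/
def Zs (W : ℕ) (w0 ω e0 e1 : ℝ) (q t : ℕ) : Finset (ℕ × ℕ) :=
  ((range (q * t + 1)) ×ˢ (range (3 * q + 1))).filter (fun s =>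
    e0 * q * t ≤ s.1 ∧ (s.1 : ℝ) ≤ e1 * q * t ∧ s.1.Coprime (primorial W) ∧ s.1.Coprime q ∧
    w0 * q ≤ s.2 ∧ (s.2 : ℝ) ≤ (w0 + ω) * q ∧ t * s.2 ≡ s.1 [MOD q])

/-- `∑ 1/z` over the pairs. -/
def Es (W : ℕ) (w0 ω e0 e1 : ℝ) (q t : ℕ) : ℝ := ∑ s ∈ Zs W w0 ω e0 e1 q t, 1 / (s.1 : ℝ)

/-- The correlation of the conditions `z ∣ q M + ρ` and `z' ∣ q' M + ρ'`. -/
def cor (q q' : ℕ) (s s' : ℕ × ℕ) : ℝ :=
  if ((Nat.gcd s.1 s'.1 : ℕ) : ℤ) ∣ (q' : ℤ) * s.2 - q * s'.2 then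
    (Nat.gcd s.1 s'.1 : ℝ) / ((s.1 : ℝ) * s'.1) else 0

/-- The sum of the correlations of the pairs of `(q,t)` and of `(q',t')`. -/
def Fs (W : ℕ) (w0 ω e0 e1 : ℝ) (q t q' t' : ℕ) : ℝ :=
  ∑ s ∈ Zs W w0 ω e0 e1 q t, ∑ s' ∈ Zs W w0 ω e0 e1 q' t', cor q q' s s'

/-- The part `ρ = ρ'` for `q = q'`. -/
def Gs (W : ℕ) (w0 ω e0 e1 : ℝ) (q t t' : ℕ) : ℝ :=
  ∑ s ∈ Zs W w0 ω e0 e1 q t, ∑ s' ∈ (Zs W w0 ω e0 e1 q t').filter (fun s' => s'.2 = s.2),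
    (Nat.gcd s.1 s'.1 : ℝ) / ((s.1 : ℝ) * s'.1)

/-- Standing conditions on the parameters of the windows. -/
structure Wn (w0 ω e0 e1 : ℝ) : Prop where
  hw0 : 0 ≤ w0
  hw2 : w0 ≤ 2
  ho0 : 0 < ω
  ho1 : ω ≤ 1 / 2
  he0 : 0 < e0
  he01 : e0 < e1
  he1 : e1 ≤ 1

/-- The link count at `(x, M)` for finite sets `A` of primes `q` and `T` of primes `t`. -/
def Nk (W : ℕ) (w0 ω e0 e1 : ℝ) (j : ℕ) (A T : Finset ℕ) (x M : ℕ) : ℝ :=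
  ∑ q ∈ A, ∑ t ∈ T, ∑ s ∈ Zs W w0 ω e0 e1 q t,
    if q ∣ x ∧ t ∣ x + j ∧ s.1 ∣ q * M + s.2 then 1 else 0

/-- Mean value of the link count. -/
def mu (W : ℕ) (w0 ω e0 e1 : ℝ) (A T : Finset ℕ) : ℝ :=
  ∑ q ∈ A, ∑ t ∈ T, Es W w0 ω e0 e1 q t / ((q : ℝ) * t)

/-- Upper bound for the second moment. -/
def m2 (W : ℕ) (w0 ω e0 e1 : ℝ) (A T : Finset ℕ) : ℝ :=
  ∑ q ∈ A, ∑ t ∈ T, ∑ q' ∈ A, ∑ t' ∈ T,
    Fs W w0 ω e0 e1 q t q' t' / ((Nat.lcm q q' : ℝ) * (Nat.lcm t t' : ℝ))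

/-- A link datum `(q, t, z, ρ)`. -/
def Lnk (w0 ω e0 e1 : ℝ) (q t z ρ : ℕ) : Prop :=
  1 ≤ q ∧ 1 ≤ t ∧ 1 ≤ z ∧ q.Coprime t ∧ z.Coprime q ∧ e0 * q * t ≤ z ∧ (z : ℝ) ≤ e1 * q * t ∧
  w0 * q ≤ ρ ∧ (ρ : ℝ) ≤ (w0 + ω) * q ∧ t * ρ ≡ z [MOD q]

/-- `g` and `M` carry a link of the set `S` of quadruples `(q, t, z, ρ)`. -/
def HasL (S : Finset (ℕ × ℕ × ℕ × ℕ)) (j g M : ℕ) : Prop :=
  ∃ s ∈ S, s.1 ∣ g ∧ s.2.1 ∣ g + j ∧ s.2.2.1 ∣ s.1 * M + s.2.2.2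

open Classical in
/-- The pairs `(x, M)` modulo `L` without link. -/
def badL (L j : ℕ) (S : Finset (ℕ × ℕ × ℕ × ℕ)) : Finset (ℕ × ℕ) :=
  (range L ×ˢ range L).filter (fun p => ¬ HasL S j p.1 p.2)

/-! ### Equidistribution -/

/-- The integers `g ∈ [a, b]` with `g ≡ x0`, `⌊Y/g⌋ ≡ M0` modulo `L` and `Y/g - ⌊Y/g⌋` in the cell
`[k/B, (k+1)/B)`. -/
def cel (Y a b : ℝ) (L x0 M0 B k : ℕ) : Finset ℕ :=
  (Icc ⌈a⌉₊ ⌊b⌋₊).filter (fun g => g ≡ x0 [MOD L] ∧ ⌊Y / g⌋₊ ≡ M0 [MOD L] ∧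
    (k : ℝ) / B ≤ Y / g - ⌊Y / g⌋₊ ∧ Y / g - ⌊Y / g⌋₊ < ((k : ℝ) + 1) / B)

/-- The cell number of `g`. -/
def cno (Y : ℝ) (B g : ℕ) : ℕ := ⌊(B : ℝ) * (Y / g - ⌊Y / g⌋₊)⌋₊

/-! ### Hypothesis on `f` and the block statement -/

/-- `f = F` on the integers of `[n², n² + c n]`. -/
def Cst (f : ℕ → ℤ) (F : ℤ) (n c : ℝ) : Prop := ∀ m : ℕ, n ^ 2 ≤ m → (m : ℝ) ≤ n ^ 2 + c * n → f m = F

/-- Liouville's function. -/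
def lam (n : ℕ) : ℤ := ArithmeticFunction.liouville n

/-- The weak form of the theorem of Matomäki and Radziwiłł (block END). -/
def MRweak : Prop := ∃ h0 X0 : ℕ, 1 ≤ h0 ∧ ∀ X : ℕ, X0 ≤ X →
  2 * ((Ico X (2 * X)).filter (fun x => ∀ i < h0, lam (x + i) = lam x)).card ≤ X

end Pool.Agent.Work.MP_a8fbd7_nt.PAR.LC
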