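import Pool.Agent.Work.MP_a8fbd7_nt.PAR.LC.Stmts5

set_option autoImplicit false

/-!
MP_a8fbd7_nt, block LC, part R, item CnR (helper78): from near weights to numbers, with the restriction
of the number of prime factors.
-/

open Finset Filter

noncomputable section

namespace Pool.Agent.Work.MP_a8fbd7_nt.PAR.LC.I_CnR

theorem two_pow_T {y : ℝ} (hy : 1 ≤ y) : (2 : ℝ) ^ (21 / 20 * Real.log y) ≤ y ^ (73 / 100 : ℝ) := by
  have hy0 : 0 < y := by linarith
  have h1 : (2 : ℝ) ^ (21 / 20 * Real.log y) = y ^ (21 / 20 * Real.log 2) := by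
    rw [Real.rpow_def_of_pos two_pos, Real.rpow_def_of_pos hy0]
    congr 1
    ring
  rw [h1]
  have h2 := Real.log_two_lt_d9
  exact Real.rpow_le_rpow_of_exponent_le hy (by linarith)

theorem one_le (T : ℝ) (k : ℕ) (h : (k : ℝ) ≤ T) : 1 ≤ (2 : ℝ) ^ T * (1 / 2) ^ k := by
  have h1 : (2 : ℝ) ^ (k : ℝ) ≤ (2 : ℝ) ^ T := Real.rpow_le_rpow_of_exponent_le one_le_two h
  rw [Real.rpow_natCast] at h1
  have h2 : (1 : ℝ) = 2 ^ k * (1 / 2) ^ k := by
    rw [← mul_pow]
    norm_num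
  have h3 : (0 : ℝ) ≤ (1 / 2) ^ k := by positivity
  calc (1 : ℝ) = 2 ^ k * (1 / 2) ^ k := h2
    _ ≤ _ := mul_le_mul_of_nonneg_right h1 h3

theorem Qt_nonneg (N a : ℕ) : 0 ≤ Qt N a := Finset.sum_nonneg fun _ _ => sq_nonneg _

theorem sum_Qt (N : ℕ) (T : ℝ) :
    ∑ a ∈ (Icc 1 N).filter (fun a => (ArithmeticFunction.cardFactors a : ℝ) ≤ T), Qt N a ≤
      (2 : ℝ) ^ T * ∑ a ∈ Icc 1 N, yo (1 / 2) a * Qt N a := by
  have hT : (0 : ℝ) ≤ (2 : ℝ) ^ T := by positivity
  have hyo : ∀ a, 0 ≤ yo (1 / 2) a := fun a => by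
    unfold yo
    positivity
  rw [Finset.mul_sum]
  refine le_trans (Finset.sum_le_sum (g := fun a => (2 : ℝ) ^ T * (yo (1 / 2) a * Qt N a)) ?_) ?_
  · intro a ha
    have h1 := one_le T (ArithmeticFunction.cardFactors a) (Finset.mem_filter.1 ha).2
    have h2 := mul_le_mul_of_nonneg_right h1 (Qt_nonneg N a)
    rw [one_mul, mul_assoc] at h2
    exact h2
  · exact Finset.sum_le_sum_of_subset_of_nonneg (Finset.filter_subset _ _)
      fun a _ _ => mul_nonneg hT (mul_nonneg (hyo a) (Qt_nonneg N a))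

theorem nwr_le (A n T : ℝ) (m : ℕ) : nwr A n T m ≤ nw A n m := by
  unfold nwr nw
  have h : (m.divisors.filter (fun a : ℕ => n / A ≤ (a : ℝ) ∧ (a : ℝ) ≤ A * n ∧
      (ArithmeticFunction.cardFactors a : ℝ) ≤ T ∧
      (ArithmeticFunction.cardFactors (m / a) : ℝ) ≤ T)) ⊆
      (m.divisors.filter (fun a : ℕ => n / A ≤ (a : ℝ) ∧ (a : ℝ) ≤ A * n)) := by
    intro a ha
    rw [Finset.mem_filter] at ha ⊢
    exact ⟨ha.1, ha.2.1, ha.2.2.1⟩
  exact_mod_cast Finset.card_le_card h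

/-- the size conditions on `y = log n` -/
theorem large (K : ℝ) : ∀ᶠ n : ℝ in atTop, 1 ≤ Real.log n ∧ K ≤ Real.log n ^ (1 / 100 : ℝ) ∧
    1 + Real.log (1 + 2 * Real.log n) ≤ Real.log n ^ (1 / 100 : ℝ) := by
  have h1 : ∀ᶠ y : ℝ in atTop, 1 ≤ y ∧ K ≤ y ^ (1 / 100 : ℝ) ∧
      1 + Real.log (1 + 2 * y) ≤ y ^ (1 / 100 : ℝ) := by
    have hr : (0 : ℝ) < 1 / 100 := by norm_num
    have ht := tendsto_rpow_atTop hr
    have hl := (isLittleO_log_rpow_atTop hr).bound (show (0 : ℝ) < 1 / 2 by norm_num)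
    filter_upwards [eventually_ge_atTop 1, ht.eventually_ge_atTop K, ht.eventually_ge_atTop 6, hl]
      with y hy hK h6 hl
    refine ⟨hy, hK, ?_⟩
    have hy0 : 0 < y := by linarith
    rw [Real.norm_eq_abs, Real.norm_eq_abs, abs_of_nonneg (Real.log_nonneg hy),
      abs_of_nonneg (by positivity)] at hl
    have h3 : Real.log (1 + 2 * y) ≤ Real.log (3 * y) :=
      Real.log_le_log (by linarith) (by linarith)
    rw [Real.log_mul (by norm_num) hy0.ne'] at h3
    have h4 : Real.log 3 ≤ 2 := by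
      have := Real.log_le_sub_one_of_pos (show (0 : ℝ) < 3 by norm_num)
      linarith
    linarith
  exact Real.tendsto_log_atTop.eventually h1

theorem prf (hTl : StTl) (hD2 : StD2) (hD3 : StD3) (hPrA : StPrA) (hPrB : StPrB) : StCnR := by
  intro hW c hc
  have hc' : 0 < min c 1 := lt_min hc one_pos
  obtain ⟨A0, δ, x0, hA0, hδ, hx0⟩ := hW (min c 1) hc'
  obtain ⟨CA, nA, hCA, -, hA⟩ := hPrA A0 hA0
  obtain ⟨CB, nB, hCB, -, hB⟩ := hPrB A0 hA0
  obtain ⟨CD, hCD, hD⟩ := hD3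
  obtain ⟨nT, hT⟩ := hTl A0 (δ / (2 * CB)) hA0 (by positivity)
  obtain ⟨n2, hn2⟩ := eventually_atTop.1 (((large (8 * A0 * CA * CD / δ ^ 2)).and
    (eventually_ge_atTop (2 * A0))).and ((eventually_ge_atTop nA).and
      ((eventually_ge_atTop nB).and (eventually_ge_atTop nT))))
  refine ⟨max x0 (max n2 0 ^ 2), fun x hx s hs => ?_⟩
  have hx1 : x0 ≤ x := (le_max_left _ _).trans hx
  have hx2 : max n2 0 ^ 2 ≤ x := (le_max_right _ _).trans hx
  have hn0 : n2 ≤ Real.sqrt x := (le_max_left n2 0).trans (Real.le_sqrt_of_sq_le hx2)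
  obtain ⟨⟨⟨hy1, hK, hL⟩, h2A⟩, hnA, hnB, hnT⟩ := hn2 _ hn0
  have hxpos : 0 ≤ x := (sq_nonneg _).trans hx2
  have hs2 : Real.sqrt x ^ 2 = x := Real.sq_sqrt hxpos
  have hw := hx0 x hx1 s hs
  have hlx : Real.log x = 2 * Real.log (Real.sqrt x) := by
    rw [Real.log_sqrt hxpos]
    ring
  rw [hlx]
  have hPA := hA (Real.sqrt x) (min c 1) (21 / 20 * Real.log (Real.log (Real.sqrt x))) hnA hc'
    (min_le_right _ _)
  have hPB := hB (Real.sqrt x) (min c 1) (21 / 20 * Real.log (Real.log (Real.sqrt x))) hnB hc'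
    (min_le_right _ _)
  have hPT := hT (Real.sqrt x) hnT
  rw [hs2] at hPA hPB
  have hsub : (Icc ⌈x⌉₊ ⌊x + min c 1 * Real.sqrt x⌋₊).filter
      (fun m => ArithmeticFunction.liouville m = s) ⊆
      (Icc ⌈x⌉₊ ⌊x + c * Real.sqrt x⌋₊).filter (fun m => ArithmeticFunction.liouville m = s) := by
    apply filter_subset_filter
    apply Icc_subset_Icc_right
    apply Nat.floor_le_floor
    have h1 := mul_le_mul_of_nonneg_right (min_le_left c 1) (Real.sqrt_nonneg x)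
    linarith
  have hcard : (((Icc ⌈x⌉₊ ⌊x + min c 1 * Real.sqrt x⌋₊).filter
      (fun m => ArithmeticFunction.liouville m = s)).card : ℝ) ≤
      (((Icc ⌈x⌉₊ ⌊x + c * Real.sqrt x⌋₊).filter
        (fun m => ArithmeticFunction.liouville m = s)).card : ℝ) := by
    exact_mod_cast card_le_card hsub
  refine le_trans ?_ hcard
  clear hcard hsub hlx hn0 hx hx1 hx2
  set n : ℝ := Real.sqrt x
  set y : ℝ := Real.log n with hy
  set T : ℝ := 21 / 20 * Real.log y with hTdef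
  set I : Finset ℕ := Icc ⌈x⌉₊ ⌊x + min c 1 * n⌋₊
  set S : Finset ℕ := I.filter (fun m => ArithmeticFunction.liouville m = s)
  set N : ℕ := ⌊2 * A0 * n⌋₊ with hN
  have hn2' : 2 ≤ n := by linarith
  have hnpos : 0 < n := by linarith
  have hypos : 0 < y := by linarith
  -- the sum of the restricted weights
  have h1 : ∑ m ∈ S, (nw A0 n m - nwr A0 n T m) ≤ δ * n / 2 := by
    have h2 : ∑ m ∈ S, (nw A0 n m - nwr A0 n T m) ≤ ∑ m ∈ I, (nw A0 n m - nwr A0 n T m) :=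
      Finset.sum_le_sum_of_subset_of_nonneg (Finset.filter_subset _ _)
        fun m _ _ => sub_nonneg.2 (nwr_le A0 n T m)
    have h3 : CB * (((Icc 1 N).filter
        (fun a => T < (ArithmeticFunction.cardFactors a : ℝ))).card : ℝ) ≤
        CB * (δ / (2 * CB) * n) := mul_le_mul_of_nonneg_left hPT hCB.le
    have h4 : CB * (δ / (2 * CB) * n) = δ * n / 2 := by
      field_simp
    linarith
  rw [Finset.sum_sub_distrib] at h1
  have h2 : δ * n / 2 ≤ ∑ m ∈ S, nwr A0 n T m := by linarith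
  -- Cauchy-Schwarz
  have h3 : (∑ m ∈ S, nwr A0 n T m) ^ 2 ≤ S.card * ∑ m ∈ S, nwr A0 n T m ^ 2 :=
    sq_sum_le_card_mul_sum_sq
  have h4 : ∑ m ∈ S, nwr A0 n T m ^ 2 ≤ ∑ m ∈ I, nwr A0 n T m ^ 2 :=
    Finset.sum_le_sum_of_subset_of_nonneg (Finset.filter_subset _ _) fun m _ _ => sq_nonneg _
  have hNr : (N : ℝ) ≤ 2 * A0 * n := Nat.floor_le (by positivity)
  have hN1 : 1 ≤ N := by
    refine Nat.le_floor ?_
    rw [Nat.cast_one]
    nlinarith
  have hN1r : (1 : ℝ) ≤ N := by exact_mod_cast hN1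
  have hlogN0 : 0 ≤ Real.log N := Real.log_nonneg hN1r
  have hlogN : Real.log N ≤ 2 * y := by
    have e1 : Real.log N ≤ Real.log (n * n) := by
      refine Real.log_le_log (by linarith) (hNr.trans ?_)
      nlinarith
    rw [Real.log_mul hnpos.ne' hnpos.ne'] at e1
    linarith
  have h5 : ∑ a ∈ (Icc 1 N).filter (fun a => (ArithmeticFunction.cardFactors a : ℝ) ≤ T), Qt N a ≤
      y ^ (73 / 100 : ℝ) * (2 * A0 * n * (CD * y ^ (1 / 100 : ℝ))) := by
    refine (sum_Qt N T).trans ?_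
    refine mul_le_mul (two_pow_T hy1) ?_ ?_ (by positivity)
    · refine (hD2 N hN1).trans ?_
      refine mul_le_mul hNr ?_ ?_ (by positivity)
      · refine (hD N hN1).trans ?_
        refine mul_le_mul_of_nonneg_left (le_trans ?_ hL) (by linarith)
        have e2 : Real.log (1 + Real.log N) ≤ Real.log (1 + 2 * y) :=
          Real.log_le_log (by linarith) (by linarith)
        linarith
      · refine Finset.sum_nonneg fun h _ => Finset.sum_nonneg fun h' _ => ?_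
        unfold yo
        positivity
    · refine Finset.sum_nonneg fun a _ => mul_nonneg ?_ (Qt_nonneg N a)
      unfold yo
      positivity
  have h6 : (δ * n / 2) ^ 2 ≤ (S.card : ℝ) * (CA * (y ^ (73 / 100 : ℝ) *
      (2 * A0 * n * (CD * y ^ (1 / 100 : ℝ))))) := by
    have e3 : (δ * n / 2) ^ 2 ≤ (∑ m ∈ S, nwr A0 n T m) ^ 2 :=
      pow_le_pow_left₀ (by positivity) h2 2
    refine e3.trans (h3.trans (mul_le_mul_of_nonneg_left ?_ (Nat.cast_nonneg _)))
    exact h4.trans (hPA.trans (mul_le_mul_of_nonneg_left h5 hCA.le))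
  have e4 : y ^ (3 / 4 : ℝ) = y ^ (73 / 100 : ℝ) * y ^ (1 / 100 : ℝ) * y ^ (1 / 100 : ℝ) := by
    rw [← Real.rpow_add hypos, ← Real.rpow_add hypos]
    norm_num
  have h7 : n ≤ (S.card : ℝ) * y ^ (3 / 4 : ℝ) := by
    rw [div_le_iff₀ (by positivity)] at hK
    rw [e4]
    set u := y ^ (1 / 100 : ℝ)
    set v := y ^ (73 / 100 : ℝ)
    have hu : 0 < u := Real.rpow_pos_of_pos hypos _
    have hv : 0 < v := Real.rpow_pos_of_pos hypos _
    have hS0 : (0 : ℝ) ≤ S.card := Nat.cast_nonneg _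
    have e5 : (S.card : ℝ) * v * u * n * (8 * A0 * CA * CD) ≤
        (S.card : ℝ) * v * u * n * (u * δ ^ 2) :=
      mul_le_mul_of_nonneg_left hK (by positivity)
    have e6 : δ ^ 2 * n * n ≤ δ ^ 2 * n * ((S.card : ℝ) * (v * u * u)) := by
      linear_combination 4 * h6 + e5
    exact le_of_mul_le_mul_left e6 (by positivity)
  rw [div_le_iff₀ (by positivity)]
  refine h7.trans (mul_le_mul_of_nonneg_left ?_ (Nat.cast_nonneg _))
  exact Real.rpow_le_rpow hypos.le (by linarith) (by norm_num)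

end Pool.Agent.Work.MP_a8fbd7_nt.PAR.LC.I_CnR
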