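import Pool.Agent.Work.MP_a8fbd7_nt.PAR.LC.Stmts5

set_option autoImplicit false

/-! Item D2 of the block LC, part R: the reduction of the second moment to pairs of coprime cofactors. -/

open Finset

namespace Pool.Agent.Work.MP_a8fbd7_nt.PAR.LC.I_D2

open Pool.Agent.Work.MP_a8fbd7_nt.PAR.LC

open scoped Pointwise in
theorem card_mul_le' (a b : ℕ) : ((a * b).divisors.card : ℝ) ≤ a.divisors.card * b.divisors.card := by
  rw [Nat.divisors_mul]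
  exact_mod_cast Finset.card_mul_le

/-- `τ(b) ≤ 2^Ω(b)` -/
theorem tau_le (b : ℕ) : (b.divisors.card : ℝ) ≤ 2 ^ ArithmeticFunction.cardFactors b := by
  induction b using Nat.recOnMul with
  | zero => simp
  | one => simp
  | prime p hp =>
    rw [ArithmeticFunction.cardFactors_apply_prime hp, hp.divisors, Finset.card_pair hp.one_lt.ne]
    norm_num
  | mul a b ha hb =>
    rcases Nat.eq_zero_or_pos a with h | h
    · rw [h, zero_mul]
      simp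
    rcases Nat.eq_zero_or_pos b with h' | h'
    · rw [h', mul_zero]
      simp
    rw [ArithmeticFunction.cardFactors_mul h.ne' h'.ne', pow_add]
    exact (card_mul_le' a b).trans (mul_le_mul ha hb (Nat.cast_nonneg _) (by positivity))

theorem yo_nonneg (a : ℕ) : 0 ≤ yo (1 / 2) a := by
  unfold yo
  positivity

theorem yo_mul {a b : ℕ} (ha : a ≠ 0) (hb : b ≠ 0) :
    yo (1 / 2) (a * b) = yo (1 / 2) a * yo (1 / 2) b := by
  unfold yo
  rw [ArithmeticFunction.cardFactors_mul ha hb, pow_add]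

theorem tau_yo (b : ℕ) : (b.divisors.card : ℝ) * yo (1 / 2) b ≤ 1 := by
  have h1 := tau_le b
  have h2 : (2 : ℝ) ^ ArithmeticFunction.cardFactors b * yo (1 / 2) b = 1 := by
    unfold yo
    rw [← mul_pow]
    norm_num
  calc (b.divisors.card : ℝ) * yo (1 / 2) b ≤ 2 ^ ArithmeticFunction.cardFactors b * yo (1 / 2) b :=
        mul_le_mul_of_nonneg_right h1 (yo_nonneg b)
    _ = 1 := h2

/-- the pairs of divisors -/
def P (a : ℕ) : Finset (ℕ × ℕ) :=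
  (a.divisors ×ˢ a.divisors).filter (fun p => Nat.log 2 p.1 = Nat.log 2 p.2)

theorem Qt_le {N a : ℕ} (ha : a ∈ Icc 1 N) : Qt N a ≤ ((P a).card : ℝ) := by
  obtain ⟨h1, h2⟩ := mem_Icc.1 ha
  have e1 := card_eq_sum_card_fiberwise (s := P a) (f := fun p : ℕ × ℕ => Nat.log 2 p.1)
    (t := range (Nat.log 2 N + 1)) (by
      intro p hp
      obtain ⟨hp1, _⟩ := mem_filter.1 hp
      have h3 := Nat.divisor_le (mem_product.1 hp1).1
      refine mem_coe.2 (mem_range.2 (Nat.lt_succ_of_le ?_))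
      exact Nat.log_mono_right (h3.trans h2))
  rw [e1]
  unfold Qt
  push_cast
  refine sum_le_sum fun k _ => ?_
  unfold tk
  rw [sq]
  have h4 : ((a.divisors.filter (fun g : ℕ => 2 ^ k ≤ g ∧ g < 2 ^ (k + 1))) ×ˢ
      (a.divisors.filter (fun g : ℕ => 2 ^ k ≤ g ∧ g < 2 ^ (k + 1)))).card ≤
      ((P a).filter (fun p => Nat.log 2 p.1 = k)).card := by
    refine card_le_card ?_
    intro p hp
    obtain ⟨q1, q2⟩ := mem_product.1 hp
    obtain ⟨a1, a2, a3⟩ := mem_filter.1 q1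
    obtain ⟨b1, b2, b3⟩ := mem_filter.1 q2
    have c1 : Nat.log 2 p.1 = k := Nat.log_eq_of_pow_le_of_lt_pow a2 a3
    have c2 : Nat.log 2 p.2 = k := Nat.log_eq_of_pow_le_of_lt_pow b2 b3
    exact mem_filter.2 ⟨mem_filter.2 ⟨mem_product.2 ⟨a1, b1⟩, c1.trans c2.symm⟩, c1⟩
  rw [card_product] at h4
  exact_mod_cast h4

/-- the map -/
def phi (x : Σ _ : ℕ, ℕ × ℕ) : (ℕ × ℕ) × (ℕ × ℕ) :=
  ((x.2.1 / Nat.gcd x.2.1 x.2.2, x.2.2 / Nat.gcd x.2.1 x.2.2),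
    (Nat.gcd x.2.1 x.2.2,
      x.1 / (x.2.1 / Nat.gcd x.2.1 x.2.2 * (x.2.2 / Nat.gcd x.2.1 x.2.2) * Nat.gcd x.2.1 x.2.2)))

theorem phi_spec {a g g' : ℕ} (ha : 0 < a) (hg : g ∣ a) (hg' : g' ∣ a) :
    ∃ h h' d e : ℕ, 0 < h ∧ 0 < h' ∧ 0 < d ∧ 0 < e ∧ g = h * d ∧ g' = h' * d ∧
      a = h * h' * (d * e) ∧ phi ⟨a, (g, g')⟩ = ((h, h'), (d, e)) := by
  have hg0 : 0 < g := Nat.pos_of_dvd_of_pos hg ha
  have hg0' : 0 < g' := Nat.pos_of_dvd_of_pos hg' ha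
  have hd0 : 0 < Nat.gcd g g' := Nat.gcd_pos_of_pos_left _ hg0
  obtain ⟨h, hh⟩ : ∃ h, h = g / Nat.gcd g g' := ⟨_, rfl⟩
  obtain ⟨h', hh'⟩ : ∃ h', h' = g' / Nat.gcd g g' := ⟨_, rfl⟩
  obtain ⟨d, hd⟩ : ∃ d, d = Nat.gcd g g' := ⟨_, rfl⟩
  have e1 : g = h * d := by
    rw [hh, hd, Nat.div_mul_cancel (Nat.gcd_dvd_left _ _)]
  have e2 : g' = h' * d := by
    rw [hh', hd, Nat.div_mul_cancel (Nat.gcd_dvd_right _ _)]
  have e3 : Nat.lcm g g' = h * h' * d := by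
    rw [Nat.lcm, ← hd, e2, ← mul_assoc, Nat.mul_div_cancel _ (by omega), e1]
    ring
  have e4 : h * h' * d ∣ a := by
    rw [← e3]
    exact Nat.lcm_dvd hg hg'
  obtain ⟨e, he⟩ := e4
  have hh0 : 0 < h := by
    rcases Nat.eq_zero_or_pos h with h0 | h0
    · rw [h0, zero_mul] at e1
      omega
    · exact h0
  have hh0' : 0 < h' := by
    rcases Nat.eq_zero_or_pos h' with h0 | h0
    · rw [h0, zero_mul] at e2
      omega
    · exact h0
  have he0 : 0 < e := by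
    rcases Nat.eq_zero_or_pos e with h0 | h0
    · rw [h0, mul_zero] at he
      omega
    · exact h0
  have hdp : 0 < d := by omega
  refine ⟨h, h', d, e, hh0, hh0', hdp, he0, e1, e2, ?_, ?_⟩
  · rw [he]
    ring
  · unfold phi
    show ((g / Nat.gcd g g', g' / Nat.gcd g g'), (Nat.gcd g g',
      a / (g / Nat.gcd g g' * (g' / Nat.gcd g g') * Nat.gcd g g'))) = ((h, h'), (d, e))
    rw [← hh, ← hh', ← hd, he, Nat.mul_div_cancel_left _ (by positivity)]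

/-- the sum over `(d, e)` -/
theorem inner (N h h' : ℕ) (hh : 0 < h) (hh' : 0 < h') :
    ∑ v ∈ Icc 1 N ×ˢ Icc 1 N, (if h * h' * (v.1 * v.2) ≤ N then
      yo (1 / 2) (h * h' * (v.1 * v.2)) else 0) ≤
      N * (yo (1 / 2) h * yo (1 / 2) h' / ((h : ℝ) * h')) := by
  obtain ⟨M, hM⟩ : ∃ M, M = N / (h * h') := ⟨_, rfl⟩
  have hp : 0 < h * h' := Nat.mul_pos hh hh'
  have e1 : ∀ v ∈ Icc 1 N ×ˢ Icc 1 N, (if h * h' * (v.1 * v.2) ≤ N then
      yo (1 / 2) (h * h' * (v.1 * v.2)) else 0) =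
      yo (1 / 2) h * yo (1 / 2) h' * (if v.1 * v.2 ≤ M then yo (1 / 2) (v.1 * v.2) else 0) := by
    intro v hv
    obtain ⟨hv1, hv2⟩ := mem_product.1 hv
    have p1 := (mem_Icc.1 hv1).1
    have p2 := (mem_Icc.1 hv2).1
    have e2 : h * h' * (v.1 * v.2) ≤ N ↔ v.1 * v.2 ≤ M := by
      rw [hM, Nat.le_div_iff_mul_le hp, mul_comm]
    by_cases hc : v.1 * v.2 ≤ M
    · rw [if_pos (e2.2 hc), if_pos hc, yo_mul hp.ne' (Nat.mul_pos p1 p2).ne',
        yo_mul hh.ne' hh'.ne']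
    · rw [if_neg (fun h3 => hc (e2.1 h3)), if_neg hc, mul_zero]
  rw [sum_congr rfl e1, ← mul_sum, ← sum_filter]
  have e3 : ∑ v ∈ (Icc 1 N ×ˢ Icc 1 N).filter (fun v => v.1 * v.2 ≤ M), yo (1 / 2) (v.1 * v.2) ≤
      (M : ℝ) := by
    rw [← sum_fiberwise_of_maps_to (t := Icc 1 M) (g := fun v : ℕ × ℕ => v.1 * v.2) (by
      intro v hv
      obtain ⟨hv0, hv3⟩ := mem_filter.1 hv
      obtain ⟨hv1, hv2⟩ := mem_product.1 hv0
      have p1 := (mem_Icc.1 hv1).1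
      have p2 := (mem_Icc.1 hv2).1
      exact mem_Icc.2 ⟨Nat.mul_pos p1 p2, hv3⟩)]
    have e4 : ∀ b ∈ Icc 1 M, ∑ v ∈ ((Icc 1 N ×ˢ Icc 1 N).filter (fun v => v.1 * v.2 ≤ M)).filter
        (fun v => v.1 * v.2 = b), yo (1 / 2) (v.1 * v.2) ≤ 1 := by
      intro b hb
      have hb1 := (mem_Icc.1 hb).1
      have e5 : ∀ v ∈ ((Icc 1 N ×ˢ Icc 1 N).filter (fun v => v.1 * v.2 ≤ M)).filter
          (fun v => v.1 * v.2 = b), yo (1 / 2) (v.1 * v.2) = yo (1 / 2) b := by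
        intro v hv
        rw [(mem_filter.1 hv).2]
      rw [sum_congr rfl e5, sum_const, nsmul_eq_mul]
      refine le_trans (mul_le_mul_of_nonneg_right ?_ (yo_nonneg b)) (tau_yo b)
      refine Nat.cast_le.2 (card_le_card_of_injOn (fun v => v.1) ?_ ?_)
      · intro v hv
        have h1 := (mem_filter.1 hv).2
        exact mem_coe.2 (Nat.mem_divisors.2 ⟨⟨v.2, h1.symm⟩, by omega⟩)
      · intro v hv w hw hvw
        have h1 := (mem_filter.1 hv).2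
        have h2 := (mem_filter.1 hw).2
        have h3 : v.1 = w.1 := hvw
        have h4 : 0 < v.1 := by
          rcases Nat.eq_zero_or_pos v.1 with h0 | h0
          · rw [h0, zero_mul] at h1
            omega
          · exact h0
        have h5 : v.1 * v.2 = v.1 * w.2 := by rw [h1, h3, h2]
        exact Prod.ext h3 (Nat.eq_of_mul_eq_mul_left h4 h5)
    refine (sum_le_sum e4).trans ?_
    rw [sum_const, Nat.card_Icc, nsmul_eq_mul, mul_one, Nat.add_sub_cancel]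
  have e6 : (M : ℝ) ≤ N / ((h : ℝ) * h') := by
    rw [hM]
    have h1 : ((N / (h * h') : ℕ) : ℝ) ≤ (N : ℝ) / ((h * h' : ℕ) : ℝ) := Nat.cast_div_le
    rwa [Nat.cast_mul] at h1
  have e7 : 0 ≤ yo (1 / 2) h * yo (1 / 2) h' := mul_nonneg (yo_nonneg _) (yo_nonneg _)
  calc yo (1 / 2) h * yo (1 / 2) h' * ∑ v ∈ (Icc 1 N ×ˢ Icc 1 N).filter
        (fun v => v.1 * v.2 ≤ M), yo (1 / 2) (v.1 * v.2)
      ≤ yo (1 / 2) h * yo (1 / 2) h' * (N / ((h : ℝ) * h')) :=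
        mul_le_mul_of_nonneg_left (e3.trans e6) e7
    _ = N * (yo (1 / 2) h * yo (1 / 2) h' / ((h : ℝ) * h')) := by ring

theorem prf : StD2 := by
  classical
  intro N _
  -- step A
  have hA : ∑ a ∈ Icc 1 N, yo (1 / 2) a * Qt N a ≤
      ∑ x ∈ (Icc 1 N).sigma P, yo (1 / 2) x.1 := by
    have h1 : ∀ a ∈ Icc 1 N, yo (1 / 2) a * Qt N a ≤ ∑ _p ∈ P a, yo (1 / 2) a := by
      intro a ha
      rw [sum_const, nsmul_eq_mul, mul_comm]
      exact mul_le_mul_of_nonneg_right (Qt_le ha) (yo_nonneg a)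
    refine (sum_le_sum h1).trans (le_of_eq ?_)
    exact sum_sigma' (Icc 1 N) P (fun a _ => yo (1 / 2) a)
  refine hA.trans ?_
  -- the target
  obtain ⟨F, hF⟩ : ∃ F : (ℕ × ℕ) × (ℕ × ℕ) → ℝ,
      F = fun u => yo (1 / 2) (u.1.1 * u.1.2 * (u.2.1 * u.2.2)) := ⟨_, rfl⟩
  obtain ⟨U, hU⟩ : ∃ U : Finset ((ℕ × ℕ) × (ℕ × ℕ)),
      U = ((Icc 1 N ×ˢ Icc 1 N) ×ˢ (Icc 1 N ×ˢ Icc 1 N)).filter (fun u =>
        (u.1.1 < 2 * u.1.2 ∧ u.1.2 < 2 * u.1.1) ∧ u.1.1 * u.1.2 * (u.2.1 * u.2.2) ≤ N) := ⟨_, rfl⟩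
  have hspec : ∀ x ∈ (Icc 1 N).sigma P, ∃ h h' d e : ℕ, 0 < h ∧ 0 < h' ∧ 0 < d ∧ 0 < e ∧
      x.2.1 = h * d ∧ x.2.2 = h' * d ∧ x.1 = h * h' * (d * e) ∧ phi x = ((h, h'), (d, e)) := by
    intro x hx
    obtain ⟨hx1, hx2⟩ := mem_sigma.1 hx
    obtain ⟨hx3, _⟩ := mem_filter.1 hx2
    obtain ⟨hx5, hx6⟩ := mem_product.1 hx3
    obtain ⟨a, g, g'⟩ := x
    exact phi_spec (mem_Icc.1 hx1).1 (Nat.mem_divisors.1 hx5).1 (Nat.mem_divisors.1 hx6).1
  have hB : ∑ x ∈ (Icc 1 N).sigma P, yo (1 / 2) x.1 = ∑ x ∈ (Icc 1 N).sigma P, F (phi x) := by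
    refine sum_congr rfl fun x hx => ?_
    obtain ⟨h, h', d, e, _, _, _, _, _, _, e3, e4⟩ := hspec x hx
    rw [e4, hF, e3]
  have hinj : Set.InjOn phi ((Icc 1 N).sigma P : Finset (Σ _ : ℕ, ℕ × ℕ)) := by
    intro x hx y hy hxy
    obtain ⟨h, h', d, e, _, _, _, _, a1, a2, a3, a4⟩ := hspec x hx
    obtain ⟨k, k', c, f, _, _, _, _, b1, b2, b3, b4⟩ := hspec y hy
    rw [a4, b4] at hxy
    simp only [Prod.mk.injEq] at hxy
    obtain ⟨⟨c1, c2⟩, c3, c4⟩ := hxy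
    obtain ⟨a, g, g'⟩ := x
    obtain ⟨b, l, l'⟩ := y
    simp only at a1 a2 a3 b1 b2 b3
    rw [a1, a2, a3, b1, b2, b3, c1, c2, c3, c4]
  rw [hB, ← sum_image hinj]
  have hsub : ((Icc 1 N).sigma P).image phi ⊆ U := by
    intro u hu
    obtain ⟨x, hx, rfl⟩ := mem_image.1 hu
    obtain ⟨h, h', d, e, p1, p2, p3, p4, a1, a2, a3, a4⟩ := hspec x hx
    obtain ⟨hx1, hx2⟩ := mem_sigma.1 hx
    obtain ⟨_, hx4⟩ := mem_filter.1 hx2
    have haN := (mem_Icc.1 hx1).2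
    have g0 : 0 < x.2.1 := by
      rw [a1]
      positivity
    have g0' : 0 < x.2.2 := by
      rw [a2]
      positivity
    have l1 : x.2.1 < 2 * x.2.2 := by
      have c1 := Nat.lt_pow_succ_log_self (b := 2) (by norm_num) x.2.1
      have c2 := Nat.pow_log_le_self 2 g0'.ne'
      rw [hx4, Nat.succ_eq_add_one, pow_succ] at c1
      omega
    have l2 : x.2.2 < 2 * x.2.1 := by
      have c1 := Nat.lt_pow_succ_log_self (b := 2) (by norm_num) x.2.2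
      have c2 := Nat.pow_log_le_self 2 g0.ne'
      rw [← hx4, Nat.succ_eq_add_one, pow_succ] at c1
      omega
    rw [a1, a2] at l1 l2
    have l3 : h < 2 * h' := by
      refine Nat.lt_of_mul_lt_mul_right (a := d) ?_
      rw [mul_assoc]
      exact l1
    have l4 : h' < 2 * h := by
      refine Nat.lt_of_mul_lt_mul_right (a := d) ?_
      rw [mul_assoc]
      exact l2
    rw [a3] at haN
    have m1 : h ≤ N := le_trans (by
      calc h = h * 1 * (1 * 1) := by ring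
        _ ≤ h * h' * (d * e) := Nat.mul_le_mul (Nat.mul_le_mul le_rfl p2) (Nat.mul_le_mul p3 p4)) haN
    have m2 : h' ≤ N := le_trans (by
      calc h' = 1 * h' * (1 * 1) := by ring
        _ ≤ h * h' * (d * e) := Nat.mul_le_mul (Nat.mul_le_mul p1 le_rfl) (Nat.mul_le_mul p3 p4)) haN
    have m3 : d ≤ N := le_trans (by
      calc d = 1 * 1 * (d * 1) := by ring
        _ ≤ h * h' * (d * e) := Nat.mul_le_mul (Nat.mul_le_mul p1 p2) (Nat.mul_le_mul le_rfl p4)) haN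
    have m4 : e ≤ N := le_trans (by
      calc e = 1 * 1 * (1 * e) := by ring
        _ ≤ h * h' * (d * e) := Nat.mul_le_mul (Nat.mul_le_mul p1 p2) (Nat.mul_le_mul p3 le_rfl)) haN
    rw [a4, hU]
    exact mem_filter.2 ⟨mem_product.2 ⟨mem_product.2 ⟨mem_Icc.2 ⟨p1, m1⟩, mem_Icc.2 ⟨p2, m2⟩⟩,
      mem_product.2 ⟨mem_Icc.2 ⟨p3, m3⟩, mem_Icc.2 ⟨p4, m4⟩⟩⟩, ⟨l3, l4⟩, haN⟩
  have hF0 : ∀ u, 0 ≤ F u := by
    intro u
    rw [hF]
    exact yo_nonneg _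
  refine (sum_le_sum_of_subset_of_nonneg hsub fun u _ _ => hF0 u).trans ?_
  rw [hU, sum_filter, sum_product, sum_product, mul_sum]
  refine sum_le_sum fun h hh => ?_
  rw [mul_sum, sum_filter]
  refine sum_le_sum fun h' hh' => ?_
  have p1 := (mem_Icc.1 hh).1
  have p2 := (mem_Icc.1 hh').1
  by_cases hc : h < 2 * h' ∧ h' < 2 * h
  · rw [if_pos hc]
    refine le_trans (le_of_eq (sum_congr rfl fun v _ => ?_)) (inner N h h' p1 p2)
    rw [hF]
    by_cases hd : h * h' * (v.1 * v.2) ≤ N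
    · rw [if_pos ⟨hc, hd⟩, if_pos hd]
    · rw [if_neg (fun h3 => hd h3.2), if_neg hd]
  · rw [if_neg hc]
    refine le_of_eq (sum_eq_zero fun v _ => ?_)
    rw [if_neg (fun h3 => hc h3.1)]

end Pool.Agent.Work.MP_a8fbd7_nt.PAR.LC.I_D2
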