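import Pool.Agent.Work.MP_a8fbd7_nt.PAR.LC.Stmts5

set_option autoImplicit false

/-!
Item D3: the double sum.
-/

open Finset

noncomputable section

namespace Pool.Agent.Work.MP_a8fbd7_nt.PAR.LC.I_D3

theorem yo_nonneg (a : ℕ) : 0 ≤ yo (1 / 2) a := by
  unfold yo
  positivity

/-- the weight -/
def w (x : ℝ) : ℝ := (1 + Real.log x) ^ (-(1 / 2) : ℝ)

theorem w_nonneg {x : ℝ} (hx : 1 ≤ x) : 0 ≤ w x := by
  unfold w
  have := Real.log_nonneg hx
  positivity

theorem w_anti {x y : ℝ} (hx : 1 ≤ x) (hxy : x ≤ y) : w y ≤ w x := by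
  unfold w
  have h1 := Real.log_nonneg hx
  have h2 := Real.log_le_log (by linarith) hxy
  exact Real.rpow_le_rpow_of_nonpos (by linarith) (by linarith) (by norm_num)

theorem w_sq (j : ℕ) : w ((2 : ℝ) ^ (j + 1)) * w ((2 : ℝ) ^ (j + 1)) ≤ 2 / ((j : ℝ) + 1) := by
  unfold w
  have h1 : Real.log ((2 : ℝ) ^ (j + 1)) = ((j : ℝ) + 1) * Real.log 2 := by
    rw [Real.log_pow]
    push_cast
    ring
  have h2 : (1 / 2 : ℝ) ≤ Real.log 2 := by
    have := Real.log_two_gt_d9
    linarith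
  have hj : (0 : ℝ) ≤ (j : ℝ) := Nat.cast_nonneg j
  have h3 : ((j : ℝ) + 1) / 2 ≤ 1 + Real.log ((2 : ℝ) ^ (j + 1)) := by
    rw [h1]
    nlinarith
  have h4 : 0 < 1 + Real.log ((2 : ℝ) ^ (j + 1)) := by linarith
  rw [← Real.rpow_add h4]
  rw [show (-(1 / 2) + -(1 / 2) : ℝ) = -1 by norm_num, Real.rpow_neg_one]
  rw [inv_eq_one_div, div_le_div_iff₀ h4 (by linarith)]
  linarith

theorem prf (hHT : StHT) : StD3 := by
  obtain ⟨C, hC1, hC⟩ := hHT
  have hC0 : 0 < C := by linarith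
  refine ⟨32 * C ^ 2, by nlinarith, fun N hN => ?_⟩
  have hH : ∀ M : ℕ, 1 ≤ M → ∑ a ∈ Icc 1 M, yo (1 / 2) a ≤ C * M * w M := by
    intro M hM
    have h1 := hC (1 / 2) M (by norm_num) (by norm_num) hM
    rw [show (1 / 2 - 1 : ℝ) = -(1 / 2) by norm_num] at h1
    exact h1
  -- the inner sum
  have hin : ∀ h ∈ Icc 1 N, ∑ h' ∈ (Icc 1 N).filter (fun h' => h < 2 * h' ∧ h' < 2 * h),
      yo (1 / 2) h * yo (1 / 2) h' / ((h : ℝ) * h') ≤
      yo (1 / 2) h / h * (4 * C * w ((2 : ℝ) ^ (Nat.log 2 h + 1))) := by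
    intro h hh
    have hh1 := (Finset.mem_Icc.1 hh).1
    have hh0 : (0 : ℝ) < (h : ℝ) := by exact_mod_cast hh1
    have hy0 : 0 ≤ yo (1 / 2) h / h * (2 / h) := by
      have := yo_nonneg h
      positivity
    have hb := hH (2 * h) (by omega)
    have hb2 : w ((2 * h : ℕ) : ℝ) ≤ w ((2 : ℝ) ^ (Nat.log 2 h + 1)) := by
      refine w_anti (one_le_pow₀ (by norm_num)) ?_
      have h2 : 2 ^ Nat.log 2 h ≤ h := Nat.pow_log_le_self 2 (by omega)
      have h3 : 2 ^ (Nat.log 2 h + 1) ≤ 2 * h := by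
        rw [pow_succ]
        omega
      exact_mod_cast h3
    calc ∑ h' ∈ (Icc 1 N).filter (fun h' => h < 2 * h' ∧ h' < 2 * h),
          yo (1 / 2) h * yo (1 / 2) h' / ((h : ℝ) * h')
        ≤ ∑ h' ∈ (Icc 1 N).filter (fun h' => h < 2 * h' ∧ h' < 2 * h),
          yo (1 / 2) h / h * (2 / h) * yo (1 / 2) h' := by
          refine Finset.sum_le_sum fun h' hh' => ?_
          obtain ⟨h4, h5, _⟩ := Finset.mem_filter.1 hh'
          have h6 : (0 : ℝ) < (h' : ℝ) := by exact_mod_cast (Finset.mem_Icc.1 h4).1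
          have h7 : (1 : ℝ) / h' ≤ 2 / h := by
            rw [div_le_div_iff₀ h6 hh0]
            have : (h : ℝ) < 2 * h' := by exact_mod_cast h5
            linarith
          have h8 : yo (1 / 2) h * yo (1 / 2) h' / ((h : ℝ) * h') =
              yo (1 / 2) h / h * (1 / h') * yo (1 / 2) h' := by
            field_simp
          rw [h8]
          have := yo_nonneg h
          have := yo_nonneg h'
          gcongr
      _ = yo (1 / 2) h / h * (2 / h) *
          ∑ h' ∈ (Icc 1 N).filter (fun h' => h < 2 * h' ∧ h' < 2 * h), yo (1 / 2) h' := by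
          rw [Finset.mul_sum]
      _ ≤ yo (1 / 2) h / h * (2 / h) * ∑ h' ∈ Icc 1 (2 * h), yo (1 / 2) h' := by
          refine mul_le_mul_of_nonneg_left ?_ hy0
          refine Finset.sum_le_sum_of_subset_of_nonneg ?_ fun i _ _ => yo_nonneg i
          intro h' hh'
          obtain ⟨h4, _, h5⟩ := Finset.mem_filter.1 hh'
          exact Finset.mem_Icc.2 ⟨(Finset.mem_Icc.1 h4).1, h5.le⟩
      _ ≤ yo (1 / 2) h / h * (2 / h) * (C * ((2 * h : ℕ) : ℝ) * w ((2 * h : ℕ) : ℝ)) :=
          mul_le_mul_of_nonneg_left hb hy0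
      _ ≤ yo (1 / 2) h / h * (2 / h) * (C * ((2 * h : ℕ) : ℝ) *
          w ((2 : ℝ) ^ (Nat.log 2 h + 1))) := by
          refine mul_le_mul_of_nonneg_left ?_ hy0
          exact mul_le_mul_of_nonneg_left hb2 (by positivity)
      _ = yo (1 / 2) h / h * (4 * C * w ((2 : ℝ) ^ (Nat.log 2 h + 1))) := by
          push_cast
          field_simp
          ring
  -- the dyadic sums
  have hU : ∀ j : ℕ, ∑ h ∈ (Icc 1 N).filter (fun h => Nat.log 2 h = j), yo (1 / 2) h / h ≤
      2 * C * w ((2 : ℝ) ^ (j + 1)) := by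
    intro j
    have hb := hH (2 ^ (j + 1)) Nat.one_le_two_pow
    calc ∑ h ∈ (Icc 1 N).filter (fun h => Nat.log 2 h = j), yo (1 / 2) h / h
        ≤ ∑ h ∈ (Icc 1 N).filter (fun h => Nat.log 2 h = j), yo (1 / 2) h / (2 : ℝ) ^ j := by
          refine Finset.sum_le_sum fun h hh => ?_
          obtain ⟨h1, h2⟩ := Finset.mem_filter.1 hh
          have h3 : 2 ^ j ≤ h := by
            rw [← h2]
            exact Nat.pow_log_le_self 2 (by have := (Finset.mem_Icc.1 h1).1; omega)
          have h4 : (2 : ℝ) ^ j ≤ (h : ℝ) := by exact_mod_cast h3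
          exact div_le_div_of_nonneg_left (yo_nonneg h) (by positivity) h4
      _ = (∑ h ∈ (Icc 1 N).filter (fun h => Nat.log 2 h = j), yo (1 / 2) h) / (2 : ℝ) ^ j := by
          rw [Finset.sum_div]
      _ ≤ (∑ h ∈ Icc 1 (2 ^ (j + 1)), yo (1 / 2) h) / (2 : ℝ) ^ j := by
          refine div_le_div_of_nonneg_right ?_ (by positivity)
          refine Finset.sum_le_sum_of_subset_of_nonneg ?_ fun i _ _ => yo_nonneg i
          intro h hh
          obtain ⟨h1, h2⟩ := Finset.mem_filter.1 hh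
          refine Finset.mem_Icc.2 ⟨(Finset.mem_Icc.1 h1).1, ?_⟩
          have := Nat.lt_pow_succ_log_self (b := 2) (by norm_num) h
          rw [h2] at this
          exact this.le
      _ ≤ (C * ((2 ^ (j + 1) : ℕ) : ℝ) * w ((2 ^ (j + 1) : ℕ) : ℝ)) / (2 : ℝ) ^ j :=
          div_le_div_of_nonneg_right hb (by positivity)
      _ = 2 * C * w ((2 : ℝ) ^ (j + 1)) := by
          push_cast
          rw [pow_succ (2 : ℝ) j]
          field_simp
  set L := Nat.log 2 N with hL
  calc ∑ h ∈ Icc 1 N, ∑ h' ∈ (Icc 1 N).filter (fun h' => h < 2 * h' ∧ h' < 2 * h),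
        yo (1 / 2) h * yo (1 / 2) h' / ((h : ℝ) * h')
      ≤ ∑ h ∈ Icc 1 N, yo (1 / 2) h / h * (4 * C * w ((2 : ℝ) ^ (Nat.log 2 h + 1))) :=
        Finset.sum_le_sum hin
    _ = ∑ j ∈ range (L + 1), ∑ h ∈ (Icc 1 N).filter (fun h => Nat.log 2 h = j),
          yo (1 / 2) h / h * (4 * C * w ((2 : ℝ) ^ (Nat.log 2 h + 1))) := by
        refine (Finset.sum_fiberwise_of_maps_to (g := fun h => Nat.log 2 h) ?_ _).symm
        intro h hh
        exact Finset.mem_range.2 (Nat.lt_succ_of_le (Nat.log_mono_right (Finset.mem_Icc.1 hh).2))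
    _ = ∑ j ∈ range (L + 1), 4 * C * w ((2 : ℝ) ^ (j + 1)) *
          ∑ h ∈ (Icc 1 N).filter (fun h => Nat.log 2 h = j), yo (1 / 2) h / h := by
        refine Finset.sum_congr rfl fun j _ => ?_
        rw [Finset.mul_sum]
        refine Finset.sum_congr rfl fun h hh => ?_
        rw [(Finset.mem_filter.1 hh).2]
        ring
    _ ≤ ∑ j ∈ range (L + 1), 16 * C ^ 2 * (1 / ((j : ℝ) + 1)) := by
        refine Finset.sum_le_sum fun j _ => ?_
        have h1 : 0 ≤ w ((2 : ℝ) ^ (j + 1)) := w_nonneg (one_le_pow₀ (by norm_num))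
        calc 4 * C * w ((2 : ℝ) ^ (j + 1)) *
              ∑ h ∈ (Icc 1 N).filter (fun h => Nat.log 2 h = j), yo (1 / 2) h / h
            ≤ 4 * C * w ((2 : ℝ) ^ (j + 1)) * (2 * C * w ((2 : ℝ) ^ (j + 1))) :=
              mul_le_mul_of_nonneg_left (hU j) (by positivity)
          _ = 8 * C ^ 2 * (w ((2 : ℝ) ^ (j + 1)) * w ((2 : ℝ) ^ (j + 1))) := by ring
          _ ≤ 8 * C ^ 2 * (2 / ((j : ℝ) + 1)) :=
              mul_le_mul_of_nonneg_left (w_sq j) (by positivity)
          _ = 16 * C ^ 2 * (1 / ((j : ℝ) + 1)) := by ring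
    _ = 16 * C ^ 2 * ∑ j ∈ range (L + 1), 1 / ((j : ℝ) + 1) := by rw [Finset.mul_sum]
    _ ≤ 16 * C ^ 2 * (1 + Real.log ((L + 1 : ℕ) : ℝ)) := by
        refine mul_le_mul_of_nonneg_left ?_ (by positivity)
        have h1 := harmonic_le_one_add_log (L + 1)
        have h2 : ((harmonic (L + 1) : ℚ) : ℝ) = ∑ j ∈ range (L + 1), 1 / ((j : ℝ) + 1) := by
          unfold harmonic
          push_cast
          refine Finset.sum_congr rfl fun j _ => ?_
          rw [one_div]
        rw [← h2]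
        exact h1
    _ ≤ 32 * C ^ 2 * (1 + Real.log (1 + Real.log N)) := by
        have hN1 : (1 : ℝ) ≤ (N : ℝ) := by exact_mod_cast hN
        have hlN : 0 ≤ Real.log N := Real.log_nonneg hN1
        have h1 : (L : ℝ) ≤ 2 * Real.log N := by
          have h2 : 2 ^ L ≤ N := Nat.pow_log_le_self 2 (by omega)
          have h3 : ((2 : ℝ) ^ L) ≤ (N : ℝ) := by exact_mod_cast h2
          have h4 := Real.log_le_log (by positivity) h3
          rw [Real.log_pow] at h4
          have h5 := Real.log_two_gt_d9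
          have hL0 : (0 : ℝ) ≤ (L : ℝ) := Nat.cast_nonneg L
          nlinarith
        have h6 : Real.log ((L + 1 : ℕ) : ℝ) ≤ 1 + Real.log (1 + Real.log N) := by
          have h7 : ((L + 1 : ℕ) : ℝ) ≤ 2 * (1 + Real.log N) := by
            push_cast
            linarith
          have h8 := Real.log_le_log (by positivity) h7
          rw [Real.log_mul (by norm_num) (by linarith)] at h8
          have h9 := Real.log_two_lt_d9
          linarith
        have h10 : 0 ≤ Real.log (1 + Real.log N) := Real.log_nonneg (by linarith)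
        have h11 : 1 + Real.log ((L + 1 : ℕ) : ℝ) ≤ 2 * (1 + Real.log (1 + Real.log N)) := by
          linarith
        calc 16 * C ^ 2 * (1 + Real.log ((L + 1 : ℕ) : ℝ)) ≤
              16 * C ^ 2 * (2 * (1 + Real.log (1 + Real.log N))) :=
              mul_le_mul_of_nonneg_left h11 (by positivity)
          _ = 32 * C ^ 2 * (1 + Real.log (1 + Real.log N)) := by ring

end Pool.Agent.Work.MP_a8fbd7_nt.PAR.LC.I_D3
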