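import Pool.Agent.Work.MP_a8fbd7_nt.PAR.LC.Stmts5

set_option autoImplicit false

/-!
MP_a8fbd7_nt, block LC, part R, item HT: the mean value of a completely multiplicative function (Hall and Tenenbaum).
-/

open Finset

noncomputable section

namespace Pool.Agent.Work.MP_a8fbd7_nt.PAR.LC.I_HT

open Pool.Agent.Work.MP_a8fbd7_nt.PAR.LC

theorem yo_mul (y : ℝ) {a b : ℕ} (ha : a ≠ 0) (hb : b ≠ 0) : yo y (a * b) = yo y a * yo y b := by
  unfold yo
  rw [ArithmeticFunction.cardFactors_mul ha hb, pow_add]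

theorem yo_pos {y : ℝ} (hy : 0 < y) (a : ℕ) : 0 < yo y a := pow_pos hy _

/-- The identity `f(a) log a = ∑_{d ∣ a} Λ(d) f(d) f(a/d)`. -/
theorem mul_log (y : ℝ) {a : ℕ} (ha : a ≠ 0) :
    yo y a * Real.log a =
      ∑ d ∈ a.divisors, ArithmeticFunction.vonMangoldt d * yo y d * yo y (a / d) := by
  rw [← ArithmeticFunction.vonMangoldt_sum, Finset.mul_sum]
  refine Finset.sum_congr rfl fun d hd => ?_
  have hda : d ∣ a := Nat.dvd_of_mem_divisors hd
  have hd0 : d ≠ 0 := (Nat.pos_of_mem_divisors hd).ne'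
  have hq0 : a / d ≠ 0 := (Nat.div_pos (Nat.le_of_dvd (Nat.pos_of_ne_zero ha) hda)
    (Nat.pos_of_ne_zero hd0)).ne'
  have h : yo y a = yo y d * yo y (a / d) := by
    rw [← yo_mul y hd0 hq0, Nat.mul_div_cancel' hda]
  rw [h]
  ring

/-- The rearrangement. -/
theorem swap (N : ℕ) (g : ℕ → ℕ → ℝ) :
    ∑ a ∈ Icc 1 N, ∑ d ∈ a.divisors, g d (a / d) = ∑ b ∈ Icc 1 N, ∑ d ∈ Icc 1 (N / b), g d b := by
  rw [Finset.sum_sigma', Finset.sum_sigma']
  refine Finset.sum_bij' (fun x _ => (⟨x.1 / x.2, x.2⟩ : Σ _ : ℕ, ℕ))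
    (fun x _ => (⟨x.1 * x.2, x.2⟩ : Σ _ : ℕ, ℕ)) ?_ ?_ ?_ ?_ ?_
  · rintro ⟨a, d⟩ h
    rw [Finset.mem_sigma, Finset.mem_Icc, Nat.mem_divisors] at h
    obtain ⟨⟨h1, h2⟩, h3, h4⟩ := h
    dsimp only at h1 h2 h3 h4
    have hd : 0 < d := Nat.pos_of_dvd_of_pos h3 h1
    have hb : 0 < a / d := Nat.div_pos (Nat.le_of_dvd h1 h3) hd
    have hab : d * (a / d) = a := Nat.mul_div_cancel' h3
    rw [Finset.mem_sigma, Finset.mem_Icc, Finset.mem_Icc]
    refine ⟨⟨hb, (Nat.div_le_self a d).trans h2⟩, hd, ?_⟩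
    dsimp only
    rw [Nat.le_div_iff_mul_le hb, hab]
    exact h2
  · rintro ⟨b, d⟩ h
    rw [Finset.mem_sigma, Finset.mem_Icc, Finset.mem_Icc] at h
    obtain ⟨⟨h1, h2⟩, h3, h4⟩ := h
    dsimp only at h1 h2 h3 h4
    rw [Finset.mem_sigma, Finset.mem_Icc, Nat.mem_divisors]
    dsimp only
    rw [Nat.le_div_iff_mul_le h1] at h4
    have hpos : 0 < b * d := Nat.mul_pos h1 h3
    refine ⟨⟨hpos, ?_⟩, dvd_mul_left d b, hpos.ne'⟩
    rw [mul_comm]
    exact h4
  · rintro ⟨a, d⟩ h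
    rw [Finset.mem_sigma, Finset.mem_Icc, Nat.mem_divisors] at h
    dsimp only at h ⊢
    rw [Nat.div_mul_cancel h.2.1]
  · rintro ⟨b, d⟩ h
    rw [Finset.mem_sigma, Finset.mem_Icc, Finset.mem_Icc] at h
    dsimp only at h ⊢
    rw [Nat.mul_div_cancel b h.2.1]
  · rintro ⟨a, d⟩ h
    rfl

theorem prf (hA : StHTa) (hB : StHTb) : StHT := by
  obtain ⟨C, hC1, hC⟩ := hA
  obtain ⟨C', hC'1, hC'⟩ := hB
  refine ⟨(C + 2) * C', by nlinarith, fun y N hy hy1 hN => ?_⟩
  set F : ℝ := ∑ a ∈ Icc 1 N, yo y a with hF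
  set G : ℝ := ∑ b ∈ Icc 1 N, yo y b / b with hG
  have hN0 : (0 : ℝ) < N := by exact_mod_cast hN
  have hlogN : 0 ≤ Real.log N := Real.log_nonneg (by exact_mod_cast hN)
  -- the trivial bound
  have h1 : F ≤ N * G := by
    rw [hF, hG, Finset.mul_sum]
    refine Finset.sum_le_sum fun a ha => ?_
    rw [Finset.mem_Icc] at ha
    have ha0 : (0 : ℝ) < a := by exact_mod_cast ha.1
    have haN : (a : ℝ) ≤ N := by exact_mod_cast ha.2
    rw [mul_div_assoc', le_div_iff₀ ha0, mul_comm]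
    exact mul_le_mul_of_nonneg_right haN (yo_pos hy a).le
  -- the sum with `log a`
  have h2 : ∑ a ∈ Icc 1 N, yo y a * Real.log a ≤ C * N * G := by
    have h3 : ∑ a ∈ Icc 1 N, yo y a * Real.log a =
        ∑ a ∈ Icc 1 N, ∑ d ∈ a.divisors,
          ArithmeticFunction.vonMangoldt d * yo y d * yo y (a / d) := by
      refine Finset.sum_congr rfl fun a ha => ?_
      rw [Finset.mem_Icc] at ha
      exact mul_log y (by omega)
    rw [h3, swap N (fun d b => ArithmeticFunction.vonMangoldt d * yo y d * yo y b), hG,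
      Finset.mul_sum]
    refine Finset.sum_le_sum fun b hb => ?_
    rw [Finset.mem_Icc] at hb
    have hb0 : (0 : ℝ) < b := by exact_mod_cast hb.1
    rw [← Finset.sum_mul]
    have h4 := hC y (N / b) hy hy1
    have h5 : ((N / b : ℕ) : ℝ) ≤ (N : ℝ) / b := Nat.cast_div_le
    calc (∑ d ∈ Icc 1 (N / b), ArithmeticFunction.vonMangoldt d * yo y d) * yo y b
        ≤ (C * ((N / b : ℕ) : ℝ)) * yo y b := mul_le_mul_of_nonneg_right h4 (yo_pos hy b).le
      _ ≤ (C * ((N : ℝ) / b)) * yo y b := by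
          refine mul_le_mul_of_nonneg_right (mul_le_mul_of_nonneg_left h5 (by linarith)) ?_
          exact (yo_pos hy b).le
      _ = C * N * (yo y b / b) := by ring
  -- the sum with `log (N / a)`
  have h6 : ∑ a ∈ Icc 1 N, yo y a * (Real.log N - Real.log a) ≤ N * G := by
    rw [hG, Finset.mul_sum]
    refine Finset.sum_le_sum fun a ha => ?_
    rw [Finset.mem_Icc] at ha
    have ha0 : (0 : ℝ) < a := by exact_mod_cast ha.1
    rw [← Real.log_div hN0.ne' ha0.ne']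
    have h7 : Real.log ((N : ℝ) / a) ≤ (N : ℝ) / a := by
      have := Real.log_le_sub_one_of_pos (div_pos hN0 ha0)
      linarith
    calc yo y a * Real.log ((N : ℝ) / a) ≤ yo y a * ((N : ℝ) / a) :=
          mul_le_mul_of_nonneg_left h7 (yo_pos hy a).le
      _ = N * (yo y a / a) := by ring
  have h8 : Real.log N * F = ∑ a ∈ Icc 1 N, yo y a * Real.log a +
      ∑ a ∈ Icc 1 N, yo y a * (Real.log N - Real.log a) := by
    rw [hF, Finset.mul_sum, ← Finset.sum_add_distrib]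
    refine Finset.sum_congr rfl fun a _ => ?_
    ring
  have h9 : (1 + Real.log N) * F ≤ (C + 2) * N * G := by nlinarith
  have h10 : (C + 2) * N * G ≤ (C + 2) * N * (C' * (1 + Real.log N) ^ y) :=
    mul_le_mul_of_nonneg_left (hC' y N hy hy1 hN) (by positivity)
  have hL : 0 < 1 + Real.log N := by linarith
  have h11 : (1 + Real.log N) ^ y = (1 + Real.log N) * (1 + Real.log N) ^ (y - 1) := by
    rw [Real.rpow_sub_one hL.ne']
    field_simp
  rw [h11] at h10
  have h12 : (1 + Real.log N) * F ≤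
      (1 + Real.log N) * ((C + 2) * C' * N * (1 + Real.log N) ^ (y - 1)) := by
    refine (h9.trans h10).trans (le_of_eq ?_)
    ring
  exact le_of_mul_le_mul_left h12 hL

end Pool.Agent.Work.MP_a8fbd7_nt.PAR.LC.I_HT
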