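import Pool.Agent.Work.MP_a8fbd7_nt.PAR.LC.Stmts5

set_option autoImplicit false

/-!
MP_a8fbd7_nt, block LC, item HTa: Chebyshev bound with the weight `y^Ω`.
-/

open Finset

noncomputable section

namespace Pool.Agent.Work.MP_a8fbd7_nt.PAR.LC.I_HTa

open ArithmeticFunction

theorem pw (k d : ℕ) (h : 2 ^ k ≤ d) : (21 / 20 : ℝ) ^ k ≤ (d : ℝ) ^ (1 / 10 : ℝ) := by
  have h0 : (0 : ℝ) ≤ (21 / 20 : ℝ) ^ k := by positivity
  have h1 : ((21 / 20 : ℝ) ^ k) ^ 10 ≤ d := by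
    have h2 : ((21 / 20 : ℝ) ^ k) ^ 10 = ((21 / 20 : ℝ) ^ 10) ^ k := by
      rw [← pow_mul, ← pow_mul, mul_comm]
    rw [h2]
    have h3 : ((21 / 20 : ℝ) ^ 10) ^ k ≤ 2 ^ k :=
      pow_le_pow_left₀ (by positivity) (by norm_num) k
    exact h3.trans (by exact_mod_cast h)
  have h4 : (21 / 20 : ℝ) ^ k = (((21 / 20 : ℝ) ^ k) ^ 10) ^ (1 / 10 : ℝ) := by
    rw [← Real.rpow_natCast ((21 / 20 : ℝ) ^ k) 10, ← Real.rpow_mul h0]
    norm_num
  rw [h4]
  exact Real.rpow_le_rpow (by positivity) h1 (by norm_num)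

theorem yo_le (y : ℝ) (hy : 0 < y) (hy2 : y ≤ 21 / 20) (d M : ℕ) (hd : IsPrimePow d)
    (hM : d ≤ M) : yo y d ≤ (M : ℝ) ^ (1 / 10 : ℝ) := by
  obtain ⟨p, k, hp, hk, rfl⟩ := (isPrimePow_nat_iff d).1 hd
  unfold yo
  rw [cardFactors_apply_prime_pow hp]
  have h1 : y ^ k ≤ (21 / 20 : ℝ) ^ k := pow_le_pow_left₀ hy.le hy2 k
  have h2 : 2 ^ k ≤ M := (Nat.pow_le_pow_left hp.two_le k).trans hM
  exact h1.trans (pw k M h2)

theorem yo_prime (y : ℝ) (p : ℕ) (hp : p.Prime) : yo y p = y := by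
  unfold yo
  rw [cardFactors_apply_prime hp, pow_one]

theorem prf : StHTa := by
  refine ⟨12, by norm_num, ?_⟩
  intro y M hy hy2
  rcases Nat.eq_zero_or_pos M with h0 | hM
  · subst h0
    simp
  have hMr : (1 : ℝ) ≤ M := by exact_mod_cast hM
  have hI : Icc 1 M = Ioc 0 M := by
    ext x
    simp only [mem_Icc, mem_Ioc]
    omega
  rw [hI, ← sum_filter_add_sum_filter_not (Ioc 0 M) Nat.Prime]
  have hA : ∑ d ∈ (Ioc 0 M).filter Nat.Prime, vonMangoldt d * yo y d ≤ 21 / 20 * (Real.log 4 * M) := by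
    have h1 : ∑ d ∈ (Ioc 0 M).filter Nat.Prime, vonMangoldt d * yo y d ≤
        ∑ d ∈ (Ioc 0 M).filter Nat.Prime, 21 / 20 * Real.log d := by
      refine sum_le_sum fun d hd => ?_
      have hp := (mem_filter.1 hd).2
      rw [vonMangoldt_apply_prime hp, yo_prime y d hp, mul_comm]
      exact mul_le_mul_of_nonneg_right hy2 (Real.log_nonneg (by exact_mod_cast hp.one_le))
    refine h1.trans ?_
    rw [← mul_sum]
    refine mul_le_mul_of_nonneg_left ?_ (by norm_num)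
    have h2 := Chebyshev.theta_le_log4_mul_x (x := (M : ℝ)) (by positivity)
    unfold Chebyshev.theta at h2
    rw [Nat.floor_natCast] at h2
    exact h2
  have hB : ∑ d ∈ (Ioc 0 M).filter (fun d => ¬ Nat.Prime d), vonMangoldt d * yo y d ≤ 10 * M := by
    have h1 : ∑ d ∈ (Ioc 0 M).filter (fun d => ¬ Nat.Prime d), vonMangoldt d * yo y d ≤
        ∑ d ∈ (Ioc 0 M).filter (fun d => ¬ Nat.Prime d), (M : ℝ) ^ (1 / 10 : ℝ) * vonMangoldt d := by
      refine sum_le_sum fun d hd => ?_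
      have hd1 := (mem_Ioc.1 (mem_filter.1 hd).1).2
      by_cases hpp : IsPrimePow d
      · rw [mul_comm]
        exact mul_le_mul_of_nonneg_right (yo_le y hy hy2 d M hpp hd1) vonMangoldt_nonneg
      · rw [vonMangoldt_eq_zero_iff.2 hpp, zero_mul, mul_zero]
    refine h1.trans ?_
    rw [← mul_sum]
    have h2 := Chebyshev.psi_sub_theta_eq_sum_not_prime (M : ℝ)
    rw [Nat.floor_natCast] at h2
    rw [← h2]
    have h3 := Chebyshev.psi_sub_theta_le hMr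
    have h4 : Real.log M ≤ 5 * (M : ℝ) ^ (1 / 5 : ℝ) := by
      have h5 := Real.log_le_rpow_div (x := (M : ℝ)) (by positivity) (ε := 1 / 5) (by norm_num)
      have h6 : (M : ℝ) ^ (1 / 5 : ℝ) / (1 / 5) = 5 * (M : ℝ) ^ (1 / 5 : ℝ) := by ring
      rw [h6] at h5
      exact h5
    have hM0 : (0 : ℝ) < M := by linarith
    have h7 : (M : ℝ) ^ (1 / 10 : ℝ) * (Chebyshev.psi M - Chebyshev.theta M) ≤
        (M : ℝ) ^ (1 / 10 : ℝ) * (2 * √M * (5 * (M : ℝ) ^ (1 / 5 : ℝ))) := by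
      refine mul_le_mul_of_nonneg_left (h3.trans ?_) (by positivity)
      exact mul_le_mul_of_nonneg_left h4 (by positivity)
    refine h7.trans ?_
    have h8 : (M : ℝ) ^ (1 / 10 : ℝ) * (2 * √M * (5 * (M : ℝ) ^ (1 / 5 : ℝ))) =
        10 * (M : ℝ) ^ (4 / 5 : ℝ) := by
      rw [Real.sqrt_eq_rpow]
      have h9 : (M : ℝ) ^ (4 / 5 : ℝ) = (M : ℝ) ^ (1 / 10 : ℝ) * (M : ℝ) ^ (1 / 2 : ℝ) *
          (M : ℝ) ^ (1 / 5 : ℝ) := by
        rw [← Real.rpow_add hM0, ← Real.rpow_add hM0]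
        norm_num
      rw [h9]
      ring
    rw [h8]
    have h10 : (M : ℝ) ^ (4 / 5 : ℝ) ≤ (M : ℝ) ^ (1 : ℝ) :=
      Real.rpow_le_rpow_of_exponent_le hMr (by norm_num)
    rw [Real.rpow_one] at h10
    linarith
  have hl4 : Real.log 4 ≤ 7 / 5 := by
    have h1 : Real.log 4 = 2 * Real.log 2 := by
      rw [show (4 : ℝ) = 2 ^ 2 by norm_num, Real.log_pow]
      norm_num
    have h2 := Real.log_two_lt_d9
    rw [h1]
    linarith
  have h5 : Real.log 4 * M ≤ 7 / 5 * M := mul_le_mul_of_nonneg_right hl4 (by linarith)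
  have h6 : ∑ d ∈ (Ioc 0 M).filter Nat.Prime, vonMangoldt d * yo y d +
      ∑ d ∈ (Ioc 0 M).filter (fun d => ¬ Nat.Prime d), vonMangoldt d * yo y d ≤ 12 * M := by
    linarith
  exact h6

end Pool.Agent.Work.MP_a8fbd7_nt.PAR.LC.I_HTa
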