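import Pool.Agent.Work.MP_a8fbd7_nt.PAR.LC.Stmts5
import Pool.Agent.Work.MP_56b8f5_nt.WM.I_Mert

set_option autoImplicit false

open Finset

noncomputable section

namespace Pool.Agent.Work.MP_a8fbd7_nt.PAR.LC.I_HTb

theorem yo_mul (y : ℝ) (a b : ℕ) (ha : a ≠ 0) (hb : b ≠ 0) : yo y (a * b) = yo y a * yo y b := by
  unfold yo
  rw [ArithmeticFunction.cardFactors_mul ha hb, pow_add]

theorem yo_prime (y : ℝ) (p : ℕ) (hp : p.Prime) : yo y p = y := by
  unfold yo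
  rw [ArithmeticFunction.cardFactors_apply_prime hp, pow_one]

theorem yo_one (y : ℝ) : yo y 1 = 1 := by
  unfold yo
  rw [ArithmeticFunction.cardFactors_one, pow_zero]

/-- the completely multiplicative function `y^Ω(b)/b` -/
def ff (y : ℝ) : ℕ →* ℝ where
  toFun b := yo y b / b
  map_one' := by
    rw [yo_one]
    simp
  map_mul' a b := by
    rcases eq_or_ne a 0 with rfl | ha
    · simp
    rcases eq_or_ne b 0 with rfl | hb
    · simp
    rw [yo_mul y a b ha hb, Nat.cast_mul, mul_div_mul_comm]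

theorem ff_apply (y : ℝ) (b : ℕ) : ff y b = yo y b / b := rfl

theorem ff_nonneg (y : ℝ) (hy : 0 ≤ y) (b : ℕ) : 0 ≤ ff y b := by
  rw [ff_apply]
  unfold yo
  positivity

theorem ff_prime (y : ℝ) (hy0 : 0 < y) (hy1 : y ≤ 21 / 20) (p : ℕ) (hp : p.Prime) :
    0 < ff y p ∧ ff y p ≤ 21 / 40 ∧ ff y p = y / p := by
  have h2 : (2 : ℝ) ≤ p := by exact_mod_cast hp.two_le
  have e : ff y p = y / p := by rw [ff_apply, yo_prime y p hp]
  rw [e]
  refine ⟨by positivity, ?_, rfl⟩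
  rw [div_le_iff₀ (by linarith)]
  linarith

theorem inv_le (u : ℝ) (h0 : 0 < u) (h1 : u ≤ 21 / 40) :
    (1 - u)⁻¹ ≤ Real.exp (u + 2 * u ^ 2) := by
  have h2 : 0 < 1 - u := by linarith
  rw [inv_le_iff_one_le_mul₀ h2]
  have h3 := Real.quadratic_le_exp_of_nonneg (show 0 ≤ u + 2 * u ^ 2 by positivity)
  have h4 : u ^ 2 ≤ (u + 2 * u ^ 2) ^ 2 := by
    apply pow_le_pow_left₀ h0.le
    nlinarith [sq_nonneg u]
  have h5 : 1 + (u + 2 * u ^ 2) + u ^ 2 / 2 ≤ Real.exp (u + 2 * u ^ 2) := by linarith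
  have h6 : (1 + (u + 2 * u ^ 2) + u ^ 2 / 2) * (1 - u) ≤ Real.exp (u + 2 * u ^ 2) * (1 - u) :=
    mul_le_mul_of_nonneg_right h5 h2.le
  have h7 : (1 + (u + 2 * u ^ 2) + u ^ 2 / 2) * (1 - u) = 1 + u ^ 2 * (3 / 2 - 5 / 2 * u) := by
    ring
  have h8 : 0 ≤ u ^ 2 * (3 / 2 - 5 / 2 * u) := mul_nonneg (sq_nonneg u) (by linarith)
  linarith

theorem sum_le_prod (y : ℝ) (hy0 : 0 < y) (hy1 : y ≤ 21 / 20) (N : ℕ) :
    ∑ b ∈ Icc 1 N, ff y b ≤ ∏ p ∈ (N + 1).primesBelow, (1 - ff y p)⁻¹ := by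
  have h := (EulerProduct.summable_and_hasSum_smoothNumbers_prod_primesBelow_geometric
    (f := ff y) (fun {p} hp => by
      obtain ⟨h1, h2, -⟩ := ff_prime y hy0 hy1 p hp
      rw [Real.norm_of_nonneg h1.le]
      linarith) (N + 1)).2
  have h2 := (hasSum_subtype_iff_indicator (f := fun b : ℕ => ff y b)
    (s := (N + 1).smoothNumbers)).1 h
  have h3 := sum_le_hasSum (Icc 1 N) (fun b _ => Set.indicator_nonneg
    (fun b _ => ff_nonneg y hy0.le b) b) h2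
  refine le_trans (le_of_eq (sum_congr rfl fun b hb => ?_)) h3
  rw [mem_Icc] at hb
  rw [Set.indicator_of_mem (Nat.mem_smoothNumbers_of_lt (by omega) (by omega))]

theorem primes_sq (N : ℕ) : ∑ p ∈ Pool.Agent.Work.MP_56b8f5_nt.WM.pr N, 1 / (p : ℝ) ^ 2 ≤ 1 := by
  rcases Nat.eq_zero_or_pos N with rfl | hN
  · have : Pool.Agent.Work.MP_56b8f5_nt.WM.pr 0 = ∅ := by decide
    rw [this, sum_empty]
    exact zero_le_one
  have hsub : Pool.Agent.Work.MP_56b8f5_nt.WM.pr N ⊆ Ioc 1 N := by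
    intro p hp
    unfold Pool.Agent.Work.MP_56b8f5_nt.WM.pr at hp
    rw [mem_filter, mem_range] at hp
    rw [mem_Ioc]
    exact ⟨hp.2.one_lt, by omega⟩
  refine (sum_le_sum_of_subset_of_nonneg hsub fun i _ _ => by positivity).trans ?_
  have h := sum_Ioc_inv_sq_le_sub (α := ℝ) (k := 1) (n := N) one_ne_zero hN
  simp only [one_div]
  refine h.trans ?_
  have : (0 : ℝ) ≤ (N : ℝ)⁻¹ := by positivity
  push_cast
  linarith

theorem prod_le (y : ℝ) (hy0 : 0 < y) (hy1 : y ≤ 21 / 20) (N : ℕ) :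
    ∏ p ∈ (N + 1).primesBelow, (1 - ff y p)⁻¹ ≤
      Real.exp (y * Pool.Agent.Work.MP_56b8f5_nt.WM.S1 N + 3) := by
  have h1 : ∏ p ∈ (N + 1).primesBelow, (1 - ff y p)⁻¹ ≤
      ∏ p ∈ (N + 1).primesBelow, Real.exp (ff y p + 2 * ff y p ^ 2) := by
    refine prod_le_prod (fun p hp => ?_) fun p hp => ?_
    · obtain ⟨h1, h2, -⟩ := ff_prime y hy0 hy1 p (Nat.prime_of_mem_primesBelow hp)
      have : 0 < 1 - ff y p := by linarith
      positivity
    · obtain ⟨h1, h2, -⟩ := ff_prime y hy0 hy1 p (Nat.prime_of_mem_primesBelow hp)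
      exact inv_le _ h1 h2
  refine h1.trans ?_
  rw [← Real.exp_sum]
  apply Real.exp_le_exp.2
  rw [sum_add_distrib]
  have e1 : ∑ p ∈ (N + 1).primesBelow, ff y p = y * Pool.Agent.Work.MP_56b8f5_nt.WM.S1 N := by
    unfold Pool.Agent.Work.MP_56b8f5_nt.WM.S1
    rw [mul_sum]
    refine sum_congr rfl fun p hp => ?_
    obtain ⟨-, -, h3⟩ := ff_prime y hy0 hy1 p (Nat.prime_of_mem_primesBelow hp)
    rw [h3, mul_one_div]
  have e2 : ∑ p ∈ (N + 1).primesBelow, 2 * ff y p ^ 2 =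
      2 * y ^ 2 * ∑ p ∈ Pool.Agent.Work.MP_56b8f5_nt.WM.pr N, 1 / (p : ℝ) ^ 2 := by
    rw [mul_sum]
    refine sum_congr rfl fun p hp => ?_
    obtain ⟨-, -, h3⟩ := ff_prime y hy0 hy1 p (Nat.prime_of_mem_primesBelow hp)
    rw [h3, div_pow, mul_one_div, mul_div_assoc]
  rw [e1, e2]
  have h2 := primes_sq N
  have h3 : y ^ 2 ≤ (21 / 20) ^ 2 := pow_le_pow_left₀ hy0.le hy1 2
  have h4 : 2 * y ^ 2 * ∑ p ∈ Pool.Agent.Work.MP_56b8f5_nt.WM.pr N, 1 / (p : ℝ) ^ 2 ≤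
      2 * y ^ 2 * 1 := mul_le_mul_of_nonneg_left h2 (by positivity)
  have h5 : (21 / 20 : ℝ) ^ 2 = 441 / 400 := by norm_num
  linarith

theorem prf : StHTb := by
  obtain ⟨C, hC1, hC⟩ := Pool.Agent.Work.MP_56b8f5_nt.WM.Mert_pf
  have he : 1 ≤ Real.exp 3 := Real.one_le_exp (by norm_num)
  refine ⟨Real.exp 3 * C ^ 2, one_le_mul_of_one_le_of_one_le he (one_le_pow₀ hC1), ?_⟩
  intro y N hy0 hy1 hN
  have hCpos : 1 ≤ Real.exp 3 * C ^ 2 := one_le_mul_of_one_le_of_one_le he (one_le_pow₀ hC1)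
  rcases Nat.lt_or_ge N 2 with hN2 | hN2
  · have hN1 : N = 1 := by omega
    subst hN1
    rw [Icc_self, sum_singleton, yo_one]
    simp only [Nat.cast_one, Real.log_one, add_zero, Real.one_rpow, mul_one, div_one]
    exact hCpos
  have h1 : ∑ b ∈ Icc 1 N, yo y b / b ≤
      Real.exp (y * Pool.Agent.Work.MP_56b8f5_nt.WM.S1 N + 3) :=
    (sum_le_prod y hy0 hy1 N).trans (prod_le y hy0 hy1 N)
  refine h1.trans ?_
  have hlog : 0 ≤ Real.log (N : ℝ) := Real.log_natCast_nonneg N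
  have h2 : Real.exp (y * Pool.Agent.Work.MP_56b8f5_nt.WM.S1 N) ≤
      C ^ 2 * (1 + Real.log N) ^ y := by
    rw [mul_comm, Real.exp_mul]
    calc Real.exp (Pool.Agent.Work.MP_56b8f5_nt.WM.S1 N) ^ y
        ≤ (C * Real.log N) ^ y :=
          Real.rpow_le_rpow (Real.exp_pos _).le (hC N hN2).1 hy0.le
      _ = C ^ y * Real.log N ^ y := Real.mul_rpow (by linarith) hlog
      _ ≤ C ^ 2 * (1 + Real.log N) ^ y := by
          refine mul_le_mul ?_ (Real.rpow_le_rpow hlog (by linarith) hy0.le)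
            (Real.rpow_nonneg hlog _) (by positivity)
          rw [← Real.rpow_two]
          exact Real.rpow_le_rpow_of_exponent_le hC1 (by linarith)
  rw [add_comm (y * _) 3, Real.exp_add, mul_assoc]
  exact mul_le_mul_of_nonneg_left h2 (Real.exp_pos 3).le

end Pool.Agent.Work.MP_a8fbd7_nt.PAR.LC.I_HTb
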