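import Pool.Agent.Work.MP_a8fbd7_nt.PAR.LC.Stmts5

set_option autoImplicit false

open Finset

namespace Pool.Agent.Work.MP_a8fbd7_nt.PAR.LC.I_OpR

theorem liouville_one {m : ℕ} (hm : m ≠ 0) :
    ArithmeticFunction.liouville m = 1 ↔ Even (ArithmeticFunction.cardFactors m) := by
  rw [ArithmeticFunction.liouville_apply hm]
  rcases Nat.even_or_odd (ArithmeticFunction.cardFactors m) with h | h
  · rw [h.neg_one_pow]
    exact iff_of_true rfl h
  · rw [h.neg_one_pow]
    exact iff_of_false (by norm_num) (Nat.not_even_iff_odd.mpr h)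

theorem liouville_neg_one {m : ℕ} (hm : m ≠ 0) :
    ArithmeticFunction.liouville m = -1 ↔ Odd (ArithmeticFunction.cardFactors m) := by
  rw [ArithmeticFunction.liouville_apply hm]
  rcases Nat.even_or_odd (ArithmeticFunction.cardFactors m) with h | h
  · rw [h.neg_one_pow]
    exact iff_of_false (by norm_num) (Nat.not_odd_iff_even.mpr h)
  · rw [h.neg_one_pow]
    exact iff_of_true rfl h

theorem prf : StOpR := by
  intro h
  intro c hc
  obtain ⟨x0, hx0⟩ := h (c / 2) (by linarith)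
  refine ⟨max (⌈x0⌉₊ + 4) ⌈Real.exp (6 ^ 20)⌉₊, fun n a b hn ha hb hab => ?_⟩
  have hn1 : ⌈x0⌉₊ + 4 ≤ n := le_trans (le_max_left _ _) hn
  have hn2 : Real.exp (6 ^ 20) ≤ n := le_trans (Nat.le_ceil _) (by exact_mod_cast le_trans (le_max_right _ _) hn)
  have hn4 : 4 ≤ n := by omega
  have hnr : (4 : ℝ) ≤ n := by exact_mod_cast hn4
  have hlog : 6 ^ 20 ≤ Real.log n := by
    rw [Real.le_log_iff_exp_le (by linarith)]
    exact hn2
  have hlogpos : 0 < Real.log n := lt_of_lt_of_le (by norm_num) hlog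
  have hnn : n ≤ n ^ 2 := by nlinarith
  have har : (n : ℝ) ^ 2 - n ≤ a := by
    have : ((n ^ 2 - n : ℕ) : ℝ) ≤ a := by exact_mod_cast ha
    rwa [Nat.cast_sub hnn, Nat.cast_pow] at this
  have hbr : (b : ℝ) ≤ (n : ℝ) ^ 2 + n := by exact_mod_cast hb
  have hapos : (0 : ℝ) < a := by nlinarith
  have hcn : 0 < c * n := by positivity
  have hax0 : x0 ≤ a := by
    have h1 : x0 ≤ ⌈x0⌉₊ := Nat.le_ceil _
    have h2 : ((⌈x0⌉₊ + 4 : ℕ) : ℝ) ≤ n := by exact_mod_cast hn1
    push_cast at h2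
    nlinarith
  have hsq1 : Real.sqrt a ≤ 2 * n := by
    rw [Real.sqrt_le_left (by positivity)]
    nlinarith
  have hsq2 : (n : ℝ) / 2 ≤ Real.sqrt a := by
    refine Real.le_sqrt_of_sq_le ?_
    nlinarith
  have hloga : Real.log a ≤ 3 * Real.log n := by
    have h1 : (a : ℝ) ≤ (n : ℝ) ^ 3 := by
      have h2 : (a : ℝ) ≤ (n : ℝ) ^ 2 + n := by linarith
      nlinarith [sq_nonneg ((n : ℝ) - 2)]
    calc Real.log a ≤ Real.log ((n : ℝ) ^ 3) := Real.log_le_log hapos h1
      _ = _ := by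
        rw [Real.log_pow]
        norm_num
  have ha1 : 1 < (a : ℝ) := by nlinarith
  have hlogapos : 0 < Real.log a := Real.log_pos ha1
  have h34 : (0:ℝ) < Real.log n ^ (3 / 4 : ℝ) := Real.rpow_pos_of_pos hlogpos _
  have hp1 : Real.log a ^ (3 / 4 : ℝ) ≤ 3 * Real.log n ^ (3 / 4 : ℝ) := by
    calc Real.log a ^ (3 / 4 : ℝ) ≤ (3 * Real.log n) ^ (3 / 4 : ℝ) :=
          Real.rpow_le_rpow hlogapos.le hloga (by norm_num)
      _ = 3 ^ (3 / 4 : ℝ) * Real.log n ^ (3 / 4 : ℝ) :=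
          Real.mul_rpow (by norm_num) hlogpos.le
      _ ≤ 3 * Real.log n ^ (3 / 4 : ℝ) := by
          apply mul_le_mul_of_nonneg_right _ h34.le
          calc (3:ℝ) ^ (3 / 4 : ℝ) ≤ 3 ^ (1 : ℝ) :=
                Real.rpow_le_rpow_of_exponent_le (by norm_num) (by norm_num)
            _ = 3 := Real.rpow_one 3
  have hp2 : (6:ℝ) ≤ Real.log n ^ (1 / 20 : ℝ) := by
    calc (6:ℝ) = (6 ^ 20) ^ (1 / 20 : ℝ) := by
          rw [← Real.rpow_natCast, ← Real.rpow_mul (by norm_num)]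
          norm_num
      _ ≤ Real.log n ^ (1 / 20 : ℝ) := Real.rpow_le_rpow (by positivity) hlog (by norm_num)
  have hp3 : Real.log n ^ (1 / 20 : ℝ) * Real.log n ^ (3 / 4 : ℝ) = Real.log n ^ (4 / 5 : ℝ) := by
    rw [← Real.rpow_add hlogpos]
    norm_num
  have hlow : (n : ℝ) / Real.log n ^ (4 / 5 : ℝ) ≤ Real.sqrt a / Real.log a ^ (3 / 4 : ℝ) := by
    rw [div_le_div_iff₀ (Real.rpow_pos_of_pos hlogpos _) (Real.rpow_pos_of_pos hlogapos _), ← hp3]
    calc (n : ℝ) * Real.log a ^ (3 / 4 : ℝ) ≤ n * (3 * Real.log n ^ (3 / 4 : ℝ)) := by gcongr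
      _ = (n / 2) * (6 * Real.log n ^ (3 / 4 : ℝ)) := by ring
      _ ≤ Real.sqrt a * (Real.log n ^ (1 / 20 : ℝ) * Real.log n ^ (3 / 4 : ℝ)) := by gcongr
  have hsub : Icc ⌈(a : ℝ)⌉₊ ⌊(a : ℝ) + c / 2 * Real.sqrt a⌋₊ ⊆ Icc a b := by
    rw [Nat.ceil_natCast]
    refine Icc_subset_Icc le_rfl ?_
    refine Nat.floor_le_of_le ?_
    have : c / 2 * Real.sqrt a ≤ c / 2 * (2 * n) := by gcongr
    linarith
  have hgen : ∀ s : ℤ, s = 1 ∨ s = -1 → (n : ℝ) / Real.log n ^ (4 / 5 : ℝ) ≤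
      (((Icc a b).filter fun m => ArithmeticFunction.liouville m = s).card : ℝ) := by
    intro s hs
    refine le_trans hlow (le_trans (hx0 a hax0 s hs) ?_)
    exact_mod_cast card_le_card (filter_subset_filter _ hsub)
  have ha0 : a ≠ 0 := by
    rintro rfl
    simp at hapos
  constructor
  · have e : (Icc a b).filter (fun m => Even (ArithmeticFunction.cardFactors m)) =
        (Icc a b).filter (fun m => ArithmeticFunction.liouville m = 1) := by
      refine filter_congr fun m hm => ?_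
      rw [mem_Icc] at hm
      exact (liouville_one (by omega)).symm
    rw [e]
    exact hgen 1 (Or.inl rfl)
  · have e : (Icc a b).filter (fun m => Odd (ArithmeticFunction.cardFactors m)) =
        (Icc a b).filter (fun m => ArithmeticFunction.liouville m = -1) := by
      refine filter_congr fun m hm => ?_
      rw [mem_Icc] at hm
      exact (liouville_neg_one (by omega)).symm
    rw [e]
    exact hgen (-1) (Or.inr rfl)

end Pool.Agent.Work.MP_a8fbd7_nt.PAR.LC.I_OpR
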