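import Pool.Agent.Work.MP_a8fbd7_nt.PAR.LC.Stmts5

set_option autoImplicit false

/-!
MP_a8fbd7_nt, block LC, item PrA: the second moment of the near weight with few prime factors (adapted from
`I_CtR.lean` of helper57).
-/

open Finset

noncomputable section

namespace Pool.Agent.Work.MP_a8fbd7_nt.PAR.LC.I_PrA

/-- The number of multiples of `d` in the interval. -/
lemma count (hCap : StCap) (x y : ℝ) (hx : 0 ≤ x) (hxy : x ≤ y) (d : ℕ) (hd : 1 ≤ d) :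
    (((Icc ⌈x⌉₊ ⌊y⌋₊).filter (fun m => d ∣ m)).card : ℝ) ≤ (y - x) / d + 1 := by
  have h := (hCap d 0 x y (⌊y⌋₊ + 1) hd hx hxy (by
    push_cast
    exact (Nat.lt_floor_add_one y).le)).1
  refine le_trans ?_ h
  have hy : 0 ≤ y := hx.trans hxy
  have h2 : (Icc ⌈x⌉₊ ⌊y⌋₊).filter (fun m => d ∣ m) ⊆
      (range (⌊y⌋₊ + 1 + 1)).filter
        (fun n : ℕ => x ≤ (n : ℝ) ∧ (n : ℝ) ≤ y ∧ n ≡ 0 [MOD d]) := by
    intro m hm
    rw [mem_filter, mem_Icc] at hm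
    rw [mem_filter, mem_range]
    refine ⟨by omega, Nat.ceil_le.1 hm.1.1, (Nat.le_floor_iff hy).1 hm.1.2, ?_⟩
    exact (Nat.modEq_zero_iff_dvd).2 hm.2
  exact_mod_cast card_le_card h2

/-- Sum of the squares of the dyadic divisor counts. -/
def Q (K a : ℕ) : ℝ := ∑ k ∈ range (K + 1), tk k a ^ 2

lemma Q_nonneg (K a : ℕ) : 0 ≤ Q K a := sum_nonneg fun _ _ => sq_nonneg _

lemma win (K L k : ℕ) :
    (((range (K + 1)).filter (fun l => k ≤ l + L ∧ l ≤ k + L)).card : ℝ) ≤ 2 * L + 1 := by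
  have h0 : (range (K + 1)).filter (fun l => k ≤ l + L ∧ l ≤ k + L) ⊆ Icc (k - L) (k + L) := by
    intro l hl
    rw [mem_filter] at hl
    rw [mem_Icc]
    omega
  have h := card_le_card h0
  rw [Nat.card_Icc] at h
  have h1 : ((range (K + 1)).filter (fun l => k ≤ l + L ∧ l ≤ k + L)).card ≤ 2 * L + 1 := by
    omega
  exact_mod_cast h1

lemma pairs (K L : ℕ) (x y : ℕ → ℝ) :
    ∑ s ∈ ((range (K + 1)) ×ˢ (range (K + 1))).filter
      (fun s : ℕ × ℕ => s.1 ≤ s.2 + L ∧ s.2 ≤ s.1 + L), x s.1 * y s.2 ≤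
      (2 * L + 1) / 2 * (∑ k ∈ range (K + 1), x k ^ 2 + ∑ k ∈ range (K + 1), y k ^ 2) := by
  have h1 : ∑ s ∈ ((range (K + 1)) ×ˢ (range (K + 1))).filter
      (fun s : ℕ × ℕ => s.1 ≤ s.2 + L ∧ s.2 ≤ s.1 + L), x s.1 ^ 2 / 2 ≤
      (2 * L + 1) / 2 * ∑ k ∈ range (K + 1), x k ^ 2 := by
    rw [sum_filter, sum_product, mul_sum]
    refine sum_le_sum fun k _ => ?_
    dsimp only
    rw [← sum_filter, sum_const, nsmul_eq_mul]
    have := win K L k
    have h2 : 0 ≤ x k ^ 2 / 2 := by positivity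
    calc _ ≤ (2 * L + 1) * (x k ^ 2 / 2) := mul_le_mul_of_nonneg_right this h2
      _ = _ := by ring
  have h3 : ∑ s ∈ ((range (K + 1)) ×ˢ (range (K + 1))).filter
      (fun s : ℕ × ℕ => s.1 ≤ s.2 + L ∧ s.2 ≤ s.1 + L), y s.2 ^ 2 / 2 ≤
      (2 * L + 1) / 2 * ∑ k ∈ range (K + 1), y k ^ 2 := by
    rw [sum_filter, sum_product_right, mul_sum]
    refine sum_le_sum fun k _ => ?_
    dsimp only
    rw [← sum_filter, sum_const, nsmul_eq_mul]
    have h4 : (range (K + 1)).filter (fun l => l ≤ k + L ∧ k ≤ l + L) =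
        (range (K + 1)).filter (fun l => k ≤ l + L ∧ l ≤ k + L) := by
      ext l
      simp only [mem_filter]
      tauto
    have := win K L k
    rw [← h4] at this
    have h2 : 0 ≤ y k ^ 2 / 2 := by positivity
    calc _ ≤ (2 * L + 1) * (y k ^ 2 / 2) := mul_le_mul_of_nonneg_right this h2
      _ = _ := by ring
  calc _ ≤ ∑ s ∈ ((range (K + 1)) ×ˢ (range (K + 1))).filter
            (fun s : ℕ × ℕ => s.1 ≤ s.2 + L ∧ s.2 ≤ s.1 + L), (x s.1 ^ 2 / 2 + y s.2 ^ 2 / 2) :=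
        sum_le_sum fun s _ => by nlinarith [sq_nonneg (x s.1 - y s.2)]
    _ = _ := sum_add_distrib
    _ ≤ _ := by
        rw [mul_add]
        exact add_le_add h1 h3

/-- The pointwise bound. -/
lemma dv (A : ℝ) (L : ℕ) (hL : 4 * A ^ 2 ≤ 2 ^ L) (N a b : ℕ) (ha : 1 ≤ a) (hb : 1 ≤ b)
    (haN : a ≤ N) (hbN : b ≤ N) (D : Finset ℕ)
    (hD : ∀ d ∈ D, d ∣ a * b ∧ (d : ℝ) ≤ A ^ 2 * b ∧ (b : ℝ) ≤ 2 * A ^ 2 * d) :
    (D.card : ℝ) ≤ (2 * L + 1) / 2 * (Q (Nat.log 2 N) a + Q (Nat.log 2 N) b) := by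
  have key : ∀ d ∈ D, 1 ≤ d ∧ 1 ≤ Nat.gcd a d ∧ 1 ≤ b * Nat.gcd a d / d ∧
      b * Nat.gcd a d / d * d = b * Nat.gcd a d ∧ b * Nat.gcd a d / d ∣ b := by
    intro d hd
    obtain ⟨h1, -, -⟩ := hD d hd
    have hd1 : 1 ≤ d := Nat.pos_of_dvd_of_pos h1 (Nat.mul_pos ha hb)
    have hg : 1 ≤ Nat.gcd a d := Nat.gcd_pos_of_pos_left _ ha
    have h2 : d ∣ b * Nat.gcd a d := by
      have : d ∣ Nat.gcd (b * a) (b * d) := Nat.dvd_gcd (by rwa [mul_comm]) (dvd_mul_left _ _)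
      rwa [Nat.gcd_mul_left] at this
    have h3 : b * Nat.gcd a d / d * d = b * Nat.gcd a d := Nat.div_mul_cancel h2
    have h4 : 1 ≤ b * Nat.gcd a d / d :=
      Nat.div_pos (Nat.le_of_dvd (Nat.mul_pos hb hg) h2) hd1
    refine ⟨hd1, hg, h4, h3, ?_⟩
    obtain ⟨t, ht⟩ := Nat.gcd_dvd_right a d
    have h5 : b * Nat.gcd a d / d * t = b := by
      apply Nat.eq_of_mul_eq_mul_right hg
      calc b * Nat.gcd a d / d * t * Nat.gcd a d = b * Nat.gcd a d / d * (Nat.gcd a d * t) := by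
            ring
        _ = b * Nat.gcd a d / d * d := by rw [← ht]
        _ = b * Nat.gcd a d := h3
    exact ⟨t, h5.symm⟩
  have hinj : Set.InjOn (fun d => (Nat.gcd a d, b * Nat.gcd a d / d)) (D : Set ℕ) := by
    intro d hd d' hd' h
    obtain ⟨-, -, h1, h2, -⟩ := key d hd
    obtain ⟨-, -, -, h2', -⟩ := key d' hd'
    have e1 : Nat.gcd a d = Nat.gcd a d' := congrArg Prod.fst h
    have e2 : b * Nat.gcd a d / d = b * Nat.gcd a d' / d' := congrArg Prod.snd h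
    rw [← e2, ← e1] at h2'
    exact (Nat.eq_of_mul_eq_mul_left h1 (h2'.trans h2.symm)).symm
  have hsub : D.image (fun d => (Nat.gcd a d, b * Nat.gcd a d / d)) ⊆
      (((range (Nat.log 2 N + 1)) ×ˢ (range (Nat.log 2 N + 1))).filter
        (fun s : ℕ × ℕ => s.1 ≤ s.2 + L ∧ s.2 ≤ s.1 + L)).biUnion
        (fun s => (a.divisors.filter (fun g : ℕ => 2 ^ s.1 ≤ g ∧ g < 2 ^ (s.1 + 1))) ×ˢ
          (b.divisors.filter (fun g : ℕ => 2 ^ s.2 ≤ g ∧ g < 2 ^ (s.2 + 1)))) := by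
    intro s hs
    rw [mem_image] at hs
    obtain ⟨d, hd, rfl⟩ := hs
    obtain ⟨h1, h2, h3, h4, h5⟩ := key d hd
    obtain ⟨-, i2, i3⟩ := hD d hd
    have hga : Nat.gcd a d ∣ a := Nat.gcd_dvd_left _ _
    set g := Nat.gcd a d with hg
    set e := b * g / d with he
    have hb0 : (0 : ℝ) < b := by exact_mod_cast hb
    have hd0 : (0 : ℝ) < d := by exact_mod_cast h1
    have hg0 : (0 : ℝ) < g := by exact_mod_cast h2
    have he0 : (0 : ℝ) < e := by exact_mod_cast h3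
    have h4' : (e : ℝ) * d = b * g := by exact_mod_cast h4
    have j1 : (g : ℝ) ≤ A ^ 2 * e := by
      have : (b : ℝ) * g ≤ b * (A ^ 2 * e) := by
        rw [← h4']
        nlinarith
      exact le_of_mul_le_mul_left this hb0
    have j2 : (e : ℝ) ≤ 2 * A ^ 2 * g := by
      have : (d : ℝ) * e ≤ d * (2 * A ^ 2 * g) := by
        rw [mul_comm (d : ℝ) e, h4']
        nlinarith
      exact le_of_mul_le_mul_left this hd0
    have g1 : 2 ^ Nat.log 2 g ≤ g := Nat.pow_log_le_self 2 (by omega)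
    have g2 : g < 2 ^ (Nat.log 2 g + 1) := Nat.lt_pow_succ_log_self (by norm_num) g
    have e1 : 2 ^ Nat.log 2 e ≤ e := Nat.pow_log_le_self 2 (by omega)
    have e2 : e < 2 ^ (Nat.log 2 e + 1) := Nat.lt_pow_succ_log_self (by norm_num) e
    have g1' : (2 : ℝ) ^ Nat.log 2 g ≤ g := by exact_mod_cast g1
    have g2' : (g : ℝ) < 2 ^ Nat.log 2 g * 2 := by
      rw [← pow_succ]
      exact_mod_cast g2
    have e1' : (2 : ℝ) ^ Nat.log 2 e ≤ e := by exact_mod_cast e1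
    have e2' : (e : ℝ) < 2 ^ Nat.log 2 e * 2 := by
      rw [← pow_succ]
      exact_mod_cast e2
    have hA2 : 0 ≤ A ^ 2 := sq_nonneg A
    have k1 : Nat.log 2 g ≤ Nat.log 2 e + L := by
      have : (2 : ℝ) ^ Nat.log 2 g ≤ 2 ^ (Nat.log 2 e + L) := by
        calc (2 : ℝ) ^ Nat.log 2 g ≤ g := g1'
          _ ≤ A ^ 2 * e := j1
          _ ≤ A ^ 2 * (2 ^ Nat.log 2 e * 2) := mul_le_mul_of_nonneg_left e2'.le hA2
          _ = 2 ^ Nat.log 2 e * (2 * A ^ 2) := by ring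
          _ ≤ 2 ^ Nat.log 2 e * 2 ^ L :=
              mul_le_mul_of_nonneg_left (by linarith) (by positivity)
          _ = 2 ^ (Nat.log 2 e + L) := (pow_add _ _ _).symm
      exact (pow_le_pow_iff_right₀ (by norm_num)).1 this
    have k2 : Nat.log 2 e ≤ Nat.log 2 g + L := by
      have : (2 : ℝ) ^ Nat.log 2 e ≤ 2 ^ (Nat.log 2 g + L) := by
        calc (2 : ℝ) ^ Nat.log 2 e ≤ e := e1'
          _ ≤ 2 * A ^ 2 * g := j2
          _ ≤ 2 * A ^ 2 * (2 ^ Nat.log 2 g * 2) := mul_le_mul_of_nonneg_left g2'.le (by positivity)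
          _ = 2 ^ Nat.log 2 g * (4 * A ^ 2) := by ring
          _ ≤ 2 ^ Nat.log 2 g * 2 ^ L := mul_le_mul_of_nonneg_left hL (by positivity)
          _ = 2 ^ (Nat.log 2 g + L) := (pow_add _ _ _).symm
      exact (pow_le_pow_iff_right₀ (by norm_num)).1 this
    have k3 : Nat.log 2 g ≤ Nat.log 2 N :=
      Nat.log_mono_right ((Nat.le_of_dvd ha hga).trans haN)
    have k4 : Nat.log 2 e ≤ Nat.log 2 N :=
      Nat.log_mono_right ((Nat.le_of_dvd hb h5).trans hbN)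
    rw [mem_biUnion]
    refine ⟨(Nat.log 2 g, Nat.log 2 e), ?_, ?_⟩
    · rw [mem_filter, mem_product, mem_range, mem_range]
      exact ⟨⟨Nat.lt_succ_of_le k3, Nat.lt_succ_of_le k4⟩, k1, k2⟩
    · rw [mem_product, mem_filter, mem_filter, Nat.mem_divisors, Nat.mem_divisors]
      exact ⟨⟨⟨hga, by omega⟩, g1, g2⟩, ⟨h5, by omega⟩, e1, e2⟩
  have hcard : D.card ≤ ∑ s ∈ ((range (Nat.log 2 N + 1)) ×ˢ (range (Nat.log 2 N + 1))).filter
        (fun s : ℕ × ℕ => s.1 ≤ s.2 + L ∧ s.2 ≤ s.1 + L),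
        (a.divisors.filter (fun g : ℕ => 2 ^ s.1 ≤ g ∧ g < 2 ^ (s.1 + 1))).card *
          (b.divisors.filter (fun g : ℕ => 2 ^ s.2 ≤ g ∧ g < 2 ^ (s.2 + 1))).card := by
    rw [← card_image_of_injOn hinj]
    refine (card_le_card hsub).trans (card_biUnion_le.trans (le_of_eq ?_))
    exact sum_congr rfl fun s _ => card_product _ _
  have hcard' : (D.card : ℝ) ≤ ∑ s ∈ ((range (Nat.log 2 N + 1)) ×ˢ
      (range (Nat.log 2 N + 1))).filter
        (fun s : ℕ × ℕ => s.1 ≤ s.2 + L ∧ s.2 ≤ s.1 + L), tk s.1 a * tk s.2 b := by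
    unfold tk
    exact_mod_cast hcard
  exact hcard'.trans (pairs (Nat.log 2 N) L (fun k => tk k a) (fun k => tk k b))

theorem prf (hCap : StCap) : StPrA := by
  intro A hA
  obtain ⟨L, hL⟩ := pow_unbounded_of_one_lt (4 * A ^ 2) (one_lt_two (α := ℝ))
  have hA0 : 0 < A := by linarith
  refine ⟨(2 * L + 1) * (A + 1), A, by positivity, hA, ?_⟩
  intro n c T hn hc hc1
  have hn1 : 1 ≤ n := hA.trans hn
  have hn0 : 0 < n := by linarith
  set N : ℕ := ⌊2 * A * n⌋₊ with hN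
  have hN1 : (N : ℝ) ≤ 2 * A * n := Nat.floor_le (by positivity)
  have hN2 : 1 ≤ N := by
    apply Nat.le_floor
    rw [Nat.cast_one]
    nlinarith
  set K : ℕ := Nat.log 2 N with hK
  set x : ℝ := n ^ 2 with hx
  set y : ℝ := n ^ 2 + c * n with hy
  have hx0 : 0 ≤ x := sq_nonneg n
  have hxy : x ≤ y := by
    have : 0 ≤ c * n := by positivity
    linarith
  have hy2 : y ≤ 2 * n ^ 2 := by
    have : c * n ≤ n ^ 2 := by nlinarith
    linarith
  have hnA : 0 < n / A := by positivity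
  -- members
  have hI : ∀ m ∈ Icc ⌈x⌉₊ ⌊y⌋₊, n ^ 2 ≤ (m : ℝ) ∧ (m : ℝ) ≤ 2 * n ^ 2 ∧ 1 ≤ m := by
    intro m hm
    rw [mem_Icc] at hm
    have h1 : x ≤ m := Nat.ceil_le.1 hm.1
    have h2 : (m : ℝ) ≤ y := (Nat.le_floor_iff (by linarith)).1 hm.2
    refine ⟨h1, h2.trans hy2, ?_⟩
    have : (1 : ℝ) ≤ m := by nlinarith
    exact_mod_cast this
  -- the sets
  set F : Finset ℕ := (Icc 1 N).filter
    (fun a => (ArithmeticFunction.cardFactors a : ℝ) ≤ T) with hF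
  set E : ℕ → Finset ℕ := fun m => F.filter (fun a => a ∣ m ∧ n / A ≤ (a : ℝ)) with hE
  have hmE : ∀ m a : ℕ, a ∈ E m ↔ ((1 ≤ a ∧ a ≤ N) ∧
      (ArithmeticFunction.cardFactors a : ℝ) ≤ T) ∧ a ∣ m ∧ n / A ≤ (a : ℝ) := by
    intro m a
    rw [hE, mem_filter, hF, mem_filter, mem_Icc]
  have hDE : ∀ m ∈ Icc ⌈x⌉₊ ⌊y⌋₊,
      ∀ a ∈ m.divisors.filter (fun a : ℕ => n / A ≤ (a : ℝ) ∧ (a : ℝ) ≤ A * n ∧
        (ArithmeticFunction.cardFactors a : ℝ) ≤ T ∧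
        (ArithmeticFunction.cardFactors (m / a) : ℝ) ≤ T),
      a ∈ E m ∧ m / a ∈ E m ∧ ((m / a : ℕ) : ℝ) * a = m := by
    intro m hm a ha
    obtain ⟨m1, m2, m3⟩ := hI m hm
    rw [mem_filter, Nat.mem_divisors] at ha
    obtain ⟨⟨ha1, -⟩, ha2, ha3, ha4, ha5⟩ := ha
    have ha0 : (0 : ℝ) < a := lt_of_lt_of_le hnA ha2
    have ha1' : 1 ≤ a := by
      have : 0 < a := by exact_mod_cast ha0
      exact this
    have hba : m / a * a = m := Nat.div_mul_cancel ha1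
    have hba' : ((m / a : ℕ) : ℝ) * a = m := by exact_mod_cast hba
    have hb1 : 1 ≤ m / a := Nat.div_pos (Nat.le_of_dvd m3 ha1) ha1'
    have hb0 : (0 : ℝ) < ((m / a : ℕ) : ℝ) := by exact_mod_cast hb1
    refine ⟨?_, ?_, hba'⟩
    · rw [hmE]
      refine ⟨⟨⟨ha1', ?_⟩, ha4⟩, ha1, ha2⟩
      apply Nat.le_floor
      nlinarith
    · rw [hmE]
      refine ⟨⟨⟨hb1, ?_⟩, ha5⟩, Nat.div_dvd_of_dvd ha1, ?_⟩
      · apply Nat.le_floor
        have h1 : ((m / a : ℕ) : ℝ) * (n / A) ≤ 2 * A * n * (n / A) := by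
          calc ((m / a : ℕ) : ℝ) * (n / A) ≤ ((m / a : ℕ) : ℝ) * a :=
                mul_le_mul_of_nonneg_left ha2 hb0.le
            _ = m := hba'
            _ ≤ 2 * n ^ 2 := m2
            _ = 2 * A * n * (n / A) := by field_simp
        exact le_of_mul_le_mul_right h1 hnA
      · have h1 : n / A * (A * n) ≤ ((m / a : ℕ) : ℝ) * (A * n) := by
          calc n / A * (A * n) = n ^ 2 := by field_simp
            _ ≤ m := m1
            _ = ((m / a : ℕ) : ℝ) * a := hba'.symm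
            _ ≤ ((m / a : ℕ) : ℝ) * (A * n) := mul_le_mul_of_nonneg_left ha3 hb0.le
        exact le_of_mul_le_mul_right h1 (by positivity)
  -- one m
  have hone : ∀ m ∈ Icc ⌈x⌉₊ ⌊y⌋₊, nwr A n T m ^ 2 ≤ (2 * L + 1) * ∑ a ∈ E m, Q K a := by
    intro m hm
    obtain ⟨m1, m2, m3⟩ := hI m hm
    set D := m.divisors.filter (fun a : ℕ => n / A ≤ (a : ℝ) ∧ (a : ℝ) ≤ A * n ∧
      (ArithmeticFunction.cardFactors a : ℝ) ≤ T ∧
      (ArithmeticFunction.cardFactors (m / a) : ℝ) ≤ T) with hD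
    have h1 : nwr A n T m ^ 2 = ∑ a ∈ D, (D.card : ℝ) := by
      rw [sum_const, nsmul_eq_mul, sq]
      rfl
    have h2 : ∀ a ∈ D, (D.card : ℝ) ≤ (2 * L + 1) / 2 * (Q K a + Q K (m / a)) := by
      intro a ha
      obtain ⟨i1, i2, i3⟩ := hDE m hm a ha
      rw [hmE] at i1 i2
      refine dv A L hL.le N a (m / a) i1.1.1.1 i2.1.1.1 i1.1.1.2 i2.1.1.2 D fun d hd => ?_
      obtain ⟨j1, j2, j3⟩ := hDE m hm d hd
      rw [hmE] at j1
      have hd' := hd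
      rw [hD, mem_filter, Nat.mem_divisors] at hd'
      refine ⟨?_, ?_, ?_⟩
      · rw [Nat.mul_div_cancel' i1.2.1]
        exact hd'.1.1
      · have : A ^ 2 * (n / A) = A * n := by field_simp
        calc (d : ℝ) ≤ A * n := hd'.2.2.1
          _ = A ^ 2 * (n / A) := this.symm
          _ ≤ A ^ 2 * ((m / a : ℕ) : ℝ) := mul_le_mul_of_nonneg_left i2.2.2 (by positivity)
      · have h3 : ((m / a : ℕ) : ℝ) ≤ N := by exact_mod_cast i2.1.1.2
        calc ((m / a : ℕ) : ℝ) ≤ 2 * A * n := h3.trans hN1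
          _ = 2 * A ^ 2 * (n / A) := by field_simp
          _ ≤ 2 * A ^ 2 * d := mul_le_mul_of_nonneg_left j1.2.2 (by positivity)
    have h3 : ∑ a ∈ D, Q K a ≤ ∑ a ∈ E m, Q K a :=
      sum_le_sum_of_subset_of_nonneg (fun a ha => (hDE m hm a ha).1) fun a _ _ => Q_nonneg K a
    have h4 : ∑ a ∈ D, Q K (m / a) ≤ ∑ a ∈ E m, Q K a := by
      have hinj : Set.InjOn (fun a => m / a) (D : Set ℕ) := by
        intro a ha a' ha' h
        obtain ⟨i1, i2, i3⟩ := hDE m hm a ha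
        obtain ⟨i1', i2', i3'⟩ := hDE m hm a' ha'
        have h' : m / a = m / a' := h
        rw [hmE] at i2
        have e0 : (0 : ℝ) < ((m / a : ℕ) : ℝ) := by exact_mod_cast i2.1.1.1
        rw [← h'] at i3'
        have : ((m / a : ℕ) : ℝ) * a = ((m / a : ℕ) : ℝ) * a' := by rw [i3, i3']
        exact_mod_cast mul_left_cancel₀ e0.ne' this
      calc ∑ a ∈ D, Q K (m / a) = ∑ b ∈ D.image (fun a => m / a), Q K b :=
            (sum_image (f := fun b => Q K b) hinj).symm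
        _ ≤ ∑ a ∈ E m, Q K a := by
            refine sum_le_sum_of_subset_of_nonneg ?_ fun a _ _ => Q_nonneg K a
            intro b hb
            rw [mem_image] at hb
            obtain ⟨a, ha, rfl⟩ := hb
            exact (hDE m hm a ha).2.1
    rw [h1]
    calc ∑ a ∈ D, (D.card : ℝ) ≤ ∑ a ∈ D, (2 * L + 1) / 2 * (Q K a + Q K (m / a)) :=
          sum_le_sum h2
      _ = (2 * L + 1) / 2 * (∑ a ∈ D, Q K a + ∑ a ∈ D, Q K (m / a)) := by
          rw [← mul_sum, sum_add_distrib]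
      _ ≤ (2 * L + 1) / 2 * (∑ a ∈ E m, Q K a + ∑ a ∈ E m, Q K a) :=
          mul_le_mul_of_nonneg_left (add_le_add h3 h4) (by positivity)
      _ = (2 * L + 1) * ∑ a ∈ E m, Q K a := by ring
  -- exchange
  have hex : ∑ m ∈ Icc ⌈x⌉₊ ⌊y⌋₊, ∑ a ∈ E m, Q K a ≤ (A + 1) * ∑ a ∈ F, Q K a := by
    have h1 : ∑ m ∈ Icc ⌈x⌉₊ ⌊y⌋₊, ∑ a ∈ E m, Q K a =
        ∑ a ∈ F, ∑ m ∈ Icc ⌈x⌉₊ ⌊y⌋₊, if a ∣ m ∧ n / A ≤ (a : ℝ) then Q K a else 0 := by
      rw [sum_comm]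
      refine sum_congr rfl fun m _ => ?_
      rw [hE, sum_filter]
    rw [h1, mul_sum]
    refine sum_le_sum fun a ha => ?_
    rw [hF, mem_filter, mem_Icc] at ha
    by_cases hna : n / A ≤ (a : ℝ)
    · have ha0 : (0 : ℝ) < a := lt_of_lt_of_le hnA hna
      have h2 : ∑ m ∈ Icc ⌈x⌉₊ ⌊y⌋₊, (if a ∣ m ∧ n / A ≤ (a : ℝ) then Q K a else 0) =
          (((Icc ⌈x⌉₊ ⌊y⌋₊).filter (fun m => a ∣ m)).card : ℝ) * Q K a := by
        rw [← sum_filter, sum_const, nsmul_eq_mul]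
        simp only [hna, and_true]
      rw [h2]
      refine mul_le_mul_of_nonneg_right ?_ (Q_nonneg K a)
      refine (count hCap x y hx0 hxy a ha.1.1).trans ?_
      have h3 : (y - x) / a ≤ A := by
        rw [div_le_iff₀ ha0]
        have h4 : y - x ≤ n := by
          rw [hx, hy]
          nlinarith
        have h5 : n ≤ A * a := by
          rw [div_le_iff₀ hA0] at hna
          linarith
        linarith
      linarith
    · have h2 : ∑ m ∈ Icc ⌈x⌉₊ ⌊y⌋₊, (if a ∣ m ∧ n / A ≤ (a : ℝ) then Q K a else 0) = 0 := by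
        refine sum_eq_zero fun m _ => if_neg fun h => hna h.2
      rw [h2]
      have := Q_nonneg K a
      positivity
  calc ∑ m ∈ Icc ⌈x⌉₊ ⌊y⌋₊, nwr A n T m ^ 2
      ≤ ∑ m ∈ Icc ⌈x⌉₊ ⌊y⌋₊, (2 * L + 1) * ∑ a ∈ E m, Q K a := sum_le_sum hone
    _ = (2 * L + 1) * ∑ m ∈ Icc ⌈x⌉₊ ⌊y⌋₊, ∑ a ∈ E m, Q K a := by rw [mul_sum]
    _ ≤ (2 * L + 1) * ((A + 1) * ∑ a ∈ F, Q K a) :=
        mul_le_mul_of_nonneg_left hex (by positivity)
    _ = (2 * L + 1) * (A + 1) * ∑ a ∈ F, Q K a := by ring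

end Pool.Agent.Work.MP_a8fbd7_nt.PAR.LC.I_PrA
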