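import Pool.Agent.Work.MP_a8fbd7_nt.PAR.LC.Stmts5

set_option autoImplicit false

/-!
MP_a8fbd7_nt, block LC, part R, item Tl: few integers with many prime factors.
-/

open Finset Filter

noncomputable section

namespace Pool.Agent.Work.MP_a8fbd7_nt.PAR.LC.I_Tl

open Pool.Agent.Work.MP_a8fbd7_nt.PAR.LC

theorem log_y : (1 : ℝ) / 21 < Real.log (21 / 20) := by
  have h : Real.log (21 / 20 : ℝ) ≠ 0 :=
    (Real.log_pos (by norm_num)).ne'
  have h1 := Real.add_one_lt_exp (neg_ne_zero.2 h)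
  rw [Real.exp_neg, Real.exp_log (by norm_num)] at h1
  norm_num at h1
  linarith

theorem prf (hHT : StHT) : StTl := by
  intro A κ hA hκ
  obtain ⟨C, hC1, hC⟩ := hHT
  obtain ⟨η, hη⟩ : ∃ η : ℝ, η = 21 / 20 * Real.log (21 / 20) - 1 / 20 := ⟨_, rfl⟩
  have hη0 : 0 < η := by
    have := log_y
    rw [hη]
    linarith
  have e1 : ∀ᶠ n : ℝ in atTop, 1 + Real.log (2 * A) ≤ Real.log n :=
    Real.tendsto_log_atTop.eventually_ge_atTop _
  have e2 : ∀ᶠ n : ℝ in atTop, 4 * A * C / κ ≤ Real.log n ^ η :=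
    ((tendsto_rpow_atTop hη0).comp Real.tendsto_log_atTop).eventually_ge_atTop _
  have e3 : ∀ᶠ n : ℝ in atTop, (1 : ℝ) ≤ n := eventually_ge_atTop _
  obtain ⟨n0, hn0⟩ := eventually_atTop.1 (e1.and (e2.and e3))
  refine ⟨n0, fun n hn => ?_⟩
  obtain ⟨h1, h2, h3⟩ := hn0 n hn
  obtain ⟨l, hl⟩ : ∃ l : ℝ, l = Real.log n := ⟨_, rfl⟩
  rw [← hl] at h1 h2 ⊢
  have hlA : 0 < Real.log (2 * A) := Real.log_pos (by linarith)
  have hl1 : 1 < l := by linarith
  have hl0 : 0 < l := by linarith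
  have hn : 0 < n := by linarith
  have hx : 2 ≤ 2 * A * n := by nlinarith
  obtain ⟨N, hN⟩ : ∃ N : ℕ, N = ⌊2 * A * n⌋₊ := ⟨_, rfl⟩
  have hN1 : 1 ≤ N := by
    rw [hN]
    exact Nat.le_floor (by push_cast; linarith)
  have hNx : (N : ℝ) ≤ 2 * A * n := by
    rw [hN]
    exact Nat.floor_le (by linarith)
  have hNr : (1 : ℝ) ≤ N := by exact_mod_cast hN1
  have hlN : 1 + Real.log N ≤ 2 * l := by
    have := Real.log_le_log (by linarith) hNx
    rw [Real.log_mul (by linarith) hn.ne', ← hl] at this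
    linarith
  rw [← hN]
  have hsum := hC (21 / 20) N (by norm_num) le_rfl hN1
  have hlow : ∀ a ∈ (Icc 1 N).filter
      (fun a => 21 / 20 * Real.log l < (ArithmeticFunction.cardFactors a : ℝ)),
      l ^ (1 / 20 + η) ≤ yo (21 / 20) a := by
    intro a ha
    have ha2 := (mem_filter.1 ha).2
    unfold yo
    rw [← Real.rpow_natCast]
    calc l ^ (1 / 20 + η) = (21 / 20 : ℝ) ^ (21 / 20 * Real.log l) := by
          rw [Real.rpow_def_of_pos hl0, Real.rpow_def_of_pos (by norm_num), hη]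
          congr 1
          ring
      _ ≤ (21 / 20 : ℝ) ^ ((ArithmeticFunction.cardFactors a : ℕ) : ℝ) :=
          Real.rpow_le_rpow_of_exponent_le (by norm_num) ha2.le
  have hcard := Finset.card_nsmul_le_sum _ _ _ hlow
  rw [nsmul_eq_mul] at hcard
  have hsub : ∑ a ∈ (Icc 1 N).filter
      (fun a => 21 / 20 * Real.log l < (ArithmeticFunction.cardFactors a : ℝ)), yo (21 / 20) a ≤
      ∑ a ∈ Icc 1 N, yo (21 / 20) a := by
    refine sum_le_sum_of_subset_of_nonneg (filter_subset _ _) fun a _ _ => ?_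
    unfold yo
    positivity
  have hpow : (1 + Real.log N) ^ ((21 : ℝ) / 20 - 1) ≤ 2 * l ^ (1 / 20 : ℝ) := by
    have hlN0 : 0 ≤ Real.log N := Real.log_nonneg hNr
    calc (1 + Real.log N) ^ ((21 : ℝ) / 20 - 1) ≤ (2 * l) ^ ((21 : ℝ) / 20 - 1) :=
          Real.rpow_le_rpow (by linarith) hlN (by norm_num)
      _ = 2 ^ (1 / 20 : ℝ) * l ^ (1 / 20 : ℝ) := by
          rw [Real.mul_rpow (by norm_num) hl0.le]
          norm_num
      _ ≤ 2 * l ^ (1 / 20 : ℝ) := by
          refine mul_le_mul_of_nonneg_right ?_ (by positivity)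
          calc (2 : ℝ) ^ (1 / 20 : ℝ) ≤ 2 ^ (1 : ℝ) :=
                Real.rpow_le_rpow_of_exponent_le (by norm_num) (by norm_num)
            _ = 2 := Real.rpow_one 2
  obtain ⟨c, hc⟩ : ∃ c : ℝ, c = ((((Icc 1 N).filter
      (fun a => 21 / 20 * Real.log l < (ArithmeticFunction.cardFactors a : ℝ))).card : ℕ) : ℝ) :=
    ⟨_, rfl⟩
  rw [← hc] at hcard ⊢
  have hP : 0 < l ^ (1 / 20 : ℝ) := by positivity
  have hE : 0 < l ^ η := by positivity
  have hmain : c * (l ^ (1 / 20 : ℝ) * l ^ η) ≤ C * (2 * A * n) * (2 * l ^ (1 / 20 : ℝ)) := by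
    rw [← Real.rpow_add hl0]
    refine hcard.trans (hsub.trans (hsum.trans ?_))
    refine mul_le_mul ?_ hpow (by positivity) (by positivity)
    exact mul_le_mul_of_nonneg_left hNx (by linarith)
  have h4 : c * l ^ η ≤ 4 * A * C * n := by
    refine le_of_mul_le_mul_right ?_ hP
    nlinarith
  have h5 : 4 * A * C * n ≤ κ * n * l ^ η := by
    rw [div_le_iff₀ hκ] at h2
    nlinarith
  exact le_of_mul_le_mul_right (h4.trans h5) hE

end Pool.Agent.Work.MP_a8fbd7_nt.PAR.LC.I_Tl
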