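import Pool.Agent.Work.MP_a8fbd7_nt.PAR.LC.Fin4
import Pool.Agent.Work.MP_a8fbd7_nt.PAR.LC.I_HTa
import Pool.Agent.Work.MP_a8fbd7_nt.PAR.LC.I_HTb
import Pool.Agent.Work.MP_a8fbd7_nt.PAR.LC.I_HT
import Pool.Agent.Work.MP_a8fbd7_nt.PAR.LC.I_Tl
import Pool.Agent.Work.MP_a8fbd7_nt.PAR.LC.I_D2
import Pool.Agent.Work.MP_a8fbd7_nt.PAR.LC.I_D3
import Pool.Agent.Work.MP_a8fbd7_nt.PAR.LC.I_PrA
import Pool.Agent.Work.MP_a8fbd7_nt.PAR.LC.I_PrB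
import Pool.Agent.Work.MP_a8fbd7_nt.PAR.LC.I_CnR
import Pool.Agent.Work.MP_a8fbd7_nt.PAR.LC.I_OpR

set_option autoImplicit false

/-!
MP_a8fbd7_nt, block LC, part R: assembly.  `LC_allR : MRweak → ThmR` (at least `√x/(log x)^(3/4)` integers of each sign).
-/

namespace Pool.Agent.Work.MP_a8fbd7_nt.PAR.LC

theorem a_HT : StHT := I_HT.prf I_HTa.prf I_HTb.prf
theorem a_Tl : StTl := I_Tl.prf a_HT
theorem a_D3 : StD3 := I_D3.prf a_HT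
theorem a_PrA : StPrA := I_PrA.prf I_Cap.prf
theorem a_PrB : StPrB := I_PrB.prf I_Cap.prf
theorem a_CnR : StCnR := I_CnR.prf a_Tl I_D2.prf a_D3 a_PrA a_PrB

/-- numbers, exponent `3/4` -/
theorem LC_allR : MRweak → ThmR := fun h => a_CnR (LC_allN h)

/-- the Oppermann form -/
theorem LC_oppR : MRweak → OppR := fun h => I_OpR.prf (LC_allR h)

end Pool.Agent.Work.MP_a8fbd7_nt.PAR.LC
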