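import Pool.Agent.Work.MP_a8fbd7_nt.PAR.LC.Stmts4

set_option autoImplicit false

open Finset

noncomputable section

namespace Pool.Agent.Work.MP_a8fbd7_nt.PAR.LC.I_AtN

theorem card_Icc_le (L U : ℝ) (hL : 0 ≤ L) (hLU : L ≤ U) : ((Icc ⌈L⌉₊ ⌊U⌋₊).card : ℝ) ≤ U - L + 1 := by
  rw [Nat.card_Icc]
  have h1 : (⌊U⌋₊ : ℝ) ≤ U := Nat.floor_le (le_trans hL hLU)
  have h2 : L ≤ (⌈L⌉₊ : ℝ) := Nat.le_ceil L
  by_cases h : ⌈L⌉₊ ≤ ⌊U⌋₊ + 1
  · rw [Nat.cast_sub h]
    push_cast
    linarith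
  · rw [Nat.sub_eq_zero_of_le (by omega)]
    push_cast
    linarith

open Classical in
theorem prf : StAtN := by
  intro q t z j m r A n hq ht hz hm hr hA1 hA2 hAn hj
  have hq' : (0 : ℝ) < q := by exact_mod_cast hq
  have ht' : (0 : ℝ) < t := by exact_mod_cast ht
  have hz' : (0 : ℝ) < z := by exact_mod_cast hz
  have hq1 : (1 : ℝ) ≤ q := by exact_mod_cast hq
  have ht1 : (1 : ℝ) ≤ t := by exact_mod_cast ht
  have hz1 : (1 : ℝ) ≤ z := by exact_mod_cast hz
  have hrz : 0 < r * z := mul_pos hr hz'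
  have hA0 : 1 ≤ A := by nlinarith
  have hn1 : 1 ≤ n := le_trans hA0 hAn
  have hrn : 0 < r * n := by positivity
  have hAr : r * n ≤ r * z * n := by
    have := mul_le_mul_of_nonneg_left hz1 hrn.le
    nlinarith
  have hAn3 : 3 * (r * z) * n + n ≤ A * n := by nlinarith
  have hlow : ∀ (k a : ℝ), 0 < k → k ≤ 2 * q * t → r * n ≤ k * a → n / A ≤ a := by
    intro k a hk hk2 h
    rw [div_le_iff₀ (by linarith)]
    have e1 : k * n ≤ 2 * q * t * n := mul_le_mul_of_nonneg_right hk2 (by linarith)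
    have e2 : 2 * q * t * n ≤ A * r * n := mul_le_mul_of_nonneg_right hA1 (by linarith)
    have e3 : A * (r * n) ≤ A * (k * a) := mul_le_mul_of_nonneg_left h (by linarith)
    have e4 : k * n ≤ k * (a * A) := by nlinarith
    exact le_of_mul_le_mul_left e4 hk
  unfold nw
  set D := m.divisors.filter (fun a : ℕ => n / A ≤ (a : ℝ) ∧ (a : ℝ) ≤ A * n) with hD
  have hsub : (Icc ⌈r * n⌉₊ ⌊21 / 20 * r * n⌋₊).filter (fun g => Att q t z j g m) ⊆
      (D.image (fun a => q * a) ∪ D.image (fun a => t * a - j)) ∪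
        D.biUnion (fun W => Icc ⌈((W : ℝ) - 1) * (q * t) / z⌉₊ ⌊((W : ℝ) + 1) * (q * t) / z⌋₊) := by
    intro g hg
    rw [mem_filter, mem_Icc] at hg
    obtain ⟨⟨hg1, hg2⟩, h⟩ := hg
    have hg1' : r * n ≤ (g : ℝ) := Nat.ceil_le.1 hg1
    have hg2' : (g : ℝ) ≤ 21 / 20 * r * n := by
      refine le_trans (Nat.cast_le.2 hg2) (Nat.floor_le ?_)
      nlinarith
    rw [mem_union, mem_union]
    rcases h with ⟨a, h1, h2⟩ | ⟨a, h1, h2⟩ | ⟨W, h1, h2⟩
    · left; left
      rw [mem_image]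
      have h1' : (g : ℝ) = q * a := by exact_mod_cast h1
      have ha : (a : ℝ) ≤ q * a := by
        have : (0 : ℝ) ≤ a := Nat.cast_nonneg _
        nlinarith
      refine ⟨a, ?_, h1.symm⟩
      rw [hD, mem_filter, Nat.mem_divisors]
      refine ⟨⟨h2, by omega⟩, hlow q a hq' ?_ (by linarith), by nlinarith⟩
      nlinarith
    · left; right
      rw [mem_image]
      have h1' : (g : ℝ) + j = t * a := by exact_mod_cast h1
      have hj0 : (0 : ℝ) ≤ j := Nat.cast_nonneg _
      have ha : (a : ℝ) ≤ t * a := by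
        have : (0 : ℝ) ≤ a := Nat.cast_nonneg _
        nlinarith
      refine ⟨a, ?_, by omega⟩
      rw [hD, mem_filter, Nat.mem_divisors]
      refine ⟨⟨h2, by omega⟩, hlow t a ht' ?_ (by linarith), by nlinarith⟩
      nlinarith
    · right
      rw [mem_biUnion]
      have hp0 : (0 : ℝ) < q * t := by positivity
      have hp1 : (1 : ℝ) ≤ q * t := by nlinarith
      have h2' := abs_le.1 h2
      have hWm : W ∈ D := by
        rw [hD, mem_filter, Nat.mem_divisors]
        refine ⟨⟨h1, by omega⟩, ?_, ?_⟩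
        · have e1 : n / A ≤ (g : ℝ) * z / (q * t) / 2 := by
            refine hlow (2 * (q * t)) _ (by positivity) (by nlinarith) ?_
            have e2 : 2 * ((q : ℝ) * t) * ((g : ℝ) * z / (q * t) / 2) = g * z := by
              field_simp
            rw [e2]
            nlinarith
          have e3 : 1 ≤ n / A := by
            rw [le_div_iff₀ (by linarith)]
            linarith
          linarith [h2'.2]
        · have e1 : (g : ℝ) * z / (q * t) ≤ g * z := div_le_self (by positivity) hp1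
          have e2 : (g : ℝ) * z ≤ 21 / 20 * r * n * z := mul_le_mul_of_nonneg_right hg2' hz'.le
          have e3 : 0 < r * z * n := by positivity
          nlinarith [h2'.1]
      refine ⟨W, hWm, ?_⟩
      rw [abs_le] at h2
      have hp : (0 : ℝ) < q * t := by positivity
      rw [mem_Icc]
      constructor
      · rw [Nat.ceil_le]
        rw [div_le_iff₀ hz']
        have h3 : ((W : ℝ) - 1) ≤ (g : ℝ) * z / (q * t) := by linarith [h2.1]
        rw [le_div_iff₀ hp] at h3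
        exact h3
      · apply Nat.le_floor
        rw [le_div_iff₀ hz']
        have h3 : (g : ℝ) * z / (q * t) ≤ ((W : ℝ) + 1) := by linarith [h2.2]
        rw [div_le_iff₀ hp] at h3
        exact h3
  have h1 : (((Icc ⌈r * n⌉₊ ⌊21 / 20 * r * n⌋₊).filter (fun g => Att q t z j g m)).card : ℝ) ≤
      (((D.image (fun a => q * a) ∪ D.image (fun a => t * a - j)) ∪
        D.biUnion (fun W => Icc ⌈((W : ℝ) - 1) * (q * t) / z⌉₊ ⌊((W : ℝ) + 1) * (q * t) / z⌋₊)).card : ℝ) := by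
    exact_mod_cast card_le_card hsub
  have h2 : (((D.image (fun a => q * a) ∪ D.image (fun a => t * a - j)) ∪
        D.biUnion (fun W => Icc ⌈((W : ℝ) - 1) * (q * t) / z⌉₊ ⌊((W : ℝ) + 1) * (q * t) / z⌋₊)).card : ℝ) ≤
      ((D.image (fun a => q * a)).card : ℝ) + ((D.image (fun a => t * a - j)).card : ℝ) +
        ((D.biUnion (fun W => Icc ⌈((W : ℝ) - 1) * (q * t) / z⌉₊ ⌊((W : ℝ) + 1) * (q * t) / z⌋₊)).card : ℝ) := by
    have a1 := card_union_le (D.image (fun a => q * a) ∪ D.image (fun a => t * a - j))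
      (D.biUnion (fun W => Icc ⌈((W : ℝ) - 1) * (q * t) / z⌉₊ ⌊((W : ℝ) + 1) * (q * t) / z⌋₊))
    have a2 := card_union_le (D.image (fun a => q * a)) (D.image (fun a => t * a - j))
    exact_mod_cast le_trans a1 (Nat.add_le_add_right a2 _)
  have h3 : ((D.image (fun a => q * a)).card : ℝ) ≤ (D.card : ℝ) := by exact_mod_cast card_image_le
  have h4 : ((D.image (fun a => t * a - j)).card : ℝ) ≤ (D.card : ℝ) := by exact_mod_cast card_image_le
  have h5 : ((D.biUnion (fun W => Icc ⌈((W : ℝ) - 1) * (q * t) / z⌉₊ ⌊((W : ℝ) + 1) * (q * t) / z⌋₊)).card : ℝ) ≤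
      (D.card : ℝ) * (2 * (q * t) / z + 1) := by
    have b1 : ((D.biUnion (fun W => Icc ⌈((W : ℝ) - 1) * (q * t) / z⌉₊ ⌊((W : ℝ) + 1) * (q * t) / z⌋₊)).card : ℝ) ≤
        ∑ W ∈ D, ((Icc ⌈((W : ℝ) - 1) * (q * t) / z⌉₊ ⌊((W : ℝ) + 1) * (q * t) / z⌋₊).card : ℝ) := by
      exact_mod_cast card_biUnion_le
    refine le_trans b1 ?_
    have b2 : (D.card : ℝ) * (2 * (q * t) / z + 1) = D.card • ((2 * (q * t) / z + 1 : ℝ)) :=
      (nsmul_eq_mul _ _).symm
    rw [b2]
    apply sum_le_card_nsmul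
    intro W hW
    have hW1 : 1 ≤ W := Nat.pos_of_mem_divisors (mem_filter.1 hW).1
    have hW1' : (1 : ℝ) ≤ W := by exact_mod_cast hW1
    have hp : (0 : ℝ) < q * t := by positivity
    have hL : 0 ≤ ((W : ℝ) - 1) * (q * t) / z := by
      apply div_nonneg _ hz'.le
      apply mul_nonneg (by linarith) hp.le
    have hLU : ((W : ℝ) - 1) * (q * t) / z ≤ ((W : ℝ) + 1) * (q * t) / z := by
      apply div_le_div_of_nonneg_right _ hz'.le
      apply mul_le_mul_of_nonneg_right (by linarith) hp.le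
    have c1 := card_Icc_le _ _ hL hLU
    have c2 : ((W : ℝ) + 1) * (q * t) / z - ((W : ℝ) - 1) * (q * t) / z = 2 * (q * t) / z := by
      ring
    linarith
  have h6 : (D.card : ℝ) * (3 + 2 * (q * t) / z) =
      (D.card : ℝ) + (D.card : ℝ) + (D.card : ℝ) * (2 * (q * t) / z + 1) := by ring
  rw [h6]
  linarith

end Pool.Agent.Work.MP_a8fbd7_nt.PAR.LC.I_AtN
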