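import Pool.Agent.Work.MP_a8fbd7_nt.PAR.LC.Stmts4

set_option autoImplicit false

open Finset

noncomputable section

namespace Pool.Agent.Work.MP_a8fbd7_nt.PAR.LC.I_BlN

lemma cno_facts (Y : ℝ) (B g : ℕ) (hY : 0 ≤ Y) (hB : 1 ≤ B) :
    cno Y B g < B ∧ ((cno Y B g : ℕ) : ℝ) / B ≤ Y / g - ⌊Y / (g : ℝ)⌋₊ ∧
      Y / g - ⌊Y / (g : ℝ)⌋₊ < (((cno Y B g : ℕ) : ℝ) + 1) / B := by
  have hBp : (0 : ℝ) < B := by exact_mod_cast hB
  have hy : 0 ≤ Y / (g : ℝ) := by positivity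
  have h1 : (⌊Y / (g : ℝ)⌋₊ : ℝ) ≤ Y / g := Nat.floor_le hy
  have h2 : Y / (g : ℝ) < ⌊Y / (g : ℝ)⌋₊ + 1 := Nat.lt_floor_add_one _
  set θ : ℝ := Y / g - ⌊Y / (g : ℝ)⌋₊ with hθ
  have h3 : 0 ≤ θ := by rw [hθ]; linarith
  have h4 : θ < 1 := by rw [hθ]; linarith
  have hc : cno Y B g = ⌊(B : ℝ) * θ⌋₊ := rfl
  rw [hc]
  refine ⟨?_, ?_, ?_⟩
  · rw [Nat.floor_lt (by positivity)]
    nlinarith
  · rw [div_le_iff₀ hBp]
    have := Nat.floor_le (show 0 ≤ (B : ℝ) * θ by positivity)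
    linarith
  · rw [lt_div_iff₀ hBp]
    have := Nat.lt_floor_add_one ((B : ℝ) * θ)
    linarith

lemma hasL_mod (S : Finset (ℕ × ℕ × ℕ × ℕ)) (L j g M : ℕ)
    (hS : ∀ s ∈ S, s.1 ∣ L ∧ s.2.1 ∣ L ∧ s.2.2.1 ∣ L) (h : HasL S j (g % L) (M % L)) :
    HasL S j g M := by
  obtain ⟨s, hs, h1, h2, h3⟩ := h
  obtain ⟨d1, d2, d3⟩ := hS s hs
  refine ⟨s, hs, ?_, ?_, ?_⟩
  · exact (Nat.dvd_mod_iff d1).1 h1
  · have h4 : g % L + j ≡ g + j [MOD L] := (Nat.mod_modEq g L).add_right j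
    exact (h4.dvd_iff d2).1 h2
  · have h4 : s.1 * (M % L) + s.2.2.2 ≡ s.1 * M + s.2.2.2 [MOD L] :=
      ((Nat.mod_modEq M L).mul_left _).add_right _
    exact (h4.dvd_iff d3).1 h3

/-- the data of one cell -/
def Dat (c r κ : ℝ) (J B k j : ℕ) (k0 : ℤ) (a0 : ℝ) (L : ℕ) (S : Finset (ℕ × ℕ × ℕ × ℕ)) : Prop :=
  1 ≤ j ∧ j ≤ J ∧ 1 ≤ L ∧ (k < B →
    (|(k0 : ℝ) - j * (k / B)| ≤ 1 / J ∧
    ((a0 = 1 / 2 ∧ 0 ≤ (k0 : ℝ) - j * (k / B)) ∨ (a0 = 17 / 20 ∧ (k0 : ℝ) - j * (k / B) ≤ 0)) ∧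
    (∀ s ∈ S, Lnk (((k : ℝ) + 1) / B + a0 * c / r) (c / (25 * r)) (2 * c / (5 * r))
      (21 * c / (50 * r)) s.1 s.2.1 s.2.2.1 s.2.2.2 ∧ s.1 ∣ L ∧ s.2.1 ∣ L ∧ s.2.2.1 ∣ L) ∧
    ((badL L j S).card : ℝ) ≤ κ * (L : ℝ) ^ 2))

lemma exDat (hSM : StSM) (c r κ : ℝ) (J B : ℕ) (hc : 0 < c) (hc1 : c ≤ 1) (hr : 1 ≤ r) (hJ : 1 ≤ J)
    (hB : 1 ≤ B) (hκ : 0 < κ) (hκ1 : κ ≤ 1) (k : ℕ) :
    ∃ (j : ℕ) (k0 : ℤ) (a0 : ℝ) (L : ℕ) (S : Finset (ℕ × ℕ × ℕ × ℕ)),
      Dat c r κ J B k j k0 a0 L S := by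
  by_cases hk : k < B
  · obtain ⟨k0, j, hj0, hjJ, habs⟩ := Real.exists_int_int_abs_mul_sub_le ((k : ℝ) / B) hJ
    obtain ⟨j', rfl⟩ := Int.eq_ofNat_of_zero_le hj0.le
    have hj1 : 1 ≤ j' := by exact_mod_cast hj0
    have hjJ' : j' ≤ J := by exact_mod_cast hjJ
    have hJp : (0 : ℝ) < J := by exact_mod_cast hJ
    have hBp : (0 : ℝ) < B := by exact_mod_cast hB
    have habs' : |(k0 : ℝ) - j' * (k / B)| ≤ 1 / J := by
      rw [abs_sub_comm]
      have h1 : (1 : ℝ) / ((J : ℝ) + 1) ≤ 1 / J := one_div_le_one_div_of_le hJp (by linarith)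
      have h2 : |(j' : ℝ) * ((k : ℝ) / B) - k0| ≤ 1 / ((J : ℝ) + 1) := by
        simpa using habs
      exact h2.trans h1
    obtain ⟨a0, ha0⟩ : ∃ a0 : ℝ, (a0 = 1 / 2 ∧ 0 ≤ (k0 : ℝ) - j' * (k / B)) ∨
        (a0 = 17 / 20 ∧ (k0 : ℝ) - j' * (k / B) ≤ 0) := by
      rcases le_total 0 ((k0 : ℝ) - j' * (k / B)) with h | h
      · exact ⟨_, Or.inl ⟨rfl, h⟩⟩
      · exact ⟨_, Or.inr ⟨rfl, h⟩⟩
    have ha0' : 0 ≤ a0 ∧ a0 ≤ 1 := by
      rcases ha0 with h | h <;> rw [h.1] <;> norm_num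
    have hrp : 0 < r := by linarith
    have hW : Wn (((k : ℝ) + 1) / B + a0 * c / r) (c / (25 * r)) (2 * c / (5 * r))
        (21 * c / (50 * r)) := by
      refine ⟨?_, ?_, by positivity, ?_, by positivity, ?_, ?_⟩
      · have := ha0'.1
        positivity
      · have h1 : ((k : ℝ) + 1) / B ≤ 1 := by
          rw [div_le_one hBp]; exact_mod_cast hk
        have h2 : a0 * c / r ≤ 1 := by
          rw [div_le_one hrp]
          have h3 : a0 * c ≤ 1 * 1 := mul_le_mul ha0'.2 hc1 hc.le (by norm_num)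
          linarith
        linarith
      · rw [div_le_iff₀ (by positivity)]; linarith
      · rw [div_lt_div_iff₀ (by positivity) (by positivity)]
        nlinarith [mul_pos hc hrp]
      · rw [div_le_iff₀ (by positivity)]; linarith
    obtain ⟨L, S, hL, hS, hbad⟩ := hSM j' _ _ _ _ κ hW hκ hκ1
    exact ⟨j', k0, a0, L, S, hj1, hjJ', hL, fun _ => ⟨habs', ha0, hS, hbad⟩⟩
  · exact ⟨1, 0, 0, 1, ∅, le_rfl, hJ, le_rfl, fun h => absurd h hk⟩

open Classical in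
/-- the attached `g` -/
def attSet (q t z j m : ℕ) (r n : ℝ) : Finset ℕ :=
  (Icc ⌈r * n⌉₊ ⌊21 / 20 * r * n⌋₊).filter (fun g => Att q t z j g m)

lemma attSet_card (hAtN : StAtN) (q t z j m : ℕ) (r A n : ℝ) (hq : 1 ≤ q) (ht : 1 ≤ t) (hz : 1 ≤ z)
    (hm : 1 ≤ m) (hr : 0 < r) (hA1 : 2 * q * t ≤ A * r) (hA2 : 3 * r * z + 1 ≤ A) (hAn : A ≤ n)
    (hj : (j : ℝ) ≤ r * n) : ((attSet q t z j m r n).card : ℝ) ≤
      nw A n m * (3 + 2 * (q * t) / z) := by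
  classical
  have h := hAtN q t z j m r A n hq ht hz hm hr hA1 hA2 hAn hj
  unfold attSet
  convert h

lemma Lnk_ratio (c r w0 : ℝ) (q t z ρ : ℕ) (hc : 0 < c) (hr : 0 < r)
    (h : Lnk w0 (c / (25 * r)) (2 * c / (5 * r)) (21 * c / (50 * r)) q t z ρ) :
    3 + 2 * ((q : ℝ) * t) / z ≤ 3 + 5 * r / c := by
  obtain ⟨hq, ht, hz, -, -, h1, -⟩ := h
  have hzp : (0 : ℝ) < z := by exact_mod_cast hz
  have h2 : 2 * ((q : ℝ) * t) / z ≤ 5 * r / c := by
    rw [div_le_div_iff₀ hzp hc]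
    have h3 : 2 * c / (5 * r) * q * t * (5 * r) = 2 * ((q : ℝ) * t) * c := by
      field_simp
    have h4 : 2 * c / (5 * r) * q * t * (5 * r) ≤ z * (5 * r) :=
      mul_le_mul_of_nonneg_right h1 (by positivity)
    linarith
  linarith

lemma exists_bound (B : ℕ) (n : ℕ → ℝ) : ∃ N : ℝ, ∀ k < B, n k ≤ N := by
  refine ⟨∑ k ∈ range B, |n k|, fun k hk => (le_abs_self _).trans ?_⟩
  exact single_le_sum (f := fun k => |n k|) (fun i _ => abs_nonneg _) (mem_range.2 hk)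

theorem prf (hSM : StSM) (hEQ : StEQ) (hLkD : StLkD) (hAtN : StAtN) : StBlN := by
  classical
  intro c r κ J hc hc1 hJ hr hκ
  have hJr : (8 : ℝ) ≤ J := by
    refine le_trans ?_ hJ
    rw [le_div_iff₀ (by positivity)]
    nlinarith
  have hJ1 : 1 ≤ J := by
    have : (1 : ℝ) ≤ J := by linarith
    exact_mod_cast this
  have hr1 : 1600 ≤ r := by
    refine le_trans ?_ hr
    rw [le_div_iff₀ hc]
    nlinarith
  have hrp : 0 < r := by linarith
  have hrc : 1 ≤ r / c := by rw [le_div_iff₀ hc]; linarith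
  obtain ⟨B, hBdef⟩ : ∃ B : ℕ, B = ⌈200 * r / c⌉₊ := ⟨_, rfl⟩
  have hB1 : 200 * r / c ≤ B := by rw [hBdef]; exact Nat.le_ceil _
  have hB2 : (B : ℝ) ≤ 300 * r / c := by
    have h1 : (B : ℝ) < 200 * r / c + 1 := by
      rw [hBdef]; exact Nat.ceil_lt_add_one (by positivity)
    have h2 : 300 * r / c = 200 * r / c + 100 * (r / c) := by ring
    rw [h2]; linarith
  have hBge : (1 : ℝ) ≤ B := by
    refine le_trans ?_ hB1
    have h2 : 200 * r / c = 200 * (r / c) := by ring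
    rw [h2]; linarith
  have hB : 1 ≤ B := by exact_mod_cast hBge
  have hBp : (0 : ℝ) < B := by linarith
  clear hBdef
  have hκm : 0 < min κ 1 := lt_min hκ one_pos
  choose j k0 a0 L S hD using exDat hSM c r (min κ 1) J B hc hc1 (by linarith) hJ1 hB hκm
    (min_le_right _ _)
  have hEQ' := fun k => hEQ (L k) B r 1 (hD k).2.2.1 hB hrp one_pos
  choose nE hnE using hEQ'
  obtain ⟨N0, hN0⟩ := exists_bound B nE
  obtain ⟨C, hCdef⟩ : ∃ C : ℝ, C = ∑ k ∈ range B, ((S k).card : ℝ) * (3 + 5 * r / c) := ⟨_, rfl⟩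
  have hC0 : 0 ≤ C := by
    rw [hCdef]
    exact sum_nonneg fun k _ => by positivity
  obtain ⟨A, hAdef⟩ : ∃ A : ℝ, A = 1 + ∑ k ∈ range B, ∑ s ∈ S k,
    (2 * ((s.1 : ℝ) * s.2.1) / r + 3 * r * s.2.2.1 + 1) := ⟨_, rfl⟩
  have hA1 : 1 ≤ A := by
    rw [hAdef]
    have : 0 ≤ ∑ k ∈ range B, ∑ s ∈ S k,
        (2 * ((s.1 : ℝ) * s.2.1) / r + 3 * r * s.2.2.1 + 1) :=
      sum_nonneg fun k _ => sum_nonneg fun s _ => by positivity
    linarith
  have hAs : ∀ k < B, ∀ s ∈ S k, 2 * (s.1 : ℝ) * s.2.1 ≤ A * r ∧ 3 * r * (s.2.2.1 : ℝ) + 1 ≤ A := by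
    intro k hk s hs
    have h1 : 2 * ((s.1 : ℝ) * s.2.1) / r + 3 * r * s.2.2.1 + 1 ≤ A := by
      rw [hAdef]
      have h2 : 2 * ((s.1 : ℝ) * s.2.1) / r + 3 * r * s.2.2.1 + 1 ≤
          ∑ s ∈ S k, (2 * ((s.1 : ℝ) * s.2.1) / r + 3 * r * s.2.2.1 + 1) :=
        single_le_sum (f := fun s : ℕ × ℕ × ℕ × ℕ =>
          2 * ((s.1 : ℝ) * s.2.1) / r + 3 * r * s.2.2.1 + 1) (fun s _ => by positivity) hs
      have h3 : ∑ s ∈ S k, (2 * ((s.1 : ℝ) * s.2.1) / r + 3 * r * s.2.2.1 + 1) ≤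
          ∑ k ∈ range B, ∑ s ∈ S k, (2 * ((s.1 : ℝ) * s.2.1) / r + 3 * r * s.2.2.1 + 1) :=
        single_le_sum (f := fun k => ∑ s ∈ S k,
          (2 * ((s.1 : ℝ) * s.2.1) / r + 3 * r * s.2.2.1 + 1))
          (fun k _ => sum_nonneg fun s _ => by positivity) (mem_range.2 hk)
      linarith
    have h4 : 0 ≤ 2 * ((s.1 : ℝ) * s.2.1) / r := by positivity
    have h5 : 0 ≤ 3 * r * (s.2.2.1 : ℝ) := by positivity
    refine ⟨?_, by linarith⟩
    have h6 : 2 * ((s.1 : ℝ) * s.2.1) / r ≤ A := by linarith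
    rw [div_le_iff₀ hrp] at h6
    linarith
  refine ⟨B, j, max N0 (max 1 (max (1000 * J * r / c ^ 2) A)), κ * r / (2 * (C + 1)), A, hB, hB2,
    fun k => ⟨(hD k).1, (hD k).2.1⟩, by positivity, hA1, ?_⟩
  intro n f F hn hf hDv
  have hn0 : N0 ≤ n := (le_max_left _ _).trans hn
  have hn1 : 1 ≤ n := (le_max_left _ _).trans ((le_max_right _ _).trans hn)
  have hn2 : 1000 * J * r / c ^ 2 ≤ n :=
    (le_max_left _ _).trans ((le_max_right _ _).trans ((le_max_right _ _).trans hn))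
  have hnA : A ≤ n :=
    (le_max_right _ _).trans ((le_max_right _ _).trans ((le_max_right _ _).trans hn))
  have hJrn : (J : ℝ) ≤ r * n := by
    rw [div_le_iff₀ hc] at hr
    have h1 : r * c ≤ r * 1 := mul_le_mul_of_nonneg_left hc1 hrp.le
    have h2 : r * 1 ≤ r * n := mul_le_mul_of_nonneg_left hn1 hrp.le
    linarith
  have hnp : 0 < n := by linarith
  -- the covering
  have hsub : (Icc ⌈r * n⌉₊ ⌊21 / 20 * r * n⌋₊).filter (fun g => f g ≠ f (g + j (cno (n ^ 2) B g)))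
      ⊆ ((range B).biUnion fun k => (badL (L k) (j k) (S k)).biUnion fun p =>
          cel (n ^ 2) (r * n) (21 / 20 * r * n) (L k) p.1 p.2 B k) ∪
        ((range B).biUnion fun k => (S k).biUnion fun s => (Ex f F n c).biUnion fun m =>
          attSet s.1 s.2.1 s.2.2.1 (j k) m r n) := by
    intro g hg
    rw [mem_filter, mem_Icc] at hg
    obtain ⟨⟨hg1, hg2⟩, hg3⟩ := hg
    have hgr1 : r * n ≤ g := (Nat.ceil_le.1 hg1)
    have hgr2 : (g : ℝ) ≤ 21 / 20 * r * n := (Nat.le_floor_iff (by positivity)).1 hg2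
    obtain ⟨hk1, hk2, hk3⟩ := cno_facts (n ^ 2) B g (by positivity) hB
    generalize cno (n ^ 2) B g = k at hg3 hk1 hk2 hk3
    obtain ⟨hj1, hj2, hL1, hDk⟩ := hD k
    obtain ⟨hd1, hd2, hd3, hd4⟩ := hDk hk1
    rw [mem_union]
    by_cases hbad : (g % L k, ⌊n ^ 2 / (g : ℝ)⌋₊ % L k) ∈ badL (L k) (j k) (S k)
    · left
      rw [mem_biUnion]
      refine ⟨k, mem_range.2 hk1, ?_⟩
      rw [mem_biUnion]
      refine ⟨_, hbad, ?_⟩
      unfold cel
      rw [mem_filter, mem_Icc]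
      exact ⟨⟨hg1, hg2⟩, (Nat.mod_modEq _ _).symm, (Nat.mod_modEq _ _).symm, hk2, hk3⟩
    · right
      have hL0 : 0 < L k := hL1
      have hhas : HasL (S k) (j k) (g % L k) (⌊n ^ 2 / (g : ℝ)⌋₊ % L k) := by
        by_contra hcon
        apply hbad
        unfold badL
        rw [mem_filter, mem_product]
        exact ⟨⟨mem_range.2 (Nat.mod_lt _ hL0), mem_range.2 (Nat.mod_lt _ hL0)⟩, hcon⟩
      obtain ⟨s, hs, h1, h2, h3⟩ := hasL_mod (S k) (L k) (j k) g _ (fun s hs => (hd3 s hs).2) hhas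
      rcases hLkD f F c r n (a0 k) J B (j k) k g s.1 s.2.1 s.2.2.1 s.2.2.2 (k0 k) hf hc hc1 hJ hr
        hB1 hn2 hj1 hj2 hgr1 hgr2 hd1 hd2 hk2 hk3 (hd3 s hs).1 h1 h2 h3 with h | ⟨m, hm, hatt⟩
      · exact absurd h hg3
      · rw [mem_biUnion]
        refine ⟨k, mem_range.2 hk1, ?_⟩
        rw [mem_biUnion]
        refine ⟨s, hs, ?_⟩
        rw [mem_biUnion]
        refine ⟨m, hm, ?_⟩
        unfold attSet
        rw [mem_filter]
        exact ⟨mem_Icc.2 ⟨hg1, hg2⟩, hatt⟩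
  have hcard1 : ((((range B).biUnion fun k => (badL (L k) (j k) (S k)).biUnion fun p =>
      cel (n ^ 2) (r * n) (21 / 20 * r * n) (L k) p.1 p.2 B k)).card : ℝ) ≤ κ * r * n / 10 := by
    have h1 : ((((range B).biUnion fun k => (badL (L k) (j k) (S k)).biUnion fun p =>
        cel (n ^ 2) (r * n) (21 / 20 * r * n) (L k) p.1 p.2 B k)).card : ℝ) ≤
        ∑ k ∈ range B, ∑ p ∈ badL (L k) (j k) (S k),
          ((cel (n ^ 2) (r * n) (21 / 20 * r * n) (L k) p.1 p.2 B k).card : ℝ) := by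
      have h2 : ((range B).biUnion fun k => (badL (L k) (j k) (S k)).biUnion fun p =>
          cel (n ^ 2) (r * n) (21 / 20 * r * n) (L k) p.1 p.2 B k).card ≤
          ∑ k ∈ range B, ∑ p ∈ badL (L k) (j k) (S k),
          (cel (n ^ 2) (r * n) (21 / 20 * r * n) (L k) p.1 p.2 B k).card :=
        card_biUnion_le.trans (sum_le_sum fun k _ => card_biUnion_le)
      exact_mod_cast h2
    refine h1.trans ?_
    have h3 : ∀ k ∈ range B, ∑ p ∈ badL (L k) (j k) (S k),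
        ((cel (n ^ 2) (r * n) (21 / 20 * r * n) (L k) p.1 p.2 B k).card : ℝ) ≤
        κ * r * n / 10 / B := by
      intro k hk
      have hkB := mem_range.1 hk
      obtain ⟨hj1, hj2, hL1, hDk⟩ := hD k
      obtain ⟨hd1, hd2, hd3, hd4⟩ := hDk hkB
      have hLp : (0 : ℝ) < L k := by exact_mod_cast hL1
      have h4 : ∀ p ∈ badL (L k) (j k) (S k),
          ((cel (n ^ 2) (r * n) (21 / 20 * r * n) (L k) p.1 p.2 B k).card : ℝ) ≤
          (1 + 1) * (r * n / 20) / ((L k : ℝ) ^ 2 * B) := by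
        intro p hp
        unfold badL at hp
        rw [mem_filter, mem_product, mem_range, mem_range] at hp
        exact hnE k n ((hN0 k hkB).trans hn0) p.1 p.2 k hp.1.1 hp.1.2 hkB
      refine (sum_le_card_nsmul _ _ _ h4).trans ?_
      rw [nsmul_eq_mul]
      have h5 : ((badL (L k) (j k) (S k)).card : ℝ) ≤ κ * (L k : ℝ) ^ 2 :=
        hd4.trans (mul_le_mul_of_nonneg_right (min_le_left _ _) (by positivity))
      calc ((badL (L k) (j k) (S k)).card : ℝ) * ((1 + 1) * (r * n / 20) / ((L k : ℝ) ^ 2 * B))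
          ≤ κ * (L k : ℝ) ^ 2 * ((1 + 1) * (r * n / 20) / ((L k : ℝ) ^ 2 * B)) :=
            mul_le_mul_of_nonneg_right h5 (by positivity)
        _ = κ * r * n / 10 / B := by field_simp; ring
    refine (sum_le_card_nsmul _ _ _ h3).trans ?_
    rw [nsmul_eq_mul, card_range]
    apply le_of_eq
    field_simp
  have hcard2 : ((((range B).biUnion fun k => (S k).biUnion fun s => (Ex f F n c).biUnion fun m =>
      attSet s.1 s.2.1 s.2.2.1 (j k) m r n)).card : ℝ) ≤ C * Dw A f F n c := by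
    have h1 : ((((range B).biUnion fun k => (S k).biUnion fun s => (Ex f F n c).biUnion fun m =>
        attSet s.1 s.2.1 s.2.2.1 (j k) m r n)).card : ℝ) ≤
        ∑ k ∈ range B, ∑ s ∈ S k, ∑ m ∈ Ex f F n c,
          ((attSet s.1 s.2.1 s.2.2.1 (j k) m r n).card : ℝ) := by
      have h2 : ((range B).biUnion fun k => (S k).biUnion fun s => (Ex f F n c).biUnion fun m =>
          attSet s.1 s.2.1 s.2.2.1 (j k) m r n).card ≤
          ∑ k ∈ range B, ∑ s ∈ S k, ∑ m ∈ Ex f F n c,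
          (attSet s.1 s.2.1 s.2.2.1 (j k) m r n).card :=
        card_biUnion_le.trans (sum_le_sum fun k _ => card_biUnion_le.trans
          (sum_le_sum fun s _ => card_biUnion_le))
      exact_mod_cast h2
    refine h1.trans ?_
    rw [hCdef, sum_mul]
    apply sum_le_sum
    intro k hk
    have hkB := mem_range.1 hk
    obtain ⟨hj1, hj2, hL1, hDk⟩ := hD k
    obtain ⟨hd1, hd2, hd3, hd4⟩ := hDk hkB
    have h4 : ∀ s ∈ S k, ∑ m ∈ Ex f F n c, ((attSet s.1 s.2.1 s.2.2.1 (j k) m r n).card : ℝ) ≤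
        (3 + 5 * r / c) * Dw A f F n c := by
      intro s hs
      have hlnk := (hd3 s hs).1
      unfold Dw
      rw [mul_sum]
      apply sum_le_sum
      intro m hm
      have hm1 : 1 ≤ m := by
        unfold Ex at hm
        rw [mem_filter, mem_Icc] at hm
        have h5 : n ^ 2 ≤ m := Nat.ceil_le.1 hm.1.1
        have h6 : (1 : ℝ) ≤ m := by nlinarith
        exact_mod_cast h6
      have hjn : ((j k : ℕ) : ℝ) ≤ r * n := le_trans (by exact_mod_cast hj2) hJrn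
      refine (attSet_card hAtN _ _ _ (j k) m r A n hlnk.1 hlnk.2.1 hlnk.2.2.1 hm1 hrp
        (hAs k hkB s hs).1 (hAs k hkB s hs).2 hnA hjn).trans ?_
      rw [mul_comm]
      exact mul_le_mul_of_nonneg_right (Lnk_ratio c r _ _ _ _ _ hc hrp hlnk) (Nat.cast_nonneg _)
    refine (sum_le_card_nsmul _ _ _ h4).trans ?_
    rw [nsmul_eq_mul, ← mul_assoc]
  have hDv2 : C * Dw A f F n c ≤ κ * r * n / 2 := by
    have h1 : C * Dw A f F n c ≤ C * (κ * r / (2 * (C + 1)) * n) := mul_le_mul_of_nonneg_left hDv hC0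
    refine h1.trans ?_
    have h2 : C * (κ * r / (2 * (C + 1)) * n) = (C / (C + 1)) * (κ * r * n / 2) := by
      field_simp
    rw [h2]
    have h3 : C / (C + 1) ≤ 1 := by
      rw [div_le_one (by linarith)]; linarith
    have h4 : 0 ≤ κ * r * n / 2 := by positivity
    nlinarith
  have hfin : (((Icc ⌈r * n⌉₊ ⌊21 / 20 * r * n⌋₊).filter
      (fun g => f g ≠ f (g + j (cno (n ^ 2) B g)))).card : ℝ) ≤ κ * r * n / 10 + κ * r * n / 2 := by
    have h1 := (card_le_card hsub).trans (card_union_le _ _)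
    have h2 : (((Icc ⌈r * n⌉₊ ⌊21 / 20 * r * n⌋₊).filter
      (fun g => f g ≠ f (g + j (cno (n ^ 2) B g)))).card : ℝ) ≤
      ((((range B).biUnion fun k => (badL (L k) (j k) (S k)).biUnion fun p =>
          cel (n ^ 2) (r * n) (21 / 20 * r * n) (L k) p.1 p.2 B k)).card : ℝ) +
      ((((range B).biUnion fun k => (S k).biUnion fun s => (Ex f F n c).biUnion fun m =>
          attSet s.1 s.2.1 s.2.2.1 (j k) m r n)).card : ℝ) := by
      exact_mod_cast h1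
    linarith
  have hpos : 0 ≤ κ * r * n := by positivity
  linarith

end Pool.Agent.Work.MP_a8fbd7_nt.PAR.LC.I_BlN
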