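import Pool.Agent.Work.MP_a8fbd7_nt.PAR.LC.Stmts4

set_option autoImplicit false

/-!
MP_a8fbd7_nt, block LC, item CnN (helper56): from near weights to numbers.
-/

open Finset

noncomputable section

namespace Pool.Agent.Work.MP_a8fbd7_nt.PAR.LC.I_CnN

theorem prf (hCtR : StCtR) : StCnN := by
  intro hW c hc
  have hc' : 0 < min c 1 := lt_min hc one_pos
  obtain ⟨A0, δ, x0, hA0, hδ, hx0⟩ := hW (min c 1) hc'
  obtain ⟨C, n1, hC, hn1, hCn⟩ := hCtR A0 hA0
  refine ⟨δ ^ 2 / C, max x0 (max (n1 ^ 2) (Real.exp 2)), by positivity, fun x hx s hs => ?_⟩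
  have hx1 : x0 ≤ x := (le_max_left _ _).trans hx
  have hx2 : n1 ^ 2 ≤ x := (le_max_left _ _).trans ((le_max_right _ _).trans hx)
  have hx3 : Real.exp 2 ≤ x := (le_max_right _ _).trans ((le_max_right _ _).trans hx)
  have hxpos : 0 < x := (Real.exp_pos 2).trans_le hx3
  have hx4 : 2 ≤ Real.log x := (Real.le_log_iff_exp_le hxpos).2 hx3
  have hlog : 0 < Real.log x := by linarith
  have hn : n1 ≤ Real.sqrt x := Real.le_sqrt_of_sq_le hx2
  have hsx : 0 < Real.sqrt x := by linarith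
  have hs2 : Real.sqrt x ^ 2 = x := Real.sq_sqrt hxpos.le
  have hw := hx0 x hx1 s hs
  set A := (Icc ⌈x⌉₊ ⌊x + min c 1 * Real.sqrt x⌋₊).filter
    (fun m => ArithmeticFunction.liouville m = s) with hA
  have h1 : (∑ m ∈ A, nw A0 (Real.sqrt x) m) ^ 2 ≤
      A.card * ∑ m ∈ A, nw A0 (Real.sqrt x) m ^ 2 := sq_sum_le_card_mul_sum_sq
  have hCx := hCn (Real.sqrt x) (min c 1) hn hc' (min_le_right _ _)
  rw [hs2] at hCx
  have hlogn : 1 + Real.log (Real.sqrt x) ≤ Real.log x := by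
    rw [Real.log_sqrt hxpos.le]
    linarith
  have hlogn0 : 0 ≤ 1 + Real.log (Real.sqrt x) := by
    have : 0 ≤ Real.log (Real.sqrt x) := Real.log_nonneg (by linarith)
    linarith
  have h2 : ∑ m ∈ A, nw A0 (Real.sqrt x) m ^ 2 ≤ C * Real.sqrt x * Real.log x ^ 2 := by
    refine (sum_le_sum_of_subset_of_nonneg (filter_subset _ _) (fun _ _ _ => sq_nonneg _)).trans
      (hCx.trans ?_)
    exact mul_le_mul_of_nonneg_left (pow_le_pow_left₀ hlogn0 hlogn 2) (by positivity)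
  have h3 : (δ * Real.sqrt x) ^ 2 ≤ (∑ m ∈ A, nw A0 (Real.sqrt x) m) ^ 2 :=
    pow_le_pow_left₀ (by positivity) hw 2
  have h4 : (δ * Real.sqrt x) ^ 2 ≤ A.card * (C * Real.sqrt x * Real.log x ^ 2) :=
    h3.trans (h1.trans (mul_le_mul_of_nonneg_left h2 (Nat.cast_nonneg _)))
  have h5 : δ ^ 2 * Real.sqrt x ≤ C * (A.card * Real.log x ^ 2) := by
    have e1 : (δ * Real.sqrt x) ^ 2 = (δ ^ 2 * Real.sqrt x) * Real.sqrt x := by ring
    have e2 : (A.card : ℝ) * (C * Real.sqrt x * Real.log x ^ 2) =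
        (C * (A.card * Real.log x ^ 2)) * Real.sqrt x := by ring
    rw [e1, e2] at h4
    exact le_of_mul_le_mul_right h4 hsx
  have h6 : δ ^ 2 / C * Real.sqrt x / Real.log x ^ 2 ≤ (A.card : ℝ) := by
    rw [div_le_iff₀ (by positivity)]
    rw [div_mul_eq_mul_div, div_le_iff₀ hC]
    linarith
  refine h6.trans ?_
  have h7 : A ⊆ (Icc ⌈x⌉₊ ⌊x + c * Real.sqrt x⌋₊).filter
      (fun m => ArithmeticFunction.liouville m = s) := by
    rw [hA]
    apply filter_subset_filter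
    apply Icc_subset_Icc_right
    apply Nat.floor_le_floor
    have := min_le_left c 1
    nlinarith
  exact_mod_cast card_le_card h7

end Pool.Agent.Work.MP_a8fbd7_nt.PAR.LC.I_CnN
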