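import Pool.Agent.Work.MP_a8fbd7_nt.PAR.LC.Stmts4

set_option autoImplicit false

/-!
MP_a8fbd7_nt, block LC, item EnN: conclusion of the local argument.
-/

open Finset

noncomputable section

namespace Pool.Agent.Work.MP_a8fbd7_nt.PAR.LC.I_EnN

theorem count (f : ℕ → ℤ) (h0 X : ℕ) (hX : h0 ≤ X) :
    X ≤ ((Ico X (2 * X)).filter (fun x => ∀ i < h0, f (x + i) = f x)).card +
      h0 * ((Ico X (3 * X)).filter (fun m => f m ≠ f (m + 1))).card := by
  classical
  obtain ⟨G, hG⟩ : ∃ G, G = (Ico X (2 * X)).filter (fun x => ∀ i < h0, f (x + i) = f x) :=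
    ⟨_, rfl⟩
  obtain ⟨B, hB⟩ : ∃ B, B = (Ico X (3 * X)).filter (fun m => f m ≠ f (m + 1)) := ⟨_, rfl⟩
  rw [← hG, ← hB]
  have hsub : Ico X (2 * X) ⊆ G ∪ (range h0 ×ˢ B).image (fun p => p.2 - p.1) := by
    intro x hx
    by_cases hg : ∀ i < h0, f (x + i) = f x
    · exact mem_union_left _ (by rw [hG]; exact mem_filter.2 ⟨hx, hg⟩)
    · push Not at hg
      obtain ⟨i, hi, hne⟩ := hg
      have hex : ∃ j < i, f (x + j) ≠ f (x + j + 1) := by
        by_contra hcon
        push Not at hcon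
        have hall : ∀ j ≤ i, f (x + j) = f x := by
          intro j
          induction j with
          | zero => intro _; rfl
          | succ j ih =>
            intro hj
            rw [← ih (by omega), hcon j (by omega)]
            rfl
        exact hne (hall i le_rfl)
      obtain ⟨j, hj, hne'⟩ := hex
      apply mem_union_right
      rw [mem_image]
      rw [mem_Ico] at hx
      refine ⟨(j, x + j), mem_product.2 ⟨mem_range.2 (by omega), ?_⟩, Nat.add_sub_cancel _ _⟩
      rw [hB]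
      exact mem_filter.2 ⟨mem_Ico.2 ⟨by omega, by omega⟩, hne'⟩
  have h1 := card_le_card hsub
  have h2 := card_union_le G ((range h0 ×ˢ B).image (fun p => p.2 - p.1))
  have h3 := card_image_le (s := range h0 ×ˢ B) (f := fun p => p.2 - p.1)
  rw [card_product, card_range] at h3
  rw [Nat.card_Ico] at h1
  omega

theorem lam_val (a : ℕ) (ha : 0 < a) : lam a = 1 ∨ lam a = -1 := by
  unfold lam
  rw [ArithmeticFunction.liouville_apply ha.ne']
  exact neg_one_pow_eq_or ℤ _

theorem lam_sgn : Sgn lam where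
  mul a b _ _ := ArithmeticFunction.liouville_apply_mul a b
  val := lam_val

theorem prf (hLC : StLUN) : StEnN := by
  rintro ⟨h0, X0, hh0, hMR⟩ c hc
  have hc' : 0 < min c 1 := lt_min hc one_pos
  have hh0' : (0 : ℝ) < h0 := by exact_mod_cast hh0
  obtain ⟨K, n0, δ, A, hK, hδ, hA, hL⟩ := hLC (min c 1) (1 / (8 * h0)) hc' (min_le_right _ _)
    (by positivity)
  obtain ⟨n1, hn1⟩ : ∃ n1 : ℝ, n1 = max (max 1 n0) (((X0 : ℝ) + h0 + 1) / K) := ⟨_, rfl⟩
  have h1n : 1 ≤ n1 := by rw [hn1]; exact (le_max_left _ _).trans (le_max_left _ _)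
  have h2n : n0 ≤ n1 := by rw [hn1]; exact (le_max_right _ _).trans (le_max_left _ _)
  have h3n : ((X0 : ℝ) + h0 + 1) / K ≤ n1 := by rw [hn1]; exact le_max_right _ _
  refine ⟨A, δ, n1 ^ 2, hA, hδ, fun x hx s hs => ?_⟩
  have hn : n1 ≤ Real.sqrt x := Real.le_sqrt_of_sq_le hx
  have hx1 : 1 ≤ x := by nlinarith
  have hnx : Real.sqrt x ^ 2 = x := Real.sq_sqrt (by linarith)
  have hn0 : 0 ≤ Real.sqrt x := Real.sqrt_nonneg x
  obtain ⟨n, hnn⟩ : ∃ n : ℝ, n = Real.sqrt x := ⟨_, rfl⟩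
  rw [← hnn] at hn hnx hn0 ⊢
  by_contra hcon
  push Not at hcon
  have hDv : Dw A lam (-s) n (min c 1) ≤ δ * n := by
    refine le_trans ?_ hcon.le
    unfold Dw Ex
    rw [hnx]
    apply sum_le_sum_of_subset_of_nonneg
    · intro m hm
      rw [mem_filter, mem_Icc] at hm ⊢
      have hm1 : 0 < m := by
        have h4 : 0 < ⌈x⌉₊ := Nat.ceil_pos.2 (by linarith)
        omega
      refine ⟨⟨hm.1.1, hm.1.2.trans (Nat.floor_le_floor ?_)⟩, ?_⟩
      · have h5 : min c 1 * n ≤ c * n := mul_le_mul_of_nonneg_right (min_le_left _ _) hn0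
        linarith
      · have h6 := hm.2
        change lam m = s
        rcases lam_val m hm1 with h | h <;> rcases hs with rfl | rfl
        · exact h
        · exact absurd (by rw [h]; norm_num) h6
        · exact absurd h h6
        · exact h
    · intro i _ _
      exact Nat.cast_nonneg _
  obtain ⟨X, hKX, hX⟩ := hL n lam (-s) (h2n.trans hn) lam_sgn hDv
  have h7 : (X0 : ℝ) + h0 + 1 ≤ X := by
    rw [div_le_iff₀ hK] at h3n
    have h8 : n1 * K ≤ K * n := by
      rw [mul_comm]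
      exact mul_le_mul_of_nonneg_left hn hK.le
    linarith
  have h9 : X0 + h0 + 1 ≤ X := by exact_mod_cast h7
  have h10 := hMR X (by omega)
  have h11 := count lam h0 X (by omega)
  obtain ⟨G, hG⟩ : ∃ G, G =
    ((Ico X (2 * X)).filter (fun x => ∀ i < h0, lam (x + i) = lam x)).card := ⟨_, rfl⟩
  obtain ⟨B, hB⟩ : ∃ B, B = ((Ico X (3 * X)).filter (fun m => lam m ≠ lam (m + 1))).card :=
    ⟨_, rfl⟩
  rw [← hG] at h10 h11
  rw [← hB] at h11 hX
  have h12 : (2 * G : ℝ) ≤ X := by exact_mod_cast h10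
  have h13 : (X : ℝ) ≤ G + h0 * B := by exact_mod_cast h11
  have h14 : (h0 : ℝ) * B ≤ X / 8 := by
    have h15 := mul_le_mul_of_nonneg_left hX hh0'.le
    have h16 : (h0 : ℝ) * (1 / (8 * h0) * X) = X / 8 := by
      field_simp
    linarith
  have h17 : (0 : ℝ) < X := by
    have h18 : (0 : ℝ) ≤ X0 := Nat.cast_nonneg _
    linarith
  linarith

end Pool.Agent.Work.MP_a8fbd7_nt.PAR.LC.I_EnN
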