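import Pool.Agent.Work.MP_a8fbd7_nt.PAR.LC.Stmts4

set_option autoImplicit false

/-!
MP_a8fbd7_nt, block LC, item LCN: local constancy in one block, near weight.
-/

open Finset

noncomputable section

namespace Pool.Agent.Work.MP_a8fbd7_nt.PAR.LC.I_LCN

open Pool.Agent.Work.MP_a8fbd7_nt.PAR.LC

theorem prf (hBlk : StBlN) (hChn : StChn) : StLCN := by
  intro c ε hc hc1 hε
  set J : ℕ := ⌈8 / c ^ 2⌉₊ with hJ
  have hJ1 : 1 ≤ J := by
    rw [hJ]
    exact Nat.one_le_iff_ne_zero.2 (Nat.ceil_pos.2 (by positivity)).ne'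
  have hJc : 8 / c ^ 2 ≤ J := Nat.le_ceil _
  have hΛ1 : 1 ≤ J.factorial := Nat.factorial_pos J
  have hΛ : (1 : ℝ) ≤ (J.factorial : ℝ) := by exact_mod_cast hΛ1
  set Λ : ℝ := (J.factorial : ℝ) with hΛdef
  refine ⟨J.factorial, max (max (200 * J / c) (1200 * Λ / (c * ε))) 1, hΛ1, le_max_right _ _, ?_⟩
  intro r hr
  have hr1 : 1 ≤ r := (le_max_right _ _).trans hr
  have hr2 : 200 * J / c ≤ r := ((le_max_left _ _).trans (le_max_left _ _)).trans hr
  have hr3 : 1200 * Λ / (c * ε) ≤ r := ((le_max_right _ _).trans (le_max_left _ _)).trans hr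
  obtain ⟨B, jj, n0, δ, A, hB, hB2, hjj, hδ, hA, hmain⟩ := hBlk c r (ε / (2 * Λ)) J hc hc1 hJc hr2 (by positivity)
  refine ⟨max (max n0 (8 * Λ / ε)) 1, δ, A, hδ, hA, ?_⟩
  intro n f F hn hf hD
  have hn1 : 1 ≤ n := (le_max_right _ _).trans hn
  have hn2 : n0 ≤ n := ((le_max_left _ _).trans (le_max_left _ _)).trans hn
  have hn3 : 8 * Λ / ε ≤ n := ((le_max_right _ _).trans (le_max_left _ _)).trans hn
  have h1 := hmain n f F hn2 hf hD
  have h2 := hChn f r n B J jj hf (by linarith) (by linarith) (by nlinarith) hB hJ1 hjj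
  refine h2.trans ?_
  have hΛ0 : 0 < Λ := by linarith
  -- the three pieces
  have e1 : ε / (2 * Λ) * r * n = ε * r * n / Λ / 2 := by
    field_simp
  have e2 : (B : ℝ) * n / r ≤ ε * r * n / Λ / 4 := by
    have a1 : (B : ℝ) * n / r ≤ 300 * n / c := by
      rw [div_le_div_iff₀ (by linarith) hc]
      have : (B : ℝ) * c ≤ 300 * r := by
        rw [le_div_iff₀ hc] at hB2
        exact hB2
      nlinarith
    refine a1.trans ?_
    have a2 : 1200 * Λ ≤ r * (c * ε) := by
      rw [div_le_iff₀ (by positivity)] at hr3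
      exact hr3
    rw [div_div, div_le_div_iff₀ hc (by positivity)]
    nlinarith
  have e3 : (2 : ℝ) ≤ ε * r * n / Λ / 4 := by
    rw [div_div, le_div_iff₀ (by positivity)]
    rw [div_le_iff₀ hε] at hn3
    have : n * ε ≤ n * ε * r := by
      have : 0 ≤ n * ε := by positivity
      nlinarith
    nlinarith
  rw [e1] at h1
  linarith

end Pool.Agent.Work.MP_a8fbd7_nt.PAR.LC.I_LCN
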