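import Pool.Agent.Work.MP_a8fbd7_nt.PAR.LC.Stmts4

set_option autoImplicit false

/-!
MP_a8fbd7_nt, block LC, item TkS: divisors in dyadic intervals.
-/

open Finset

noncomputable section

namespace Pool.Agent.Work.MP_a8fbd7_nt.PAR.LC.I_TkS

/-- The indicator of divisibility. -/
def di (g a : ℕ) : ℝ := if g ∣ a then 1 else 0

theorem di_nonneg (g a : ℕ) : 0 ≤ di g a := by
  unfold di
  split_ifs <;> norm_num

theorem tk_eq (k : ℕ) {a : ℕ} (ha : 1 ≤ a) : tk k a = ∑ g ∈ Ico (2 ^ k) (2 ^ (k + 1)), di g a := by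
  unfold tk di
  rw [← Finset.sum_filter, Finset.sum_const, nsmul_eq_mul, mul_one]
  congr 2
  ext g
  simp only [mem_filter, Nat.mem_divisors, mem_Ico]
  constructor
  · rintro ⟨⟨h1, -⟩, h2⟩
    exact ⟨h2, h1⟩
  · rintro ⟨h2, h1⟩
    exact ⟨⟨h1, by omega⟩, h2⟩

theorem count (N g g' : ℕ) (hg : 1 ≤ g) (hg' : 1 ≤ g') :
    ∑ a ∈ Icc 1 N, di g a * di g' a ≤ N * (Nat.gcd g g' : ℝ) / (g * g') := by
  have h1 : ∑ a ∈ Icc 1 N, di g a * di g' a = ((N / Nat.lcm g g' : ℕ) : ℝ) := by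
    have h2 : ∀ a ∈ Icc 1 N, di g a * di g' a = if Nat.lcm g g' ∣ a then 1 else 0 := by
      intro a _
      unfold di
      by_cases h5 : Nat.lcm g g' ∣ a
      · obtain ⟨h3, h4⟩ := Nat.lcm_dvd_iff.1 h5
        rw [if_pos h3, if_pos h4, if_pos h5, mul_one]
      · rw [if_neg h5]
        by_cases h3 : g ∣ a
        · by_cases h4 : g' ∣ a
          · exact absurd (Nat.lcm_dvd h3 h4) h5
          · rw [if_neg h4, mul_zero]
        · rw [if_neg h3, zero_mul]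
    rw [Finset.sum_congr rfl h2, ← Finset.sum_filter, Finset.sum_const, nsmul_eq_mul, mul_one,
      ← Nat.Ioc_filter_dvd_card_eq_div]
    congr 2
  have hl : (0 : ℝ) < (Nat.lcm g g' : ℝ) := Nat.cast_pos.2 (Nat.lcm_pos hg hg')
  have hp : (Nat.gcd g g' : ℝ) * (Nat.lcm g g' : ℝ) = g * g' := by
    exact_mod_cast Nat.gcd_mul_lcm g g'
  have hgc : (0 : ℝ) < (Nat.gcd g g' : ℝ) := Nat.cast_pos.2 (Nat.gcd_pos_of_pos_left _ hg)
  rw [h1]
  refine Nat.cast_div_le.trans (le_of_eq ?_)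
  rw [← hp]
  field_simp

theorem gcd_le (g g' M : ℕ) (hg : 1 ≤ g) (hM : g ≤ M) :
    (Nat.gcd g g' : ℝ) ≤ ∑ d ∈ Icc 1 M, (d : ℝ) * (di d g * di d g') := by
  have h1 : Nat.gcd g g' ∈ Icc 1 M := mem_Icc.2 ⟨Nat.gcd_pos_of_pos_left _ hg,
    (Nat.gcd_le_left _ hg).trans hM⟩
  have h2 := Finset.single_le_sum (f := fun d : ℕ => (d : ℝ) * (di d g * di d g'))
    (fun d _ => mul_nonneg (Nat.cast_nonneg d) (mul_nonneg (di_nonneg _ _) (di_nonneg _ _))) h1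
  refine le_trans (le_of_eq ?_) h2
  unfold di
  rw [if_pos (Nat.gcd_dvd_left _ _), if_pos (Nat.gcd_dvd_right _ _)]
  ring

theorem inner (hHar : StHar) (k d : ℕ) (hd : 1 ≤ d) :
    ∑ g ∈ Ico (2 ^ k) (2 ^ (k + 1)), di d g / (g : ℝ) ≤ 2 / d := by
  have hd0 : (0 : ℝ) < d := Nat.cast_pos.2 hd
  have h1 := hHar.2.1 (2 ^ (k + 1)) ((2 : ℝ) ^ k / d) 2 (by positivity) (by norm_num)
  obtain ⟨H, hH⟩ : ∃ H : Finset ℕ, H = (Icc 1 (2 ^ (k + 1))).filter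
    (fun n : ℕ => (2 : ℝ) ^ k / d ≤ (n : ℝ) ∧ (n : ℝ) ≤ 2 * ((2 : ℝ) ^ k / d)) := ⟨_, rfl⟩
  rw [← hH] at h1
  have h2 : ∑ g ∈ Ico (2 ^ k) (2 ^ (k + 1)), di d g / (g : ℝ) =
      ∑ g ∈ (Ico (2 ^ k) (2 ^ (k + 1))).filter (fun g => d ∣ g), 1 / (g : ℝ) := by
    rw [Finset.sum_filter]
    refine Finset.sum_congr rfl fun g _ => ?_
    unfold di
    split_ifs
    · rfl
    · rw [zero_div]
  have h3 : (Ico (2 ^ k) (2 ^ (k + 1))).filter (fun g => d ∣ g) ⊆ H.image (fun h => d * h) := by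
    intro g hg
    rw [mem_filter, mem_Ico] at hg
    obtain ⟨⟨e1, e2⟩, h, rfl⟩ := hg
    refine mem_image.2 ⟨h, ?_, rfl⟩
    have hpos : 0 < d * h := lt_of_lt_of_le (by positivity) e1
    have hh : 1 ≤ h := by
      rcases Nat.eq_zero_or_pos h with h0 | h0
      · rw [h0, mul_zero] at hpos
        exact absurd hpos (lt_irrefl _)
      · exact h0
    have hle : h ≤ d * h := Nat.le_mul_of_pos_left _ hd
    have e1' : (2 : ℝ) ^ k ≤ d * h := by exact_mod_cast e1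
    have e2' : (d * h : ℝ) ≤ 2 ^ (k + 1) := by exact_mod_cast e2.le
    rw [hH, mem_filter, mem_Icc]
    refine ⟨⟨hh, by omega⟩, ?_, ?_⟩
    · rw [div_le_iff₀ hd0]
      linarith
    · rw [← mul_div_assoc, le_div_iff₀ hd0]
      rw [pow_succ] at e2'
      linarith
  rw [h2]
  refine (Finset.sum_le_sum_of_subset_of_nonneg h3 fun g _ _ => by positivity).trans ?_
  rw [Finset.sum_image fun x _ y _ hxy => Nat.eq_of_mul_eq_mul_left hd hxy]
  have h4 : ∀ h ∈ H, 1 / ((d * h : ℕ) : ℝ) = 1 / (d : ℝ) * (1 / (h : ℝ)) := by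
    intro h _
    push_cast
    rw [one_div_mul_one_div]
  rw [Finset.sum_congr rfl h4, ← Finset.mul_sum]
  calc 1 / (d : ℝ) * ∑ i ∈ H, 1 / (i : ℝ) ≤ 1 / (d : ℝ) * 2 :=
        mul_le_mul_of_nonneg_left h1 (by positivity)
    _ = 2 / d := by ring

theorem per_k (hHar : StHar) (N k : ℕ) :
    ∑ a ∈ Icc 1 N, tk k a ^ 2 ≤ 4 * N * (1 + Real.log (2 ^ (k + 1))) := by
  obtain ⟨I, hI⟩ : ∃ I : Finset ℕ, I = Ico (2 ^ k) (2 ^ (k + 1)) := ⟨_, rfl⟩
  have hIm : ∀ g ∈ I, 1 ≤ g ∧ g ≤ 2 ^ (k + 1) := by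
    intro g hg
    rw [hI, mem_Ico] at hg
    exact ⟨le_trans (Nat.one_le_pow _ _ (by norm_num)) hg.1, hg.2.le⟩
  obtain ⟨D, hD⟩ : ∃ D : Finset ℕ, D = Icc 1 (2 ^ (k + 1)) := ⟨_, rfl⟩
  have e1 : ∑ a ∈ Icc 1 N, tk k a ^ 2 =
      ∑ g ∈ I, ∑ g' ∈ I, ∑ a ∈ Icc 1 N, di g a * di g' a := by
    have e2 : ∀ a ∈ Icc 1 N, tk k a ^ 2 = ∑ g ∈ I, ∑ g' ∈ I, di g a * di g' a := by
      intro a ha
      rw [tk_eq k (mem_Icc.1 ha).1, ← hI, sq, Finset.sum_mul_sum]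
    rw [Finset.sum_congr rfl e2, Finset.sum_comm]
    refine Finset.sum_congr rfl fun g _ => ?_
    rw [Finset.sum_comm]
  rw [e1]
  have e3 : ∑ g ∈ I, ∑ g' ∈ I, ∑ a ∈ Icc 1 N, di g a * di g' a ≤
      ∑ g ∈ I, ∑ g' ∈ I, ∑ d ∈ D, (N : ℝ) * ((d : ℝ) * ((di d g / g) * (di d g' / g'))) := by
    refine Finset.sum_le_sum fun g hg => Finset.sum_le_sum fun g' hg' => ?_
    refine (count N g g' (hIm g hg).1 (hIm g' hg').1).trans ?_
    have hg0 : (0 : ℝ) < g := Nat.cast_pos.2 (hIm g hg).1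
    have hg0' : (0 : ℝ) < g' := Nat.cast_pos.2 (hIm g' hg').1
    have h1 := gcd_le g g' (2 ^ (k + 1)) (hIm g hg).1 (hIm g hg).2
    rw [← hD] at h1
    rw [← Finset.mul_sum]
    have h2 : ∑ d ∈ D, (d : ℝ) * ((di d g / g) * (di d g' / g')) =
        (∑ d ∈ D, (d : ℝ) * (di d g * di d g')) / (g * g') := by
      rw [Finset.sum_div]
      refine Finset.sum_congr rfl fun d _ => ?_
      field_simp
    rw [h2, mul_div_assoc]
    refine mul_le_mul_of_nonneg_left ?_ (Nat.cast_nonneg N)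
    exact div_le_div_of_nonneg_right h1 (by positivity)
  refine e3.trans ?_
  have e4 : ∑ g ∈ I, ∑ g' ∈ I, ∑ d ∈ D, (N : ℝ) * ((d : ℝ) * ((di d g / g) * (di d g' / g'))) =
      ∑ d ∈ D, (N : ℝ) * ((d : ℝ) * (∑ g ∈ I, di d g / g) ^ 2) := by
    have e5 : ∀ d : ℕ, (N : ℝ) * ((d : ℝ) * (∑ g ∈ I, di d g / g) ^ 2) =
        ∑ g ∈ I, ∑ g' ∈ I, (N : ℝ) * ((d : ℝ) * ((di d g / g) * (di d g' / g'))) := by
      intro d
      rw [sq, Finset.sum_mul_sum, Finset.mul_sum, Finset.mul_sum]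
      refine Finset.sum_congr rfl fun g _ => ?_
      rw [Finset.mul_sum, Finset.mul_sum]
    rw [Finset.sum_congr rfl fun d _ => e5 d]
    symm
    rw [Finset.sum_comm]
    refine Finset.sum_congr rfl fun g _ => ?_
    rw [Finset.sum_comm]
  rw [e4]
  have e6 : ∀ d ∈ D, (N : ℝ) * ((d : ℝ) * (∑ g ∈ I, di d g / g) ^ 2) ≤ 4 * N * (1 / (d : ℝ)) := by
    intro d hd
    rw [hD, mem_Icc] at hd
    have hd0 : (0 : ℝ) < d := Nat.cast_pos.2 hd.1
    have h1 := inner hHar k d hd.1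
    rw [← hI] at h1
    have h0 : 0 ≤ ∑ g ∈ I, di d g / (g : ℝ) :=
      Finset.sum_nonneg fun g _ => div_nonneg (di_nonneg _ _) (Nat.cast_nonneg g)
    have h2 := pow_le_pow_left₀ h0 h1 2
    calc (N : ℝ) * ((d : ℝ) * (∑ g ∈ I, di d g / g) ^ 2) ≤ (N : ℝ) * ((d : ℝ) * (2 / d) ^ 2) :=
          mul_le_mul_of_nonneg_left (mul_le_mul_of_nonneg_left h2 hd0.le) (Nat.cast_nonneg N)
      _ = 4 * N * (1 / (d : ℝ)) := by
          field_simp
          ring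
  refine (Finset.sum_le_sum e6).trans ?_
  rw [← Finset.mul_sum, hD]
  have h7 := hHar.1 (2 ^ (k + 1))
  push_cast at h7
  exact mul_le_mul_of_nonneg_left h7 (by positivity)

theorem prf (hHar : StHar) : StTkS := by
  intro N hN
  have hN0 : (0 : ℝ) < N := Nat.cast_pos.2 hN
  have hN1 : (1 : ℝ) ≤ N := by exact_mod_cast hN
  have hlog : 0 ≤ Real.log N := Real.log_nonneg hN1
  have hl2 : Real.log 2 ≤ 1 := by
    have := Real.log_two_lt_d9
    linarith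
  have hl2' : (1 : ℝ) / 2 ≤ Real.log 2 := by
    have := Real.log_two_gt_d9
    linarith
  rw [Finset.sum_comm]
  have h1 : ∀ k ∈ range (Nat.log 2 N + 1), ∑ a ∈ Icc 1 N, tk k a ^ 2 ≤
      8 * N * (1 + Real.log N) := by
    intro k hk
    refine (per_k hHar N k).trans ?_
    have h2 : 2 ^ k ≤ N := by
      have h3 : k ≤ Nat.log 2 N := Nat.lt_succ_iff.1 (mem_range.1 hk)
      exact (Nat.pow_le_pow_right (by norm_num) h3).trans (Nat.pow_log_le_self 2 (by omega))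
    have h4 : (2 : ℝ) ^ (k + 1) ≤ 2 * N := by
      have h5 : (2 : ℝ) ^ k ≤ N := by exact_mod_cast h2
      rw [pow_succ]
      linarith
    have h6 : Real.log (2 ^ (k + 1)) ≤ Real.log 2 + Real.log N := by
      rw [← Real.log_mul (by norm_num) hN0.ne']
      exact Real.log_le_log (by positivity) h4
    calc 4 * (N : ℝ) * (1 + Real.log (2 ^ (k + 1))) ≤ 4 * N * (2 * (1 + Real.log N)) :=
          mul_le_mul_of_nonneg_left (by linarith) (by positivity)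
      _ = 8 * N * (1 + Real.log N) := by ring
  refine (Finset.sum_le_sum h1).trans ?_
  rw [Finset.sum_const, card_range, nsmul_eq_mul]
  have h8 : ((Nat.log 2 N + 1 : ℕ) : ℝ) ≤ 2 * (1 + Real.log N) := by
    have h9 : (2 : ℝ) ^ (Nat.log 2 N) ≤ N := by
      exact_mod_cast Nat.pow_log_le_self 2 (by omega)
    have h10 := Real.log_le_log (by positivity) h9
    rw [Real.log_pow] at h10
    push_cast
    have h11 : (0 : ℝ) ≤ (Nat.log 2 N : ℝ) := Nat.cast_nonneg _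
    nlinarith
  calc ((Nat.log 2 N + 1 : ℕ) : ℝ) * (8 * N * (1 + Real.log N))
      ≤ (2 * (1 + Real.log N)) * (8 * N * (1 + Real.log N)) :=
        mul_le_mul_of_nonneg_right h8 (by positivity)
    _ = 16 * N * (1 + Real.log N) ^ 2 := by ring

end Pool.Agent.Work.MP_a8fbd7_nt.PAR.LC.I_TkS
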