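import Pool.Agent.Work.MP_a8fbd7_nt.PAR.LC.Fin
import Pool.Agent.Work.MP_a8fbd7_nt.PAR.LC.I_AtN
import Pool.Agent.Work.MP_a8fbd7_nt.PAR.LC.I_BlN
import Pool.Agent.Work.MP_a8fbd7_nt.PAR.LC.I_LCN
import Pool.Agent.Work.MP_a8fbd7_nt.PAR.LC.I_LUN
import Pool.Agent.Work.MP_a8fbd7_nt.PAR.LC.I_EnN
import Pool.Agent.Work.MP_a8fbd7_nt.PAR.LC.I_TkS
import Pool.Agent.Work.MP_a8fbd7_nt.PAR.LC.I_CtR
import Pool.Agent.Work.MP_a8fbd7_nt.PAR.LC.I_CnN

set_option autoImplicit false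

/-!
MP_a8fbd7_nt, block LC, part N: assembly.  `LC_allN : MRweak → ThmN` (near weight of each sign at least `δ √x`) and
`LC_allQ : MRweak → ThmQ` (at least `δ √x/(log x)^2` integers of each sign).
-/

namespace Pool.Agent.Work.MP_a8fbd7_nt.PAR.LC

theorem a_BlN : StBlN := I_BlN.prf a_SM a_EQ a_LkD I_AtN.prf
theorem a_LCN : StLCN := I_LCN.prf a_BlN I_Chn.prf
theorem a_LUN : StLUN := I_LUN.prf a_LCN
theorem a_EnN : StEnN := I_EnN.prf a_LUN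
theorem a_TkS : StTkS := I_TkS.prf a_Har
theorem a_CtR : StCtR := I_CtR.prf a_TkS I_Cap.prf
theorem a_CnN : StCnN := I_CnN.prf a_CtR

/-- near weight -/
theorem LC_allN : MRweak → ThmN := a_EnN

/-- numbers -/
theorem LC_allQ : MRweak → ThmQ := fun h => a_CnN (a_EnN h)

end Pool.Agent.Work.MP_a8fbd7_nt.PAR.LC
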