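import Pool.Agent.Work.MP_a8fbd7_nt.PAR.LC.Stmts2

set_option autoImplicit false

namespace Pool.Agent.Work.MP_a8fbd7_nt.PAR.LC.I_Alg

open Pool.Agent.Work.MP_a8fbd7_nt.PAR.LC

theorem prf : StAlg := by
  intro f F hf g j q t z U V W a1 a2 hq ht hz hU hV hW ha1 ha2 hg hgj h1 h2 h3 h4
  have e1 : f (a1 * z * U) = f a1 * f z * f U := by
    rw [hf.mul _ _ (Nat.mul_pos ha1 hz) hU, hf.mul _ _ ha1 hz]
  have e2 : f (t * U * W) = f t * f U * f W := by
    rw [hf.mul _ _ (Nat.mul_pos ht hU) hW, hf.mul _ _ ht hU]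
  have e3 : f (q * V * W) = f q * f V * f W := by
    rw [hf.mul _ _ (Nat.mul_pos hq hV) hW, hf.mul _ _ hq hV]
  have e4 : f (a2 * z * V) = f a2 * f z * f V := by
    rw [hf.mul _ _ (Nat.mul_pos ha2 hz) hV, hf.mul _ _ ha2 hz]
  rw [hgj, hg, hf.mul _ _ hq ha1, hf.mul _ _ ht ha2]
  rw [e1] at h1
  rw [e2] at h2
  rw [e3] at h3
  rw [e4] at h4
  have hne : f z * f U * f V * f W ≠ 0 :=
    mul_ne_zero (mul_ne_zero (mul_ne_zero (hf.ne hz) (hf.ne hU)) (hf.ne hV)) (hf.ne hW)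
  refine mul_right_cancel₀ hne ?_
  have e5 : f q * f a1 * (f z * f U * f V * f W) = (f a1 * f z * f U) * (f q * f V * f W) := by
    ring
  have e6 : f t * f a2 * (f z * f U * f V * f W) = (f t * f U * f W) * (f a2 * f z * f V) := by
    ring
  rw [e5, e6, h1, h2, h3, h4]

end Pool.Agent.Work.MP_a8fbd7_nt.PAR.LC.I_Alg
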