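import Pool.Agent.Work.MP_a8fbd7_nt.PAR.LC.Stmts

set_option autoImplicit false

open Finset

namespace Pool.Agent.Work.MP_a8fbd7_nt.PAR.LC.I_Gsd

theorem sq_sum (N : ℕ) (hN : 1 ≤ N) : ∑ a ∈ Icc 1 N, 1 / ((a : ℝ) * a) ≤ 2 - 1 / (N : ℝ) := by
  induction N, hN using Nat.le_induction with
  | base => norm_num
  | succ N hN ih =>
    rw [Finset.sum_Icc_succ_top (by omega)]
    have hN' : (0 : ℝ) < N := by exact_mod_cast hN
    have h1 : 1 / (((N + 1 : ℕ) : ℝ) * ((N + 1 : ℕ) : ℝ)) ≤ 1 / (N : ℝ) - 1 / ((N + 1 : ℕ) : ℝ) := by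
      push_cast
      rw [div_sub_div _ _ (by positivity) (by positivity), div_le_div_iff₀ (by positivity)
        (by positivity)]
      nlinarith
    linarith

open Classical in
theorem inner (hHar : StHar) (q t a : ℕ) (hq : 1 ≤ q) :
    ∑ a' ∈ (Icc 1 (q * t)).filter (fun a' => a < a' ∧ a ≡ a' [MOD q]), 1 / (a' : ℝ) ≤
      (1 + Real.log t) / q := by
  have hq0 : (0 : ℝ) < q := by exact_mod_cast hq
  set F := (Icc 1 (q * t)).filter (fun a' => a < a' ∧ a ≡ a' [MOD q]) with hF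
  have hk : ∀ a' ∈ F, ∃ k, a' = a + q * k ∧ 1 ≤ k ∧ k ≤ t := by
    intro a' ha'
    obtain ⟨h1, h2, h3⟩ := mem_filter.1 ha'
    obtain ⟨h4, h5⟩ := mem_Icc.1 h1
    obtain ⟨k, hk⟩ := (Nat.modEq_iff_dvd' h2.le).1 h3
    have h6 : a' = a + q * k := by omega
    refine ⟨k, h6, ?_, ?_⟩
    · by_contra h0
      have : k = 0 := by omega
      subst this
      omega
    · have : q * k ≤ q * t := by omega
      exact Nat.le_of_mul_le_mul_left this hq
  have hg : ∀ a' ∈ F, (a' - a) / q ∈ Icc 1 t ∧ a' = a + q * ((a' - a) / q) := by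
    intro a' ha'
    obtain ⟨k, h1, h2, h3⟩ := hk a' ha'
    have : (a' - a) / q = k := by
      rw [h1, Nat.add_sub_cancel_left, Nat.mul_div_cancel_left k hq]
    rw [this]
    exact ⟨mem_Icc.2 ⟨h2, h3⟩, h1⟩
  have hinj : Set.InjOn (fun a' => (a' - a) / q) (F : Set ℕ) := by
    intro x hx y hy hxy
    have h1 := (hg x hx).2
    have h2 := (hg y hy).2
    have h3 : (x - a) / q = (y - a) / q := hxy
    rw [h3] at h1
    omega
  calc ∑ a' ∈ F, 1 / (a' : ℝ) ≤ ∑ a' ∈ F, 1 / ((q : ℝ) * (((a' - a) / q : ℕ) : ℝ)) := by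
        refine sum_le_sum fun a' ha' => ?_
        obtain ⟨h1, h2⟩ := hg a' ha'
        have h3 : (0 : ℝ) < (((a' - a) / q : ℕ) : ℝ) := by
          exact_mod_cast (mem_Icc.1 h1).1
        apply one_div_le_one_div_of_le (by positivity)
        have h4 : q * ((a' - a) / q) ≤ a' := by omega
        exact_mod_cast h4
    _ = ∑ k ∈ F.image (fun a' => (a' - a) / q), 1 / ((q : ℝ) * (k : ℝ)) := by
        rw [sum_image hinj]
    _ ≤ ∑ k ∈ Icc 1 t, 1 / ((q : ℝ) * (k : ℝ)) := by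
        refine sum_le_sum_of_subset_of_nonneg ?_ fun i _ _ => by positivity
        intro k hk
        obtain ⟨a', ha', rfl⟩ := mem_image.1 hk
        exact (hg a' ha').1
    _ = (∑ k ∈ Icc 1 t, 1 / (k : ℝ)) / q := by
        rw [sum_div]
        refine sum_congr rfl fun k _ => ?_
        rw [one_div, mul_inv, one_div, div_eq_mul_inv, mul_comm]
    _ ≤ (1 + Real.log t) / q := div_le_div_of_nonneg_right (hHar.1 t) hq0.le

open Classical in
theorem prf (hGpa : StGpa) (hHar : StHar) : StGsd := by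
  intro W w0 ω e0 e1 q t hW hq ht hqt
  have h0 := hW.he0
  have h01 := hW.he01
  have he1 : 0 < e1 := by linarith
  have hq0 : (0 : ℝ) < q := by exact_mod_cast hq.pos
  have ht0 : (0 : ℝ) < t := by exact_mod_cast ht.pos
  have hl0 : 0 ≤ e1 / e0 := by positivity
  have hN : 1 ≤ q * t := Nat.mul_pos hq.pos ht.pos
  have h1 := hGpa W w0 ω e0 e1 q t t (q * t) hW hq ht ht hqt hqt le_rfl le_rfl
  have htq : Nat.Coprime q t := (Nat.coprime_primes hq ht).2 hqt
  have h2 : ∑ a ∈ (Icc 1 (q * t)).filter (fun a => a.Coprime q),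
      ∑ a' ∈ (Icc 1 (q * t)).filter (fun a' => a * t ≡ a' * t [MOD q] ∧
        (a' : ℝ) * t * e0 ≤ a * t * e1 ∧ (a : ℝ) * t * e0 ≤ a' * t * e1), 1 / ((a : ℝ) * a') ≤
      ∑ a ∈ Icc 1 (q * t), ∑ a' ∈ Icc 1 (q * t), (if a ≡ a' [MOD q] then 1 / ((a : ℝ) * a') else 0) := by
    refine le_trans (sum_le_sum_of_subset_of_nonneg (filter_subset _ _) fun i _ _ =>
      sum_nonneg fun j _ => by positivity) ?_
    refine sum_le_sum fun a _ => ?_
    rw [← sum_filter]
    refine sum_le_sum_of_subset_of_nonneg ?_ fun i _ _ => by positivity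
    intro a' ha'
    obtain ⟨m1, m2⟩ := mem_filter.1 ha'
    refine mem_filter.2 ⟨m1, ?_⟩
    exact Nat.ModEq.cancel_right_of_coprime htq m2.1
  have hHN := hHar.1 (q * t)
  have hL : Real.log ((q * t : ℕ) : ℝ) = Real.log (q * t) := by push_cast; rfl
  have hlogt : Real.log t ≤ Real.log (q * t) := by
    apply Real.log_le_log ht0
    have : (1 : ℝ) ≤ q := by exact_mod_cast hq.one_le
    nlinarith
  have hlog0 : 0 ≤ Real.log (q * t) := by
    rw [← hL]
    exact Real.log_nonneg (by exact_mod_cast hN)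
  have hlt : ∑ a ∈ Icc 1 (q * t), ∑ a' ∈ Icc 1 (q * t),
      (if a < a' ∧ a ≡ a' [MOD q] then 1 / ((a : ℝ) * a') else 0) ≤
      (1 + Real.log (q * t)) ^ 2 / q := by
    have e1 : ∑ a ∈ Icc 1 (q * t), ∑ a' ∈ Icc 1 (q * t),
      (if a < a' ∧ a ≡ a' [MOD q] then 1 / ((a : ℝ) * a') else 0) ≤
        ∑ a ∈ Icc 1 (q * t), (1 / (a : ℝ)) * ((1 + Real.log (q * t)) / q) := by
      refine sum_le_sum fun a _ => ?_
      rw [← sum_filter]
      have e2 : ∑ a' ∈ (Icc 1 (q * t)).filter (fun a' => a < a' ∧ a ≡ a' [MOD q]),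
          1 / ((a : ℝ) * a') = (1 / (a : ℝ)) *
          ∑ a' ∈ (Icc 1 (q * t)).filter (fun a' => a < a' ∧ a ≡ a' [MOD q]), 1 / (a' : ℝ) := by
        rw [mul_sum]
        refine sum_congr rfl fun a' _ => ?_
        rw [one_div_mul_one_div]
      rw [e2]
      refine mul_le_mul_of_nonneg_left (le_trans (inner hHar q t a hq.one_le) ?_) (by positivity)
      exact div_le_div_of_nonneg_right (by linarith) hq0.le
    refine le_trans e1 ?_
    rw [← sum_mul, pow_two, mul_div_assoc]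
    refine mul_le_mul_of_nonneg_right ?_ (by positivity)
    rw [← hL]
    exact hHN
  have hgt : ∑ a ∈ Icc 1 (q * t), ∑ a' ∈ Icc 1 (q * t),
      (if a' < a ∧ a ≡ a' [MOD q] then 1 / ((a : ℝ) * a') else 0) ≤
      (1 + Real.log (q * t)) ^ 2 / q := by
    rw [sum_comm]
    refine le_trans (le_of_eq ?_) hlt
    refine sum_congr rfl fun a _ => sum_congr rfl fun a' _ => ?_
    have : (a < a' ∧ a' ≡ a [MOD q]) ↔ (a < a' ∧ a ≡ a' [MOD q]) :=
      ⟨fun o => ⟨o.1, o.2.symm⟩, fun o => ⟨o.1, o.2.symm⟩⟩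
    by_cases hc : a < a' ∧ a ≡ a' [MOD q]
    · rw [if_pos hc, if_pos (this.2 hc), mul_comm]
    · rw [if_neg hc, if_neg (fun o => hc (this.1 o))]
  have hdg : ∑ a ∈ Icc 1 (q * t), ∑ a' ∈ Icc 1 (q * t),
      (if a' = a then 1 / ((a : ℝ) * a') else 0) ≤ 2 := by
    have e1 : ∑ a ∈ Icc 1 (q * t), ∑ a' ∈ Icc 1 (q * t),
      (if a' = a then 1 / ((a : ℝ) * a') else 0) = ∑ a ∈ Icc 1 (q * t), 1 / ((a : ℝ) * a) := by
      refine sum_congr rfl fun a ha => ?_
      rw [sum_ite_eq' (Icc 1 (q * t)) a (fun a' => 1 / ((a : ℝ) * a')), if_pos ha]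
    rw [e1]
    have := sq_sum (q * t) hN
    have h3 : (0 : ℝ) ≤ 1 / ((q * t : ℕ) : ℝ) := by positivity
    linarith
  have h3 : ∑ a ∈ Icc 1 (q * t), ∑ a' ∈ Icc 1 (q * t),
      (if a ≡ a' [MOD q] then 1 / ((a : ℝ) * a') else 0) ≤
      2 + 2 * ((1 + Real.log (q * t)) ^ 2 / q) := by
    have e1 : ∑ a ∈ Icc 1 (q * t), ∑ a' ∈ Icc 1 (q * t),
      (if a ≡ a' [MOD q] then 1 / ((a : ℝ) * a') else 0) =
      ∑ a ∈ Icc 1 (q * t), ∑ a' ∈ Icc 1 (q * t),
        (if a' = a then 1 / ((a : ℝ) * a') else 0) +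
      (∑ a ∈ Icc 1 (q * t), ∑ a' ∈ Icc 1 (q * t),
        (if a < a' ∧ a ≡ a' [MOD q] then 1 / ((a : ℝ) * a') else 0) +
      ∑ a ∈ Icc 1 (q * t), ∑ a' ∈ Icc 1 (q * t),
        (if a' < a ∧ a ≡ a' [MOD q] then 1 / ((a : ℝ) * a') else 0)) := by
      rw [← sum_add_distrib, ← sum_add_distrib]
      refine sum_congr rfl fun a _ => ?_
      rw [← sum_add_distrib, ← sum_add_distrib]
      refine sum_congr rfl fun a' _ => ?_
      rcases lt_trichotomy a a' with hlt' | heq | hgt'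
      · by_cases hm : a ≡ a' [MOD q]
        · rw [if_pos hm, if_neg (by omega), if_pos ⟨hlt', hm⟩, if_neg (by omega)]
          ring
        · rw [if_neg hm, if_neg (by omega), if_neg (fun o => hm o.2), if_neg (by omega)]
          ring
      · subst heq
        rw [if_pos (Nat.ModEq.refl a), if_pos rfl, if_neg (by omega)]
        ring
      · by_cases hm : a ≡ a' [MOD q]
        · rw [if_pos hm, if_neg (by omega), if_neg (by omega), if_pos ⟨hgt', hm⟩]
          ring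
        · rw [if_neg hm, if_neg (by omega), if_neg (by omega), if_neg (fun o => hm o.2)]
          ring
    rw [e1]
    linarith
  calc Gs W w0 ω e0 e1 q t t ≤ (e1 / e0) * (2 + 2 * ((1 + Real.log (q * t)) ^ 2 / q)) :=
        le_trans h1 (mul_le_mul_of_nonneg_left (h2.trans h3) hl0)
    _ = _ := by ring

end Pool.Agent.Work.MP_a8fbd7_nt.PAR.LC.I_Gsd
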