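import Pool.Agent.Work.MP_a8fbd7_nt.PAR.LC.Stmts2

set_option autoImplicit false

/-!
MP_a8fbd7_nt, block LC, item LCu: union of the 25 blocks with ratio 21/20.
-/

open Finset

noncomputable section

namespace Pool.Agent.Work.MP_a8fbd7_nt.PAR.LC.I_LCu

namespace Aux

/-- `r_i = r0 (21/20)^i`. -/
def rr (r0 : ℝ) (i : ℕ) : ℝ := r0 * (21 / 20) ^ i

lemma rr_zero (r0 : ℝ) : rr r0 0 = r0 := by simp [rr]

lemma rr_succ (r0 : ℝ) (i : ℕ) : rr r0 (i + 1) = 21 / 20 * rr r0 i := by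
  simp only [rr, pow_succ]; ring

lemma rr_ge (r0 : ℝ) (h : 1 ≤ r0) (i : ℕ) : r0 ≤ rr r0 i := by
  have h1 : (1 : ℝ) ≤ (21 / 20) ^ i := one_le_pow₀ (by norm_num)
  have : r0 * 1 ≤ r0 * (21 / 20) ^ i := mul_le_mul_of_nonneg_left h1 (by linarith)
  simpa [rr] using this

lemma rr_le (r0 : ℝ) (h : 1 ≤ r0) (i : ℕ) (hi : i < 25) : rr r0 i ≤ 33 / 10 * r0 := by
  have h1 : ((21 : ℝ) / 20) ^ i ≤ (21 / 20) ^ 24 := pow_le_pow_right₀ (by norm_num) (by omega)
  have h2 : ((21 : ℝ) / 20) ^ 24 ≤ 33 / 10 := by norm_num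
  have : r0 * (21 / 20) ^ i ≤ r0 * (33 / 10) := mul_le_mul_of_nonneg_left (h1.trans h2) (by linarith)
  simp only [rr]; linarith

lemma rr_top (r0 : ℝ) (h : 1 ≤ r0) : 33 / 10 * r0 ≤ rr r0 25 := by
  have h2 : (33 : ℝ) / 10 ≤ (21 / 20) ^ 25 := by norm_num
  have : r0 * (33 / 10) ≤ r0 * (21 / 20) ^ 25 := mul_le_mul_of_nonneg_left h2 (by linarith)
  simp only [rr]; linarith

/-- block `i` -/
def blk (f : ℕ → ℤ) (L : ℕ) (r n : ℝ) : Finset ℕ :=
  (range (⌊21 / 20 * r * n⌋₊ + 1)).filter (fun m : ℕ => r * n ≤ (L : ℝ) * m ∧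
      (L : ℝ) * (m + 1) ≤ 21 / 20 * r * n ∧ f m ≠ f (m + 1))

/-- last element of block `i` -/
def lst (X L : ℕ) (r n : ℝ) : Finset ℕ :=
  (Ico X (3 * X)).filter (fun m : ℕ => (L : ℝ) * m < 21 / 20 * r * n ∧ 21 / 20 * r * n < (L : ℝ) * (m + 1))

lemma lst_aux (X L : ℕ) (r n : ℝ) (a b : ℕ) (ha : a ∈ lst X L r n) (hb : b ∈ lst X L r n) : ¬ a < b := by
  intro hab
  simp only [lst, mem_filter] at ha hb
  have h1 : ((a : ℝ) + 1) ≤ b := by exact_mod_cast hab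
  have h2 : (L : ℝ) * ((a : ℝ) + 1) ≤ (L : ℝ) * b := mul_le_mul_of_nonneg_left h1 (Nat.cast_nonneg _)
  linarith [ha.2.2, hb.2.1]

lemma lst_card (X L : ℕ) (r n : ℝ) : (lst X L r n).card ≤ 1 := by
  rw [Finset.card_le_one]
  intro a ha b hb
  have h1 := lst_aux X L r n a b ha hb
  have h2 := lst_aux X L r n b a hb ha
  omega

lemma find_i (r0 n x : ℝ) (h0 : r0 * n ≤ x) (h1 : x < rr r0 25 * n) :
    ∃ i < 25, rr r0 i * n ≤ x ∧ x < rr r0 (i + 1) * n := by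
  classical
  have hex : ∃ i, x < rr r0 i * n := ⟨25, h1⟩
  have hs := Nat.find_spec hex
  have hle : Nat.find hex ≤ 25 := Nat.find_min' hex h1
  have hne : Nat.find hex ≠ 0 := by
    intro h
    rw [h, rr_zero] at hs
    linarith
  obtain ⟨i, hi⟩ := Nat.exists_eq_succ_of_ne_zero hne
  refine ⟨i, by omega, ?_, ?_⟩
  · have := Nat.find_min hex (m := i) (by omega)
    exact not_lt.mp this
  · rw [hi] at hs
    exact hs

lemma cover (f : ℕ → ℤ) (L X : ℕ) (r0 n : ℝ) (hL : 1 ≤ L) (hX0 : ∀ m : ℕ, X ≤ m → r0 * n ≤ (L : ℝ) * m)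
    (hX1 : ∀ m : ℕ, m < 3 * X → (L : ℝ) * m < rr r0 25 * n) :
    (Ico X (3 * X)).filter (fun m => f m ≠ f (m + 1)) ⊆
      (range 25).biUnion (fun i => blk f L (rr r0 i) n ∪ lst X L (rr r0 i) n) := by
  intro m hm
  rw [mem_filter, mem_Ico] at hm
  obtain ⟨⟨ha, hb⟩, hf⟩ := hm
  obtain ⟨i, hi, h1, h2⟩ := find_i r0 n ((L : ℝ) * m) (hX0 m ha) (hX1 m hb)
  rw [rr_succ] at h2
  rw [mem_biUnion]
  refine ⟨i, mem_range.mpr hi, ?_⟩
  rw [mem_union]
  by_cases hc : (L : ℝ) * (m + 1) ≤ 21 / 20 * rr r0 i * n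
  · left
    rw [blk, mem_filter, mem_range]
    refine ⟨?_, h1, hc, hf⟩
    have hL' : (1 : ℝ) ≤ L := by exact_mod_cast hL
    have h3 : (1 : ℝ) * m ≤ (L : ℝ) * m := mul_le_mul_of_nonneg_right hL' (Nat.cast_nonneg _)
    have : m ≤ ⌊21 / 20 * rr r0 i * n⌋₊ := Nat.le_floor (by linarith)
    omega
  · right
    rw [lst, mem_filter, mem_Ico]
    exact ⟨⟨ha, hb⟩, h2, not_le.mp hc⟩

end Aux

open Aux

theorem prf (h : StLC) : StLCu := by
  intro c ε hc hc1 hε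
  obtain ⟨L, r0, hL, hr0, H⟩ := h c (ε / 200) hc hc1 (by positivity)
  choose N hN using fun i : ℕ => H (rr r0 i) (rr_ge r0 hr0 i)
  have hL' : (1 : ℝ) ≤ L := by exact_mod_cast hL
  have hL0 : (0 : ℝ) < L := by linarith
  refine ⟨r0 / L, (∑ i ∈ range 25, |N i|) + 50 * L / ε + 10 * L, by positivity, ?_⟩
  intro n f F hn hf hF
  have hsum0 : 0 ≤ ∑ i ∈ range 25, |N i| := Finset.sum_nonneg (fun i _ => abs_nonneg _)
  have h50 : 0 < 50 * L / ε := by positivity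
  have hn1 : 50 * L / ε ≤ n := by linarith
  have hn2 : 10 * (L : ℝ) ≤ n := by linarith
  have hn0 : 0 < n := by linarith
  have hNi : ∀ i < 25, N i ≤ n := by
    intro i hi
    have h1 : |N i| ≤ ∑ i ∈ range 25, |N i| :=
      Finset.single_le_sum (f := fun i => |N i|) (fun i _ => abs_nonneg _) (mem_range.mpr hi)
    have h2 := le_abs_self (N i)
    linarith
  have hq : 0 ≤ r0 / L * n := by positivity
  have hrn : (L : ℝ) * (r0 / L * n) = r0 * n := by field_simp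
  have hXge : r0 / L * n ≤ (⌈r0 / L * n⌉₊ : ℝ) := Nat.le_ceil _
  have hXle : (⌈r0 / L * n⌉₊ : ℝ) < r0 / L * n + 1 := Nat.ceil_lt_add_one hq
  refine ⟨⌈r0 / L * n⌉₊, hXge, ?_⟩
  set X : ℕ := ⌈r0 / L * n⌉₊ with hXdef
  have hX0 : ∀ m : ℕ, X ≤ m → r0 * n ≤ (L : ℝ) * m := by
    intro m hm
    have h1 : (X : ℝ) ≤ m := by exact_mod_cast hm
    have h2 : (L : ℝ) * (r0 / L * n) ≤ (L : ℝ) * m := mul_le_mul_of_nonneg_left (hXge.trans h1) hL0.le
    linarith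
  have hX1 : ∀ m : ℕ, m < 3 * X → (L : ℝ) * m < rr r0 25 * n := by
    intro m hm
    have h1 : (m : ℝ) < 3 * X := by exact_mod_cast hm
    have h2 : (m : ℝ) < 3 * (r0 / L * n + 1) := by linarith
    have h3 : (L : ℝ) * m < (L : ℝ) * (3 * (r0 / L * n + 1)) := mul_lt_mul_of_pos_left h2 hL0
    have h4 : (L : ℝ) * (3 * (r0 / L * n + 1)) = 3 * (r0 * n) + 3 * L := by
      rw [← hrn]; ring
    have h5 : 33 / 10 * r0 * n ≤ rr r0 25 * n := mul_le_mul_of_nonneg_right (rr_top r0 hr0) hn0.le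
    have h6 : n ≤ r0 * n := le_mul_of_one_le_left hn0.le hr0
    linarith
  have hcov := cover f L X r0 n hL hX0 hX1
  have hc1' := Finset.card_le_card hcov
  have hc2 : ((range 25).biUnion (fun i => blk f L (rr r0 i) n ∪ lst X L (rr r0 i) n)).card ≤
      ∑ i ∈ range 25, ((blk f L (rr r0 i) n).card + 1) := by
    refine Finset.card_biUnion_le.trans (Finset.sum_le_sum ?_)
    intro i _
    refine (Finset.card_union_le _ _).trans ?_
    have := lst_card X L (rr r0 i) n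
    omega
  have hc3 : (((Ico X (3 * X)).filter (fun m => f m ≠ f (m + 1))).card : ℝ) ≤
      ∑ i ∈ range 25, (((blk f L (rr r0 i) n).card : ℝ) + 1) := by
    have := hc1'.trans hc2
    have h' : (((Ico X (3 * X)).filter (fun m => f m ≠ f (m + 1))).card : ℝ) ≤
      ((∑ i ∈ range 25, ((blk f L (rr r0 i) n).card + 1) : ℕ) : ℝ) := by exact_mod_cast this
    push_cast at h'
    exact h'
  have hb : ∀ i ∈ range 25, (((blk f L (rr r0 i) n).card : ℝ) + 1) ≤ ε / 200 * (33 / 10) * (r0 / L * n) + 1 := by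
    intro i hi
    have hi' := mem_range.mp hi
    have h1 := hN i n f F (hNi i hi') hf hF
    have h2 : ((blk f L (rr r0 i) n).card : ℝ) ≤ ε / 200 * rr r0 i * n / L := h1
    have h3 : ε / 200 * rr r0 i * n / L ≤ ε / 200 * (33 / 10) * (r0 / L * n) := by
      have h4 := rr_le r0 hr0 i hi'
      have h5 : ε / 200 * rr r0 i * n / L = (ε / 200 * n / L) * rr r0 i := by ring
      have h6 : ε / 200 * (33 / 10) * (r0 / L * n) = (ε / 200 * n / L) * (33 / 10 * r0) := by ring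
      rw [h5, h6]
      exact mul_le_mul_of_nonneg_left h4 (by positivity)
    linarith
  have hs := Finset.sum_le_sum hb
  rw [Finset.sum_const, card_range, nsmul_eq_mul] at hs
  have hfin : (50 : ℝ) ≤ ε * (r0 / L * n) := by
    have h1 : ε * (50 * L / ε) ≤ ε * n := mul_le_mul_of_nonneg_left hn1 hε.le
    have h2 : ε * (50 * L / ε) = 50 * L := by field_simp
    have h3 : ε * (r0 / L * n) = (ε * n) * r0 / L := by ring
    rw [h3, le_div_iff₀ hL0]
    have h4 : 50 * (L : ℝ) ≤ ε * n := by linarith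
    have h5 : (0 : ℝ) < ε * n := mul_pos hε hn0
    exact h4.trans (le_mul_of_one_le_right h5.le hr0)
  have hfin2 : ε * (r0 / L * n) ≤ ε * X := mul_le_mul_of_nonneg_left hXge hε.le
  have : ((25 : ℕ) : ℝ) * (ε / 200 * (33 / 10) * (r0 / L * n) + 1) =
      (33 / 80) * (ε * (r0 / L * n)) + 25 := by push_cast; ring
  rw [this] at hs
  linarith

end Pool.Agent.Work.MP_a8fbd7_nt.PAR.LC.I_LCu
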