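import Pool.Agent.Work.MP_a8fbd7_nt.PAR.LC.Stmts5

set_option autoImplicit false

/-!
MP_a8fbd7_nt, block LC, item PrB: the divisors left out of the near weight.
-/

open Finset

noncomputable section

namespace Pool.Agent.Work.MP_a8fbd7_nt.PAR.LC.I_PrB

/-- The number of multiples of `d` in the interval. -/
lemma count (hCap : StCap) (x y : ℝ) (hx : 0 ≤ x) (hxy : x ≤ y) (d : ℕ) (hd : 1 ≤ d) :
    (((Icc ⌈x⌉₊ ⌊y⌋₊).filter (fun m => d ∣ m)).card : ℝ) ≤ (y - x) / d + 1 := by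
  have h := (hCap d 0 x y (⌊y⌋₊ + 1) hd hx hxy (by
    push_cast
    exact (Nat.lt_floor_add_one y).le)).1
  refine le_trans ?_ h
  have hy : 0 ≤ y := hx.trans hxy
  have h2 : (Icc ⌈x⌉₊ ⌊y⌋₊).filter (fun m => d ∣ m) ⊆
      (range (⌊y⌋₊ + 1 + 1)).filter
        (fun n : ℕ => x ≤ (n : ℝ) ∧ (n : ℝ) ≤ y ∧ n ≡ 0 [MOD d]) := by
    intro m hm
    rw [mem_filter, mem_Icc] at hm
    rw [mem_filter, mem_range]
    refine ⟨by omega, Nat.ceil_le.1 hm.1.1, (Nat.le_floor_iff hy).1 hm.1.2, ?_⟩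
    exact (Nat.modEq_zero_iff_dvd).2 hm.2
  exact_mod_cast card_le_card h2

/-- The integers up to `2 A n`, at least `n / A`, with more than `T` prime factors. -/
def B (A n T : ℝ) : Finset ℕ := (Icc 1 ⌊2 * A * n⌋₊).filter
  (fun a => n / A ≤ (a : ℝ) ∧ T < (ArithmeticFunction.cardFactors a : ℝ))

/-- A divisor in the window and its codivisor both lie in the doubled window. -/
lemma codiv (A n c : ℝ) (hA : 1 ≤ A) (hn : 1 ≤ n) (_hc0 : 0 < c) (hc : c ≤ 1) (m a : ℕ)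
    (hm1 : n ^ 2 ≤ (m : ℝ)) (hm2 : (m : ℝ) ≤ n ^ 2 + c * n) (ha : a ∣ m)
    (h1 : n / A ≤ (a : ℝ)) (h2 : (a : ℝ) ≤ A * n) :
    n / A ≤ ((m / a : ℕ) : ℝ) ∧ ((m / a : ℕ) : ℝ) ≤ 2 * A * n := by
  have hA0 : 0 < A := by linarith
  have hn0 : 0 < n := by linarith
  have ha0 : (0 : ℝ) < a := lt_of_lt_of_le (by positivity) h1
  have hane : (a : ℝ) ≠ 0 := ha0.ne'
  have he : ((m / a : ℕ) : ℝ) = (m : ℝ) / a := Nat.cast_div ha hane
  rw [he]
  constructor
  · rw [le_div_iff₀ ha0]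
    calc n / A * a ≤ n / A * (A * n) := mul_le_mul_of_nonneg_left h2 (by positivity)
      _ = n ^ 2 := by field_simp
      _ ≤ m := hm1
  · rw [div_le_iff₀ ha0]
    have h3 : (m : ℝ) ≤ 2 * n ^ 2 := by nlinarith
    calc (m : ℝ) ≤ 2 * n ^ 2 := h3
      _ = 2 * A * n * (n / A) := by field_simp
      _ ≤ 2 * A * n * a := mul_le_mul_of_nonneg_left h1 (by positivity)

/-- The pointwise bound. -/
lemma ptw (A n c T : ℝ) (hA : 1 ≤ A) (hn : 1 ≤ n) (hc0 : 0 < c) (hc : c ≤ 1) (m : ℕ)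
    (hm1 : n ^ 2 ≤ (m : ℝ)) (hm2 : (m : ℝ) ≤ n ^ 2 + c * n) :
    nw A n m - nwr A n T m ≤ 2 * (((B A n T).filter (fun a => a ∣ m)).card : ℝ) := by
  have hA0 : 0 < A := by linarith
  have hn0 : 0 < n := by linarith
  have hm0 : m ≠ 0 := by
    rintro rfl
    simp only [Nat.cast_zero] at hm1
    nlinarith
  set F1 := m.divisors.filter (fun a : ℕ => n / A ≤ (a : ℝ) ∧ (a : ℝ) ≤ A * n) with hF1
  set F2 := m.divisors.filter (fun a : ℕ => n / A ≤ (a : ℝ) ∧ (a : ℝ) ≤ A * n ∧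
    (ArithmeticFunction.cardFactors a : ℝ) ≤ T ∧
    (ArithmeticFunction.cardFactors (m / a) : ℝ) ≤ T) with hF2
  set G := (B A n T).filter (fun a => a ∣ m) with hG
  have hnw : nw A n m = (F1.card : ℝ) := rfl
  have hnwr : nwr A n T m = (F2.card : ℝ) := rfl
  set H := m.divisors.filter (fun a : ℕ => m / a ∈ G) with hH
  have hsub : F1 ⊆ F2 ∪ (G ∪ H) := by
    intro a ha
    rw [hF1, mem_filter, Nat.mem_divisors] at ha
    obtain ⟨⟨had, _⟩, h1, h2⟩ := ha
    have ha0 : (0 : ℝ) < a := lt_of_lt_of_le (by positivity) h1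
    have ha1 : 1 ≤ a := by exact_mod_cast ha0
    have hcd := codiv A n c hA hn hc0 hc m a hm1 hm2 had h1 h2
    have hq0 : (0 : ℝ) < ((m / a : ℕ) : ℝ) := lt_of_lt_of_le (by positivity) hcd.1
    have hq1 : 1 ≤ m / a := by exact_mod_cast hq0
    have hAn : (a : ℝ) ≤ 2 * A * n := by nlinarith [mul_pos hA0 hn0]
    rw [mem_union, mem_union]
    by_cases h3 : T < (ArithmeticFunction.cardFactors a : ℝ)
    · right; left
      rw [hG, mem_filter, B, mem_filter, mem_Icc]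
      exact ⟨⟨⟨ha1, Nat.le_floor hAn⟩, h1, h3⟩, had⟩
    · by_cases h4 : T < (ArithmeticFunction.cardFactors (m / a) : ℝ)
      · right; right
        rw [hH, mem_filter, Nat.mem_divisors]
        refine ⟨⟨had, hm0⟩, ?_⟩
        rw [hG, mem_filter, B, mem_filter, mem_Icc]
        exact ⟨⟨⟨hq1, Nat.le_floor hcd.2⟩, hcd.1, h4⟩, Nat.div_dvd_of_dvd had⟩
      · left
        rw [hF2, mem_filter, Nat.mem_divisors]
        exact ⟨⟨had, hm0⟩, h1, h2, not_lt.1 h3, not_lt.1 h4⟩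
  have hHG : H.card ≤ G.card := by
    refine card_le_card_of_injOn (fun a => m / a) ?_ ?_
    · intro a ha
      have ha' := mem_coe.1 ha
      rw [hH, mem_filter] at ha'
      exact mem_coe.2 ha'.2
    · intro a ha b hb hab
      have ha' := mem_coe.1 ha
      have hb' := mem_coe.1 hb
      rw [hH, mem_filter, Nat.mem_divisors] at ha' hb'
      have e1 : m / (m / a) = a := Nat.div_div_self ha'.1.1 hm0
      have e2 : m / (m / b) = b := Nat.div_div_self hb'.1.1 hm0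
      dsimp only at hab
      rw [← e1, ← e2, hab]
  have hcard : F1.card ≤ F2.card + 2 * G.card := by
    have h5 := card_le_card hsub
    have h6 := card_union_le F2 (G ∪ H)
    have h7 := card_union_le G H
    omega
  have hcard' : (F1.card : ℝ) ≤ F2.card + 2 * G.card := by exact_mod_cast hcard
  rw [hnw, hnwr]
  linarith

theorem prf (hCap : StCap) : StPrB := by
  intro A hA
  have hA0 : 0 < A := by linarith
  refine ⟨2 * (A + 1), 1, by positivity, le_rfl, ?_⟩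
  intro n c T hn hc0 hc
  have hn0 : 0 < n := by linarith
  have hx : 0 ≤ n ^ 2 := by positivity
  have hxy : n ^ 2 ≤ n ^ 2 + c * n := by nlinarith [mul_pos hc0 hn0]
  have hy : 0 ≤ n ^ 2 + c * n := hx.trans hxy
  set I := Icc ⌈n ^ 2⌉₊ ⌊n ^ 2 + c * n⌋₊ with hI
  have h1 : ∑ m ∈ I, (nw A n m - nwr A n T m) ≤
      ∑ m ∈ I, 2 * (((B A n T).filter (fun a => a ∣ m)).card : ℝ) := by
    refine sum_le_sum fun m hm => ?_
    rw [hI, mem_Icc] at hm
    exact ptw A n c T hA hn hc0 hc m (Nat.ceil_le.1 hm.1) ((Nat.le_floor_iff hy).1 hm.2)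
  have h2 : ∑ m ∈ I, (((B A n T).filter (fun a => a ∣ m)).card : ℝ) =
      ∑ a ∈ B A n T, ((I.filter (fun m => a ∣ m)).card : ℝ) := by
    have h3 : ∑ m ∈ I, ((B A n T).filter (fun a => a ∣ m)).card =
        ∑ a ∈ B A n T, (I.filter (fun m => a ∣ m)).card := by
      simp only [card_filter]
      exact sum_comm
    exact_mod_cast h3
  have h4 : ∑ a ∈ B A n T, ((I.filter (fun m => a ∣ m)).card : ℝ) ≤
      ∑ a ∈ B A n T, (A + 1) := by
    refine sum_le_sum fun a ha => ?_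
    rw [B, mem_filter, mem_Icc] at ha
    obtain ⟨⟨ha1, _⟩, ha2, _⟩ := ha
    have ha0 : (0 : ℝ) < a := by exact_mod_cast ha1
    have h5 := count hCap (n ^ 2) (n ^ 2 + c * n) hx hxy a ha1
    refine h5.trans ?_
    have h6 : (n ^ 2 + c * n - n ^ 2) / (a : ℝ) ≤ A := by
      rw [div_le_iff₀ ha0]
      have h7 : n ≤ A * a := by
        have := (div_le_iff₀ hA0).1 ha2
        linarith
      nlinarith
    linarith
  have h8 : (((B A n T)).card : ℝ) ≤
      (((Icc 1 ⌊2 * A * n⌋₊).filter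
        (fun a => T < (ArithmeticFunction.cardFactors a : ℝ))).card : ℝ) := by
    have h9 : B A n T ⊆ (Icc 1 ⌊2 * A * n⌋₊).filter
        (fun a => T < (ArithmeticFunction.cardFactors a : ℝ)) := by
      intro a ha
      rw [B, mem_filter] at ha
      rw [mem_filter]
      exact ⟨ha.1, ha.2.2⟩
    exact_mod_cast card_le_card h9
  rw [← mul_sum, h2] at h1
  rw [sum_const, nsmul_eq_mul] at h4
  have h10 : 0 ≤ A + 1 := by linarith
  have h11 := mul_le_mul_of_nonneg_right h8 h10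
  calc ∑ m ∈ I, (nw A n m - nwr A n T m)
      ≤ 2 * ∑ a ∈ B A n T, ((I.filter (fun m => a ∣ m)).card : ℝ) := h1
    _ ≤ 2 * (((Icc 1 ⌊2 * A * n⌋₊).filter
        (fun a => T < (ArithmeticFunction.cardFactors a : ℝ))).card * (A + 1)) := by linarith
    _ = _ := by ring

end Pool.Agent.Work.MP_a8fbd7_nt.PAR.LC.I_PrB
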