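import Pool.Agent.Work.MP_a8fbd7_nt.PAR.LC.Stmts
import Pool.Agent.Work.MP_56b8f5_nt.WM.I_Mert

set_option autoImplicit false

open Finset Filter

namespace Pool.Agent.Work.MP_a8fbd7_nt.PAR.LC.I_Prs

open Pool.Agent.Work.MP_a8fbd7_nt.PAR.LC
open Pool.Agent.Work.MP_56b8f5_nt.WM
open Pool.Agent.Work.MP_56b8f5_nt.EM

theorem S1_diff (x y : ℕ) :
    S1 y - S1 x ≤ ∑ p ∈ (Ioc x y).filter Nat.Prime, 1 / (p : ℝ) := by
  have h : S1 y ≤ S1 x + ∑ p ∈ (Ioc x y).filter Nat.Prime, 1 / (p : ℝ) := by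
    unfold S1
    rw [← Finset.sum_union]
    · refine Finset.sum_le_sum_of_subset_of_nonneg ?_ fun p _ _ => by positivity
      intro p hp
      simp only [pr, Finset.mem_union, Finset.mem_filter, Finset.mem_range, Finset.mem_Ioc] at hp ⊢
      by_cases h : p ≤ x
      · exact Or.inl ⟨by omega, hp.2⟩
      · exact Or.inr ⟨by omega, hp.2⟩
    · rw [Finset.disjoint_left]
      intro p hp hp'
      simp only [pr, Finset.mem_filter, Finset.mem_range, Finset.mem_Ioc] at hp hp'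
      omega
  linarith

theorem diff (C : ℝ) (hC : 1 ≤ C) (hM : ∀ x : ℕ, 2 ≤ x →
    Real.exp (S1 x) ≤ C * Real.log x ∧ Real.log x ≤ C * Real.exp (S1 x)) (x y : ℕ) (hx : 2 ≤ x)
    (hy : 2 ≤ y) : Real.log (Real.log y) - Real.log (Real.log x) - 2 * Real.log C ≤
      ∑ p ∈ (Ioc x y).filter Nat.Prime, 1 / (p : ℝ) := by
  have hC0 : 0 < C := by linarith
  have lx : 0 < Real.log x := Real.log_pos (by exact_mod_cast hx)
  have ly : 0 < Real.log y := Real.log_pos (by exact_mod_cast hy)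
  have h1 : S1 x ≤ Real.log C + Real.log (Real.log x) := by
    rw [← Real.log_mul hC0.ne' lx.ne', Real.le_log_iff_exp_le (by positivity)]
    exact (hM x hx).1
  have h2 : Real.log (Real.log y) ≤ Real.log C + S1 y := by
    have h3 := Real.log_le_log ly (hM y hy).2
    rw [Real.log_mul hC0.ne' (Real.exp_pos _).ne', Real.log_exp] at h3
    exact h3
  have h4 := S1_diff x y
  linarith

theorem floor_ge (w : ℝ) (hw : 2 ≤ w) : Real.exp (w / 2) ≤ (⌊Real.exp w⌋₊ : ℝ) := by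
  have h1 : Real.exp w < ⌊Real.exp w⌋₊ + 1 := Nat.lt_floor_add_one _
  have h2 : Real.exp w = Real.exp (w / 2) * Real.exp (w / 2) := by
    rw [← Real.exp_add]
    congr 1
    ring
  have h3 : w / 2 + 1 ≤ Real.exp (w / 2) := Real.add_one_le_exp _
  nlinarith

theorem floor_two (w : ℝ) (hw : 2 ≤ w) : 2 ≤ ⌊Real.exp w⌋₊ := by
  have h1 := floor_ge w hw
  have h3 : w / 2 + 1 ≤ Real.exp (w / 2) := Real.add_one_le_exp _
  have h4 : (2 : ℝ) ≤ (⌊Real.exp w⌋₊ : ℝ) := by linarith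
  exact_mod_cast h4

theorem loglog_ge (w : ℝ) (hw : 2 ≤ w) :
    Real.log w - Real.log 2 ≤ Real.log (Real.log (⌊Real.exp w⌋₊ : ℝ)) := by
  have h1 : w / 2 ≤ Real.log (⌊Real.exp w⌋₊ : ℝ) := by
    have h2 := Real.log_le_log (Real.exp_pos _) (floor_ge w hw)
    rw [Real.log_exp] at h2
    exact h2
  rw [← Real.log_div (by linarith) two_ne_zero]
  exact Real.log_le_log (by linarith) h1

theorem loglog_le (w : ℝ) (hw : 2 ≤ w) :
    Real.log (Real.log (⌊Real.exp w⌋₊ : ℝ)) ≤ Real.log w := by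
  have h2 : (2 : ℝ) ≤ (⌊Real.exp w⌋₊ : ℝ) := by exact_mod_cast floor_two w hw
  refine Real.log_le_log (Real.log_pos (by linarith)) ?_
  rw [Real.log_le_iff_le_exp (by linarith)]
  exact Nat.floor_le (Real.exp_pos _).le

theorem prf : StPrs := by
  intro K
  obtain ⟨C, hC, hM⟩ := Mert_pf
  have hC0 : 0 ≤ Real.log C := Real.log_nonneg hC
  have e1 : ∀ᶠ L : ℝ in atTop, Real.log L ≤ L / 16 := by
    have h := Real.isLittleO_log_id_atTop.bound (show (0 : ℝ) < 1 / 16 by norm_num)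
    filter_upwards [h, eventually_ge_atTop 1] with L hL hL1
    rw [Real.norm_of_nonneg (Real.log_nonneg hL1), id, Real.norm_of_nonneg (by linarith)] at hL
    linarith
  have e2 : ∀ᶠ L : ℝ in atTop, 16 * (|K| + 2 * Real.log C + 10) + 100 ≤ L := eventually_ge_atTop _
  have e3 : ∀ᶠ Q : ℕ in atTop, Real.log (Real.log (Q : ℝ)) ≤ Real.log (Q : ℝ) / 16 ∧
      16 * (|K| + 2 * Real.log C + 10) + 100 ≤ Real.log (Q : ℝ) ∧ 2 ≤ Q :=
    (((Real.tendsto_log_atTop.comp tendsto_natCast_atTop_atTop).eventually (e1.and e2)).and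
      (eventually_ge_atTop 2)).mono fun Q hQ => ⟨hQ.1.1, hQ.1.2, hQ.2⟩
  obtain ⟨Q0, hQ0⟩ := eventually_atTop.1 e3
  refine ⟨Q0, ?_⟩
  intro Q hQ
  obtain ⟨h1, h2, h3⟩ := hQ0 Q hQ
  have hQpos : (0 : ℝ) < Q := by exact_mod_cast (by omega : 0 < Q)
  have hK := le_abs_self K
  have hK0 := abs_nonneg K
  set L := Real.log (Q : ℝ) with hL
  have lu : Real.log ((Q : ℝ) ^ (1 / 8 : ℝ)) = L / 8 := by
    rw [Real.log_rpow hQpos]
    ring
  have lv : Real.log ((Q : ℝ) ^ (1 / 4 : ℝ)) = L / 4 := by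
    rw [Real.log_rpow hQpos]
    ring
  have hu0 : 0 < (Q : ℝ) ^ (1 / 8 : ℝ) := Real.rpow_pos_of_pos hQpos _
  have hv0 : 0 < (Q : ℝ) ^ (1 / 4 : ℝ) := Real.rpow_pos_of_pos hQpos _
  have hu : 2 ≤ (Q : ℝ) ^ (1 / 8 : ℝ) := by
    have h4 := Real.log_le_sub_one_of_pos hu0
    rw [lu] at h4
    linarith
  have hv : 2 ≤ (Q : ℝ) ^ (1 / 4 : ℝ) := by
    have h4 := Real.log_le_sub_one_of_pos hv0
    rw [lv] at h4
    linarith
  have l2 : Real.log 2 ≤ 1 := by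
    have := Real.log_le_sub_one_of_pos (show (0 : ℝ) < 2 by norm_num)
    linarith
  have l4 : Real.log 4 ≤ 3 := by
    have := Real.log_le_sub_one_of_pos (show (0 : ℝ) < 4 by norm_num)
    linarith
  constructor
  · have h4 := diff C hC hM Q ⌊Real.exp ((Q : ℝ) ^ (1 / 8 : ℝ))⌋₊ h3 (floor_two _ hu)
    have h5 := loglog_ge _ hu
    rw [lu] at h5
    refine le_trans ?_ h4
    linarith
  · have hu4 : 2 ≤ 4 * (Q : ℝ) ^ (1 / 8 : ℝ) := by linarith
    have h4 := diff C hC hM ⌊Real.exp (4 * (Q : ℝ) ^ (1 / 8 : ℝ))⌋₊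
      ⌊Real.exp ((Q : ℝ) ^ (1 / 4 : ℝ))⌋₊ (floor_two _ hu4) (floor_two _ hv)
    have h5 := loglog_ge _ hv
    rw [lv] at h5
    have h6 := loglog_le _ hu4
    rw [Real.log_mul (by norm_num) hu0.ne', lu] at h6
    refine le_trans ?_ h4
    linarith

end Pool.Agent.Work.MP_a8fbd7_nt.PAR.LC.I_Prs
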