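import Pool.Agent.Work.MP_a8fbd7_nt.PAR.LC.Stmts

set_option autoImplicit false

/-! Item Two of the block LC: first and second moment. -/

open Finset

namespace Pool.Agent.Work.MP_a8fbd7_nt.PAR.LC.I_Two

open Pool.Agent.Work.MP_a8fbd7_nt.PAR.LC

/-- The index set. -/
noncomputable def Ix (W : ℕ) (w0 ω e0 e1 : ℝ) (A T : Finset ℕ) :
    Finset ((_ : ℕ × ℕ) × (ℕ × ℕ)) :=
  (A ×ˢ T).sigma fun p => Zs W w0 ω e0 e1 p.1 p.2

/-- The condition on `x`. -/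
def aa (j : ℕ) (i : (_ : ℕ × ℕ) × (ℕ × ℕ)) (x : ℕ) : ℝ :=
  if i.1.1 ∣ x ∧ i.1.2 ∣ x + j then 1 else 0

/-- The condition on `M`. -/
def bb (i : (_ : ℕ × ℕ) × (ℕ × ℕ)) (M : ℕ) : ℝ :=
  if i.2.1 ∣ i.1.1 * M + i.2.2 then 1 else 0

theorem Nk_eq (W : ℕ) (w0 ω e0 e1 : ℝ) (j : ℕ) (A T : Finset ℕ) (x M : ℕ) :
    Nk W w0 ω e0 e1 j A T x M = ∑ i ∈ Ix W w0 ω e0 e1 A T, aa j i x * bb i M := by
  rw [Ix, sum_sigma, sum_product, Nk]
  refine sum_congr rfl fun q _ => sum_congr rfl fun t _ => sum_congr rfl fun s _ => ?_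
  simp only [aa, bb]
  by_cases h1 : q ∣ x <;> by_cases h2 : t ∣ x + j <;> by_cases h3 : s.1 ∣ q * M + s.2 <;>
    simp [h1, h2, h3]

theorem mom1 {ι : Type} (I : Finset ι) (X Y : Finset ℕ) (a b : ι → ℕ → ℝ) :
    ∑ x ∈ X, ∑ M ∈ Y, ∑ i ∈ I, a i x * b i M = ∑ i ∈ I, (∑ x ∈ X, a i x) * (∑ M ∈ Y, b i M) := by
  rw [sum_congr rfl fun x _ => sum_comm, sum_comm]
  refine sum_congr rfl fun i _ => ?_
  rw [sum_mul_sum]

theorem mom2 {ι : Type} (I : Finset ι) (X Y : Finset ℕ) (a b : ι → ℕ → ℝ) :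
    ∑ x ∈ X, ∑ M ∈ Y, (∑ i ∈ I, a i x * b i M) ^ 2 =
      ∑ i ∈ I, ∑ i' ∈ I, (∑ x ∈ X, a i x * a i' x) * (∑ M ∈ Y, b i M * b i' M) := by
  have h : ∀ x M, (∑ i ∈ I, a i x * b i M) ^ 2 =
      ∑ p ∈ I ×ˢ I, (a p.1 x * a p.2 x) * (b p.1 M * b p.2 M) := by
    intro x M
    rw [pow_two, sum_mul_sum, sum_product]
    refine sum_congr rfl fun i _ => sum_congr rfl fun i' _ => ?_
    ring
  simp only [h]
  rw [mom1 (I ×ˢ I) X Y (fun p x => a p.1 x * a p.2 x) (fun p M => b p.1 M * b p.2 M), sum_product]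

theorem sum_ite_card (L : ℕ) (p : ℕ → Prop) [DecidablePred p] :
    ∑ x ∈ range L, (if p x then (1 : ℝ) else 0) = (((range L).filter p).card : ℝ) := by
  rw [← sum_filter, sum_const, nsmul_eq_mul, mul_one]

theorem ite_mul_ite (p q : Prop) [Decidable p] [Decidable q] :
    (if p then (1 : ℝ) else 0) * (if q then (1 : ℝ) else 0) = if p ∧ q then 1 else 0 := by
  by_cases hp : p <;> by_cases hq : q <;> simp [hp, hq]

theorem prf (hX : StPxC) (hM : StPmC) : StTwo := by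
  classical
  intro W w0 ω e0 e1 j L A T hw hL hA hT hAT hlcm hz
  have hne : ∀ q ∈ A, ∀ t ∈ T, q ≠ t := by
    intro q hq t ht h
    subst h
    exact (disjoint_left.1 hAT) hq ht
  have hpos : ∀ q ∈ A, ∀ t ∈ T, ∀ s ∈ Zs W w0 ω e0 e1 q t, 1 ≤ s.1 ∧ s.1.Coprime q := by
    intro q hq t ht s hs
    obtain ⟨a1, _, _, a4, _⟩ := (mem_filter.1 hs).2
    refine ⟨?_, a4⟩
    have h0 : (0 : ℝ) < s.1 := by
      refine lt_of_lt_of_le ?_ a1
      exact mul_pos (mul_pos hw.he0 (by exact_mod_cast (hA q hq).pos))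
        (by exact_mod_cast (hT t ht).pos)
    exact_mod_cast h0
  constructor
  · simp only [Nk_eq]
    rw [mom1, Ix, sum_sigma, sum_product, mu, mul_sum]
    refine sum_congr rfl fun q hq => ?_
    rw [mul_sum]
    refine sum_congr rfl fun t ht => ?_
    rw [Es, sum_div, mul_sum]
    refine sum_congr rfl fun s hs => ?_
    obtain ⟨h1, h2⟩ := hpos q hq t ht s hs
    have e1 : ∑ x ∈ range L, aa j ⟨(q, t), s⟩ x = L / ((q : ℝ) * t) := by
      simp only [aa]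
      rw [sum_ite_card]
      have h3 := hX L j q q t t hL (hA q hq) (hA q hq) (hT t ht) (hT t ht) (hne q hq t ht)
        (hne q hq t ht) (hne q hq t ht) (hne q hq t ht) (hlcm q hq q hq t ht t ht)
      rw [Nat.lcm_self, Nat.lcm_self] at h3
      rw [← h3]
      congr 2
      ext x
      simp only [mem_filter]
      tauto
    have e2 : ∑ M ∈ range L, bb ⟨(q, t), s⟩ M = L / (s.1 : ℝ) := by
      simp only [bb]
      rw [sum_ite_card]
      exact (hM L q q s s hL h1 h1 h2 h2 (hz q hq t ht s hs) (hz q hq t ht s hs)).1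
    rw [e1, e2]
    ring
  · simp only [Nk_eq]
    rw [mom2]
    have hterm : ∀ i ∈ Ix W w0 ω e0 e1 A T, ∀ i' ∈ Ix W w0 ω e0 e1 A T,
        (∑ x ∈ range L, aa j i x * aa j i' x) * (∑ M ∈ range L, bb i M * bb i' M) ≤
        (L : ℝ) ^ 2 * (cor i.1.1 i'.1.1 i.2 i'.2 /
          ((Nat.lcm i.1.1 i'.1.1 : ℝ) * (Nat.lcm i.1.2 i'.1.2 : ℝ))) := by
      rintro ⟨⟨q, t⟩, s⟩ hi ⟨⟨q', t'⟩, s'⟩ hi'
      rw [Ix, mem_sigma, mem_product] at hi hi'
      obtain ⟨⟨hq, ht⟩, hs⟩ := hi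
      obtain ⟨⟨hq', ht'⟩, hs'⟩ := hi'
      simp only at hq ht hs hq' ht' hs' ⊢
      obtain ⟨h1, h2⟩ := hpos q hq t ht s hs
      obtain ⟨h1', h2'⟩ := hpos q' hq' t' ht' s' hs'
      have e1 : ∑ x ∈ range L, aa j ⟨(q, t), s⟩ x * aa j ⟨(q', t'), s'⟩ x =
          L / ((Nat.lcm q q' : ℝ) * (Nat.lcm t t' : ℝ)) := by
        simp only [aa, ite_mul_ite]
        rw [sum_ite_card]
        have h3 := hX L j q q' t t' hL (hA q hq) (hA q' hq') (hT t ht) (hT t' ht') (hne q hq t ht)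
          (hne q hq t' ht') (hne q' hq' t ht) (hne q' hq' t' ht') (hlcm q hq q' hq' t ht t' ht')
        rw [← h3]
        congr 2
        ext x
        simp only [mem_filter]
        tauto
      have e2 : ∑ M ∈ range L, bb ⟨(q, t), s⟩ M * bb ⟨(q', t'), s'⟩ M ≤ L * cor q q' s s' := by
        simp only [bb, ite_mul_ite]
        rw [sum_ite_card]
        exact (hM L q q' s s' hL h1 h1' h2 h2' (hz q hq t ht s hs) (hz q' hq' t' ht' s' hs')).2
      rw [e1]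
      refine (mul_le_mul_of_nonneg_left e2 (by positivity)).trans (le_of_eq ?_)
      ring
    refine (sum_le_sum fun i hi => sum_le_sum fun i' hi' => hterm i hi i' hi').trans (le_of_eq ?_)
    rw [Ix, sum_sigma, sum_product, m2, mul_sum]
    refine sum_congr rfl fun q _ => ?_
    rw [mul_sum]
    refine sum_congr rfl fun t _ => ?_
    have h5 : ∀ s ∈ Zs W w0 ω e0 e1 q t, ∑ i' ∈ (A ×ˢ T).sigma fun p => Zs W w0 ω e0 e1 p.1 p.2,
        (L : ℝ) ^ 2 * (cor q i'.1.1 s i'.2 /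
          ((Nat.lcm q i'.1.1 : ℝ) * (Nat.lcm t i'.1.2 : ℝ))) =
        ∑ q' ∈ A, ∑ t' ∈ T, (L : ℝ) ^ 2 * ((∑ s' ∈ Zs W w0 ω e0 e1 q' t', cor q q' s s') /
          ((Nat.lcm q q' : ℝ) * (Nat.lcm t t' : ℝ))) := by
      intro s _
      rw [sum_sigma, sum_product]
      refine sum_congr rfl fun q' _ => sum_congr rfl fun t' _ => ?_
      rw [sum_div, mul_sum]
    rw [sum_congr rfl h5, sum_comm, mul_sum]
    refine sum_congr rfl fun q' _ => ?_
    rw [sum_comm, mul_sum]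
    refine sum_congr rfl fun t' _ => ?_
    rw [Fs, ← mul_sum, ← sum_div]

end Pool.Agent.Work.MP_a8fbd7_nt.PAR.LC.I_Two
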