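import Pool.Agent.Work.MP_a8fbd7_nt.PAR.LC.Defs

set_option autoImplicit false

/-!
MP_a8fbd7_nt, block LC, captain helper30.  Statements with complete proofs.  An item is
`theorem prf_NAME (h1 : StA) (h2 : StB) ... : StNAME := ...` in `PAR/LC/I_NAME.lean` (import this file); it may use the
statements listed in its docstring as hypotheses.  Overview: part S = second moment over `(x, M)` modulo `L`
(no analysis, no `n`), part E = equidistribution, part K = the link and the chain.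
-/

open Finset

noncomputable section

namespace Pool.Agent.Work.MP_a8fbd7_nt.PAR.LC

/-! ## Part S: the second moment -/

/-- ITEM Cap (counting in progressions).  The integers `n` with `x ≤ n ≤ y` in a fixed class modulo `m`: at most
`(y-x)/m + 1`, at least `(y-x)/m - 1`.  Proof: they are `n = a + m i` with `a` the least residue, `i` an integer of the interval
`[(x-a)/m, (y-a)/m]` (`i ≥ 0` automatically for `x ≥ 0`; the integers `n ≥ 0` have `i ≥ 0`), an interval of length `(y-x)/m` contains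
at most `⌊(y-x)/m⌋ + 1` and at least `⌊(y-x)/m⌋ ≥ (y-x)/m - 1` integers. -/
def StCap : Prop := ∀ (m a : ℕ) (x y : ℝ) (N : ℕ), 1 ≤ m → 0 ≤ x → x ≤ y → y ≤ N →
  ((((range (N + 1)).filter (fun n : ℕ => x ≤ (n : ℝ) ∧ (n : ℝ) ≤ y ∧ n ≡ a [MOD m])).card : ℝ) ≤ (y - x) / m + 1) ∧
  (y - x) / m - 1 ≤ (((range (N + 1)).filter (fun n : ℕ => x ≤ (n : ℝ) ∧ (n : ℝ) ≤ y ∧ n ≡ a [MOD m])).card : ℝ)

/-- ITEM Har (harmonic sums).  (i) `∑_{1 ≤ n ≤ N} 1/n ≤ 1 + log N`.  (ii) for `0 < x`, `1 ≤ λ`: `∑ 1/n` over the integers `n ≥ 1` of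
`[x, λ x]` is `≤ λ`: if `x < 1` there are at most `λ x ≤ λ` such `n`, each term `≤ 1`; if `x ≥ 1` there are at most
`(λ-1) x + 1` of them, each term `≤ 1/x`, total `≤ λ - 1 + 1/x ≤ λ`.  (iii) for `1 ≤ m ≤ T`, `0 < x`, `1 ≤ λ`: `∑ 1/n` over `n ≥ T` in
`[x, λ² x]` and in a fixed class modulo `m` is `≤ 3 λ²/m`: put `x' = max x T`; at most `(λ² x - x')/m + 1` such `n` if
`x' ≤ λ² x` (else none), each term `≤ 1/x'`, total `≤ λ² x/(m x') + 1/x' ≤ λ²/m + 1/T ≤ 2 λ²/m`.  Uses StCap. -/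
def StHar : Prop :=
  (∀ N : ℕ, ∑ n ∈ Icc 1 N, 1 / (n : ℝ) ≤ 1 + Real.log (N : ℝ)) ∧
  (∀ (N : ℕ) (x l : ℝ), 0 < x → 1 ≤ l →
    ∑ n ∈ (Icc 1 N).filter (fun n : ℕ => x ≤ (n : ℝ) ∧ (n : ℝ) ≤ l * x), 1 / (n : ℝ) ≤ l) ∧
  (∀ (N m a T : ℕ) (x l : ℝ), 1 ≤ m → m ≤ T → 0 < x → 1 ≤ l →
    ∑ n ∈ (Icc 1 N).filter (fun n : ℕ => T ≤ n ∧ x ≤ (n : ℝ) ∧ (n : ℝ) ≤ l ^ 2 * x ∧ n ≡ a [MOD m]), 1 / (n : ℝ) ≤
      3 * l ^ 2 / m)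

/-- ITEM Rgh (rough numbers).  A divisor `d > 1` of a number prime to `primorial W` is `> W`: a prime factor `p` of `d` does not divide
`primorial W`, so `p > W`. -/
def StRgh : Prop := ∀ W z d : ℕ, z.Coprime (primorial W) → d ∣ z → 1 < d → W < d

/-- ITEM Ttp (totient quotient of the primorial).  `P = primorial W`: for every `κ > 0` and `W0` there is `W ≥ W0` with
`(P/φ(P))² ≤ κ W`.  Proof: `P/φ(P) = ∏_{p ≤ W} (1-1/p)⁻¹ ≤ exp(∑_{p ≤ W} (1/p + 1/(p(p-1)))) ≤ e exp(S1 W) ≤ C log W` by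
`S_Mert` of `Pool.Agent.Work.MP_56b8f5_nt.WM` (theorem `I_Mert.Mert_pf`, `S1 W = ∑_{p ≤ W} 1/p`), and `(C log W)²/W → 0`.
(Or elementary: `P/φ(P) ≤ C W^{1/3}`, since the `i`-th prime `> 3` is at least `3i`.) -/
def StTtp : Prop := ∀ (κ : ℝ) (W0 : ℕ), 0 < κ → ∃ W : ℕ, W0 ≤ W ∧
  ((primorial W : ℝ) / (Nat.totient (primorial W) : ℝ)) ^ 2 ≤ κ * W

/-- ITEM PxC (probability of the conditions on `x`).  `q, q'` primes `≠ t, t'` primes, the product of the two lcm's divides `L`.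
The four conditions say `lcm(q,q') ∣ x` and `lcm(t,t') ∣ x + j`; the two lcm's are coprime, so by the Chinese remainder
theorem this is one residue class modulo their product, which divides `L`. -/
def StPxC : Prop := ∀ L j q q' t t' : ℕ, 1 ≤ L → q.Prime → q'.Prime → t.Prime → t'.Prime →
  q ≠ t → q ≠ t' → q' ≠ t → q' ≠ t' → Nat.lcm q q' * Nat.lcm t t' ∣ L →
  (((range L).filter (fun x => q ∣ x ∧ q' ∣ x ∧ t ∣ x + j ∧ t' ∣ x + j)).card : ℝ) =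
    L / ((Nat.lcm q q' : ℝ) * (Nat.lcm t t' : ℝ))

/-- ITEM PmC (probability of the conditions on `M`).  (i) `z ∣ qM + ρ`, `gcd(z,q) = 1`, `z ∣ L`: one class modulo `z`.
(ii) Both conditions: if there is a solution `M0` then with `d = gcd(z,z')`: `qM0 ≡ -ρ`, `q'M0 ≡ -ρ'` mod `d`, hence
`q'ρ ≡ qρ'` mod `d` (both are `-qq'M0`); the solutions then are one class modulo `lcm(z,z') = zz'/d`, which divides `L`. -/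
def StPmC : Prop := ∀ (L q q' : ℕ) (s s' : ℕ × ℕ), 1 ≤ L → 1 ≤ s.1 → 1 ≤ s'.1 → s.1.Coprime q → s'.1.Coprime q' →
  s.1 ∣ L → s'.1 ∣ L →
  (((range L).filter (fun M => s.1 ∣ q * M + s.2)).card : ℝ) = L / (s.1 : ℝ) ∧
  (((range L).filter (fun M => s.1 ∣ q * M + s.2 ∧ s'.1 ∣ q' * M + s'.2)).card : ℝ) ≤ L * cor q q' s s'

/-- ITEM Elo (lower bound for the single sum).  `P = primorial W`, `η = e1 - e0`.  Uses StCap.  `q, t > W` primes, `q < t`,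
`q ≥ 6/ω`, `t ≥ 6P/η`.  For each `ρ ∈ [w0 q, (w0+ω) q]` with `q ∤ ρ` (at least `(ωq - 1) - (ω + 1) ≥ ωq/2` of them, by StCap with
modulus `1` and modulus `q`) the `z ∈ [e0 q t, e1 q t]` with `z ≡ tρ mod q` and `z` prime to `P`: for each of the `φ(P)` unit classes
`u` modulo `P` (`P` prime to `q` as `q > W`) one class modulo `qP` by the Chinese remainder theorem, at least `η q t/(qP) - 1` elements
by StCap; total `≥ φ(P)(ηt/P - 1) ≥ φ(P) ηt/(2P)`.  They are prime to `q` since `q ∤ tρ`.  So at least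
`(ωq/2) φ(P) ηt/(2P)` pairs, each with `1/z ≥ 1/(e1 q t)`. -/
def StElo : Prop := ∀ (W : ℕ) (w0 ω e0 e1 : ℝ) (q t : ℕ), Wn w0 ω e0 e1 → q.Prime → t.Prime → W < q → q < t →
  6 / ω ≤ q → 6 * (primorial W : ℝ) / (e1 - e0) ≤ t →
  ω * (e1 - e0) * (Nat.totient (primorial W) : ℝ) / (4 * e1 * (primorial W : ℝ)) ≤ Es W w0 ω e0 e1 q t

/-- ITEM Eup (upper bound for the single sum).  At most `ωq + 1 ≤ 2ωq` values of `ρ`, for each at most `η t + 1 ≤ 2ηt` values of `z`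
(class `tρ` modulo `q` in an interval of length `ηqt`), each with `1/z ≤ 1/(e0 q t)`.  Uses StCap. -/
def StEup : Prop := ∀ (W : ℕ) (w0 ω e0 e1 : ℝ) (q t : ℕ), Wn w0 ω e0 e1 → 1 ≤ q → 1 ≤ t → 1 / ω ≤ q → 1 / (e1 - e0) ≤ t →
  Es W w0 ω e0 e1 q t ≤ 4 * ω * (e1 - e0) / e0

/-- ITEM Ct1 (pairs with `d ∣ z`).  `gcd(d,q) = 1`, `d ≤ η t`.  (i) all pairs of `Zs` with `d ∣ z`: at most `4 ω η q t/d`;
(ii) those with moreover `ρ ≡ v mod d`: at most `(ωq/d + 1)(2ηt/d)`; (iii) those with `ρ = ρ0`: at most `2ηt/d`.  For fixed `ρ` the `z` with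
`z ≡ tρ mod q`, `z ≡ 0 mod d` form one class modulo `dq`, at most `ηqt/(dq) + 1 ≤ 2ηt/d` in an interval of length
`ηqt`; count the `ρ` by StCap (modulus `1`: `ωq + 1 ≤ 2ωq`, modulus `d`). -/
def StCt1 : Prop := ∀ (W : ℕ) (w0 ω e0 e1 : ℝ) (q t d : ℕ), Wn w0 ω e0 e1 → q.Prime → 1 ≤ t → 1 / ω ≤ q → 1 ≤ d →
  d.Coprime q → (d : ℝ) ≤ (e1 - e0) * t →
  ((((Zs W w0 ω e0 e1 q t).filter (fun s => d ∣ s.1)).card : ℝ) ≤ 4 * ω * (e1 - e0) * q * t / d) ∧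
  (∀ v : ℕ, (((Zs W w0 ω e0 e1 q t).filter (fun s => d ∣ s.1 ∧ s.2 ≡ v [MOD d])).card : ℝ) ≤
    (ω * q / d + 1) * (2 * (e1 - e0) * t / d)) ∧
  (∀ ρ0 : ℕ, (((Zs W w0 ω e0 e1 q t).filter (fun s => d ∣ s.1 ∧ s.2 = ρ0)).card : ℝ) ≤ 2 * (e1 - e0) * t / d)

/-- ITEM Fne (correlations for `q ≠ q'`).  Uses StRgh, StCt1, StHar.  Split the double sum by `d = gcd(z,z')`.  `d = 1`: `cor ≤ 1/(zz')`,
total `≤ Es·Es'`.  `d > 1`: then `d > W` (StRgh).  `cor ≠ 0` needs `d ∣ q'ρ - qρ'`, this integer is not `0` (`q'ρ = qρ'` would give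
`q ∣ ρ`, hence `q ∣ tρ ≡ z`, but `gcd(z,q) = 1`), and its absolute value is `≤ max(q'ρ, qρ') ≤ (w0+ω) q q' ≤ 3qq'`; so `W < d ≤ 3qq'`.
Moreover `gcd(d,q) = gcd(d,q') = 1`.  For each such `d`: number of pairs `(s,s')` with `d ∣ z`, `d ∣ z'`, `qρ' ≡ q'ρ mod d` is at most
`(4ωηqt/d)·(ωq'/d + 1)(2ηt'/d)` (StCt1 (i) for `s`; given `s`, `ρ'` lies in one class modulo `d` since `q` is invertible
modulo `d`, StCt1 (ii) for `s'`), and `cor = d/(zz') ≤ d/(e0² q t q' t')`.  So the `d`-part is at most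
`(8ωη²/e0²)(ω/d² + 1/(q'd))`; sum over `W < d ≤ 3qq'`: `∑ 1/d² ≤ 1/W`, `∑ 1/d ≤ 1 + log(3qq')`. -/
def StFne : Prop := ∀ (W : ℕ) (w0 ω e0 e1 : ℝ) (q t q' t' : ℕ), Wn w0 ω e0 e1 → q.Prime → q'.Prime → q ≠ q' →
  t.Prime → t'.Prime → 1 ≤ W → 1 / ω ≤ q → 1 / ω ≤ q' → (3 * q * q' : ℝ) ≤ (e1 - e0) * t → (3 * q * q' : ℝ) ≤ (e1 - e0) * t' →
  Fs W w0 ω e0 e1 q t q' t' ≤ Es W w0 ω e0 e1 q t * Es W w0 ω e0 e1 q' t' +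
    (8 * ω * (e1 - e0) ^ 2 / e0 ^ 2) * (ω / W + (1 + Real.log (3 * q * q')) / q')

/-- ITEM Feq (correlations for `q = q'`).  Uses StRgh, StCt1.  Split by `ρ = ρ'` or not.  `ρ = ρ'`: the condition of `cor` holds, this
part is `Gs`.  `ρ ≠ ρ'`, `d = gcd(z,z') = 1`: total `≤ Es·Es'`.  `ρ ≠ ρ'`, `d > 1`: `d > W`, `d ∣ q(ρ - ρ')`, `gcd(d,q) = 1`, so
`d ∣ ρ - ρ' ≠ 0` and `d ≤ |ρ - ρ'| ≤ ωq`.  Number of pairs for each such `d`: at most `(4ωηqt/d)(ωq/d + 1)(2ηt'/d)` (as in StFne), with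
`ωq/d + 1 ≤ 2ωq/d`; `cor ≤ d/(e0² q² t t')`; the `d`-part is at most `(16 ω² η²/e0²)/d²`; `∑_{d > W} 1/d² ≤ 1/W`. -/
def StFeq : Prop := ∀ (W : ℕ) (w0 ω e0 e1 : ℝ) (q t t' : ℕ), Wn w0 ω e0 e1 → q.Prime →
  t.Prime → t'.Prime → 1 ≤ W → 1 / ω ≤ q → (q : ℝ) ≤ (e1 - e0) * t → (q : ℝ) ≤ (e1 - e0) * t' →
  Fs W w0 ω e0 e1 q t q t' ≤ Es W w0 ω e0 e1 q t * Es W w0 ω e0 e1 q t' +
    16 * ω ^ 2 * (e1 - e0) ^ 2 / e0 ^ 2 / W + Gs W w0 ω e0 e1 q t t'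

/-- ITEM Gpa (the sum over `a, a', g`).  Uses StHar (ii).  Put `λ = e1/e0`.  A pair `(s,s')` of `Gs` (`ρ' = ρ`) is determined by
`g = gcd(z,z')`, `a = z/g`, `a' = z'/g`: `z = ga`, `z' = ga'`, and `ρ` is the only integer in `[w0 q, (w0+ω)q]` (length `≤ q/2 < q`) with
`tρ ≡ z mod q` (`t` is invertible modulo `q`).  `gcd/(zz') = 1/(g a a')`.  `tρ ≡ ga`, `t'ρ ≡ ga'` give `g(a t' - a' t) ≡ 0`, so
`a t' ≡ a' t mod q` (`gcd(g,q) = 1`), `gcd(a,q) = 1`; and `z'/z = a'/a`, so `a' t e0 ≤ a t' e1` and `a t' e0 ≤ a' t e1` (from `e0 q t ≤ z ≤ e1 q t` etc.).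
For fixed `a, a'` the `g` lie in `[e0 q t/a, e1 q t/a]`, `∑ 1/g ≤ λ`.  `a ≤ z ≤ q t ≤ N`, `a' ≤ z' ≤ q t' ≤ N`. -/
def StGpa : Prop := ∀ (W : ℕ) (w0 ω e0 e1 : ℝ) (q t t' N : ℕ), Wn w0 ω e0 e1 → q.Prime →
  t.Prime → t'.Prime → q ≠ t → q ≠ t' → q * t ≤ N → q * t' ≤ N →
  Gs W w0 ω e0 e1 q t t' ≤ (e1 / e0) * ∑ a ∈ (Icc 1 N).filter (fun a => a.Coprime q),
    ∑ a' ∈ (Icc 1 N).filter (fun a' => a * t' ≡ a' * t [MOD q] ∧ a' * t * e0 ≤ a * t' * e1 ∧ a * t' * e0 ≤ a' * t * e1),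
      1 / ((a : ℝ) * a')

/-- ITEM GsT (sum over `t'`).  Uses StGpa, StHar.  `λ = e1/e0`, `T` a finite set of primes in `[T1, T2]`, `q < T1`, `N = q T2`.  Insert
StGpa and exchange sums: for fixed `a` (prime to `q`), `a'` the `t'` satisfy `t' ≡ a' t a⁻¹ mod q` (one class) and
`t' ∈ [x, λ² x]` with `x = a' t/(a λ)`; by StHar (iii) (with `T1 ≥ q`) `∑ 1/t' ≤ 3λ²/q`.  Then `∑_{a, a' ≤ N} 1/(aa') ≤ (1 + log N)²`. -/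
def StGsT : Prop := ∀ (W : ℕ) (w0 ω e0 e1 : ℝ) (q t T1 T2 : ℕ) (T : Finset ℕ), Wn w0 ω e0 e1 → q.Prime →
  (∀ p ∈ T, p.Prime ∧ T1 ≤ p ∧ p ≤ T2) → q < T1 → t ∈ T →
  ∑ t' ∈ T, Gs W w0 ω e0 e1 q t t' / t' ≤ 3 * (e1 / e0) ^ 3 * (1 + Real.log (q * T2)) ^ 2 / q

/-- ITEM Gsd (diagonal `t = t'`).  Uses StGpa, StHar.  StGpa with `t' = t`, `N = q t`: the condition is `a ≡ a' mod q` (`t` is invertible
modulo `q`).  `a = a'`: `∑ 1/a² ≤ 2`.  `a ≠ a'`: by symmetry twice the part `a' > a`, `a' = a + kq`, `1 ≤ k ≤ t`: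
`∑_k 1/(a + kq) ≤ (1/q)(1 + log t)`; so at most `2 (1 + log(qt)) (1 + log t)/q`. -/
def StGsd : Prop := ∀ (W : ℕ) (w0 ω e0 e1 : ℝ) (q t : ℕ), Wn w0 ω e0 e1 → q.Prime → t.Prime → q ≠ t →
  Gs W w0 ω e0 e1 q t t ≤ 2 * (e1 / e0) + 2 * (e1 / e0) * (1 + Real.log (q * t)) ^ 2 / q

/-- ITEM Two (first and second moment).  Uses StPxC, StPmC.  `A`, `T` finite disjoint sets of primes, `L` divisible by all
`lcm(q,q') lcm(t,t')` and by all `z`.  `∑_{x, M} Nk = ∑_{q,t} ∑_s #{x}·#{M} = L² mu` (StPxC with `q' = q`, `t' = t`; StPmC (i)), and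
`∑_{x,M} Nk² ≤ ∑ #{x : q,q' ∣ x, t,t' ∣ x+j} #{M : z ∣ qM+ρ, z' ∣ q'M+ρ'} ≤ L² m2`. -/
def StTwo : Prop := ∀ (W : ℕ) (w0 ω e0 e1 : ℝ) (j L : ℕ) (A T : Finset ℕ), Wn w0 ω e0 e1 → 1 ≤ L →
  (∀ q ∈ A, q.Prime) → (∀ t ∈ T, t.Prime) → Disjoint A T →
  (∀ q ∈ A, ∀ q' ∈ A, ∀ t ∈ T, ∀ t' ∈ T, Nat.lcm q q' * Nat.lcm t t' ∣ L) →
  (∀ q ∈ A, ∀ t ∈ T, ∀ s ∈ Zs W w0 ω e0 e1 q t, s.1 ∣ L) →
  ∑ x ∈ range L, ∑ M ∈ range L, Nk W w0 ω e0 e1 j A T x M = (L : ℝ) ^ 2 * mu W w0 ω e0 e1 A T ∧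
  ∑ x ∈ range L, ∑ M ∈ range L, Nk W w0 ω e0 e1 j A T x M ^ 2 ≤ (L : ℝ) ^ 2 * m2 W w0 ω e0 e1 A T

/-- ITEM Asm (assembly, abstract inequality).  `e ≤ E q t ≤ e'`, `SA = ∑ 1/q`, `ST = ∑ 1/t`, `m = ∑ E q t/(qt) ≥ e SA ST`.  Split the
quadruple sum: (a) `q ≠ q'`, `t ≠ t'` (both lcm's are products): `≤ ∑ (E q t E q' t' + δ)/(q q' t t') ≤ m² + δ SA² ST²`.
(b) `q ≠ q'`, `t = t'`: `≤ (e'² + δ) SA² ST`.  (c) `q = q'`, `t ≠ t'`: `≤ (e'² + δ) SA ST² + δ SA ST` (the `G` part: `∑_{t'} G/t' ≤ δ`).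
(d) `q = q'`, `t = t'`: `≤ (e'² + δ + e' + δ) SA ST`.  With `δ ≤ κ e²/8`, `δ ≤ 1`, `SA, ST ≥ K ≥ 1`, `K ≥ 16 (e' + 1)²/(κ e²)`: (a) `δ SA²ST² ≤ (κ/8) m²`;
(b) `≤ (e'+1)² SA² ST ≤ (e'+1)² SA² ST²/K ≤ (κ/16) m²`; (c) `≤ 2 (e'+1)² SA² ST²/K ≤ (κ/8) m²`; (d) `≤ 2(e'+1)² SA² ST²/K² ≤ (κ/8) m²`. -/
def StAsm : Prop := ∀ (A T : Finset ℕ) (E : ℕ → ℕ → ℝ) (F : ℕ → ℕ → ℕ → ℕ → ℝ) (G : ℕ → ℕ → ℕ → ℝ) (e e' δ κ K : ℝ),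
  (∀ q ∈ A, q.Prime) → (∀ t ∈ T, t.Prime) → 0 < e → 0 ≤ δ → δ ≤ κ * e ^ 2 / 8 → δ ≤ 1 → 0 < κ → κ ≤ 1 → 1 ≤ K →
  16 * (e' + 1) ^ 2 / (κ * e ^ 2) ≤ K →
  K ≤ ∑ q ∈ A, 1 / (q : ℝ) → K ≤ ∑ t ∈ T, 1 / (t : ℝ) →
  (∀ q ∈ A, ∀ t ∈ T, e ≤ E q t ∧ E q t ≤ e') →
  (∀ q ∈ A, ∀ q' ∈ A, q ≠ q' → ∀ t ∈ T, ∀ t' ∈ T, F q t q' t' ≤ E q t * E q' t' + δ) →
  (∀ q ∈ A, ∀ t ∈ T, ∀ t' ∈ T, F q t q t' ≤ E q t * E q t' + δ + G q t t' ∧ 0 ≤ G q t t') →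
  (∀ q ∈ A, ∀ t ∈ T, ∑ t' ∈ T, G q t t' / t' ≤ δ) → (∀ q ∈ A, ∀ t ∈ T, G q t t ≤ e' + δ) →
  ∑ q ∈ A, ∑ t ∈ T, ∑ q' ∈ A, ∑ t' ∈ T, F q t q' t' / ((Nat.lcm q q' : ℝ) * (Nat.lcm t t' : ℝ)) ≤
    (1 + κ) * (∑ q ∈ A, ∑ t ∈ T, E q t / ((q : ℝ) * t)) ^ 2

/-- ITEM Chb (Chebyshev).  On a finite set `Ω` of `n` points with `∑ N = n m`, `∑ N² ≤ n (1+κ) m²`, `m > 0`:
`∑ (N - m)² = ∑ N² - n m² ≤ n κ m²`, each point with `N = 0` contributes `m²`, so there are at most `κ n` of them. -/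
def StChb : Prop := ∀ (Ω : Finset (ℕ × ℕ)) (N : ℕ × ℕ → ℝ) (m κ : ℝ), 0 < m → 0 ≤ κ →
  ∑ p ∈ Ω, N p = Ω.card * m → ∑ p ∈ Ω, N p ^ 2 ≤ Ω.card * ((1 + κ) * m ^ 2) →
  ((Ω.filter (fun p => N p = 0)).card : ℝ) ≤ κ * Ω.card

/-- ITEM Prs (many primes).  For `K ≥ 1` there is `Q0` such that for every natural `Q ≥ Q0` with `u = Q^{1/8}`, `v = Q^{1/4}`:
`∑_{Q < p ≤ e^u} 1/p ≥ K` and `∑_{e^{4u} < p ≤ e^v} 1/p ≥ K`.  From `S_Mert` (theorem `I_Mert.Mert_pf` of `Pool.Agent.Work.MP_56b8f5_nt.WM`):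
`S1 y - S1 x ≥ log log y - log log x - 2 log C`; first: `y = ⌊e^u⌋`, `x = Q`: `log u - loglog Q - C' = (1/8) log Q - loglog Q - C'`; second:
`log v - log(4u) - C' = (1/8) log Q - log 4 - C'`.  (`log ⌊e^u⌋ ≥ u - 1`.) -/
def StPrs : Prop := ∀ K : ℝ, ∃ Q0 : ℕ, ∀ Q : ℕ, Q0 ≤ Q →
  K ≤ ∑ p ∈ (Ioc Q ⌊Real.exp ((Q : ℝ) ^ (1 / 8 : ℝ))⌋₊).filter Nat.Prime, 1 / (p : ℝ) ∧
  K ≤ ∑ p ∈ (Ioc ⌊Real.exp (4 * (Q : ℝ) ^ (1 / 8 : ℝ))⌋₊ ⌊Real.exp ((Q : ℝ) ^ (1 / 4 : ℝ))⌋₊).filter Nat.Prime, 1 / (p : ℝ)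

/-- ITEM SMa (choice of the parameters).  Uses StTtp, StPrs, StElo, StEup, StFne, StFeq, StGsT, StGsd, StAsm.  Given the windows and
`0 < κ ≤ 1` there are `W` and finite disjoint sets `A`, `T` of primes with `m2 ≤ (1+κ) mu²`, `mu > 0`.  `η = e1 - e0`, `e' = 2 e1/e0`
(`≥ 4ωη/e0`, the bound of StEup).  Let
`θ0 = min(κ e0²/(4096 e1²), 1/4)` and choose `W ≥ 16 ω² η²·32/e0² + 2` with `(P/φ(P))² ≤ θ0 W` (StTtp).  `e = ωηφ(P)/(4 e1 P)`, `δ = min(κe²/8, 1)`.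
Then `(8ω²η²/e0²)/W ≤ δ/2` and `(16ω²η²/e0²)/W ≤ δ` (for the first alternative: `ω²η²/W ≤ θ0 ω²η²(φ(P)/P)² = 16 θ0 e1² e²`, so
`16·16 θ0 e1² e²/e0² ≤ κe²/16`).  `K = max(1, 16(e'+1)²/(κe²))`.  Choose `Q` so large that StPrs holds, `Q > W`, `Q ≥ 6/ω`, with `Q2 = e^u`, `T1 = e^{4u}`, `T2 = e^v`:
`T1 - 1 ≥ 3 Q2²/η`, `T1 - 1 ≥ 6P/η`, `T1 - 1 > Q2`, `(8ωη²/e0²)(1 + log 3 + 2u)/Q ≤ δ/2`, `3(e1/e0)³(1 + u + v)²/Q ≤ δ`, `2(e1/e0)(1+u+v)²/Q ≤ δ` (all true for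
large `Q`: `u = Q^{1/8}`, `v = Q^{1/4}`).  `A`, `T` the primes of StPrs.  StAsm with `E = Es`, `F = Fs`, `G = Gs`.
`mu ≥ e K² > 0`. -/
def StSMa : Prop := ∀ (w0 ω e0 e1 κ : ℝ), Wn w0 ω e0 e1 → 0 < κ → κ ≤ 1 → ∃ (W : ℕ) (A T : Finset ℕ),
  (∀ q ∈ A, q.Prime) ∧ (∀ t ∈ T, t.Prime) ∧ Disjoint A T ∧ 0 < mu W w0 ω e0 e1 A T ∧
  m2 W w0 ω e0 e1 A T ≤ (1 + κ) * mu W w0 ω e0 e1 A T ^ 2

/-- ITEM SM (result of part S).  Uses StSMa, StTwo, StChb.  Take `L` the product of all `q² t² ` and all `z` (or a factorial), `S` the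
set of all `(q, t, z, ρ)` with `q ∈ A`, `t ∈ T`, `(z,ρ) ∈ Zs`; `badL` is the set of points with `Nk = 0`.  `Lnk`: `z ≥ e0 q t > 0`, `q ≠ t` primes. -/
def StSM : Prop := ∀ (j : ℕ) (w0 ω e0 e1 κ : ℝ), Wn w0 ω e0 e1 → 0 < κ → κ ≤ 1 →
  ∃ (L : ℕ) (S : Finset (ℕ × ℕ × ℕ × ℕ)), 1 ≤ L ∧
  (∀ s ∈ S, Lnk w0 ω e0 e1 s.1 s.2.1 s.2.2.1 s.2.2.2 ∧ s.1 ∣ L ∧ s.2.1 ∣ L ∧ s.2.2.1 ∣ L) ∧
  ((badL L j S).card : ℝ) ≤ κ * (L : ℝ) ^ 2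

end Pool.Agent.Work.MP_a8fbd7_nt.PAR.LC
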