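import Pool.Agent.Work.MP_a8fbd7_nt.PAR.LC.Stmts

set_option autoImplicit false

/-!
MP_a8fbd7_nt, block LC, parts E (equidistribution) and K (link, cells, chain, end), captain helper30.
Same conventions as in `Stmts.lean`; the items live in `PAR/LC/I_NAME.lean` and import this file.
-/

open Finset

noncomputable section

namespace Pool.Agent.Work.MP_a8fbd7_nt.PAR.LC

/-! ## Part E: equidistribution -/

/-- `e(x) = exp(2πix)` (definitionally the `ee` of `Pool.Agent.Work.MP_56b8f5_nt.UB`) -/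
def ee (x : ℝ) : ℂ := Complex.exp (((2 * Real.pi * x : ℝ) : ℂ) * Complex.I)

/-- ITEM Wey (Weyl's criterion, one sided, quantitative).  Let `φ` be the 1-periodic continuous trapezoid with `φ ≥ 0`, `φ = 1` on
`[0, ℓ]` mod 1 and `∫ φ ≤ ℓ + κ/3` (if `ℓ + κ/3 ≥ 1` take `φ = 1`, or the claim is trivial when `ℓ + κ ≥ 1`).  Trigonometric polynomials are
dense in the continuous functions on the circle (Mathlib: `span_fourier_closure_eq_top`; or Fejér means): there is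
`P(x) = ∑_{|m| ≤ K} c_m e(mx)` with `|P - φ| ≤ κ/6` everywhere, so `Re c_0 = Re ∫ P ≤ ℓ + κ/2`.  The count is
`≤ ∑_i φ(x_i - α) ≤ ∑_i Re P(x_i - α) + κN/6 ≤ N(ℓ + κ/2) + ∑_{m ≠ 0} |c_m| δ N + κN/6` (for `m < 0` the sum is the complex conjugate); take
`δ = κ/(6 (1 + ∑ |c_m|))`. -/
def StWey : Prop := ∀ l κ : ℝ, 0 < l → l ≤ 1 → 0 < κ → ∃ (K : ℕ) (δ : ℝ), 0 < δ ∧ ∀ (N : ℕ) (x : ℕ → ℝ) (α : ℝ),
  (∀ m : ℕ, 1 ≤ m → m ≤ K → ‖∑ i ∈ range N, ee (m * x i)‖ ≤ δ * N) →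
  (((range N).filter (fun i => Int.fract (x i - α) < l)).card : ℝ) ≤ (l + κ) * N

/-- ITEM Sec (exponential sums over progressions).  From `StVB` of `Pool.Agent.Work.MP_56b8f5_nt.UT` (proved there without
hypotheses: `I_VB.lean`, theorem `iVB`, from `iKL` of `I_KL.lean`; same `ee`) with `h = (21/20)³`: for
`f(i) = m n²/(L g)`, `g = x0 + L(a + i)`, the second difference is `(m n²/L)(1/g - 2/(g+L) + 1/(g+2L)) = 2 m n² L/(g(g+L)(g+2L))`, and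
`g, g+L, g+2L ∈ [rn, (21/20) rn]`, so it lies in `[λ, hλ]` with `λ = 2mL/((21/20)³ r³ n)`.  The number of terms is at most
`rn/(20L) + 1`; the bound is `C₀ ((rn/(20L) + 1) √λ + 1/√λ) ≤ C √n` for `n ≥ 1`. -/
def StSec : Prop := ∀ (L m : ℕ) (r : ℝ), 1 ≤ L → 1 ≤ m → 0 < r → ∃ C : ℝ, 0 < C ∧ ∀ (n : ℝ) (x0 a N : ℕ), 1 ≤ n →
  r * n ≤ ((x0 + L * a : ℕ) : ℝ) → (∀ i < N, ((x0 + L * (a + i) : ℕ) : ℝ) ≤ 21 / 20 * r * n) →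
  ‖∑ i ∈ range N, ee (m * (n ^ 2 / (L * ((x0 + L * (a + i) : ℕ) : ℝ))))‖ ≤ C * Real.sqrt n

/-- ITEM EQ (equidistribution of `(g mod L, ⌊n²/g⌋ mod L, cell)`).  Uses StWey, StSec, StCap.  `Y = n²`.  The `g ∈ cel` are
`g = x0 + L(a + i)`, `i < N`, where these `N` numbers are all `g ≡ x0 mod L` in `[rn, (21/20) rn]`:
`N ≤ rn/(20L) + 1`.  For such `g` with `⌊Y/g⌋ ≡ M0 mod L` and fractional part in `[k/B, (k+1)/B)`: with `α = (M0 + k/B)/L`,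
`Y/(Lg) - α = (⌊Y/g⌋ - M0)/L + (frac - k/B)/L`, the first term is an integer and the second is in `[0, 1/(LB))`, so
`Int.fract (Y/(Lg) - α) < 1/(LB)`.  StWey with `l = 1/(LB)`, `κ' = κ/(4LB)`, `x_i = Y/(L g_i)`; its hypothesis holds by StSec for all `n ≥ n0`
(`C √n ≤ δ N` as `N ≥ rn/(20L) - 1`), so the count is `≤ (1 + κ/4) N/(LB) ≤ (1+κ)(rn/20)/(L² B)` for `n ≥ n0`. -/
def StEQ : Prop := ∀ (L B : ℕ) (r κ : ℝ), 1 ≤ L → 1 ≤ B → 0 < r → 0 < κ → ∃ n0 : ℝ, ∀ n : ℝ, n0 ≤ n →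
  ∀ x0 M0 k : ℕ, x0 < L → M0 < L → k < B →
  ((cel (n ^ 2) (r * n) (21 / 20 * r * n) L x0 M0 B k).card : ℝ) ≤ (1 + κ) * (r * n / 20) / ((L : ℝ) ^ 2 * B)

/-! ## Part K: the link -/

/-- ITEM Alg (four products).  `f(a1)f(z)f(U) = f(t)f(U)f(W) = f(q)f(V)f(W) = f(a2)f(z)f(V) = F`; the product of the four is
`f(a1)f(q) f(a2)f(t) = f(g) f(g+j)` times squares of signs, and `F⁴ = 1` (`F = ±1`), so `f(g) f(g+j) = 1`. -/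
def StAlg : Prop := ∀ (f : ℕ → ℤ) (F : ℤ), Sgn f → ∀ g j q t z U V W a1 a2 : ℕ, 1 ≤ q → 1 ≤ t → 1 ≤ z → 1 ≤ U → 1 ≤ V → 1 ≤ W →
  1 ≤ a1 → 1 ≤ a2 → g = q * a1 → g + j = t * a2 → f (a1 * z * U) = F → f (t * U * W) = F → f (q * V * W) = F →
  f (a2 * z * V) = F → f g = f (g + j)

/-- ITEM Int (integrality).  `A = qM + ρ = zU`.  `tA ≡ tρ ≡ z mod q`, so `z(tU - 1) ≡ 0 mod q` and `gcd(z,q) = 1`: `tU = qV + 1`.
`q(a1 - jV) = g - j(tU - 1) = (g + j) - jtU ≡ 0 mod t`, `gcd(q,t) = 1`, so `a1 - jV = t b` with an integer `b`; `W = zb + k'`.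
Then `tW = z(a1 - jV) + t k'`. -/
def StInt : Prop := ∀ (g j q t z ρ M : ℕ) (k' : ℤ), 1 ≤ q → 1 ≤ t → 1 ≤ z → q.Coprime t → z.Coprime q → t * ρ ≡ z [MOD q] →
  q ∣ g → t ∣ g + j → z ∣ q * M + ρ → 1 ≤ q * M + ρ →
  ∃ (U V a1 a2 : ℕ) (W : ℤ), g = q * a1 ∧ g + j = t * a2 ∧ q * M + ρ = z * U ∧ t * U = q * V + 1 ∧
    (t : ℤ) * W = z * ((a1 : ℤ) - j * V) + t * k'

/-- ITEM Tau (size of `τ`).  `τ - (k0 - jk/B) = -j(θ - k/B) + j(e - u)`: the first term is at most `J/B ≤ Jc/(200r) ≤ c²/40000` in absolute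
value, the second at most `Jc/r ≤ c²/200`; `|k0 - jk/B| ≤ 1/J ≤ c²/8`. -/
def StTau : Prop := ∀ (c r θ u e : ℝ) (J B j k : ℕ) (k0 : ℤ), 0 < c → c ≤ 1 → 8 / c ^ 2 ≤ J → 200 * J / c ≤ r → 200 * r / c ≤ B →
  1 ≤ j → j ≤ J → |(k0 : ℝ) - j * (k / B)| ≤ 1 / J → (k : ℝ) / B ≤ θ → θ ≤ ((k : ℝ) + 1) / B → 0 ≤ u → u ≤ c / r →
  0 ≤ e → e ≤ c / r →
  |((k0 : ℝ) - j * θ - j * u + j * e) - (k0 - j * (k / B))| ≤ c ^ 2 / 100 ∧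
  |(k0 : ℝ) - j * θ - j * u + j * e| ≤ 27 * c ^ 2 / 200

/-- ITEM Pos (positions of the four products).  `a0 = 1/2` and `-c²/100 ≤ τ ≤ 27c²/200`, or `a0 = 17/20` and `-27c²/200 ≤ τ ≤ c²/100`.
`y = n²/g`, `W = ge + τ`, `v = y + u - e`.  Write everything as `n² + n·(...)`.  `gu/n ∈ [a0 c, (21/20)(a0 + 9/200)c]`, i.e. `[.5c, .5723c]` or
`[.85c, .9398c]`; `ge/n ∈ [.4c, .441c]`.  (1) `g(y+u) = n² + gu`.  (2) `(g+j)v = n² + gu - ge + jv`, `0 ≤ jv ≤ J(n/r + 1) ≤ .01 c n`: position in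
`[.059c, .19c]` or `[.409c, .55c]`.  (3) `(y+u)W/e = n² + gu + τn²/(ge) + τu/e`, `n²/(ge) = n/(ge/n)`, so `τn²/(ge) ∈ n[-.025c, .3375c]` or
`n[-.3375c, .025c]`, `|τu/e| ≤ .31c² ≤ .01 c n`: position in `[.465c, .92c]` or `[.5025c, .975c]`.  (4) `vW/e` is (3) minus `W = ge + τ`,
`W ∈ n[.39c, .451c]`: position in `[.014c, .53c]` or `[.05c, .585c]`.  (`v > 0`: `y ≥ n/(1.05 r) ≥ 10`, `e ≤ 1`.) -/
def StPos : Prop := ∀ (c r n g u e τ a0 : ℝ) (J j : ℕ), 0 < c → c ≤ 1 → 8 / c ^ 2 ≤ J → 200 * J / c ≤ r →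
  1000 * J * r / c ^ 2 ≤ n → 1 ≤ j → j ≤ J → r * n ≤ g → g ≤ 21 / 20 * r * n →
  2 * c / (5 * r) ≤ e → e ≤ 21 * c / (50 * r) → a0 * c / r ≤ u → u ≤ (a0 + 9 / 200) * c / r →
  ((a0 = 1 / 2 ∧ -(c ^ 2 / 100) ≤ τ ∧ τ ≤ 27 * c ^ 2 / 200) ∨ (a0 = 17 / 20 ∧ -(27 * c ^ 2 / 200) ≤ τ ∧ τ ≤ c ^ 2 / 100)) →
  0 < g * e + τ ∧ 0 < n ^ 2 / g + u - e ∧
  (n ^ 2 ≤ g * (n ^ 2 / g + u) ∧ g * (n ^ 2 / g + u) ≤ n ^ 2 + c * n) ∧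
  (n ^ 2 ≤ (g + j) * (n ^ 2 / g + u - e) ∧ (g + j) * (n ^ 2 / g + u - e) ≤ n ^ 2 + c * n) ∧
  (n ^ 2 ≤ (n ^ 2 / g + u) * (g * e + τ) / e ∧ (n ^ 2 / g + u) * (g * e + τ) / e ≤ n ^ 2 + c * n) ∧
  (n ^ 2 ≤ (n ^ 2 / g + u - e) * (g * e + τ) / e ∧ (n ^ 2 / g + u - e) * (g * e + τ) / e ≤ n ^ 2 + c * n)

/-- ITEM Lk (the link).  Uses StAlg, StInt, StTau, StPos.  `y = n²/g`, `M = ⌊y⌋`, `θ = y - M`, `u = ρ/q - θ`, `e = z/(qt)`, `A = qM + ρ`, so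
`A/q = y + u`.  `ρ/q ∈ [w0, w0 + c/(25r)]` with `w0 = (k+1)/B + a0 c/r` and `θ ∈ [k/B, (k+1)/B)` give `a0 c/r ≤ u ≤ a0c/r + c/(25r) + 1/B ≤ (a0 + 9/200)c/r`
(`1/B ≤ c/(200r)`).  `k' = jM + k0`.  StInt gives `U, V, a1, a2, W`.  `v := zV/t = z(tU-1)/(qt) = A/q - e = y + u - e`;
`τ := k' - jv = k0 - jθ - ju + je` (StTau: its sign pattern is the one of StPos); `W = z a1/t - jzV/t + k' = ge + τ`.
`a1 z U = gA/q = g(y+u)`; `tUW = (tA/z) W = (y+u)W/e`; `qVW = (tU - 1)W = vW/e` (as `v/e = V q`); `a2 z V = (g+j) zV/t = (g+j)v`.  StPos: all four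
lie in `[n², n² + cn]` and are positive, so `W ≥ 1`, `V ≥ 1`; by `Cst` their `f` is `F`.  StAlg. -/
def StLk : Prop := ∀ (f : ℕ → ℤ) (F : ℤ) (c r n a0 : ℝ) (J B j k g q t z ρ : ℕ) (k0 : ℤ), Sgn f → Cst f F n c →
  0 < c → c ≤ 1 → 8 / c ^ 2 ≤ J → 200 * J / c ≤ r → 200 * r / c ≤ B → 1000 * J * r / c ^ 2 ≤ n → 1 ≤ j → j ≤ J →
  r * n ≤ g → (g : ℝ) ≤ 21 / 20 * r * n → |(k0 : ℝ) - j * (k / B)| ≤ 1 / J →
  ((a0 = 1 / 2 ∧ 0 ≤ (k0 : ℝ) - j * (k / B)) ∨ (a0 = 17 / 20 ∧ (k0 : ℝ) - j * (k / B) ≤ 0)) →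
  (k : ℝ) / B ≤ n ^ 2 / g - ⌊n ^ 2 / (g : ℝ)⌋₊ → n ^ 2 / g - ⌊n ^ 2 / (g : ℝ)⌋₊ < ((k : ℝ) + 1) / B →
  Lnk (((k : ℝ) + 1) / B + a0 * c / r) (c / (25 * r)) (2 * c / (5 * r)) (21 * c / (50 * r)) q t z ρ →
  q ∣ g → t ∣ g + j → z ∣ q * ⌊n ^ 2 / (g : ℝ)⌋₊ + ρ → f g = f (g + j)

/-- ITEM Blk (one block).  Uses StSM, StEQ, StLk.  `B = ⌈200 r/c⌉`.  For `k < B` Dirichlet (`Real.exists_int_int_abs_mul_sub_le`) gives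
`1 ≤ j_k ≤ J`, `k0` with `|k0 - j_k k/B| ≤ 1/J`; `a0 = 1/2` or `17/20` according to the sign; `jj k = j_k` (`1` for `k ≥ B`).  The windows
`w0 = (k+1)/B + a0c/r`, `ω = c/(25r)`, `e0 = 2c/(5r)`, `e1 = 21c/(50r)` satisfy `Wn`.  StSM (with `min κ 1`) gives `L_k`, `S_k`; StEQ with `L_k, B, r` and
`κ' = 1` gives `n0`.  A `g` of the block with cell number `k = cno` (`k < B`, and the fractional part lies in the cell `k`) and residues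
`(x0, M0)` of `(g, ⌊n²/g⌋)` modulo `L_k` outside `badL` has a link of `S_k` (the divisibilities by divisors of `L_k` depend only on the residues:
`HasL S j x0 M0` implies `HasL S j g ⌊n²/g⌋`), so `f g = f(g + j_k)` by StLk.  The other `g` lie in the union over `k` and over
`(x0, M0) ∈ badL` of the sets `cel`: at most `∑_k κ L_k² · 2 (rn/20)/(L_k² B) ≤ κ r n/10` of them. -/
def StBlk : Prop := ∀ (c r κ : ℝ) (J : ℕ), 0 < c → c ≤ 1 → 8 / c ^ 2 ≤ J → 200 * J / c ≤ r → 0 < κ →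
  ∃ (B : ℕ) (jj : ℕ → ℕ) (n0 : ℝ), 1 ≤ B ∧ (B : ℝ) ≤ 300 * r / c ∧ (∀ k, 1 ≤ jj k ∧ jj k ≤ J) ∧
  ∀ (n : ℝ) (f : ℕ → ℤ) (F : ℤ), n0 ≤ n → Sgn f → Cst f F n c →
  (((Icc ⌈r * n⌉₊ ⌊21 / 20 * r * n⌋₊).filter (fun g => f g ≠ f (g + jj (cno (n ^ 2) B g)))).card : ℝ) ≤ κ * r * n

/-- ITEM Chn (the chain).  `Λ = J!`.  Let `m` be in the left set and suppose (i) `⌊B n²/g⌋` is the same for all `g ∈ [Λm, Λ(m+1))`, (ii) none of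
these `g` is in the set on the right.  By (i) `cno` is constant there: `cno = ⌊By⌋ - B⌊y⌋` and `⌊y⌋ = ⌊By⌋ / B` (`y = n²/g`).  With
`j = jj(cno)`, `j ∣ Λ`: `f(Λm) = f(Λm + j) = f(Λm + 2j) = … = f(Λm + Λ)`, so `f(Λ)f(m) = f(Λ)f(m+1)`, contradiction.  The `m` violating (ii) are at most as
many as the bad `g` (disjoint intervals).  The `m` violating (i) give pairwise different drops of the decreasing integer function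
`g ↦ ⌊B n²/g⌋` on `[rn, (21/20)rn]`: at most `B n²/(rn) - B n²/((21/20) r n) + 1 ≤ Bn/r + 1`. -/
def StChn : Prop := ∀ (f : ℕ → ℤ) (r n : ℝ) (B J : ℕ) (jj : ℕ → ℕ), Sgn f → 0 < r → 0 < n → 1 ≤ r * n → 1 ≤ B → 1 ≤ J →
  (∀ k, 1 ≤ jj k ∧ jj k ≤ J) →
  (((range (⌊21 / 20 * r * n⌋₊ + 1)).filter (fun m : ℕ => r * n ≤ (J.factorial : ℝ) * m ∧
      (J.factorial : ℝ) * (m + 1) ≤ 21 / 20 * r * n ∧ f m ≠ f (m + 1))).card : ℝ) ≤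
    (((Icc ⌈r * n⌉₊ ⌊21 / 20 * r * n⌋₊).filter (fun g => f g ≠ f (g + jj (cno (n ^ 2) B g)))).card : ℝ) + (B * n / r + 2)

/-- ITEM LC (local constancy in one block).  Uses StBlk, StChn.  `J = ⌈8/c²⌉`, `Λ = J!`, `r0 = max (200J/c) (1200Λ/(cε))`.  For `r ≥ r0`:
StBlk with `κ = ε/(2Λ)`, and `Bn/r + 2 ≤ 300n/c + 2 ≤ ε r n/(4Λ) + 2 ≤ ε r n/(2Λ)` for `n ≥ n0`. -/
def StLC : Prop := ∀ c ε : ℝ, 0 < c → c ≤ 1 → 0 < ε → ∃ (Λ : ℕ) (r0 : ℝ), 1 ≤ Λ ∧ 1 ≤ r0 ∧ ∀ r : ℝ, r0 ≤ r → ∃ n0 : ℝ,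
  ∀ (n : ℝ) (f : ℕ → ℤ) (F : ℤ), n0 ≤ n → Sgn f → Cst f F n c →
  (((range (⌊21 / 20 * r * n⌋₊ + 1)).filter (fun m : ℕ => r * n ≤ (Λ : ℝ) * m ∧
      (Λ : ℝ) * (m + 1) ≤ 21 / 20 * r * n ∧ f m ≠ f (m + 1))).card : ℝ) ≤ ε * r * n / Λ

/-- ITEM LCu (union of blocks).  Uses StLC with `ε' = ε/200`, `Λ`, `r0`.  `X = ⌈r0 n/Λ⌉`, `r_i = r0 (21/20)^i`, `i < 25` (`(21/20)^25 > 3.3`).  Every
`m ∈ [X, 3X)` has `r_0 n ≤ Λm < r_25 n` for `n` large, so `r_i n ≤ Λm < r_{i+1} n` for some `i`; either `Λ(m+1) ≤ r_{i+1} n` and `m` is counted in block `i`, or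
`m` is the last such `m` of block `i` (at most one for each `i`).  Total `≤ ∑ ε' r_i n/Λ + 25 ≤ 25·3.3·ε' r0 n/Λ + 25 ≤ ε X` for `n` large. -/
def StLCu : Prop := ∀ c ε : ℝ, 0 < c → c ≤ 1 → 0 < ε → ∃ K n0 : ℝ, 0 < K ∧ ∀ (n : ℝ) (f : ℕ → ℤ) (F : ℤ), n0 ≤ n →
  Sgn f → Cst f F n c → ∃ X : ℕ, K * n ≤ X ∧ (((Ico X (3 * X)).filter (fun m => f m ≠ f (m + 1))).card : ℝ) ≤ ε * X

/-- THEOREM P: the Liouville function takes both values on every `[x, x + c √x]`, `x ≥ x0(c)`. -/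
def ThmP : Prop := ∀ c : ℝ, 0 < c → ∃ x0 : ℝ, ∀ x : ℝ, x0 ≤ x →
  (∃ m : ℕ, x ≤ m ∧ (m : ℝ) ≤ x + c * Real.sqrt x ∧ ArithmeticFunction.liouville m = 1) ∧
  (∃ m : ℕ, x ≤ m ∧ (m : ℝ) ≤ x + c * Real.sqrt x ∧ ArithmeticFunction.liouville m = -1)

/-- ITEM End (conclusion; `MRweak` is block MR).  Uses MRweak, StLCu.  `lam` is `Sgn` (Mathlib: `liouville_apply_mul`, `liouville_apply`).  WLOG `c ≤ 1`.
Let `h0`, `X0` be as in MRweak, `ε = 1/(8 h0)`, and let `n = √x` be so large that `K n ≥ max X0 (8 h0² + 8)`.  If `lam = F` on `[n², n² + cn]` then with `X` of StLCu: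
an `x' ∈ [X, 2X)` for which `lam` is not constant on `[x', x' + h0)` has some `m ∈ [x', x' + h0 - 1)` with `lam m ≠ lam(m+1)`, `m < 2X + h0 ≤ 3X`; each such `m` serves at
most `h0` values of `x'`; so there are at most `h0 ε X = X/8` such `x'`, and more than `X/2` of the `x' ∈ [X, 2X)` have `lam` constant on
`[x', x' + h0)`, against MRweak.  So `lam` is neither always `1` nor always `-1` on the interval; since the values are `±1` both occur. -/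
def StEnd : Prop := MRweak → ThmP

end Pool.Agent.Work.MP_a8fbd7_nt.PAR.LC
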