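import Pool.Agent.Work.MP_a8fbd7_nt.PAR.LC.Stmts2

set_option autoImplicit false

/-!
MP_a8fbd7_nt, block LC, part D (captain helper30): the quantitative form.  Instead of `f = F` on `[n², n² + cn]` we
assume only that the exceptions `f m ≠ F` have divisor weight at most `δ n`.  This gives at least `√x/(log x)^17` integers of each
sign of the Liouville function in every `[x, x + c √x]`.  (These statements replace StLk, StBlk, StLC, StLCu, StEnd.)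
-/

open Finset

noncomputable section

namespace Pool.Agent.Work.MP_a8fbd7_nt.PAR.LC

/-- The exceptions in `[n², n² + cn]`. -/
def Ex (f : ℕ → ℤ) (F : ℤ) (n c : ℝ) : Finset ℕ :=
  (Icc ⌈n ^ 2⌉₊ ⌊n ^ 2 + c * n⌋₊).filter (fun m => f m ≠ F)

/-- The divisor weight of the exceptions. -/
def Dv (f : ℕ → ℤ) (F : ℤ) (n c : ℝ) : ℝ := ∑ m ∈ Ex f F n c, (m.divisors.card : ℝ)

/-- `g` is attached to `m` (by the data `q, t, z, j`). -/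
def Att (q t z j g m : ℕ) : Prop :=
  (∃ a, g = q * a ∧ a ∣ m) ∨ (∃ a, g + j = t * a ∧ a ∣ m) ∨ (∃ W : ℕ, W ∣ m ∧ |(g : ℝ) * z / (q * t) - W| ≤ 1)

/-- ITEM LkD (the link with exceptions).  Uses StAlg, StInt, StTau, StPos.  `y = n²/g`, `M = ⌊y⌋`, `θ = y - M`, `u = ρ/q - θ`, `e = z/(qt)`, `A = qM + ρ`, so
`A/q = y + u`.  `ρ/q ∈ [w0, w0 + c/(25r)]` with `w0 = (k+1)/B + a0 c/r` and `θ ∈ [k/B, (k+1)/B)` give `a0 c/r ≤ u ≤ a0c/r + c/(25r) + 1/B ≤ (a0 + 9/200)c/r`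
(`1/B ≤ c/(200r)`).  `k' = jM + k0`.  StInt gives `U, V, a1, a2, W`.  `v := zV/t = z(tU-1)/(qt) = A/q - e = y + u - e`;
`τ := k' - jv = k0 - jθ - ju + je` (StTau: its sign pattern is the one of StPos, `|τ| ≤ 1`); `W = z a1/t - jzV/t + k' = ge + τ`.
`a1 z U = gA/q = g(y+u)`; `tUW = (tA/z) W = (y+u)W/e`; `qVW = (tU - 1)W = vW/e` (as `v/e = V q`); `a2 z V = (g+j) zV/t = (g+j)v`.  StPos: all four
lie in `[n², n² + cn]` and are positive, so `W ≥ 1`, `V ≥ 1`.  If all four have `f = F` then StAlg.  Otherwise one of them, `m`, is in `Ex`, and it is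
divisible by `a1`, `a2` or `W` (`g = q a1`, `g + j = t a2`, `|ge - W| = |τ| ≤ 1`): `Att`. -/
def StLkD : Prop := ∀ (f : ℕ → ℤ) (F : ℤ) (c r n a0 : ℝ) (J B j k g q t z ρ : ℕ) (k0 : ℤ), Sgn f →
  0 < c → c ≤ 1 → 8 / c ^ 2 ≤ J → 200 * J / c ≤ r → 200 * r / c ≤ B → 1000 * J * r / c ^ 2 ≤ n → 1 ≤ j → j ≤ J →
  r * n ≤ g → (g : ℝ) ≤ 21 / 20 * r * n → |(k0 : ℝ) - j * (k / B)| ≤ 1 / J →
  ((a0 = 1 / 2 ∧ 0 ≤ (k0 : ℝ) - j * (k / B)) ∨ (a0 = 17 / 20 ∧ (k0 : ℝ) - j * (k / B) ≤ 0)) →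
  (k : ℝ) / B ≤ n ^ 2 / g - ⌊n ^ 2 / (g : ℝ)⌋₊ → n ^ 2 / g - ⌊n ^ 2 / (g : ℝ)⌋₊ < ((k : ℝ) + 1) / B →
  Lnk (((k : ℝ) + 1) / B + a0 * c / r) (c / (25 * r)) (2 * c / (5 * r)) (21 * c / (50 * r)) q t z ρ →
  q ∣ g → t ∣ g + j → z ∣ q * ⌊n ^ 2 / (g : ℝ)⌋₊ + ρ → f g = f (g + j) ∨ ∃ m ∈ Ex f F n c, Att q t z j g m

open Classical in
/-- ITEM Atc (count of the attached `g`).  For `m ≥ 1`: type 1 `g = q a`, `a ∣ m`: at most `τ(m)`; type 2 `g = t a - j`: at most `τ(m)`;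
type 3: for each `W ∣ m` the `g` with `|g - W qt/z| ≤ qt/z`: at most `2qt/z + 1`.  Total `τ(m)(3 + 2qt/z)`. -/
def StAtc : Prop := ∀ (q t z j m N : ℕ), 1 ≤ q → 1 ≤ t → 1 ≤ z → 1 ≤ m →
  (((range N).filter (fun g => Att q t z j g m)).card : ℝ) ≤ (m.divisors.card : ℝ) * (3 + 2 * (q * t) / z)

/-- ITEM BlkD (one block).  Uses StSM, StEQ, StLkD, StAtc.  `B = ⌈200 r/c⌉`.  For `k < B` Dirichlet (`Real.exists_int_int_abs_mul_sub_le`) gives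
`1 ≤ j_k ≤ J`, `k0` with `|k0 - j_k k/B| ≤ 1/J`; `a0 = 1/2` or `17/20` according to the sign; `jj k = j_k` (`1` for `k ≥ B`).  The windows
`w0 = (k+1)/B + a0c/r`, `ω = c/(25r)`, `e0 = 2c/(5r)`, `e1 = 21c/(50r)` satisfy `Wn`.  StSM (with `min κ 1`) gives `L_k`, `S_k`; StEQ with `L_k, B, r` and
`κ' = 1` gives `n0`.  A `g` of the block with cell number `k = cno` (`k < B`, and the fractional part lies in the cell `k`) and residues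
`(x0, M0)` of `(g, ⌊n²/g⌋)` modulo `L_k` outside `badL` has a link of `S_k` (the divisibilities by divisors of `L_k` depend only on the residues:
`HasL S j x0 M0` implies `HasL S j g ⌊n²/g⌋`), so by StLkD `f g = f(g + j_k)` or `g` is attached to some `m ∈ Ex`.  The `g` with residues in `badL` lie in the
union over `k` and over `(x0, M0) ∈ badL` of the sets `cel`: at most `∑_k κ L_k² · 2 (rn/20)/(L_k² B) ≤ κ r n/10` of them.  The attached `g`: by StAtc at most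
`∑_{k < B} ∑_{s ∈ S_k} ∑_{m ∈ Ex} τ(m)(3 + 2/e0) = C·Dv ≤ C δ n` (`qt/z ≤ 1/e0`), with `C` depending on `c, r, κ, J` only: `δ = κ r/(2(C+1))`. -/
def StBlkD : Prop := ∀ (c r κ : ℝ) (J : ℕ), 0 < c → c ≤ 1 → 8 / c ^ 2 ≤ J → 200 * J / c ≤ r → 0 < κ →
  ∃ (B : ℕ) (jj : ℕ → ℕ) (n0 δ : ℝ), 1 ≤ B ∧ (B : ℝ) ≤ 300 * r / c ∧ (∀ k, 1 ≤ jj k ∧ jj k ≤ J) ∧ 0 < δ ∧
  ∀ (n : ℝ) (f : ℕ → ℤ) (F : ℤ), n0 ≤ n → Sgn f → Dv f F n c ≤ δ * n →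
  (((Icc ⌈r * n⌉₊ ⌊21 / 20 * r * n⌋₊).filter (fun g => f g ≠ f (g + jj (cno (n ^ 2) B g)))).card : ℝ) ≤ κ * r * n

/-- ITEM LCD (local constancy in one block).  Uses StBlkD, StChn.  `J = ⌈8/c²⌉`, `Λ = J!`, `r0 = max (200J/c) (1200Λ/(cε))`.  For `r ≥ r0`:
StBlkD with `κ = ε/(2Λ)`, and `Bn/r + 2 ≤ 300n/c + 2 ≤ ε r n/(4Λ) + 2 ≤ ε r n/(2Λ)` for `n ≥ n0`. -/
def StLCD : Prop := ∀ c ε : ℝ, 0 < c → c ≤ 1 → 0 < ε → ∃ (Λ : ℕ) (r0 : ℝ), 1 ≤ Λ ∧ 1 ≤ r0 ∧ ∀ r : ℝ, r0 ≤ r →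
  ∃ n0 δ : ℝ, 0 < δ ∧ ∀ (n : ℝ) (f : ℕ → ℤ) (F : ℤ), n0 ≤ n → Sgn f → Dv f F n c ≤ δ * n →
  (((range (⌊21 / 20 * r * n⌋₊ + 1)).filter (fun m : ℕ => r * n ≤ (Λ : ℝ) * m ∧
      (Λ : ℝ) * (m + 1) ≤ 21 / 20 * r * n ∧ f m ≠ f (m + 1))).card : ℝ) ≤ ε * r * n / Λ

/-- ITEM LCuD (union of blocks).  Uses StLCD with `ε' = ε/200`, `Λ`, `r0`.  `X = ⌈r0 n/Λ⌉`, `r_i = r0 (21/20)^i`, `i < 25` (`(21/20)^25 > 3.3`), `n0` and `δ` the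
maximum and minimum of those of the 25 blocks.  Every `m ∈ [X, 3X)` has `r_0 n ≤ Λm < r_25 n` for `n` large, so `r_i n ≤ Λm < r_{i+1} n` for some `i`; either
`Λ(m+1) ≤ r_{i+1} n` and `m` is counted in block `i`, or `m` is the last such `m` of block `i` (at most one for each `i`).  Total
`≤ ∑ ε' r_i n/Λ + 25 ≤ 25·3.3·ε' r0 n/Λ + 25 ≤ ε X` for `n` large. -/
def StLCuD : Prop := ∀ c ε : ℝ, 0 < c → c ≤ 1 → 0 < ε → ∃ K n0 δ : ℝ, 0 < K ∧ 0 < δ ∧ ∀ (n : ℝ) (f : ℕ → ℤ) (F : ℤ), n0 ≤ n →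
  Sgn f → Dv f F n c ≤ δ * n → ∃ X : ℕ, K * n ≤ X ∧
  (((Ico X (3 * X)).filter (fun m => f m ≠ f (m + 1))).card : ℝ) ≤ ε * X

/-- Weighted form: both signs of the Liouville function have divisor weight `≥ δ √x` in `[x, x + c √x]`. -/
def ThmW : Prop := ∀ c : ℝ, 0 < c → ∃ δ x0 : ℝ, 0 < δ ∧ ∀ x : ℝ, x0 ≤ x → ∀ s : ℤ, s = 1 ∨ s = -1 →
  δ * Real.sqrt x ≤ ∑ m ∈ (Icc ⌈x⌉₊ ⌊x + c * Real.sqrt x⌋₊).filter (fun m => ArithmeticFunction.liouville m = s),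
    (m.divisors.card : ℝ)

/-- THEOREM P: every `[x, x + c √x]`, `x ≥ x0(c)`, contains at least `√x/(log x)^17` integers with `λ = 1` and as many with
`λ = -1`. -/
def ThmL : Prop := ∀ c : ℝ, 0 < c → ∃ x0 : ℝ, ∀ x : ℝ, x0 ≤ x → ∀ s : ℤ, s = 1 ∨ s = -1 →
  Real.sqrt x / Real.log x ^ 17 ≤
    (((Icc ⌈x⌉₊ ⌊x + c * Real.sqrt x⌋₊).filter (fun m => ArithmeticFunction.liouville m = s)).card : ℝ)

/-- ITEM EndD (conclusion of the local argument; `MRweak` is block MR).  Uses MRweak, StLCuD.  `lam` is `Sgn` (Mathlib: `liouville_apply_mul`,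
`liouville_apply`).  WLOG `c ≤ 1` (a smaller `c` gives a smaller sum).  Let `h0`, `X0` be as in MRweak, `ε = 1/(8 h0)`, `K, n0, δ` from StLCuD, and let `n = √x` be so
large that `n ≥ n0`, `K n ≥ max X0 (8 h0² + 8)`.  For `s = ±1` put `F = -s`: on positive `m`, `lam m ≠ F` iff `lam m = s`, so the sum in ThmW is
`Dv lam F n c`.  If it were `< δ n` then with `X` of StLCuD: an `x' ∈ [X, 2X)` for which `lam` is not constant on `[x', x' + h0)` has some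
`m ∈ [x', x' + h0 - 1)` with `lam m ≠ lam(m+1)`, `m < 2X + h0 ≤ 3X`; each such `m` serves at most `h0` values of `x'`; so there are at most `h0 ε X = X/8` such
`x'`, and more than `X/2` of the `x' ∈ [X, 2X)` have `lam` constant on `[x', x' + h0)`, against MRweak. -/
def StEndD : Prop := MRweak → ThmW

/-- ITEM Lan (a small divisor with many divisors).  For `m ≥ 1` there is `d ∣ m`, `d² ≤ m`, with `τ(m) ≤ 2 τ(d)²`.  Write `m = q_1 ⋯ q_k` (primes in any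
order), `d1 = q_1 ⋯ q_i` the longest initial product with `d1² ≤ m`; if `i = k` then `d1 = m`, so `m ≤ 1`... `m = 1`, trivial.  Else `p = q_{i+1}`,
`d2 = m/(d1 p)`: `(d1 p)² > m` gives `d2² < m`.  `τ(m) ≤ τ(d1) τ(p) τ(d2) = 2 τ(d1) τ(d2) ≤ 2 max(τ(d1), τ(d2))²` (`τ(ab) ≤ τ(a)τ(b)`).  By induction: it is
enough to find `d1 ∣ m` maximal (in size) with `d1² ≤ m` and a prime `p ∣ m/d1`; then `(d1 p)² > m` by maximality. -/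
def StLan : Prop := ∀ m : ℕ, 1 ≤ m → ∃ d : ℕ, d ∣ m ∧ d ^ 2 ≤ m ∧ m.divisors.card ≤ 2 * d.divisors.card ^ 2

/-- ITEM St4 (fourth moment of the divisor function).  `∑_{d ≤ N} τ(d)^k/d ≤ (1 + log N)^(2^k)`: induction on `k`;
`∑_{d ≤ N} τ(d)^(k+1)/d = ∑_{ab ≤ N} τ(ab)^k/(ab) ≤ (∑_{a ≤ N} τ(a)^k/a)²` by `τ(ab) ≤ τ(a)τ(b)`; `k = 0` is `∑ 1/d ≤ 1 + log N`.  Here `k = 4`, and
`∑_{d ≤ N} τ(d)^4 ≤ N ∑ τ(d)^4/d`. -/
def StSt4 : Prop := ∀ N : ℕ, 1 ≤ N → ∑ d ∈ Icc 1 N, (d.divisors.card : ℝ) ^ 4 / d ≤ (1 + Real.log N) ^ 16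

/-- ITEM CnL (from weights to numbers).  Uses StLan, StSt4, StCap.  Let `I = [x, x + c√x]`, `c ≤ 1` WLOG, `N = ⌊√(2x)⌋`, `x` large.  By StLan
`τ(m)² ≤ 4 τ(d)^4` for some `d ∣ m`, `d ≤ √m ≤ √(2x)`, so `∑_{m ∈ I} τ(m)² ≤ 4 ∑_{d ≤ N} τ(d)^4 #{m ∈ I : d ∣ m} ≤ 4 ∑_{d ≤ N} τ(d)^4 (√x/d + 1) ≤ 4 (√x + N)(1 + log N)^16 ≤
12 √x (1 + log N)^16`.  Cauchy-Schwarz: `(δ√x)² ≤ (∑_{m ∈ set} τ(m))² ≤ #set · 12 √x (1 + log N)^16`, so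
`#set ≥ δ² √x/(12 (1 + log N)^16) ≥ √x/(log x)^17` for `x` large (`1 + log N ≤ log x`). -/
def StCnL : Prop := ThmW → ThmL

end Pool.Agent.Work.MP_a8fbd7_nt.PAR.LC
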