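import Pool.Agent.Work.MP_a8fbd7_nt.PAR.LC.Stmts3

set_option autoImplicit false

/-!
MP_a8fbd7_nt, block LC, part N (helper73): the divisor weight of part D is replaced by the number of divisors between
`n/A` and `A n`.  This improves the count of the integers of each sign in `[x, x + c √x]` from `√x/(log x)^17` to
`δ √x/(log x)^2`.  The items AtN, BlN, LCN, LUN, EnN are copies of the landed files Atc, BlkD, LCD, LCuD, EndD with small changes.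
-/

open Finset

noncomputable section

namespace Pool.Agent.Work.MP_a8fbd7_nt.PAR.LC

/-- Near weight: the number of the divisors of `m` in `[n/A, A n]`. -/
def nw (A n : ℝ) (m : ℕ) : ℝ := ((m.divisors.filter (fun a : ℕ => n / A ≤ (a : ℝ) ∧ (a : ℝ) ≤ A * n)).card : ℝ)

/-- The near weight of the exceptions. -/
def Dw (A : ℝ) (f : ℕ → ℤ) (F : ℤ) (n c : ℝ) : ℝ := ∑ m ∈ Ex f F n c, nw A n m

/-- The number of the divisors of `a` in `[2^k, 2^(k+1))`. -/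
def tk (k a : ℕ) : ℝ := ((a.divisors.filter (fun g : ℕ => 2 ^ k ≤ g ∧ g < 2 ^ (k + 1))).card : ℝ)

open Classical in
/-- ITEM AtN (count of the attached `g` of one block; copy of `I_Atc.lean`).  Let `r n ≤ g ≤ (21/20) r n`, `g` attached to `m`.  Type 1: `g = q a`, `a ∣ m`,
`a = g/q`, `n/A ≤ rn/q` (`q ≤ 2qt ≤ A r`) and `(21/20) r n/q ≤ A n` (`3 r ≤ A`, because `z ≥ 1`): at most `nw A n m` of them.  Type 2: `g + j = t a`, `a ∣ m`: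
`a ≥ rn/t ≥ n/A`, `a ≤ ((21/20) r n + r n)/t ≤ 3 r n ≤ A n`: at most `nw A n m`.  Type 3: `W ∣ m`, `|g z/(qt) - W| ≤ 1`:
`W ≥ r n z/(qt) - 1 ≥ 2n/A - 1 ≥ n/A` (`2qt ≤ A r ≤ A r z`, `n ≥ A`), `W ≤ (21/20) r n z/(qt) + 1 ≤ (3 r z + 1) n ≤ A n`; for each such `W` at most `2qt/z + 1`
values of `g`.  Total `nw A n m (3 + 2qt/z)`. -/
def StAtN : Prop := ∀ (q t z j m : ℕ) (r A n : ℝ), 1 ≤ q → 1 ≤ t → 1 ≤ z → 1 ≤ m → 0 < r → 2 * q * t ≤ A * r → 3 * r * z + 1 ≤ A →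
  A ≤ n → (j : ℝ) ≤ r * n →
  (((Icc ⌈r * n⌉₊ ⌊21 / 20 * r * n⌋₊).filter (fun g => Att q t z j g m)).card : ℝ) ≤ nw A n m * (3 + 2 * (q * t) / z)

/-- ITEM BlN (one block; copy of `I_BlkD.lean`).  Uses StSM, StEQ, StLkD, StAtN.  Exactly the proof of StBlkD; `A` = a number `≥ 1` with `2qt ≤ A r` and
`3 r z + 1 ≤ A` for all `(q,t,z,ρ)` of the finitely many finite sets `S_k`, `k < B` (for instance `1 +` the sum of all `2qt/r + 3rz + 1`), `n0` enlarged so that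
`n0 ≥ A` and `J ≤ r n0`.  The `g` of the block attached to some `m ∈ Ex` are at most `∑_{k < B} ∑_{s ∈ S_k} ∑_{m ∈ Ex} nw A n m (3 + 2/e0) = C·Dw A ≤ C δ n`. -/
def StBlN : Prop := ∀ (c r κ : ℝ) (J : ℕ), 0 < c → c ≤ 1 → 8 / c ^ 2 ≤ J → 200 * J / c ≤ r → 0 < κ →
  ∃ (B : ℕ) (jj : ℕ → ℕ) (n0 δ A : ℝ), 1 ≤ B ∧ (B : ℝ) ≤ 300 * r / c ∧ (∀ k, 1 ≤ jj k ∧ jj k ≤ J) ∧ 0 < δ ∧ 1 ≤ A ∧
  ∀ (n : ℝ) (f : ℕ → ℤ) (F : ℤ), n0 ≤ n → Sgn f → Dw A f F n c ≤ δ * n →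
  (((Icc ⌈r * n⌉₊ ⌊21 / 20 * r * n⌋₊).filter (fun g => f g ≠ f (g + jj (cno (n ^ 2) B g)))).card : ℝ) ≤ κ * r * n

/-- ITEM LCN (local constancy in one block; copy of `I_LCD.lean`).  Uses StBlN, StChn. -/
def StLCN : Prop := ∀ c ε : ℝ, 0 < c → c ≤ 1 → 0 < ε → ∃ (Λ : ℕ) (r0 : ℝ), 1 ≤ Λ ∧ 1 ≤ r0 ∧ ∀ r : ℝ, r0 ≤ r →
  ∃ n0 δ A : ℝ, 0 < δ ∧ 1 ≤ A ∧ ∀ (n : ℝ) (f : ℕ → ℤ) (F : ℤ), n0 ≤ n → Sgn f → Dw A f F n c ≤ δ * n →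
  (((range (⌊21 / 20 * r * n⌋₊ + 1)).filter (fun m : ℕ => r * n ≤ (Λ : ℝ) * m ∧
      (Λ : ℝ) * (m + 1) ≤ 21 / 20 * r * n ∧ f m ≠ f (m + 1))).card : ℝ) ≤ ε * r * n / Λ

/-- ITEM LUN (union of blocks; copy of `I_LCuD.lean`).  Uses StLCN.  The `A` of the union is the maximum (or the sum) of those of the 25 blocks; `nw A n m` and so
`Dw A f F n c` increase with `A` (`A ≥ 1`, `n ≥ 0`). -/
def StLUN : Prop := ∀ c ε : ℝ, 0 < c → c ≤ 1 → 0 < ε → ∃ K n0 δ A : ℝ, 0 < K ∧ 0 < δ ∧ 1 ≤ A ∧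
  ∀ (n : ℝ) (f : ℕ → ℤ) (F : ℤ), n0 ≤ n → Sgn f → Dw A f F n c ≤ δ * n → ∃ X : ℕ, K * n ≤ X ∧
  (((Ico X (3 * X)).filter (fun m => f m ≠ f (m + 1))).card : ℝ) ≤ ε * X

/-- Weighted form: both signs of the Liouville function have near weight `≥ δ √x` in `[x, x + c √x]`. -/
def ThmN : Prop := ∀ c : ℝ, 0 < c → ∃ A δ x0 : ℝ, 1 ≤ A ∧ 0 < δ ∧ ∀ x : ℝ, x0 ≤ x → ∀ s : ℤ, s = 1 ∨ s = -1 →
  δ * Real.sqrt x ≤ ∑ m ∈ (Icc ⌈x⌉₊ ⌊x + c * Real.sqrt x⌋₊).filter (fun m => ArithmeticFunction.liouville m = s),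
    nw A (Real.sqrt x) m

/-- THEOREM P, better count: every `[x, x + c √x]`, `x ≥ x0(c)`, contains at least `δ(c) √x/(log x)^2` integers with `λ = 1` and as
many with `λ = -1`. -/
def ThmQ : Prop := ∀ c : ℝ, 0 < c → ∃ δ x0 : ℝ, 0 < δ ∧ ∀ x : ℝ, x0 ≤ x → ∀ s : ℤ, s = 1 ∨ s = -1 →
  δ * Real.sqrt x / Real.log x ^ 2 ≤
    (((Icc ⌈x⌉₊ ⌊x + c * Real.sqrt x⌋₊).filter (fun m => ArithmeticFunction.liouville m = s)).card : ℝ)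

/-- ITEM EnN (end of the local argument; copy of `I_EndD.lean`).  Uses MRweak, StLUN. -/
def StEnN : Prop := MRweak → ThmN

/-- ITEM TkS (MEDIUM; divisors in dyadic intervals).  Uses StHar.  For each `k`: `∑_{a ≤ N} tk(k,a)² = ∑_{g, g'} #{a ≤ N : g ∣ a, g' ∣ a} ≤ ∑_{g,g'} N/lcm(g,g') =
N ∑_{g,g'} gcd(g,g')/(g g')`, `g, g' ∈ [2^k, 2^(k+1))`; `gcd(g,g') ≤ ∑_{d ∣ g, d ∣ g'} d`, so this is
`≤ N ∑_{d < 2^(k+1)} d (∑_{g ∈ [2^k, 2^(k+1)), d ∣ g} 1/g)² = N ∑_{d < 2^(k+1)} (1/d) (∑_{h ∈ [2^k/d, 2^(k+1)/d)} 1/h)² ≤ 4 N (1 + log 2^(k+1))` by StHar (ii) with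
`l = 2` and StHar (i).  For `2^k ≤ N`: `1 + log 2^(k+1) ≤ 1 + log 2 + log N ≤ 2 (1 + log N)`, and there are `Nat.log 2 N + 1 ≤ 1 + log N/log 2 ≤ 2 (1 + log N)` values of
`k`.  Total `≤ 16 N (1 + log N)²`. -/
def StTkS : Prop := ∀ N : ℕ, 1 ≤ N → ∑ a ∈ Icc 1 N, ∑ k ∈ range (Nat.log 2 N + 1), tk k a ^ 2 ≤ 16 * N * (1 + Real.log N) ^ 2

/-- ITEM CtR (MEDIUM; second moment of the near weight).  Uses StTkS, StCap.  `I` = the interval, `N = ⌊2 A n⌋`, `n ≥ A`, `n ≥ 1`.  `∑_{m ∈ I} nw² = #T`, `T` = the triples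
`(m, a, a')`, `m ∈ I`, `a, a' ∣ m`, both in `[n/A, A n]`.  For such a triple let `b = m/a ∈ [n/A, 2 A n]`, `g = gcd(a,a')`; `a'/g` divides `(a/g) b` and is prime to
`a/g`, so it divides `b`: `e = b g/a'` is a divisor of `b`, and `a' = g b/e`, so `(a, b, g, e)` determines the triple; `g ∣ a`, `e ∣ b`,
`e/g = b/a' ∈ [1/A², 2A²]`.  Let `L` be a natural number with `4 A² ≤ 2^L`.  If `g ∈ [2^k, 2^(k+1))` and `e ∈ [2^l, 2^(l+1))` then `|k - l| ≤ L`, and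
`k, l ≤ Nat.log 2 N` (`g ≤ a ≤ N`, `e ≤ b ≤ N`).  So `#T ≤ ∑_{(a,b)} ∑_k ∑_{l : |k-l| ≤ L} tk(k,a) tk(l,b) ≤ (2L+1)/2 ∑_{(a,b)} (Q(a) + Q(b))` with
`Q(a) = ∑_{k ≤ log₂ N} tk(k,a)²` (`xy ≤ (x²+y²)/2`), the pairs `(a,b)` with `ab ∈ I`, `a, b ∈ [n/A, N]`.  For `a ≥ n/A` the `b` with `ab ∈ I` lie in an interval of
length `cn/a ≤ A`: at most `A + 1` of them; the same for `a` given `b`.  So `#T ≤ (2L+1)(A+1) ∑_{a ≤ N} Q(a) ≤ (2L+1)(A+1) · 16 N (1 + log N)²` (StTkS), `N ≤ 2 A n`,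
`1 + log N ≤ (1 + log(2A)) (1 + log n)`. -/
def StCtR : Prop := ∀ A : ℝ, 1 ≤ A → ∃ C n1 : ℝ, 0 < C ∧ 1 ≤ n1 ∧ ∀ n c : ℝ, n1 ≤ n → 0 < c → c ≤ 1 →
  ∑ m ∈ Icc ⌈n ^ 2⌉₊ ⌊n ^ 2 + c * n⌋₊, nw A n m ^ 2 ≤ C * n * (1 + Real.log n) ^ 2

/-- ITEM CnN (EASY-MEDIUM; from weights to numbers; compare `I_CnL.lean`).  Uses StCtR.  WLOG `c ≤ 1` (for `c > 1` use the result for `1`: the interval is larger).
`n = √x`, `x = n²`.  Cauchy-Schwarz: `(δ n)² ≤ (∑_{set} nw)² ≤ #set · ∑_I nw² ≤ #set · C n (1 + log n)²`, and `1 + log n = 1 + (log x)/2 ≤ log x` for `x ≥ e²`.  So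
`#set ≥ (δ²/C) √x/(log x)²`. -/
def StCnN : Prop := ThmN → ThmQ

end Pool.Agent.Work.MP_a8fbd7_nt.PAR.LC
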