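import Pool.Agent.Work.MP_a8fbd7_nt.PAR.LC.Stmts4

set_option autoImplicit false

/-!
MP_a8fbd7_nt, block LC, part R (helper36): a better count.  From `ThmN` (near weight, `LC_allN`) to: every `[x, x + c √x]` contains at least
`√x/(log x)^(3/4)` integers of each sign of the Liouville function.  Only integers `a`, `m/a` with at most `(21/20) log log n` prime factors are used,
and their second moment is bounded with the weight `2^(-Ω)`.  Items: theorem `prf` in namespace `...PAR.LC.I_NAME`, file `PAR/LC/I_NAME.lean` (import this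
file); the statements named in the line of uses are hypotheses.
-/

open Finset

noncomputable section

namespace Pool.Agent.Work.MP_a8fbd7_nt.PAR.LC

/-- `y^Ω(a)`, completely multiplicative -/
def yo (y : ℝ) (a : ℕ) : ℝ := y ^ ArithmeticFunction.cardFactors a

/-- sum of the squares of the dyadic divisor counts -/
def Qt (N a : ℕ) : ℝ := ∑ k ∈ range (Nat.log 2 N + 1), tk k a ^ 2

/-- The number of the divisors `a` of `m` in `[n/A, A n]` with `Ω(a) ≤ T` and `Ω(m/a) ≤ T`. -/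
def nwr (A n T : ℝ) (m : ℕ) : ℝ :=
  ((m.divisors.filter (fun a : ℕ => n / A ≤ (a : ℝ) ∧ (a : ℝ) ≤ A * n ∧
    (ArithmeticFunction.cardFactors a : ℝ) ≤ T ∧ (ArithmeticFunction.cardFactors (m / a) : ℝ) ≤ T)).card : ℝ)

/-- ITEM HTa (EASY-MEDIUM; Chebyshev).  `yo y d ≤ yo (21/20) d` and `Λ ≥ 0`, so let `y = 21/20`.  If `Λ(d) ≠ 0` then `d = p^k` is a prime power, `Ω(d) = k`.
Primes (`k = 1`): `≤ (21/20) θ(M) ≤ (21/20) log 4 · M` (Mathlib `Chebyshev.theta_le_log4_mul_x`).  `k ≥ 2`: `(21/20)^k ≤ 2^(k/10) ≤ d^(1/10) ≤ M^(1/10)`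
(`(21/20)^10 < 2`, `2^k ≤ d`), so this part is at most `M^(1/10) (ψ(M) - θ(M)) ≤ M^(1/10) · 2 √M log M ≤ C M` (Mathlib `Chebyshev.psi_sub_theta_eq_sum_not_prime`,
`Chebyshev.psi_sub_theta_le`). -/
def StHTa : Prop := ∃ C : ℝ, 1 ≤ C ∧ ∀ (y : ℝ) (M : ℕ), 0 < y → y ≤ 21 / 20 →
  ∑ d ∈ Icc 1 M, ArithmeticFunction.vonMangoldt d * yo y d ≤ C * M

/-- ITEM HTb (EASY-MEDIUM; Euler product).  `f(b) = y^Ω(b)/b` is completely multiplicative (`f(0) = 0`), `f(p) = y/p ≤ 21/40`.  All `b ≤ N` are in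
`Nat.smoothNumbers (N+1)`, so by Mathlib `EulerProduct.summable_and_hasSum_smoothNumbers_prod_primesBelow_geometric` the sum is at most
`∏_{p ≤ N} (1 - y/p)⁻¹`.  `-log(1-u) ≤ u + 2u²` for `0 ≤ u ≤ 21/40`, so this is `≤ exp(y S1(N) + 3 ∑_{p ≤ N} 1/p²) ≤ exp(y S1(N) + 3)`, and
`exp(S1 N) ≤ C log N` for `N ≥ 2` (`Pool.Agent.Work.MP_56b8f5_nt.WM.wm_Mert` or `I_Mert.Mert_pf : S_Mert`, `S1 N = ∑_{p ≤ N} 1/p`): total `≤ e³ C^y (log N)^y ≤ e³ C² (1 + log N)^y`.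
`N = 1`: the sum is `1`. -/
def StHTb : Prop := ∃ C : ℝ, 1 ≤ C ∧ ∀ (y : ℝ) (N : ℕ), 0 < y → y ≤ 21 / 20 → 1 ≤ N →
  ∑ b ∈ Icc 1 N, yo y b / b ≤ C * (1 + Real.log N) ^ y

/-- ITEM HT (EASY-MEDIUM; mean value, Hall-Tenenbaum).  Uses StHTa, StHTb.  `f = yo y`.  `log N ∑ f(a) = ∑ f(a) log a + ∑ f(a) log(N/a)`.  First sum:
`f(a) log a = ∑_{d b = a} Λ(d) f(d) f(b)` (Mathlib `ArithmeticFunction.vonMangoldt_sum`, `f` completely multiplicative), so it is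
`∑_{b ≤ N} f(b) ∑_{d ≤ N/b} Λ(d) f(d) ≤ C N ∑_{b ≤ N} f(b)/b`.  Second sum: `log(N/a) ≤ N/a`, so it is `≤ N ∑ f(a)/a`.  Also `∑ f(a) ≤ N ∑ f(a)/a`.  Adding:
`(1 + log N) ∑ f(a) ≤ (C + 2) N ∑_{b ≤ N} f(b)/b ≤ (C + 2) C' N (1 + log N)^y`; divide by `1 + log N`. -/
def StHT : Prop := ∃ C : ℝ, 1 ≤ C ∧ ∀ (y : ℝ) (N : ℕ), 0 < y → y ≤ 21 / 20 → 1 ≤ N →
  ∑ a ∈ Icc 1 N, yo y a ≤ C * N * (1 + Real.log N) ^ (y - 1)

/-- ITEM Tl (EASY-MEDIUM; few integers with many prime factors).  Uses StHT with `y = 21/20`.  `N = ⌊2 A n⌋`, `n` large.  Each counted `a` has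
`yo y a ≥ y^((21/20) log log n) = (log n)^((21/20) log(21/20))`, so the number is at most `(log n)^(-(21/20) log(21/20)) C N (1 + log N)^(1/20)`.
`log(21/20) ≥ 1/20 - 1/800 = 39/800`, `(21/20)(39/800) = 819/16000 > 1/20 = 800/16000`; `1 + log N ≤ 1 + log(2A) + log n ≤ 2 log n` for `n` large, `N ≤ 2 A n`.
So the number is `≤ 4 A C n (log n)^(-19/16000) ≤ κ n` for `n` large. -/
def StTl : Prop := ∀ A κ : ℝ, 1 ≤ A → 0 < κ → ∃ n0 : ℝ, ∀ n : ℝ, n0 ≤ n →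
  (((Icc 1 ⌊2 * A * n⌋₊).filter (fun a => 21 / 20 * Real.log (Real.log n) < (ArithmeticFunction.cardFactors a : ℝ))).card : ℝ) ≤ κ * n

/-- ITEM D2 (MEDIUM; reduction).  `Qt N a` is at most the number of the pairs `(g, g')` of divisors of `a` with `Nat.log 2 g = Nat.log 2 g'` (for `a ≤ N` it is equal).
Put `d = gcd(g,g')`, `h = g/d`, `h' = g'/d` (coprime): `lcm(g,g') = d h h' ∣ a`, `a = h h' d e`, and `yo(a) = yo(h) yo(h') yo(d e)` (`yo = yo (1/2)`).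
The map `(a, g, g') ↦ (h, h', d, e)` is injective; `h < 2h'`, `h' < 2h`, `h, h' ≤ N`, `d e ≤ N/(h h')`.  For fixed `h, h'` the sum over `(d,e)` is
`∑_{b ≤ N/(hh')} τ(b) yo(b) ≤ ∑_{b ≤ N/(hh')} 1 ≤ N/(h h')` because `τ(b) ≤ 2^Ω(b)` (multiplicativity, or induction over the prime factors:
`τ(p b) ≤ 2 τ(b)`). -/
def StD2 : Prop := ∀ N : ℕ, 1 ≤ N → ∑ a ∈ Icc 1 N, yo (1 / 2) a * Qt N a ≤
  N * ∑ h ∈ Icc 1 N, ∑ h' ∈ (Icc 1 N).filter (fun h' => h < 2 * h' ∧ h' < 2 * h), yo (1 / 2) h * yo (1 / 2) h' / ((h : ℝ) * h')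

/-- ITEM D3 (EASY-MEDIUM; the double sum).  Uses StHT with `y = 1/2`.  `U(j) = ∑_{h ∈ [2^j, 2^(j+1))} yo(h)/h ≤ 2^(-j) ∑_{h ≤ 2^(j+1)} yo(h) ≤
2 C (1 + (j+1) log 2)^(-1/2) ≤ 3 C (j+1)^(-1/2)`.  If `Nat.log 2 h = j` and `h < 2h'`, `h' < 2h` then `Nat.log 2 h' ∈ {j-1, j, j+1}`.  So the double sum is at most
`∑ U(j) U(j')` over `j, j' ≤ Nat.log 2 N` with `|j - j'| ≤ 1`, `U(j)U(j') ≤ (U(j)² + U(j')²)/2`, total `≤ 3 ∑_{j ≤ log₂ N} U(j)² ≤ 27 C² ∑_{j ≤ log₂ N} 1/(j+1) ≤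
27 C² (1 + log(1 + Nat.log 2 N))`, and `Nat.log 2 N ≤ 2 log N`, so `1 + log(1 + 2 log N) ≤ 2 (1 + log(1 + log N))`. -/
def StD3 : Prop := ∃ C : ℝ, 1 ≤ C ∧ ∀ N : ℕ, 1 ≤ N →
  ∑ h ∈ Icc 1 N, ∑ h' ∈ (Icc 1 N).filter (fun h' => h < 2 * h' ∧ h' < 2 * h), yo (1 / 2) h * yo (1 / 2) h' / ((h : ℝ) * h') ≤
    C * (1 + Real.log (1 + Real.log N))

/-- ITEM PrA (MEDIUM; copy of `I_CtR.lean`, author helper57).  Uses StCap.  `I` = the interval, `N = ⌊2 A n⌋`, `n ≥ A`, `n ≥ 1`.  `∑_{m ∈ I} nwr² = #T`, `T` = the triples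
`(m, a, a')`, `m ∈ I`, `a, a' ∣ m`, both in `[n/A, A n]`, with `Ω(a), Ω(m/a), Ω(a'), Ω(m/a') ≤ T`.  With `b = m/a`, `g = gcd(a,a')`, `e = b g/a'` as in StCtR the triple is determined
by `(a, b, g, e)`, `g ∣ a`, `e ∣ b`, `|log₂ g - log₂ e| ≤ L` (`4A² ≤ 2^L`), and now `Ω(a) ≤ T`, `Ω(b) ≤ T`.  So `#T ≤ (2L+1)/2 ∑_{(a,b)} (Qt N a + Qt N b)`, the pairs with `ab ∈ I`,
`a, b ∈ [n/A, N]`, `Ω(a), Ω(b) ≤ T`; for `a ≥ n/A` at most `A + 1` values of `b`, and conversely.  So `#T ≤ (2L+1)(A+1) ∑_{a ≤ N, Ω(a) ≤ T} Qt N a`. -/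
def StPrA : Prop := ∀ A : ℝ, 1 ≤ A → ∃ C n1 : ℝ, 0 < C ∧ 1 ≤ n1 ∧ ∀ n c T : ℝ, n1 ≤ n → 0 < c → c ≤ 1 →
  ∑ m ∈ Icc ⌈n ^ 2⌉₊ ⌊n ^ 2 + c * n⌋₊, nwr A n T m ^ 2 ≤
    C * ∑ a ∈ (Icc 1 ⌊2 * A * n⌋₊).filter (fun a => (ArithmeticFunction.cardFactors a : ℝ) ≤ T), Qt ⌊2 * A * n⌋₊ a

/-- ITEM PrB (EASY-MEDIUM; the divisors left out).  Uses StCap.  `I` = the interval, `N = ⌊2 A n⌋`, `n ≥ A`, `n ≥ 1`.  The left side is the number of the pairs `(m, a)`, `m ∈ I`, `a ∣ m`,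
`a ∈ [n/A, A n]`, with `Ω(a) > T` or `Ω(m/a) > T`.  Here `a` and `b = m/a` both lie in `[n/A, N]` (`b ≥ n²/(A n)`, `b ≤ (n² + n) A/n ≤ 2 A n`).  For given `a ≥ n/A` the interval
(length `≤ n`) contains at most `n/a + 1 ≤ A + 1` multiples of `a`; so at most `(A+1) #{a ≤ N : Ω(a) > T}` pairs of the first kind, and the same for `b`.  (Lemma
`count` of `I_CtR.lean`.) -/
def StPrB : Prop := ∀ A : ℝ, 1 ≤ A → ∃ C n1 : ℝ, 0 < C ∧ 1 ≤ n1 ∧ ∀ n c T : ℝ, n1 ≤ n → 0 < c → c ≤ 1 →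
  ∑ m ∈ Icc ⌈n ^ 2⌉₊ ⌊n ^ 2 + c * n⌋₊, (nw A n m - nwr A n T m) ≤
    C * (((Icc 1 ⌊2 * A * n⌋₊).filter (fun a => T < (ArithmeticFunction.cardFactors a : ℝ))).card : ℝ)

/-- THEOREM P, better count: every `[x, x + c √x]`, `x ≥ x0(c)`, contains at least `√x/(log x)^(3/4)` integers with `λ = 1` and as many with `λ = -1`. -/
def ThmR : Prop := ∀ c : ℝ, 0 < c → ∃ x0 : ℝ, ∀ x : ℝ, x0 ≤ x → ∀ s : ℤ, s = 1 ∨ s = -1 →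
  Real.sqrt x / Real.log x ^ (3 / 4 : ℝ) ≤
    (((Icc ⌈x⌉₊ ⌊x + c * Real.sqrt x⌋₊).filter (fun m => ArithmeticFunction.liouville m = s)).card : ℝ)

/-- ITEM CnR (EASY-MEDIUM; compare `I_CnN.lean`).  Uses ThmN, StTl, StD2, StD3, StPrA, StPrB.  WLOG `c ≤ 1` (for `c > 1` use the result for `1`).  `n = √x`, `x = n²`, `N = ⌊2 A n⌋`,
`T = (21/20) log log n`.  `δ n ≤ ∑_{set} nw ≤ ∑_{set} nwr + C_B #{a ≤ N : Ω(a) > T} ≤ ∑_{set} nwr + δ n/2` for `n` large (StTl with `κ = δ/(2 C_B)`; the terms `nw - nwr ≥ 0`).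
Cauchy-Schwarz: `(δ n/2)² ≤ #set · ∑_I nwr² ≤ #set · C_A ∑_{a ≤ N, Ω(a) ≤ T} Qt N a`.  For `Ω(a) ≤ T`: `1 ≤ 2^T yo (1/2) a`, so by StD2, StD3
`∑ Qt N a ≤ 2^T ∑ yo (1/2) a Qt N a ≤ 2^T C N (1 + log(1 + log N))`.  `2^T = (log n)^((21/20) log 2)`, `(21/20) log 2 ≤ (21/20)(0.6931472) < 0.73 < 3/4`, `N ≤ 2 A n`,
`1 + log(1 + log N) ≤ (log n)^(1/100)` for `n` large.  So `#set ≥ δ² n/(8 A C C_A (log n)^0.74) ≥ n/(log n)^(3/4) ≥ √x/(log x)^(3/4)` for `x` large. -/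
def StCnR : Prop := ThmN → ThmR

/-- The theorem in the intervals of Oppermann. -/
def OppR : Prop := ∀ c : ℝ, 0 < c → ∃ n0 : ℕ, ∀ n a b : ℕ, n0 ≤ n → n ^ 2 - n ≤ a → b ≤ n ^ 2 + n → (a : ℝ) + c * n ≤ b →
  (n : ℝ) / Real.log n ^ (4 / 5 : ℝ) ≤ (((Icc a b).filter fun m => Even (ArithmeticFunction.cardFactors m)).card : ℝ) ∧
  (n : ℝ) / Real.log n ^ (4 / 5 : ℝ) ≤ (((Icc a b).filter fun m => Odd (ArithmeticFunction.cardFactors m)).card : ℝ)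

/-- ITEM OpR (EASY; copy of `PAR/Opp.lean`).  `√a ≥ n/2`, `log a ≤ 3 log n`, so `√a/(log a)^(3/4) ≥ (n/2)/(3 (log n)^(3/4)) ≥ n/(log n)^(4/5)` once
`6 ≤ (log n)^(1/20)`. -/
def StOpR : Prop := ThmR → OppR

end Pool.Agent.Work.MP_a8fbd7_nt.PAR.LC
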